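import Pool.Agent.Lib.MP_1f047c_nt.ThCov

/-! Few logarithms of small height lie in a space of bounded dimension. -/

namespace Pool.Agent.Lib.MP_8f9d9d_nt.H56

open Finset Submodule Filter Module Complex Height
open Pool.Agent.Lib.MP_1f047c_nt Th

lemma auer {V : Type} [AddCommGroup V] [Module ℚ V] (X Θ : Finset V)
    (h : ∀ z ∈ X, z ∈ span ℚ (Θ : Set V)) : ∃ (κ : Type) (_ : Fintype κ) (x : κ → V),
      Fintype.card κ ≤ Θ.card ∧ (∀ i, x i ∈ X) ∧
        ∀ z ∈ X, ∃ t : κ → ℚ, (∀ i, |t i| ≤ 1) ∧ z = ∑ i, t i • x i := by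
  classical
  obtain ⟨κ, a, ha, hsp, hli⟩ := exists_linearIndependent' ℚ (Subtype.val : X → V)
  have : Fintype κ := Fintype.ofInjective a ha
  choose c hc using fun z : X =>
    (mem_span_range_iff_exists_fun ℚ).1 (hsp.ge (subset_span ⟨z, rfl⟩))
  let A : (κ → X) → Matrix κ κ ℚ := fun g => .of fun k i => c (g i) k
  have h1 : A a = 1 := by
    ext k i
    have := Fintype.linearIndependent_iff.1 hli (c (a i) - Pi.single i 1)
      (by simp only [Pi.sub_apply, sub_smul, sum_sub_distrib, hc]; simp [Pi.single_apply]) k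
    simpa [A, Matrix.one_apply, Pi.single_apply, sub_eq_zero] using this
  obtain ⟨g, -, hg⟩ := exists_max_image univ (fun g => |(A g).det|) ⟨a, mem_univ _⟩
  have h2 : 0 < |(A g).det| := lt_of_lt_of_le (by simp [h1]) (hg a (mem_univ _))
  refine ⟨κ, this, fun i => g i, ?_, fun i => (g i).2, fun z hz =>
    ⟨fun i => (A g).cramer (c ⟨z, hz⟩) i / (A g).det, fun i => ?_, ?_⟩⟩
  · simpa using linearIndependent_le_span_aux' _ hli (Θ : Set V)
      (by rintro _ ⟨k, rfl⟩; exact h _ (a k).2)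
  · rw [abs_div, div_le_one h2, Matrix.cramer_apply]
    refine le_of_eq_of_le (congrArg (fun B : Matrix κ κ ℚ => |B.det|) ?_)
      (hg (Function.update g i ⟨z, hz⟩) (mem_univ _))
    ext k j
    by_cases e : j = i <;> simp [A, e]
  · simp only [← hc (g _), smul_sum, smul_smul]
    rw [sum_comm]
    refine (hc ⟨z, hz⟩).symm.trans (sum_congr rfl fun k _ => ?_)
    have h3 := congrFun (Matrix.mulVec_cramer (A g) (c ⟨z, hz⟩)) k
    rw [Pi.smul_apply, smul_eq_mul, mul_comm, ← div_eq_iff (abs_pos.1 h2)] at h3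
    rw [← sum_smul, ← h3, Matrix.mulVec, dotProduct, sum_div]
    exact congrArg (· • _) (sum_congr rfl fun i _ => by simp only [A, Matrix.of_apply]; ring)

lemma north (D : ℕ) : {x : ℂ | Alg D 1 x}.Finite := by
  classical
  refine ((Set.finite_Icc 1 3).image2 (fun (n : ℕ) (y : ℂ) => y / n) (Polynomial.bUnion_roots_finite
    (algebraMap ℤ ℂ) D (Set.finite_Icc (-18 ^ D : ℤ) (18 ^ D)))).subset ?_
  rintro _ ⟨K, _, _, φ, α, h1, rfl, h2⟩
  obtain ⟨n, n0, h3, h4⟩ := NumberField.exists_nat_le_mulHeight₁ α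
  rw [logHeight₁_eq_log_mulHeight₁, Real.log_le_iff_le_exp (by positivity)] at h2
  have h5 : mulHeight₁ α ≤ 3 := by linarith [Real.exp_one_lt_d9]
  have h6 := minpoly.isIntegrallyClosed_eq_field_fractions' ℚ h4
  refine ⟨n, ⟨n0.bot_lt, by exact_mod_cast h3.trans h5⟩, φ (n * α), ?_, ?_⟩
  · simp only [Set.mem_iUnion]
    refine ⟨_, ⟨?_, fun i => ?_⟩, Polynomial.mem_rootSet.2 ⟨minpoly.ne_zero h4, ?_⟩⟩
    · rw [← (minpoly.monic h4).natDegree_map (algebraMap ℤ ℚ), ← h6]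
      exact (minpoly.natDegree_le _).trans h1
    · have h7 := NumberField.Embeddings.coeff_bdd_of_norm_le (A := ℂ) (B := 9) (x := n * α)
        (fun ψ => by
          rw [map_mul, map_natCast, norm_mul, norm_natCast]
          nlinarith [good_complex.liou K ψ α, norm_nonneg (ψ α)]) i
      rw [h6, Polynomial.coeff_map, eq_intCast, Int.norm_cast_rat, Int.norm_eq_abs,
        max_eq_left (by norm_num)] at h7
      have h8 : ((finrank ℚ K).choose (finrank ℚ K / 2) : ℝ) ≤ 2 ^ finrank ℚ K := by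
        exact_mod_cast Nat.choose_le_two_pow _ _
      rw [Set.mem_Icc, ← abs_le, ← @Int.cast_le ℝ]
      push_cast
      refine h7.trans ((mul_le_mul_of_nonneg_left h8 (by positivity)).trans ?_)
      rw [← mul_pow]
      exact (pow_le_pow_left₀ (by norm_num) (by norm_num) _).trans
        (pow_le_pow_right₀ (by norm_num) h1)
    · exact (Polynomial.aeval_algHom_apply φ.toIntAlgHom _ _).trans (by simp)
  · simp [n0]

lemma close {d R : ℕ} {b η : ℝ} {κ : Type} [Fintype κ] (hκ : Fintype.card κ ≤ R) {x : κ → ℂ}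
    (hx : ∀ i, Alg d b (exp (x i))) {z z' : ℂ} (hz : Alg d b (exp z)) (hz' : Alg d b (exp z'))
    {s : κ → ℚ} (hs : z - z' = ∑ i, s i • x i) (h0 : 0 ≤ η) (h1 : ∀ i, |(s i : ℝ)| ≤ η)
    (h2 : R * (η * (((d + 1) ^ (R + 2) : ℕ) * b)) ≤ 1) :
    Alg ((d + 1) ^ (R + 2)) 1 (exp (z - z')) := by
  have hb : 0 ≤ b := by
    obtain ⟨K, _, _, φ, α, -, -, h⟩ := hz
    exact (zero_le_logHeight₁ α).trans h
  obtain ⟨L, _, β, k1, k2⟩ := compositum (Sum.elim (fun i => exp (x i)) ![exp z, exp z'])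
    (Sum.rec hx (Fin.forall_fin_two.2 ⟨hz, hz'⟩))
  have k3 : d ^ Fintype.card (κ ⊕ Fin 2) ≤ (d + 1) ^ (R + 2) :=
    (Nat.pow_le_pow_left d.le_succ _).trans (Nat.pow_le_pow_right d.succ_pos (by simpa))
  have k4 : exp (z - z') = algebraMap L ℂ (β (.inr 0) / β (.inr 1)) := by
    rw [exp_sub, map_div₀]
    exact congrArg₂ _ (k2 (.inr 0)).1 (k2 (.inr 1)).1
  refine ⟨L, _, ‹_›, algebraMap L ℂ, _, k1.trans k3, k4, ?_⟩
  obtain ⟨⟨N, hN⟩, k5⟩ := IsLocalization.exist_integer_multiples_of_finite (nonZeroDivisors ℤ) s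
  choose n hn using k5
  simp only [eq_intCast, zsmul_eq_mul] at hn
  have k6 : (β (.inr 0) / β (.inr 1)) ^ N = ∏ i, β (.inl i) ^ n i := by
    refine (algebraMap L ℂ).injective ?_
    rw [map_zpow₀, ← k4, ← exp_int_mul, hs, mul_sum, exp_sum, map_prod]
    refine prod_congr rfl fun i _ => ?_
    rw [Rat.smul_def, ← mul_assoc, ← Rat.cast_intCast, ← Rat.cast_mul, ← hn, Rat.cast_intCast,
      exp_int_mul, map_zpow₀]
    exact congrArg (· ^ _) (k2 (.inl i)).1
  have k7 := logHeight₁_prod_le univ fun i => β (.inl i) ^ n i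
  have k8 : (0 : ℝ) < |(N : ℝ)| := abs_pos.2 (by exact_mod_cast nonZeroDivisors.ne_zero hN)
  rw [← k6, logHeight₁_zpow, Nat.cast_natAbs, Int.cast_abs] at k7
  refine le_of_mul_le_mul_left (k7.trans ((sum_le_card_nsmul _ _
    (|(N : ℝ)| * η * (((d + 1) ^ (R + 2) : ℕ) * b)) fun i _ => ?_).trans ?_)) k8
  · rw [logHeight₁_zpow, Nat.cast_natAbs, Int.cast_abs, ← Rat.cast_intCast, hn, Rat.cast_mul,
      abs_mul, Rat.cast_intCast]
    exact mul_le_mul (mul_le_mul_of_nonneg_left (h1 i) k8.le) ((k2 (.inl i)).2.trans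
      (mul_le_mul_of_nonneg_right (by exact_mod_cast k3) hb)) (by positivity) (by positivity)
  · rw [nsmul_eq_mul, mul_assoc, mul_left_comm]
    exact mul_le_mul_of_nonneg_left ((mul_le_mul_of_nonneg_right (by exact_mod_cast hκ)
      (by positivity)).trans h2) k8.le

theorem span_count (d R : ℕ) : ∃ c : ℕ, ∀ (M : ℕ) (b : ℝ), b ≤ M → ∀ Θ X : Finset ℂ,
    Θ.card ≤ R → (∀ z ∈ X, z ∈ span ℚ (Θ : Set ℂ) ∧ Alg d b (exp z) ∧ log (exp z) = z) →
    X.card ≤ c * (c * M + 3) ^ R := by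
  classical
  obtain ⟨D, hD⟩ : ∃ D, (d + 1) ^ (R + 2) = D := ⟨_, rfl⟩
  refine ⟨(north D).toFinset.card + 2 * (R * D), fun M b hb Θ X hΘ h => ?_⟩
  obtain ⟨κ, _, x, h1, h2, h3⟩ := auer X Θ fun z hz => (h z hz).1
  choose! t h3 h4 using h3
  obtain ⟨N, hN⟩ : ∃ N, R * D * M + 1 = N := ⟨_, rfl⟩
  have N0 : (0 : ℝ) < N := Nat.cast_pos.2 (by omega)
  have hη := inv_pos.2 N0
  refine (card_le_mul_card_image_of_maps_to (f := fun z i => ⌊(t z i : ℝ) / (N : ℝ)⁻¹⌋)
    (t := Fintype.piFinset fun _ => Icc (-(N : ℤ)) N) (fun z hz => Fintype.mem_piFinset.2 fun i =>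
      floor_mem hη (by rw [mul_inv_cancel₀ N0.ne']; exact_mod_cast h3 z hz i))
    (north D).toFinset.card fun u _ => ?_).trans (Nat.mul_le_mul (Nat.le_add_right _ _) ?_)
  · rcases (X.filter fun z => (fun i => ⌊(t z i : ℝ) / (N : ℝ)⁻¹⌋) = u).eq_empty_or_nonempty with
      e | ⟨z', hz'⟩
    · exact (card_eq_zero.2 e).trans_le (Nat.zero_le _)
    refine (card_le_card (t := (north D).toFinset.image fun f => log (f * exp z'))
      fun z hz => ?_).trans card_image_le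
    obtain ⟨k1, k2⟩ := mem_filter.1 hz
    obtain ⟨k3, k4⟩ := mem_filter.1 hz'
    refine mem_image.2 ⟨exp (z - z'), (north D).mem_toFinset.2 (hD ▸ close (h1.trans hΘ)
      (fun i => (h _ (h2 i)).2.1) (h z k1).2.1 (h z' k3).2.1 (s := t z - t z') ?_ hη.le
      (fun i => ?_) ?_), by rw [← exp_add, sub_add_cancel, (h z k1).2.2]⟩
    · simp only [Pi.sub_apply, sub_smul, sum_sub_distrib, ← h4 z k1, ← h4 z' k3]
    · rw [Pi.sub_apply, Rat.cast_sub]
      exact floor_close hη (congrFun (k2.trans k4.symm) i)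
    · rw [hD, mul_left_comm, inv_mul_le_one₀ N0, ← hN]
      push_cast
      nlinarith [mul_le_mul_of_nonneg_left hb (show (0 : ℝ) ≤ R * D by positivity)]
  · rw [Fintype.card_piFinset, prod_const, card_univ, Int.card_Icc]
    refine (Nat.pow_le_pow_left ?_ _).trans (Nat.pow_le_pow_right (by omega) (h1.trans hΘ))
    rw [add_mul, mul_assoc 2]
    omega

end Pool.Agent.Lib.MP_8f9d9d_nt.H56
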