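import Pool.Agent.Lib.MP_8f9d9d_nt.H53Phi3

namespace Pool.Agent.Lib.MP_8f9d9d_nt.H27

open scoped PowerSeries Polynomial

theorem descend {A k ι κ : Type*} [CommRing A] [IsDomain A] [IsPrincipalIdealRing A] [Field k]
    [Algebra A k] [FaithfulSMul A k] [Fintype ι] (v : ι → κ → A)
    (hv : ∀ c : ι → A, (∀ N, ∑ x, c x * v x N = 0) → ∀ x, c x = 0) (r : ι → k)
    (h : ∀ N, ∑ x, v x N • r x = 0) (x : ι) : r x = 0 := by
  let M := Submodule.span A (Set.range r)
  have : Module.Finite A M := Module.Finite.span_of_finite A (Set.finite_range r)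
  let b := Module.Free.chooseBasis A M
  let r' : ι → M := fun x => ⟨r x, Submodule.subset_span ⟨x, rfl⟩⟩
  have h' : ∀ N, ∑ x, v x N • r' x = 0 := fun N => Subtype.ext (by simpa [r'] using h N)
  have h0 : r' x = 0 := b.forall_coord_eq_zero_iff.1 fun i =>
    hv (fun x => b.coord i (r' x)) (fun N => by
      have := congrArg (b.coord i) (h' N)
      simpa [mul_comm] using this) x
  exact congrArg Subtype.val h0

theorem coeff_subst_mul {F k : Type*} [Field F] [Field k] [Algebra F k] (ζ : k) {a : ℕ}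
    (ha : 0 < a) (f g : F⟦X⟧) (N : ℕ) :
    PowerSeries.coeff N (f.subst (PowerSeries.C ζ * PowerSeries.X ^ a : k⟦X⟧) *
      g.map (algebraMap F k)) = Polynomial.aeval ζ (∑ n ∈ Finset.range (N + 1),
        Polynomial.monomial n
          (PowerSeries.coeff n f * PowerSeries.coeff N (PowerSeries.X ^ (a * n) * g))) := by
  have hs : PowerSeries.HasSubst (PowerSeries.C ζ * PowerSeries.X ^ a : k⟦X⟧) :=
    PowerSeries.HasSubst.of_constantCoeff_zero' (by simp [ha.ne'])
  have e : ∀ x, x ≤ N → PowerSeries.coeff x (f.subst (PowerSeries.C ζ * PowerSeries.X ^ a : k⟦X⟧))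
      = ∑ n ∈ Finset.range (N + 1), algebraMap F k (PowerSeries.coeff n f) * ζ ^ n *
        PowerSeries.coeff x (PowerSeries.X ^ (a * n) : k⟦X⟧) := fun x hx => by
    rw [PowerSeries.coeff_subst' hs, finsum_eq_sum_of_support_subset (s := Finset.range (N + 1))]
    · refine Finset.sum_congr rfl fun n _ => ?_
      rw [mul_pow, ← map_pow, ← pow_mul, PowerSeries.coeff_C_mul, Algebra.smul_def, mul_assoc]
    · intro n hn
      by_contra h1
      refine hn ?_
      have h2 : N + 1 ≤ n := by simpa using h1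
      have h3 : x ≠ a * n := by nlinarith
      simp only [mul_pow, ← map_pow, ← pow_mul, PowerSeries.coeff_C_mul, PowerSeries.coeff_X_pow,
        if_neg h3, mul_zero, smul_zero]
  rw [PowerSeries.coeff_mul, Finset.sum_congr rfl fun x hx => by
    rw [e x.1 (by have := Finset.HasAntidiagonal.mem_antidiagonal.1 hx; omega), Finset.sum_mul], Finset.sum_comm, map_sum]
  refine Finset.sum_congr rfl fun n _ => ?_
  rw [Polynomial.aeval_monomial, map_mul, ← PowerSeries.coeff_map (algebraMap F k) N, map_mul,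
    map_pow, PowerSeries.map_X, PowerSeries.coeff_mul, Finset.mul_sum, Finset.sum_mul]
  refine Finset.sum_congr rfl fun x _ => ?_
  ring

theorem indep {F k ι κ : Type*} [Field F] [Field k] [Algebra F k] [Fintype ι] [Fintype κ] {ζ : k}
    (hζ : Transcendental F ζ) {a : ℕ} (ha : 0 < a) (f : ι → F⟦X⟧) (g : κ → F⟦X⟧)
    (hf : ∀ c : ι → F, ∑ i, PowerSeries.C (c i) * f i = 0 → ∀ i, c i = 0)
    (hg : ∀ c : κ → F[X], ∑ j, (c j : F⟦X⟧) * g j = 0 → ∀ j, c j = 0) (r : ι × κ → k)
    (h : ∑ x, PowerSeries.C (r x) * ((f x.1).subst (PowerSeries.C ζ * PowerSeries.X ^ a : k⟦X⟧) *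
      (g x.2).map (algebraMap F k)) = 0) (x : ι × κ) : r x = 0 := by
  classical
  let : Algebra F[X] k := (Polynomial.aeval ζ).toRingHom.toAlgebra
  have : FaithfulSMul F[X] k :=
    (faithfulSMul_iff_algebraMap_injective _ _).2 (transcendental_iff_injective.1 hζ)
  let v : ι × κ → ℕ → F[X] := fun x N => ∑ n ∈ Finset.range (N + 1), Polynomial.monomial n
    (PowerSeries.coeff n (f x.1) * PowerSeries.coeff N (PowerSeries.X ^ (a * n) * g x.2))
  have hv : ∀ x N n, (v x N).coeff n =
      PowerSeries.coeff n (f x.1) * PowerSeries.coeff N (PowerSeries.X ^ (a * n) * g x.2) := by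
    intro x N n
    simp only [v, Polynomial.finsetSum_coeff, Polynomial.coeff_monomial, Finset.sum_ite_eq',
      Finset.mem_range]
    split_ifs with h1
    · rfl
    · have h2 : ¬a * n ≤ N := by nlinarith
      rw [PowerSeries.coeff_X_pow_mul', if_neg h2, mul_zero]
  refine descend v (fun c hc => ?_) r (fun N => ?_) x
  · rintro ⟨i, j⟩
    ext l
    refine hf (fun i => (c (i, j)).coeff l) ?_ i
    ext n
    have h1 := hg (fun j => ∑ y ∈ Finset.HasAntidiagonal.antidiagonal (l + n), Polynomial.monomial (a * y.2)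
      (∑ i, (c (i, j)).coeff y.1 * PowerSeries.coeff y.2 (f i))) (by
      ext N
      have h2 := congrArg (fun P => P.coeff (l + n)) (hc N)
      simp only [Polynomial.finsetSum_coeff, Polynomial.coeff_mul, hv, Polynomial.coeff_zero,
        Fintype.sum_prod_type_right] at h2
      rw [map_sum, map_zero, ← h2]
      refine Finset.sum_congr rfl fun j _ => ?_
      rw [← Polynomial.coeToPowerSeries.ringHom_apply, map_sum, Finset.sum_mul, map_sum,
        Finset.sum_comm]
      refine Finset.sum_congr rfl fun y _ => ?_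
      rw [Polynomial.coeToPowerSeries.ringHom_apply, ← Polynomial.C_mul_X_pow_eq_monomial,
        Polynomial.coe_mul, Polynomial.coe_pow, Polynomial.coe_C, Polynomial.coe_X, mul_assoc,
        PowerSeries.coeff_C_mul, Finset.sum_mul]
      exact Finset.sum_congr rfl fun i _ => mul_assoc _ _ _) j
    have h3 := congrArg (fun P => P.coeff (a * n)) h1
    simp only [Polynomial.finsetSum_coeff, Polynomial.coeff_monomial, Polynomial.coeff_zero] at h3
    rw [Finset.sum_eq_single (l, n), if_pos rfl] at h3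
    · simpa [PowerSeries.coeff_C_mul] using h3
    · intro y hy hne
      refine if_neg fun h4 => hne ?_
      have h5 : y.2 = n := Nat.eq_of_mul_eq_mul_left ha h4
      have h6 := Finset.HasAntidiagonal.mem_antidiagonal.1 hy
      exact Prod.ext (by simp only; omega) h5
    · simp
  · have h1 := congrArg (PowerSeries.coeff N) h
    rw [map_sum, map_zero] at h1
    rw [← h1]
    refine Finset.sum_congr rfl fun x _ => ?_
    rw [PowerSeries.coeff_C_mul, coeff_subst_mul ζ ha, Algebra.smul_def, mul_comm]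
    rfl

theorem map_subst' {R S T : Type*} [CommRing R] [CommRing S] [CommRing T] [Algebra R S]
    [Algebra S T] [Algebra R T] [IsScalarTower R S T] {q : T⟦X⟧} (hq : PowerSeries.HasSubst q)
    (G : R⟦X⟧) : (G.map (algebraMap R S)).subst q = G.subst q := by
  ext N
  rw [PowerSeries.coeff_subst' hq, PowerSeries.coeff_subst' hq]
  exact finsum_congr fun n => by rw [PowerSeries.coeff_map, algebraMap_smul]

open H53 in
theorem zeta_alg (p : ℕ) [Fact p.Prime] {k : Type*} [Field k] [IsAlgClosed k] [Algebra (ZMod p) k]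
    (K : Type*) [Field K] [Algebra k⟦X⟧ K] [IsFractionRing k⟦X⟧ K] [Algebra k K]
    [IsScalarTower k k⟦X⟧ K] [Algebra k[X] K] [IsScalarTower k[X] k⟦X⟧ K] {ζ : k} (hζ : ζ ≠ 0)
    {a b : ℕ} (ha : 0 < a) (hb : 0 < b) {R : MvPolynomial (Fin 2) k} (R0 : R ≠ 0)
    (h : MvPolynomial.aeval
      ![JJ K (PowerSeries.C ζ * PowerSeries.X ^ a : k⟦X⟧), JJ K (PowerSeries.X ^ b : k⟦X⟧)] R = 0) :
    IsAlgebraic (ZMod p) ζ := by
  classical
  by_contra hT
  set q1 : k⟦X⟧ := PowerSeries.C ζ * PowerSeries.X ^ a with hq1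
  set q2 : k⟦X⟧ := PowerSeries.X ^ b with hq2
  have c1 : PowerSeries.constantCoeff q1 = 0 := by simp [hq1, ha.ne']
  have c2 : PowerSeries.constantCoeff q2 = 0 := by simp [hq2, hb.ne']
  have s1 := PowerSeries.HasSubst.of_constantCoeff_zero' c1
  have s2 := PowerSeries.HasSubst.of_constantCoeff_zero' c2
  have hc : ∀ g : k[X], algebraMap k[X] k⟦X⟧ g = (g : k⟦X⟧) := fun _ => rfl
  have T1 : Transcendental k[X] (JJ K q1) := voloch p K
    (mul_ne_zero (fun h0 => hζ (PowerSeries.C_injective (h0.trans (map_zero _).symm)))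
      (pow_ne_zero _ PowerSeries.X_ne_zero)) c1 (by
    have := isAlgebraic_algebraMap (R := k[X]) (A := k⟦X⟧) (Polynomial.C ζ * Polynomial.X ^ a)
    rwa [hc, Polynomial.coe_mul, Polynomial.coe_pow, Polynomial.coe_C, Polynomial.coe_X] at this)
  have T2 : Transcendental k[X] (JJ K q2) := voloch p K (pow_ne_zero _ PowerSeries.X_ne_zero) c2 (by
    have := isAlgebraic_algebraMap (R := k[X]) (A := k⟦X⟧) (Polynomial.X ^ b)
    rwa [hc, Polynomial.coe_pow, Polynomial.coe_X] at this)
  have inj : Function.Injective (algebraMap k⟦X⟧ K) := IsFractionRing.injective _ _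
  let D := R.totalDegree
  let f : Fin (D + 1) → (ZMod p)⟦X⟧ := fun i =>
    ((E4z ^ 3) ^ (i : ℕ) * Dz ^ (D - i)).map (algebraMap ℤ (ZMod p))
  let g : Fin (D + 1) → (ZMod p)⟦X⟧ := fun j => (f j).subst (PowerSeries.X ^ b : (ZMod p)⟦X⟧)
  have hD : ∀ q : k⟦X⟧, Transcendental k[X] (JJ K q) → algebraMap k⟦X⟧ K (Dz.subst q) ≠ 0 :=
    fun q hq h0 => hq (by rw [JJ, h0, div_zero]; exact isAlgebraic_zero)
  have hf : ∀ q : k⟦X⟧, PowerSeries.HasSubst q → Transcendental k[X] (JJ K q) → ∀ i,
      algebraMap k⟦X⟧ K ((f i).subst q) =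
        JJ K q ^ (i : ℕ) * algebraMap k⟦X⟧ K (Dz.subst q) ^ D := fun q hq hq' i => by
    have h1 := hD q hq'
    obtain ⟨d, hd⟩ := Nat.exists_eq_add_of_le (Nat.lt_succ_iff.1 i.2)
    simp only [f]
    rw [map_subst' hq, PowerSeries.subst_mul hq, PowerSeries.subst_pow hq, PowerSeries.subst_pow hq,
      PowerSeries.subst_pow hq, map_mul, map_pow, map_pow, map_pow, JJ,
      show D - i = d by omega, div_pow, congrArg (algebraMap k⟦X⟧ K (Dz.subst q) ^ ·) hd, pow_add]
    field_simp
  have hg : ∀ j, (g j).map (algebraMap (ZMod p) k) = (f j).subst q2 := fun j => by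
    ext N
    simp only [g, hq2]
    rw [PowerSeries.coeff_map, PowerSeries.coeff_subst_X_pow hb.ne',
      PowerSeries.coeff_subst_X_pow hb.ne']
    split_ifs <;> simp
  have ig : ∀ c : Fin (D + 1) → (ZMod p)[X], ∑ j, (c j : (ZMod p)⟦X⟧) * g j = 0 → ∀ j, c j = 0 := by
    intro c h0 j
    have h1 := congrArg (fun x => algebraMap k⟦X⟧ K (x.map (algebraMap (ZMod p) k))) h0
    simp only [map_sum, map_mul, map_zero, hg, hf q2 s2 T2, ← mul_assoc, ← Finset.sum_mul] at h1
    replace h1 := (mul_eq_zero.1 h1).resolve_right (pow_ne_zero _ (hD q2 T2))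
    have h2 : ∑ j : Fin (D + 1), Polynomial.monomial (j : ℕ) ((c j).map (algebraMap (ZMod p) k))
        = 0 := by
      refine transcendental_iff.1 T2 _ ?_
      rw [map_sum, ← h1]
      refine Finset.sum_congr rfl fun j _ => ?_
      rw [Polynomial.aeval_monomial, IsScalarTower.algebraMap_apply k[X] k⟦X⟧ K, hc,
        Polynomial.polynomial_map_coe]
    have h3 := congrArg (fun P => P.coeff (j : ℕ)) h2
    simp only [Polynomial.finsetSum_coeff, Polynomial.coeff_monomial, Fin.val_inj,
      Finset.sum_ite_eq', Finset.mem_univ, if_true, Polynomial.coeff_zero] at h3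
    exact (Polynomial.map_eq_zero_iff (algebraMap (ZMod p) k).injective).1 h3
  have jf : ∀ c : Fin (D + 1) → ZMod p, ∑ i, PowerSeries.C (c i) * f i = 0 → ∀ i, c i = 0 := by
    intro c h0 i
    have sb : PowerSeries.HasSubst (PowerSeries.X ^ b : (ZMod p)⟦X⟧) :=
      PowerSeries.HasSubst.X_pow hb.ne'
    refine Polynomial.C_eq_zero.1 (ig (fun j => Polynomial.C (c j)) ?_ i)
    have h1 := congrArg (PowerSeries.substAlgHom sb) h0
    rw [map_sum, map_zero] at h1
    rw [← h1]
    refine Finset.sum_congr rfl fun j _ => ?_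
    rw [Polynomial.coe_C, ← PowerSeries.smul_eq_C_mul, ← PowerSeries.smul_eq_C_mul, map_smul,
      PowerSeries.coe_substAlgHom]
  have li : LinearIndependent k fun x : Fin (D + 1) × Fin (D + 1) =>
      (f x.1).subst q1 * (g x.2).map (algebraMap (ZMod p) k) :=
    Fintype.linearIndependent_iff.2 fun r hr => indep hT ha f g jf ig r
      (by simpa only [PowerSeries.smul_eq_C_mul] using hr)
  have le : ∀ m : R.support, ∀ i, m.1 i < D + 1 := fun m i =>
    Nat.lt_succ_of_le ((MvPolynomial.monomial_le_degreeOf i m.2).trans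
      (MvPolynomial.degreeOf_le_totalDegree R i))
  let u : R.support → Fin (D + 1) × Fin (D + 1) := fun m => (⟨m.1 0, le m 0⟩, ⟨m.1 1, le m 1⟩)
  have hu : Function.Injective u := fun m m' e => by
    simp only [u, Prod.mk.injEq, Fin.mk.injEq] at e
    exact Subtype.ext (Finsupp.ext (Fin.forall_fin_two.2 e))
  obtain ⟨m, hm⟩ := MvPolynomial.support_nonempty.2 R0
  refine MvPolynomial.mem_support_iff.1 hm
    (Fintype.linearIndependent_iff.1 (li.comp u hu) (fun m => R.coeff m.1) (inj ?_) ⟨m, hm⟩)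
  rw [MvPolynomial.aeval_def, MvPolynomial.eval₂_eq', ← Finset.sum_coe_sort] at h
  rw [map_zero, map_sum, ← zero_mul (algebraMap k⟦X⟧ K (Dz.subst q1) ^ D *
    algebraMap k⟦X⟧ K (Dz.subst q2) ^ D), ← h, Finset.sum_mul]
  refine Finset.sum_congr rfl fun m _ => ?_
  rw [Function.comp_apply, Algebra.smul_def, map_mul, map_mul, hg, hf q1 s1 T1, hf q2 s2 T2,
    ← IsScalarTower.algebraMap_apply, Fin.prod_univ_two]
  simp only [u, Matrix.cons_val_zero, Matrix.cons_val_one]
  ring

theorem root_of_unity' (p : ℕ) [Fact p.Prime] {k : Type*} [Field k] [Algebra (ZMod p) k]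
    {ζ : k} (hζ : ζ ≠ 0) (hi : IsAlgebraic (ZMod p) ζ) : ∃ r : ℕ, 0 < r ∧ IsPrimitiveRoot ζ r := by
  let A := algebraicClosure (ZMod p) k
  obtain ⟨r, hr, h⟩ := H53.root_of_unity p (k := A) (ζ := ⟨ζ, mem_algebraicClosure_iff.2 hi⟩)
    fun h0 => hζ (congrArg Subtype.val h0)
  exact ⟨r, hr, h.map_of_injective (f := A.val) Subtype.val_injective⟩

theorem small_field {k K : Type} [Field k] [Field K] [Algebra k K] {n : ℕ}
    (x : Fin n ⊕ Unit → K) (hx : ¬AlgebraicIndependent k x) :
    ∃ M : IntermediateField k K, Algebra.trdeg k M ≤ n ∧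
      ∀ y, IsAlgebraic (IntermediateField.adjoin k (Set.range x)) y → y ∈ M := by
  let E := IntermediateField.adjoin k (Set.range x)
  let M : IntermediateField k K := (algebraicClosure E K).restrictScalars k
  have hM : ∀ y, y ∈ M ↔ IsAlgebraic E y := fun y => mem_algebraicClosure_iff
  refine ⟨M, ?_, fun y hy => (hM y).2 hy⟩
  by_contra hlt
  let x' : Fin n ⊕ Unit → M := fun i => ⟨x i, (hM _).2 (isAlgebraic_algebraMap
    (⟨x i, IntermediateField.subset_adjoin k _ ⟨i, rfl⟩⟩ : E))⟩
  have e : (Algebra.adjoin k (Set.range x')).map M.val = Algebra.adjoin k (Set.range x) := by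
    rw [AlgHom.map_adjoin, ← Set.range_comp]
    rfl
  have : Algebra.IsAlgebraic (Algebra.adjoin k (Set.range x')) M := ⟨fun y =>
    (isAlgebraic_ringHom_iff_of_comp_eq
      ((Subalgebra.equivMapOfInjective _ M.val Subtype.val_injective).trans
        (Subalgebra.equivOfEq _ _ e)) M.val Subtype.val_injective (by ext; rfl)).1
      (IntermediateField.isAlgebraic_adjoin_iff.1 ((hM y).1 y.2))⟩
  have h2 := Algebra.IsAlgebraic.isTranscendenceBasis_of_le_trdeg_of_finite k x' (by
    have h3 := Order.succ_le_of_lt (not_le.1 hlt)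
    rw [Cardinal.succ_natCast] at h3
    simpa using h3)
  exact hx (h2.1.map' (f := M.val) Subtype.val_injective)

end Pool.Agent.Lib.MP_8f9d9d_nt.H27
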