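import Pool.Agent.Lib.MP_1f047c_nt.Resid

/-! Derivations of fields of characteristic zero. -/

open Finset

namespace Pool.Agent.Lib.MP_8f9d9d_nt

open Pool.Agent.Lib.MP_1f047c_nt

/-- Additive derivations of a ring. -/
abbrev Der (A : Type) [CommRing A] := Derivation ℤ A A

/-- A copy of the dual numbers. -/
def DN (Ω : Type) [Field Ω] := DualNumber Ω

noncomputable instance (Ω : Type) [Field Ω] : CommRing (DN Ω) :=
  inferInstanceAs (CommRing (DualNumber Ω))

variable {Ω : Type} [Field Ω]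

lemma ext_field {F : Type} [Field F] [CharZero F] (Φ : F →+* DualNumber Ω) :
    ∃ D : Der Ω, ∀ x, D (Φ x).fst = (Φ x).snd := by
  let _ : Algebra F Ω := ((TrivSqZeroExt.fstHom Ω Ω Ω).toRingHom.comp Φ).toAlgebra
  let _ : Algebra F (DN Ω) := (show F →+* DN Ω from Φ).toAlgebra
  obtain ⟨s, hs⟩ := exists_isTranscendenceBasis F Ω
  have := hs.isAlgebraic_field
  have : Algebra.FormallySmooth F Ω :=
    Algebra.FormallySmooth.of_algebraicIndependent_of_isSeparable hs.1
  let g : DN Ω →ₐ[F] Ω :=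
    { (show DN Ω →+* Ω from (TrivSqZeroExt.fstHom Ω Ω Ω).toRingHom) with commutes' := fun _ => rfl }
  have hg : Function.Surjective g := fun x => ⟨(TrivSqZeroExt.inl x : DualNumber Ω), rfl⟩
  have hg' : IsNilpotent (RingHom.ker (g : DN Ω →+* Ω)) := ⟨2, by
    rw [pow_two, Ideal.zero_eq_bot, eq_bot_iff, Ideal.mul_le]
    intro a ha b hb
    have : ∀ a b : DualNumber Ω, a.fst = 0 → b.fst = 0 → a * b = 0 := fun a b ha hb => by
      ext <;> simp [ha, hb]
    exact this a b ha hb⟩
  let L := Algebra.FormallySmooth.liftOfSurjective (AlgHom.id F Ω) g hg hg'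
  refine ⟨derOfHom (show Ω →+* DualNumber Ω from L.toRingHom)
    fun a => Algebra.FormallySmooth.liftOfSurjective_apply (AlgHom.id F Ω) g hg hg' a, fun x => ?_⟩
  exact congrArg TrivSqZeroExt.snd (L.commutes x)

variable [CharZero Ω]

lemma ext_ring {T : Type} [CommRing T] (Φ : T →+* DualNumber Ω)
    (h : ∀ t, (Φ t).fst = 0 → (Φ t).snd = 0) : ∃ D : Der Ω, ∀ x, D (Φ x).fst = (Φ x).snd := by
  let ψ : T →+* Ω := (TrivSqZeroExt.fstHom Ω Ω Ω).toRingHom.comp Φ
  have := RingHom.ker_isPrime ψ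
  let Φ₁ : T ⧸ RingHom.ker ψ →+* DualNumber Ω :=
    Ideal.Quotient.lift _ Φ fun t ht => TrivSqZeroExt.ext ht (h t ht)
  have hu : ∀ y : nonZeroDivisors (T ⧸ RingHom.ker ψ), IsUnit (Φ₁ y) := by
    rintro ⟨y, hy⟩
    obtain ⟨t, rfl⟩ := Ideal.Quotient.mk_surjective y
    rw [TrivSqZeroExt.isUnit_iff_isUnit_fst, isUnit_iff_ne_zero]
    exact fun h0 => nonZeroDivisors.ne_zero hy (Ideal.Quotient.eq_zero_iff_mem.2 h0)
  let Φ₂ : FractionRing (T ⧸ RingHom.ker ψ) →+* DualNumber Ω := IsLocalization.lift hu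
  have := ((TrivSqZeroExt.fstHom Ω Ω Ω).toRingHom.comp Φ₂).charZero
  obtain ⟨D, hD⟩ := ext_field Φ₂
  refine ⟨D, fun t => ?_⟩
  have := hD (algebraMap _ _ (Ideal.Quotient.mk (RingHom.ker ψ) t))
  rwa [IsLocalization.lift_eq] at this

/-- A derivation along a homomorphism extends to the field. -/
lemma ext_der {T : Type} [CommRing T] (ψ : T →+* Ω) (δ : T →+ Ω)
    (hδ : ∀ a b, δ (a * b) = ψ a * δ b + ψ b * δ a) (h : ∀ t, ψ t = 0 → δ t = 0) :
    ∃ D : Der Ω, ∀ t, D (ψ t) = δ t := by
  have h1 : δ 1 = 0 := by simpa using hδ 1 1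
  let Φ : T →+* DualNumber Ω :=
    { toFun := fun t => TrivSqZeroExt.inl (ψ t) + TrivSqZeroExt.inr (δ t)
      map_one' := by simp [h1]
      map_mul' := fun a b => by ext <;> simp [hδ, mul_comm]
      map_zero' := by simp
      map_add' := fun a b => by ext <;> simp }
  simpa [Φ] using ext_ring Φ (by simpa [Φ] using h)

omit [CharZero Ω] in
lemma der_rat (d : Der Ω) (q : ℚ) : d (q : Ω) = 0 := by
  rw [Rat.cast_def, Derivation.leibniz_div]
  simp

lemma alg_kill (d : Der Ω) (p : Polynomial Ω) (hp : p ≠ 0) (hc : ∀ n, d (p.coeff n) = 0) {z : Ω}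
    (hz : p.eval z = 0) : d z = 0 := by
  induction hn : p.natDegree using Nat.strong_induction_on generalizing p with
  | _ n ih =>
    have h1 : p.derivative.eval z * d z = 0 := by
      rw [← map_zero d, ← hz, Polynomial.derivative_eval, Polynomial.eval_eq_sum, Polynomial.sum,
        Polynomial.sum, map_sum, sum_mul]
      refine sum_congr rfl fun m _ => ?_
      simp only [Derivation.leibniz, hc, Derivation.leibniz_pow, smul_eq_mul, nsmul_eq_mul]
      ring
    have h2 : p.natDegree ≠ 0 := fun h => by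
      rw [Polynomial.eq_C_of_natDegree_eq_zero h] at hz hp
      exact hp (by simpa using hz)
    refine (mul_eq_zero.1 h1).elim (fun h => ih _ (hn ▸ Polynomial.natDegree_derivative_lt h2) _
      (fun h0 => h2 (Polynomial.derivative_eq_zero.1 h0)) (fun m => ?_) h rfl) id
    rw [Polynomial.coeff_derivative, Derivation.leibniz, hc, map_add, Derivation.map_natCast,
      Derivation.map_one_eq_zero]
    simp

lemma der_alg (d : Der Ω) {z : Ω} (hz : IsAlgebraic ℚ z) : d z = 0 := by
  obtain ⟨p, hp, h⟩ := hz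
  exact alg_kill d (p.map (algebraMap ℚ Ω)) (Polynomial.map_ne_zero hp)
    (fun n => by rw [Polynomial.coeff_map]; exact der_rat d _)
    (by rwa [Polynomial.eval_map_algebraMap])

omit [CharZero Ω] in
open MvPolynomial in
lemma eval_two' {k : Type} [Field k] [Algebra k Ω] (P : MvPolynomial (Fin 2) k) (x y : Ω) :
    ((aeval ![Polynomial.C Polynomial.X, Polynomial.X] P : Polynomial (Polynomial k)).map
      (Polynomial.aeval x).toRingHom).eval y = aeval ![x, y] P := by
  induction P using MvPolynomial.induction_on with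
  | C a => simp
  | add p q hp hq => simp only [map_add, Polynomial.map_add, Polynomial.eval_add, hp, hq]
  | mul_X p i hp =>
    simp only [map_mul, Polynomial.map_mul, Polynomial.eval_mul, hp]
    congr 1
    fin_cases i <;> simp

open MvPolynomial in
lemma kill2 {k : Type} [Field k] [CharZero k] [Algebra k Ω] {P : MvPolynomial (Fin 2) k}
    (hP : P ≠ 0) {x y : Ω} (h : aeval ![x, y] P = 0) {Z : Der Ω} (hZ : ∀ z, Z (algebraMap k Ω z) = 0)
    (hx : Z x ≠ 0) {d : Der Ω} (hd : ∀ z, d (algebraMap k Ω z) = 0) (hx' : d x = 0) : d y = 0 := by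
  let Q : Polynomial (Polynomial k) := aeval ![Polynomial.C Polynomial.X, Polynomial.X] P
  have hQ0 : Q ≠ 0 := fun h0 => hP (MvPolynomial.funext fun x => by
    rw [map_zero, show x = ![x 0, x 1] from funext fun i => by fin_cases i <;> rfl,
      ← coe_aeval_eq_eval, RingHom.coe_coe, ← eval_two']
    change (Q.map _).eval _ = 0
    rw [h0]
    simp)
  refine alg_kill d (Q.map (Polynomial.aeval x).toRingHom) (fun h0 => hx ?_) (fun n => ?_)
    ((eval_two' P x y).trans h)
  · have h1 := congrArg (Polynomial.coeff · Q.natDegree) h0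
    simp only [Polynomial.coeff_map, Polynomial.coeff_zero] at h1
    exact alg_kill Z (Q.leadingCoeff.map (algebraMap k Ω))
      (Polynomial.map_ne_zero (Polynomial.leadingCoeff_ne_zero.2 hQ0))
      (fun n => by rw [Polynomial.coeff_map, hZ]) (by rwa [Polynomial.eval_map_algebraMap])
  · rw [Polynomial.coeff_map]
    change d (Polynomial.aeval x _) = 0
    induction Q.coeff n using Polynomial.induction_on' with
    | add p q hp hq => rw [map_add, map_add, hp, hq, add_zero]
    | monomial m a => simp [Polynomial.aeval_monomial, hd, hx']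

/-- The computation with the three vector fields. -/
lemma sl2 {X Y E Z : Der Ω} {J u p w r s : Ω}
    (hYX : ∀ z, Y (X z) - X (Y z) = E z / 6) (hEX : ∀ z, E (X z) - X (E z) = Z z)
    (hEY : ∀ z, E (Y z) - Y (E z) = -Y z) (hYZ : ∀ z, Y (Z z) - Z (Y z) = E z / 6)
    (hEZ : ∀ z, E (Z z) - Z (E z) = Z z) (hXZ : ∀ z, X (Z z) = Z (X z))
    (YJ : Y J = 0) (EJ : E J = 0) (Yw : Y w = 0) (Ew : E w = 0) (Zw : Z w = 0)
    (Yr : Y r = 0) (Ys : Y s = 0) (Es : E s = 0) (hr : X J = Z J → X r = Z r)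
    (h1 : X J = u) (hu : u ≠ 0) (h2 : X u = (w + p) * u + r * (u * u))
    (h3 : X p = w * p + (1 / 2 : ℚ) * (p * p) - (1 / 72 : ℚ) * (s * (u * u))) (hZ : Z J ≠ 0) :
    X J = Z J ∧ X u = Z u ∧ X p - Z p = -X w ∧ X w = w * w / 2 := by
  have Yu : Y u = 0 := by simpa [h1, YJ, EJ] using hYX J
  have Eu : E u = Z J := by simpa [h1, EJ] using hEX J
  have Yv : Y (Z J) = 0 := by simpa [YJ, EJ] using hYZ J
  have Ev : E (Z J) = Z J := by simpa [EJ] using hEZ J
  obtain ⟨β, hβ⟩ : ∃ β, Z J = β * u := ⟨Z J / u, (div_mul_cancel₀ _ hu).symm⟩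
  have hβ0 : β ≠ 0 := fun h => hZ (by rw [hβ, h, zero_mul])
  have Yβ : Y β = 0 := by simpa [hβ, Yu, hu] using Yv
  have Eβ : E β = β - β * β := by
    rw [hβ, Derivation.leibniz, Eu, hβ] at Ev
    simp only [smul_eq_mul] at Ev
    exact mul_left_cancel₀ hu (by linear_combination Ev)
  have Yp : Y p = (1 / 6 : ℚ) * β := by
    have := hYX u
    simp only [h2, map_add, Derivation.leibniz, Yu, Yw, Yr, Eu, hβ, smul_eq_mul, map_zero] at this
    push_cast
    exact mul_left_cancel₀ hu (by linear_combination this)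
  have e1 : E p + X β = (w + p) * β := by
    have := hYX p
    simp only [h3, map_add, map_sub, Derivation.leibniz, Yu, Yw, Ys, Yp, der_rat,
      smul_eq_mul] at this
    push_cast at this
    linear_combination (-6) * this
  have e2 : β = 1 := by
    have k1 := congrArg Y e1
    have k2 := hEY p
    have k3 := hYX β
    simp only [map_add, Derivation.leibniz, Yw, Yp, Yβ, der_rat, smul_eq_mul, map_zero,
      Eβ] at k1 k2 k3
    push_cast at k1 k2
    exact mul_left_cancel₀ hβ0 (by linear_combination (-2) * k1 + (-2) * k2 + 2 * k3)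
  rw [e2, one_mul] at hβ
  rw [e2, Derivation.map_one_eq_zero, add_zero, mul_one] at e1
  have e3 : X J = Z J := h1.trans hβ.symm
  have e4 : X u = Z u := by rw [← hβ, hXZ, h1, hβ]
  have e5 : X p - Z p = -X w := by
    have := hXZ u
    rw [← e4, h2] at this
    simp only [map_add, Derivation.leibniz, Zw, ← e4, ← hr e3, smul_eq_mul] at this
    exact mul_left_cancel₀ hu (by linear_combination this)
  refine ⟨e3, e4, e5, ?_⟩
  have := hEX p
  simp only [h3, e1, map_add, map_sub, Derivation.leibniz, Ew, Es, Eu, hβ, der_rat,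
    smul_eq_mul] at this e5
  push_cast at this e5
  linear_combination (-1 / 2) * this + (1 / 2) * e5

end Pool.Agent.Lib.MP_8f9d9d_nt
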