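import Pool.Agent.Lib.MP_8f9d9d_nt.H39Series

/-! The Eisenstein series as power series, their transformation laws and Ramanujan's equations. -/

open Finset Filter Topology Complex ModularForm
open UpperHalfPlane hiding I
open scoped Real MatrixGroups ArithmeticFunction.sigma Manifold

namespace Pool.Agent.Lib.MP_8f9d9d_nt

/-- The parameter at infinity. -/
noncomputable def qq (z : ℂ) : ℂ := cexp (2 * π * I * z)

lemma qq_ne (z : ℂ) : qq z ≠ 0 := exp_ne_zero _

lemma norm_qq (z : ℂ) : ‖qq z‖ = Real.exp (-(2 * π * z.im)) := by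
  simp [qq, norm_exp]

lemma norm_qq_lt {z : ℂ} (hz : 0 < z.im) : ‖qq z‖ < 1 := by
  rw [norm_qq, Real.exp_lt_one_iff]
  have := Real.pi_pos
  nlinarith

lemma exists_qq {q : ℂ} (h0 : q ≠ 0) (h1 : ‖q‖ < 1) : ∃ z : ℂ, 0 < z.im ∧ qq z = q := by
  have h : qq (log q / (2 * π * I)) = q := by
    rw [qq, mul_div_cancel₀ _ two_pi_I_ne_zero, exp_log h0]
  refine ⟨_, ?_, h⟩
  rw [← h, norm_qq, Real.exp_lt_one_iff] at h1
  have := Real.pi_pos
  by_contra h2
  nlinarith

lemma qq_add (z w : ℂ) : qq (z + w) = qq z * qq w := by rw [qq, mul_add, exp_add]; rfl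

lemma qq_nat_mul (n : ℕ) (z : ℂ) : qq (n * z) = qq z ^ n := by
  rw [qq, qq, ← exp_nat_mul]; congr 1; ring

lemma qq_int (n : ℤ) : qq n = 1 := by
  rw [qq, mul_comm]; exact exp_int_mul_two_pi_mul_I n

variable {f g : PS}

lemma Cv.sub (hf : Cv f) (hg : Cv g) : Cv (f - g) := cvs.sub_mem hf hg

lemma ev_sub {z : ℂ} (hf : Cv f) (hg : Cv g) (hz : ‖z‖ < 1) : ev (f - g) z = ev f z - ev g z :=
  map_sub (evh z hz) ⟨f, hf⟩ ⟨g, hg⟩

/-- The function on the upper half plane. -/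
noncomputable def up (f : PS) (τ : ℍ) : ℂ := ev f (qq τ)

lemma hasDerivAt_qq (z : ℂ) : HasDerivAt qq (qq z * (2 * π * I)) z := by
  have := ((hasDerivAt_id z).const_mul (2 * π * I)).cexp
  rw [mul_one] at this
  exact this

lemma up_comp (f : PS) {z : ℂ} (hz : 0 < z.im) : up f ∘ ofComplex =ᶠ[𝓝 z] ev f ∘ qq := by
  filter_upwards [isOpen_upperHalfPlaneSet.mem_nhds hz] with w hw
  simp [up, ofComplex_apply_of_im_pos hw]

lemma Cv.mdiff (hf : Cv f) : MDiff (up f) := by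
  rw [UpperHalfPlane.mdifferentiable_iff]
  intro z hz
  exact (((hf.differentiableAt (norm_qq_lt hz)).comp z
    (hasDerivAt_qq z).differentiableAt).congr_of_eventuallyEq (up_comp f hz)).differentiableWithinAt

lemma Cv.D_up (hf : Cv f) : Derivative.normalizedDerivOfComplex (up f) = up (th f) := by
  funext τ
  have h1 := (hf.differentiableAt (norm_qq_lt τ.im_pos)).hasDerivAt.comp (τ : ℂ) (hasDerivAt_qq τ)
  rw [Derivative.normalizedDerivOfComplex, (up_comp f τ.im_pos).deriv_eq, h1.deriv, up,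
    ← hf.mul_deriv (norm_qq_lt τ.im_pos)]
  have := two_pi_I_ne_zero
  field_simp

lemma Cv.hasSum_up (hf : Cv f) (τ : ℍ) : HasSum (fun m => ((PowerSeries.coeff m f : ℚ) : ℂ) •
    Function.Periodic.qParam (1 : ℝ) τ ^ m) (up f τ) := by
  simp only [Function.Periodic.qParam, ofReal_one, div_one, smul_eq_mul]
  exact hf.hasSum (norm_qq_lt τ.im_pos)

lemma Cv.eq_zero_of_up (hf : Cv f) (h : ∀ τ, up f τ = 0) : f = 0 := by
  refine hf.eq_zero ?_
  have h3 : ∀ᶠ z in 𝓝[≠] (0 : ℂ), ‖z‖ < 1 := nhdsWithin_le_nhds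
    (mem_of_superset (Metric.ball_mem_nhds (0 : ℂ) one_pos) fun z hz => by simpa using hz)
  filter_upwards [h3, self_mem_nhdsWithin] with q h1 h0
  obtain ⟨z, hz, rfl⟩ := exists_qq h0 h1
  exact h ⟨z, hz⟩

/-- A modular series of small weight without constant term vanishes. -/
lemma Cv.vanish (hf : Cv f) {k : ℤ} (hk : k < 12) (h0 : PowerSeries.coeff 0 f = 0)
    (h : ∀ γ : SL(2, ℤ), up f ∣[k] γ = up f) : f = 0 := by
  let F : ModularForm 𝒮ℒ k :=
    { toFun := up f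
      slash_action_eq' := fun A hA => by
        obtain ⟨A, rfl⟩ := hA
        exact h A
      holo' := hf.mdiff
      bdd_at_cusps' := fun hc => by
        rw [Subgroup.IsArithmetic.isCusp_iff_isCusp_SL2Z] at hc
        rw [OnePoint.isBoundedAt_iff_forall_SL2Z hc]
        intro γ _
        rw [h]
        exact isBoundedAtImInfty_of_hasSum_qExpansion one_pos hf.hasSum_up }
  have h1 := ModularFormClass.qExpansion_coeff_unique (f := F) one_pos one_mem_strictPeriods_SL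
    hf.hasSum_up 0
  rw [h0, Rat.cast_zero] at h1
  obtain ⟨G, hG⟩ := (isCuspForm_iff_coeffZero_eq_zero F).2 h1.symm
  have h2 : G = 0 := rank_zero_iff_forall_zero.1 (CuspForm.rank_eq_zero_of_weight_lt_twelve hk) G
  refine hf.eq_zero_of_up fun τ => ?_
  change F τ = 0
  rw [← hG, h2, map_zero]
  rfl

/-- Eisenstein series. -/
noncomputable def eis (c : ℚ) (k : ℕ) : PS := PowerSeries.mk fun n => if n = 0 then 1 else c * σ k n

lemma cv_eis (c : ℚ) (k : ℕ) : Cv (eis c k) := fun z hz => by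
  rw [← summable_nat_add_iff 1]
  have := (summable_nat_add_iff 1).2
    ((summable_norm_pow_mul_geometric_of_norm_lt_one (k + 1) hz).mul_left ‖(c : ℂ)‖)
  refine this.of_nonneg_of_le (fun _ => norm_nonneg _) fun n => ?_
  simp only [tm, eis, PowerSeries.coeff_mk, Nat.add_eq_zero_iff, one_ne_zero, and_false, if_false,
    Rat.cast_mul, Rat.cast_natCast, norm_mul, norm_pow, Complex.norm_natCast, mul_assoc]
  gcongr
  exact_mod_cast ArithmeticFunction.sigma_le_pow_succ k (n + 1)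

lemma ev_eis (c : ℚ) (k : ℕ) {z : ℂ} (hz : ‖z‖ < 1) :
    ev (eis c k) z = 1 + c * ∑' n : ℕ, ((σ k (n + 1) : ℕ) : ℂ) * z ^ (n + 1) := by
  rw [ev, (cv_eis c k z hz).of_norm.tsum_eq_zero_add, ← tsum_mul_left]
  simp [tm, eis, mul_assoc]

/-- Weight two. -/
noncomputable def e2 : PS := eis (-24) 1
/-- Weight four. -/
noncomputable def e4 : PS := eis 240 3
/-- Weight six. -/
noncomputable def e6 : PS := eis (-504) 5

lemma cv2 : Cv e2 := cv_eis _ _
lemma cv4 : Cv e4 := cv_eis _ _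
lemma cv6 : Cv e6 := cv_eis _ _

lemma up_e2 : up e2 = EisensteinSeries.E2 := by
  funext τ
  refine (cv2.hasSum (norm_qq_lt τ.im_pos)).unique ?_
  refine (funext fun n => ?_ : _ = tm e2 (qq τ)) ▸ EisensteinSeries.hasSum_qExpansion_E2 (z := τ)
  by_cases h : n = 0 <;> simp [tm, e2, eis, qq, h]

lemma up_E {k : ℕ} (hk : 3 ≤ k) (hk2 : Even k) (c : ℚ) (hc : c = -(2 * k / bernoulli k)) :
    up (eis c (k - 1)) = E hk := by
  funext τ
  rw [up, ev_eis _ _ (norm_qq_lt τ.im_pos), EisensteinSeries.q_expansion_bernoulli hk hk2 τ]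
  simp_rw [zpow_natCast]
  rw [← tsum_pnat_eq_tsum_succ (f := fun n ↦ ((σ (k - 1) n : ℕ) : ℂ) * qq τ ^ n), hc]
  simp only [qq]
  push_cast
  ring

lemma up_e4 : up e4 = E₄ := up_E (k := 4) _ ⟨2, rfl⟩ _ (by
  norm_num [show bernoulli 4 = -1 / 30 by decide +kernel])

lemma up_e6 : up e6 = E₆ := up_E (k := 6) _ ⟨3, rfl⟩ _ (by
  norm_num [show bernoulli 6 = 1 / 42 by decide +kernel])

lemma slash4 (γ : SL(2, ℤ)) : up e4 ∣[(4 : ℤ)] γ = up e4 := by
  rw [up_e4]; exact SlashInvariantForm.slash_action_eqn E₄ _ ⟨γ, rfl⟩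

lemma slash6 (γ : SL(2, ℤ)) : up e6 ∣[(6 : ℤ)] γ = up e6 := by
  rw [up_e6]; exact SlashInvariantForm.slash_action_eqn E₆ _ ⟨γ, rfl⟩

lemma slash2 (γ : SL(2, ℤ)) (τ : ℍ) : (up e2 ∣[(2 : ℤ)] γ) τ =
    up e2 τ + 12 * ((2 * π * I)⁻¹ * (γ 1 0 / denom γ τ)) := by
  rw [up_e2, EisensteinSeries.E2_slash_action]
  simp only [Pi.sub_apply, Pi.smul_apply, EisensteinSeries.D2, riemannZeta_two, smul_eq_mul]
  have h1 := denom_ne_zero γ τ
  have h2 : (π : ℂ) ≠ 0 := ofReal_ne_zero.2 Real.pi_ne_zero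
  field_simp
  linear_combination (-(12 * (γ 1 0 : ℂ))) * I_sq

lemma up_add (hf : Cv f) (hg : Cv g) : up (f + g) = up f + up g :=
  funext fun τ => ev_add hf hg (norm_qq_lt τ.im_pos)

lemma up_sub (hf : Cv f) (hg : Cv g) : up (f - g) = up f - up g :=
  funext fun τ => ev_sub hf hg (norm_qq_lt τ.im_pos)

lemma up_mul (hf : Cv f) (hg : Cv g) : up (f * g) = up f * up g :=
  funext fun τ => ev_mul hf hg (norm_qq_lt τ.im_pos)

lemma up_C_mul (a : ℚ) (hf : Cv f) : up (PowerSeries.C a * f) = (a : ℂ) • up f :=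
  funext fun τ => by rw [up_mul (cv_C a) hf]; simp [up, ev_C]

lemma c0_eis (c : ℚ) (k : ℕ) : PowerSeries.constantCoeff (eis c k) = 1 := by
  simp [eis, ← PowerSeries.coeff_zero_eq_constantCoeff_apply]

lemma c0_th (f : PS) : PowerSeries.constantCoeff (th f) = 0 := by
  rw [← PowerSeries.coeff_zero_eq_constantCoeff_apply, coeff_th, Nat.cast_zero, zero_mul]

lemma ram4 : th e4 = PowerSeries.C (1 / 3) * (e2 * e4 - e6) := by
  rw [← sub_eq_zero]
  have hc := (cv2.mul cv4).sub cv6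
  refine (cv4.der.sub ((cv_C _).mul hc)).vanish (k := 6) (by norm_num)
    (by simp [c0_th, e2, e4, e6, c0_eis]) fun γ => ?_
  have e : up (th e4 - PowerSeries.C (1 / 3) * (e2 * e4 - e6)) =
      Derivative.serreDerivative (4 : ℤ) (up e4) + (1 / 3 : ℂ) • up e6 := by
    rw [up_sub cv4.der ((cv_C _).mul hc), up_C_mul _ hc, up_sub (cv2.mul cv4) cv6,
      up_mul cv2 cv4, ← cv4.D_up, up_e2]
    funext τ
    simp only [Pi.sub_apply, Pi.add_apply, Pi.smul_apply, Pi.mul_apply, smul_eq_mul,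
      Derivative.serreDerivative_apply]
    push_cast
    ring
  rw [e, SlashAction.add_slash, SL_smul_slash, slash6]
  congr 1
  exact Derivative.serreDerivative_slash_invariant cv4.mdiff (slash4 γ)

lemma ram6 : th e6 = PowerSeries.C (1 / 2) * (e2 * e6 - e4 * e4) := by
  rw [← sub_eq_zero]
  have hc := (cv2.mul cv6).sub (cv4.mul cv4)
  refine (cv6.der.sub ((cv_C _).mul hc)).vanish (k := 8) (by norm_num)
    (by simp [c0_th, e2, e4, e6, c0_eis]) fun γ => ?_
  have e : up (th e6 - PowerSeries.C (1 / 2) * (e2 * e6 - e4 * e4)) =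
      Derivative.serreDerivative (6 : ℤ) (up e6) + (1 / 2 : ℂ) • (up e4 * up e4) := by
    rw [up_sub cv6.der ((cv_C _).mul hc), up_C_mul _ hc, up_sub (cv2.mul cv6) (cv4.mul cv4),
      up_mul cv2 cv6, up_mul cv4 cv4, ← cv6.D_up, up_e2]
    funext τ
    simp only [Pi.sub_apply, Pi.add_apply, Pi.smul_apply, Pi.mul_apply, smul_eq_mul,
      Derivative.serreDerivative_apply]
    push_cast
    ring
  rw [e, SlashAction.add_slash, SL_smul_slash, show (8 : ℤ) = 4 + 4 from rfl, mul_slash_SL2,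
    slash4]
  congr 1
  exact Derivative.serreDerivative_slash_invariant cv6.mdiff (slash6 γ)

lemma ram2 : th e2 = PowerSeries.C (1 / 12) * (e2 * e2 - e4) := by
  rw [← sub_eq_zero]
  have hc := (cv2.mul cv2).sub cv4
  refine (cv2.der.sub ((cv_C _).mul hc)).vanish (k := 4) (by norm_num)
    (by simp [c0_th, e2, e4, c0_eis]) fun γ => ?_
  rw [up_sub cv2.der ((cv_C _).mul hc), up_C_mul _ hc, up_sub (cv2.mul cv2) cv4,
    up_mul cv2 cv2, ← cv2.D_up]
  funext τ
  have h1 := congrFun (Derivative.normalizedDerivOfComplex_SL_slash (k := 2) cv2.mdiff (γ := γ)) τ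
  have h2 := congrFun (mul_slash_SL2 2 2 γ (up e2) (up e2)) τ
  have h3 := congrFun (slash4 γ) τ
  have h4 : Derivative.normalizedDerivOfComplex (up e2 ∣[(2 : ℤ)] γ) τ =
      Derivative.normalizedDerivOfComplex (up e2) τ -
        12 * ((2 * π * I)⁻¹ * (γ 1 0 / denom γ τ)) ^ 2 := by
    have hd : HasDerivAt (fun w : ℂ => 12 * ((2 * π * I)⁻¹ * (γ 1 0 * denom γ w ^ (-1 : ℤ))))
        (12 * ((2 * π * I)⁻¹ * (γ 1 0 * ((-1 : ℤ) * ((γ : GL (Fin 2) ℝ) 1 0 : ℂ) *
          denom γ τ ^ (-1 - 1 : ℤ))))) τ :=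
      (((hasDerivAt_denom_zpow γ (-1) τ).const_mul _).const_mul _).const_mul _
    have h5 : (up e2 ∣[(2 : ℤ)] γ) ∘ ofComplex =ᶠ[𝓝 (τ : ℂ)] fun w => (up e2 ∘ ofComplex) w +
        12 * ((2 * π * I)⁻¹ * (γ 1 0 * denom γ w ^ (-1 : ℤ))) := by
      filter_upwards [isOpen_upperHalfPlaneSet.mem_nhds τ.im_pos] with w hw
      simp only [Function.comp_apply, slash2, ofComplex_apply_of_im_pos hw, zpow_neg_one,
        div_eq_mul_inv]
    have h6 := (mdifferentiableAt_iff.1 (cv2.mdiff τ)).hasDerivAt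
    rw [Derivative.normalizedDerivOfComplex, h5.deriv_eq, (h6.fun_add hd).deriv,
      Derivative.normalizedDerivOfComplex]
    have h7 := denom_ne_zero γ τ
    have h8 : (((γ : GL (Fin 2) ℝ) 1 0 : ℝ) : ℂ) = γ 1 0 := by simp
    rw [h8, show (-1 - 1 : ℤ) = -2 from rfl, zpow_neg, zpow_ofNat]
    push_cast
    field_simp
    ring
  rw [h4, Pi.sub_apply] at h1
  rw [show (2 : ℤ) + 2 = 4 from rfl] at h1 h2
  simp only [Pi.mul_apply, slash2] at h1 h2
  simp only [SL_slash_apply, Pi.sub_apply, Pi.smul_apply, Pi.mul_apply, smul_eq_mul] at h1 h2 h3 ⊢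
  push_cast at h1 ⊢
  linear_combination -h1 - 1 / 12 * h2 + 1 / 12 * h3

end Pool.Agent.Lib.MP_8f9d9d_nt
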