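import Pool.Agent.Lib.MP_8f9d9d_nt.H39Eis

/-! The differential ring generated by `q` and the Eisenstein series, and its freeness. -/

open Finset Filter Topology Complex ModularForm
open UpperHalfPlane hiding I
open scoped Real MatrixGroups

namespace Pool.Agent.Lib.MP_8f9d9d_nt

/-- The constant in the transformation law of weight two. -/
noncomputable def kap : ℂ := 12 * (2 * π * I)⁻¹

lemma kap_ne : kap ≠ 0 := mul_ne_zero (by norm_num) (inv_ne_zero two_pi_I_ne_zero)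

lemma laws {z : ℂ} (hz : 0 < z.im) {a b c d : ℤ} (h : a * d - b * c = 1) :
    (c * z + d : ℂ) ≠ 0 ∧ 0 < ((a * z + b) / (c * z + d) : ℂ).im ∧
    ev e2 (qq ((a * z + b) / (c * z + d))) = (c * z + d) ^ 2 * ev e2 (qq z) + kap * c * (c * z + d) ∧
    ev e4 (qq ((a * z + b) / (c * z + d))) = (c * z + d) ^ 4 * ev e4 (qq z) ∧
    ev e6 (qq ((a * z + b) / (c * z + d))) = (c * z + d) ^ 6 * ev e6 (qq z) := by
  let γ : SL(2, ℤ) := ⟨!![a, b; c, d], by rw [Matrix.det_fin_two_of]; exact h⟩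
  let τ : ℍ := ⟨z, hz⟩
  have e1 : ((γ • τ : ℍ) : ℂ) = (a * z + b) / (c * z + d) := by
    rw [coe_specialLinearGroup_apply]; simp [γ, τ]
  have e2' : denom γ τ = c * z + d := by rw [ModularGroup.denom_apply]; simp [γ, τ]
  have h0 : (c * z + d : ℂ) ≠ 0 := e2' ▸ denom_ne_zero γ τ
  have h2 := slash2 γ τ
  have h4 := congrFun (slash4 γ) τ
  have h6 := congrFun (slash6 γ) τ
  have e3 : γ 1 0 = c := rfl
  simp only [SL_slash_apply, up, e1, e2', e3, zpow_neg, zpow_ofNat] at h2 h4 h6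
  refine ⟨h0, e1 ▸ (γ • τ).im_pos, ?_, ?_, ?_⟩
  · rw [mul_inv_eq_iff_eq_mul₀ (pow_ne_zero _ h0)] at h2
    rw [h2, kap]
    change _ = _ * ev e2 (qq τ) + _
    field_simp
  · rw [mul_inv_eq_iff_eq_mul₀ (pow_ne_zero _ h0)] at h4
    rw [h4, mul_comm]
  · rw [mul_inv_eq_iff_eq_mul₀ (pow_ne_zero _ h0)] at h6
    rw [h6, mul_comm]

lemma disc_ne {q : ℂ} (h0 : q ≠ 0) (h1 : ‖q‖ < 1) : ev e4 q ^ 3 - ev e6 q ^ 2 ≠ 0 := by
  obtain ⟨z, hz, rfl⟩ := exists_qq h0 h1
  have h2 := discriminant_eq_E₄_cube_sub_E₆_sq ⟨z, hz⟩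
  rw [← up_e4, ← up_e6] at h2
  intro h
  refine discriminant_ne_zero ⟨z, hz⟩ ?_
  rw [h2, div_eq_zero_iff]
  exact Or.inl h

lemma tendsto_eis (c : ℚ) (k : ℕ) : Tendsto (ev (eis c k)) (𝓝 0) (𝓝 1) := by
  have h := ((cv_eis c k).differentiableAt (z := 0) (by simp)).continuousAt.tendsto
  rwa [ev_eis c k (z := 0) (by simp), show (1 : ℂ) + _ = 1 by simp] at h

section
open MvPolynomial

/-- Polynomials in `q` and the three Eisenstein series. -/
abbrev AA := MvPolynomial (Fin 4) ℚ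

/-- The series attached to a polynomial. -/
noncomputable def ser : AA →ₐ[ℚ] PS := aeval ![PowerSeries.X, e2, e4, e6]

/-- Ramanujan's vector field. -/
noncomputable def thA : Derivation ℚ AA AA := mkDerivation ℚ ![X 0, C (1 / 12) * (X 1 * X 1 - X 2),
  C (1 / 3) * (X 1 * X 2 - X 3), C (1 / 2) * (X 1 * X 3 - X 2 * X 2)]

lemma ser_thA (u : AA) : ser (thA u) = th (ser u) := by
  induction u using MvPolynomial.induction_on with
  | C a => rw [derivation_C, map_zero, algHom_C, Derivation.map_algebraMap]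
  | add p q hp hq => simp only [map_add, hp, hq]
  | mul_X p i hp =>
    have : ser (thA (X i)) = th (ser (X i)) := by
      rw [thA, mkDerivation_X]
      fin_cases i
      · simp [ser, th]
      · simp [ser, ram2]
      · simp [ser, ram4]
      · simp [ser, ram6]
    simp only [Derivation.leibniz, smul_eq_mul, map_add, map_mul, hp, this]

lemma cv_gen (i : Fin 4) : Cv (![PowerSeries.X, e2, e4, e6] i) := by
  fin_cases i
  exacts [cv_X, cv2, cv4, cv6]

lemma cv_ser (u : AA) : Cv (ser u) := by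
  induction u using MvPolynomial.induction_on with
  | C a => rw [algHom_C]; exact cv_C a
  | add p q hp hq => rw [map_add]; exact hp.add hq
  | mul_X p i hp => rw [map_mul, ser, aeval_X]; exact hp.mul (cv_gen i)

lemma ev_ser (u : AA) {z : ℂ} (hz : ‖z‖ < 1) :
    ev (ser u) z = aeval ![z, ev e2 z, ev e4 z, ev e6 z] u := by
  induction u using MvPolynomial.induction_on with
  | C a => rw [algHom_C, algHom_C]; exact ev_C a z
  | add p q hp hq => rw [map_add, map_add, ev_add (cv_ser p) (cv_ser q) hz, hp, hq]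
  | mul_X p i hp =>
    rw [map_mul, map_mul, ev_mul (cv_ser p) (cv_ser _) hz, hp, ser, aeval_X, aeval_X]
    congr 1
    fin_cases i
    exacts [ev_X z, rfl, rfl, rfl]

lemma eval_aeval4 (u : AA) (p0 p1 p2 p3 : Polynomial ℂ) (s : ℂ) :
    aeval ![p0.eval s, p1.eval s, p2.eval s, p3.eval s] u = (aeval ![p0, p1, p2, p3] u).eval s := by
  induction u using MvPolynomial.induction_on with
  | C a => simp
  | add p q hp hq => simp only [map_add, hp, hq, Polynomial.eval_add]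
  | mul_X p i hp =>
    simp only [map_mul, hp, Polynomial.eval_mul, aeval_X]
    congr 1
    fin_cases i <;> rfl

/-- Evaluation at a point. -/
noncomputable def ae (u : AA) (a b c d : ℂ) : ℂ := aeval ![a, b, c, d] u

lemma inf4 (u : AA) (p0 p1 p2 p3 : Polynomial ℂ) {S : Set ℂ} (hS : S.Infinite)
    (h : ∀ s ∈ S, ae u (p0.eval s) (p1.eval s) (p2.eval s) (p3.eval s) = 0) (s : ℂ) :
    ae u (p0.eval s) (p1.eval s) (p2.eval s) (p3.eval s) = 0 := by
  rw [ae, eval_aeval4, Polynomial.eq_zero_of_infinite_isRoot (aeval ![p0, p1, p2, p3] u)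
    (hS.mono fun s hs => (eval_aeval4 u _ _ _ _ s).symm.trans (h s hs)), Polynomial.eval_zero]

lemma inf_ne (a b : ℂ) : {s : ℂ | s ≠ a ∧ s ≠ b}.Infinite := by
  refine (Set.infinite_univ.sdiff (Set.toFinite {a, b})).mono fun s hs => ?_
  simpa [not_or] using hs

/-- Functions with at most a pole at the origin. -/
def Pole (g : ℂ → ℂ) : Prop :=
  ∃ (N : ℕ) (Ψ : ℂ → ℂ), Differentiable ℂ Ψ ∧ ∀ v, v ≠ 0 → Ψ v = v ^ N * g v

lemma pole_aeval (g : Fin 4 → ℂ → ℂ) (hg : ∀ i, Pole (g i)) (u : AA) :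
    Pole fun v => aeval (fun i => g i v) u := by
  induction u using MvPolynomial.induction_on with
  | C a => exact ⟨0, fun _ => a, by fun_prop, fun v _ => by simp⟩
  | add p q hp hq =>
    obtain ⟨N, Ψ, h1, h2⟩ := hp
    obtain ⟨M, Φ, h3, h4⟩ := hq
    refine ⟨N + M, fun v => v ^ M * Ψ v + v ^ N * Φ v, by fun_prop, fun v hv => ?_⟩
    simp only [h2 v hv, h4 v hv, map_add]
    ring
  | mul_X p i hp =>
    obtain ⟨N, Ψ, h1, h2⟩ := hp
    obtain ⟨M, Φ, h3, h4⟩ := hg i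
    refine ⟨N + M, fun v => Ψ v * Φ v, by fun_prop, fun v hv => ?_⟩
    simp only [h2 v hv, h4 v hv, map_mul, aeval_X]
    ring

end

lemma Pole.eq_zero {g : ℂ → ℂ} (hg : Pole g) (h : ∃ᶠ v in 𝓝[≠] 0, g v = 0) (v : ℂ) (hv : v ≠ 0) :
    g v = 0 := by
  obtain ⟨N, Ψ, h1, h2⟩ := hg
  have h3 : AnalyticOnNhd ℂ Ψ Set.univ := fun z _ => h1.analyticAt z
  have := h3.eqOn_zero_of_preconnected_of_frequently_eq_zero isPreconnected_univ (Set.mem_univ 0)
    ((h.and_eventually self_mem_nhdsWithin).mono fun v hv => by rw [h2 v hv.2, hv.1, mul_zero])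
    (Set.mem_univ v)
  rw [h2 v hv] at this
  exact (mul_eq_zero.1 this).resolve_left (pow_ne_zero _ hv)

lemma inf_shift (τ : ℂ) : (Set.range fun n : ℕ => τ + n).Infinite :=
  Set.infinite_range_of_injective fun a b h => by simpa using h

lemma lawS {τ : ℂ} (hτ : 0 < τ.im) (n : ℕ) : τ + n ≠ 0 ∧ 0 < (-(τ + n)⁻¹).im ∧
    ev e2 (qq (-(τ + n)⁻¹)) = (τ + n) ^ 2 * ev e2 (qq τ) + kap * (τ + n) ∧
    ev e4 (qq (-(τ + n)⁻¹)) = (τ + n) ^ 4 * ev e4 (qq τ) ∧
    ev e6 (qq (-(τ + n)⁻¹)) = (τ + n) ^ 6 * ev e6 (qq τ) := by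
  simpa [neg_div] using laws hτ (a := 0) (b := -1) (c := 1) (d := n) (by simp)

lemma ratio_inf : {r : ℂ | ∃ τ : ℂ, 0 < τ.im ∧ ev e6 (qq τ) ≠ 0 ∧
    r = ev e4 (qq τ) ^ 3 / ev e6 (qq τ) ^ 2}.Infinite := by
  intro hS
  have h4 : Tendsto (ev e4) (𝓝[≠] 0) (𝓝 1) := (tendsto_eis _ _).mono_left nhdsWithin_le_nhds
  have h6 : Tendsto (ev e6) (𝓝[≠] 0) (𝓝 1) := (tendsto_eis _ _).mono_left nhdsWithin_le_nhds
  have h1 := (h4.pow 3).div (h6.pow 2) (by simp)
  rw [one_pow, one_pow, div_one] at h1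
  have h2 := h1.eventually (hS.isClosed.isOpen_compl.mem_nhds (by
    rintro ⟨τ, hτ, h0, h⟩
    rw [eq_comm, div_eq_one_iff_eq (pow_ne_zero _ h0), ← sub_eq_zero] at h
    exact disc_ne (qq_ne τ) (norm_qq_lt hτ) h))
  have h3 : ∀ᶠ z in 𝓝[≠] (0 : ℂ), ‖z‖ < 1 := nhdsWithin_le_nhds
    (mem_of_superset (Metric.ball_mem_nhds (0 : ℂ) one_pos) fun z hz => by simpa using hz)
  obtain ⟨q, ⟨k1, k2⟩, k3, k4⟩ :=
    ((h2.and h3).and ((h6.eventually_ne one_ne_zero).and self_mem_nhdsWithin)).exists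
  obtain ⟨τ, hτ, rfl⟩ := exists_qq k4 k2
  exact k1 ⟨τ, hτ, k3, rfl⟩

open Polynomial

variable {u : AA}

lemma stepA (h0 : ∀ τ : ℂ, 0 < τ.im → ae u (qq τ) (ev e2 (qq τ)) (ev e4 (qq τ)) (ev e6 (qq τ)) = 0)
    {τ : ℂ} (hτ : 0 < τ.im) : ∀ v, v ≠ 0 → ae u (qq (-v)) (v⁻¹ ^ 2 * ev e2 (qq τ) + kap * v⁻¹)
      (v⁻¹ ^ 4 * ev e4 (qq τ)) (v⁻¹ ^ 6 * ev e6 (qq τ)) = 0 := by
  refine (pole_aeval (fun i v => ![qq (-v), v⁻¹ ^ 2 * ev e2 (qq τ) + kap * v⁻¹,
    v⁻¹ ^ 4 * ev e4 (qq τ), v⁻¹ ^ 6 * ev e6 (qq τ)] i) (fun i => ?_) u).eq_zero ?_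
  · fin_cases i
    · exact ⟨0, fun v => qq (-v), by unfold qq; fun_prop, fun v _ => by simp⟩
    · exact ⟨2, fun v => ev e2 (qq τ) + kap * v, by fun_prop, fun v hv => by
        simp only [Fin.mk_one, Matrix.cons_val_one, Matrix.cons_val_zero]; field_simp⟩
    · exact ⟨4, fun v => ev e4 (qq τ), by fun_prop, fun v hv => by simp [hv]⟩
    · exact ⟨6, fun v => ev e6 (qq τ), by fun_prop, fun v hv => by simp [hv]⟩
  · have h1 : Tendsto (fun n : ℕ => (τ + n)⁻¹) atTop (𝓝[≠] 0) := by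
      refine tendsto_nhdsWithin_iff.2 ⟨?_, .of_forall fun n => inv_ne_zero (lawS hτ n).1⟩
      exact tendsto_inv₀_cobounded.comp ((tendsto_const_add_cobounded τ).comp
        (tendsto_norm_atTop_iff_cobounded.1 (by simpa using tendsto_natCast_atTop_atTop)))
    refine h1.frequently (.of_forall fun n => ?_)
    obtain ⟨-, k1, k2, k4, k6⟩ := lawS hτ n
    have := h0 _ k1
    rw [k2, k4, k6] at this
    simp only [inv_inv]
    exact this

lemma stepB (h0 : ∀ τ : ℂ, 0 < τ.im → ae u (qq τ) (ev e2 (qq τ)) (ev e4 (qq τ)) (ev e6 (qq τ)) = 0)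
    {τ : ℂ} (hτ : 0 < τ.im) (z w : ℂ) : ae u z (w ^ 2 * ev e2 (qq τ) + kap * w)
      (w ^ 4 * ev e4 (qq τ)) (w ^ 6 * ev e6 (qq τ)) = 0 := by
  have h1 : ∀ v : ℂ, 0 < v.im → ae u (qq (-v)) (w ^ 2 * ev e2 (qq τ) + kap * w)
      (w ^ 4 * ev e4 (qq τ)) (w ^ 6 * ev e6 (qq τ)) = 0 := fun v hv => by
    have := inf4 u (C (qq (-v))) (X ^ 2 * C (ev e2 (qq τ)) + C kap * X) (X ^ 4 * C (ev e4 (qq τ)))
      (X ^ 6 * C (ev e6 (qq τ))) (S := Set.range fun n : ℕ => (v + n)⁻¹)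
      (Set.infinite_range_of_injective fun a b h => by simpa using h) (by
        rintro _ ⟨n, rfl⟩
        have h2 := stepA h0 hτ _ (lawS hv n).1
        rw [neg_add, qq_add, show -(n : ℂ) = (-n : ℤ) by simp, qq_int, mul_one] at h2
        simpa only [eval_X, eval_C, eval_mul, eval_add, eval_pow] using h2) w
    simpa only [eval_X, eval_C, eval_mul, eval_add, eval_pow] using this
  have := inf4 u X (C (w ^ 2 * ev e2 (qq τ) + kap * w)) (C (w ^ 4 * ev e4 (qq τ)))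
    (C (w ^ 6 * ev e6 (qq τ))) (S := Set.range fun n : ℕ => qq (-((n + 1) * I)))
    (Set.infinite_range_of_injective fun a b h => by
      have h2 := congrArg norm h
      simp only [norm_qq, Real.exp_eq_exp] at h2
      simpa [Real.pi_ne_zero] using h2) (by
      rintro _ ⟨n, rfl⟩
      simp only [eval_X, eval_C]
      exact h1 _ (by simp; positivity)) z
  simpa only [eval_X, eval_C] using this

lemma stepD (h0 : ∀ τ : ℂ, 0 < τ.im → ae u (qq τ) (ev e2 (qq τ)) (ev e4 (qq τ)) (ev e6 (qq τ)) = 0)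
    {τ : ℂ} (hτ : 0 < τ.im) (z x l : ℂ) :
    ae u z x (l ^ 4 * ev e4 (qq τ)) (l ^ 6 * ev e6 (qq τ)) = 0 := by
  have hC : ∀ w w' : ℂ, ae u z (w ^ 2 * (w' ^ 2 * ev e2 (qq τ) + kap * w') + kap * w)
      (w ^ 4 * (w' ^ 4 * ev e4 (qq τ))) (w ^ 6 * (w' ^ 6 * ev e6 (qq τ))) = 0 := by
    intro w w'
    have := inf4 u (C z) (C (w ^ 2) * (X ^ 2 * C (ev e2 (qq τ)) + C kap * X) + C (kap * w))
      (C (w ^ 4) * (X ^ 4 * C (ev e4 (qq τ)))) (C (w ^ 6) * (X ^ 6 * C (ev e6 (qq τ))))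
      (inf_shift τ) (by
        rintro _ ⟨n, rfl⟩
        obtain ⟨-, k1, k2, k4, k6⟩ := lawS hτ n
        have := stepB h0 k1 z w
        rw [k2, k4, k6] at this
        simpa only [eval_X, eval_C, eval_mul, eval_add, eval_pow] using this) w'
    simpa only [eval_X, eval_C, eval_mul, eval_add, eval_pow] using this
  have h1 : ∀ l : ℂ, l ≠ 0 ∧ l ≠ -1 →
      ae u z x (l ^ 4 * ev e4 (qq τ)) (l ^ 6 * ev e6 (qq τ)) = 0 := fun l hl => by
    have h2 : kap * (l + 1) ≠ 0 := mul_ne_zero kap_ne fun h => hl.2 (eq_neg_of_add_eq_zero_left h)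
    have := inf4 u (C z) X (C (l ^ 4 * ev e4 (qq τ))) (C (l ^ 6 * ev e6 (qq τ)))
      (inf_ne (l ^ 2 * ev e2 (qq τ)) 0) (by
        rintro s ⟨hs, -⟩
        have h3 : (s - l ^ 2 * ev e2 (qq τ)) / (kap * (l + 1)) ≠ 0 :=
          div_ne_zero (sub_ne_zero.2 hs) h2
        have h4 := hC ((s - l ^ 2 * ev e2 (qq τ)) / (kap * (l + 1)))
          (l / ((s - l ^ 2 * ev e2 (qq τ)) / (kap * (l + 1))))
        have h5 := div_mul_cancel₀ (s - l ^ 2 * ev e2 (qq τ)) h2
        generalize (s - l ^ 2 * ev e2 (qq τ)) / (kap * (l + 1)) = w at *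
        simp only [eval_X, eval_C]
        convert h4 using 2
        · field_simp
          linear_combination -h5
        · field_simp
        · field_simp) x
    simpa only [eval_X, eval_C] using this
  have := inf4 u (C z) (C x) (X ^ 4 * C (ev e4 (qq τ))) (X ^ 6 * C (ev e6 (qq τ)))
    (inf_ne 0 (-1)) (fun s hs => by
      simpa only [eval_X, eval_C, eval_mul, eval_pow] using h1 s hs) l
  simpa only [eval_X, eval_C, eval_mul, eval_pow] using this

/-- The functions `q`, `E₂`, `E₄`, `E₆` are algebraically independent. -/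
theorem ser_inj (u : AA) (hu : ser u = 0) : u = 0 := by
  have h0 : ∀ τ : ℂ, 0 < τ.im → ae u (qq τ) (ev e2 (qq τ)) (ev e4 (qq τ)) (ev e6 (qq τ)) = 0 :=
    fun τ hτ => by rw [ae, ← ev_ser u (norm_qq_lt hτ), hu]; simp [ev, tm]
  have hE : ∀ z x y w : ℂ, ae u z x y w = 0 := by
    intro z x y w
    have h1 : ∀ w : ℂ, w ≠ 0 ∧ w ≠ 0 → ae u z x y w = 0 := fun w hw => by
      have := inf4 u (C z) (C x) X (C w) (S := {s | ae u z x s w = 0})
        (Set.Infinite.of_image (fun s => s ^ 3 / w ^ 2) (ratio_inf.mono (by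
          rintro _ ⟨τ, hτ, k0, rfl⟩
          obtain ⟨l, hl⟩ := IsAlgClosed.exists_pow_nat_eq (w / ev e6 (qq τ)) (n := 6) (by norm_num)
          rw [eq_div_iff k0] at hl
          refine ⟨l ^ 4 * ev e4 (qq τ), hl ▸ stepD h0 hτ z x l, ?_⟩
          have hl0 : l ≠ 0 := by
            rintro rfl
            exact hw.1 (by simpa using hl.symm)
          simp only [← hl]
          field_simp))) (fun s hs => by simp only [eval_X, eval_C]; exact hs) y
      simpa only [eval_X, eval_C] using this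
    have := inf4 u (C z) (C x) (C y) X (inf_ne 0 0)
      (fun s hs => by simpa only [eval_X, eval_C] using h1 s hs) w
    simpa only [eval_X, eval_C] using this
  apply MvPolynomial.map_injective (algebraMap ℚ ℂ) (algebraMap ℚ ℂ).injective
  rw [map_zero]
  refine MvPolynomial.funext fun x => ?_
  rw [map_zero, MvPolynomial.eval_map, ← MvPolynomial.aeval_def, ← hE (x 0) (x 1) (x 2) (x 3), ae]
  congr 2
  funext i
  fin_cases i <;> rfl

end Pool.Agent.Lib.MP_8f9d9d_nt
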