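import Pool.Agent.Lib.MP_8f9d9d_nt.H39Der
import Pool.Agent.Lib.MP_8f9d9d_nt.H39Mahler

/-! Two copies of the ring of quasimodular forms in a differential field. -/

open Finset MvPolynomial

namespace Pool.Agent.Lib.MP_8f9d9d_nt

open Pool.Agent.Lib.MP_1f047c_nt

/-- Polynomials in the three Eisenstein series. -/
abbrev BB := MvPolynomial (Fin 3) ℚ

/-- The inclusion. -/
noncomputable def inc : BB →ₐ[ℚ] AA := rename Fin.succ

/-- Ramanujan's vector field without `q`. -/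
noncomputable def thB : Derivation ℚ BB BB := mkDerivation ℚ ![C (1 / 12) * (X 0 * X 0 - X 1),
  C (1 / 3) * (X 0 * X 1 - X 2), C (1 / 2) * (X 0 * X 2 - X 1 * X 1)]

lemma inc_X (j : Fin 3) : inc (X j) = X j.succ := rename_X _ _

lemma thA_inc (u : BB) : thA (inc u) = inc (thB u) := by
  induction u using MvPolynomial.induction_on with
  | C a => rw [derivation_C, map_zero, algHom_C, Derivation.map_algebraMap]
  | add p q hp hq => simp only [map_add, hp, hq]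
  | mul_X p i hp =>
    have : thA (inc (X i)) = inc (thB (X i)) := by
      rw [inc_X, thA, thB, mkDerivation_X, mkDerivation_X]
      fin_cases i <;> simp [inc]
    simp only [Derivation.leibniz, smul_eq_mul, map_add, map_mul, hp, this]

variable {k Ω σ : Type} [Field k] [Field Ω] [CharZero k] [CharZero Ω] [Algebra k Ω]

omit [CharZero Ω] in
lemma hom_C {τ : Type} (ψ : MvPolynomial τ ℚ →+* Ω) (a : ℚ) : ψ (C a) = a :=
  eq_ratCast (ψ.comp C) a

omit [CharZero Ω] in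
lemma hor {τ : Type} (ψ : MvPolynomial τ ℚ →+* Ω)
    (θ : Derivation ℚ (MvPolynomial τ ℚ) (MvPolynomial τ ℚ)) (D : Der Ω) (c : Ω)
    (h : ∀ j, D (ψ (X j)) = c * ψ (θ (X j))) (u) : D (ψ u) = c * ψ (θ u) := by
  induction u using MvPolynomial.induction_on with
  | C a => rw [derivation_C, map_zero, hom_C, der_rat, mul_zero]
  | add p q hp hq => simp only [map_add, hp, hq, mul_add]
  | mul_X p i hp =>
    simp only [Derivation.leibniz, smul_eq_mul, map_add, map_mul, hp, h]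
    ring

omit [CharZero Ω] in
lemma der_sum {ι : Type} (I : Finset ι) (D : ι → Der Ω) (z : Ω) :
    (∑ l ∈ I, D l) z = ∑ l ∈ I, D l z := by
  classical
  induction I using Finset.induction_on with
  | empty => simp
  | insert a s ha ih => rw [sum_insert ha, sum_insert ha, Derivation.add_apply, ih]

/-- The quotient giving the modular invariant. -/
def Jq (Q R : Ω) : Ω := 1728 * Q ^ 3 / (Q ^ 3 - R ^ 2)

omit [CharZero Ω] in
lemma der_ofNat (d : Der Ω) (n : ℕ) [n.AtLeastTwo] : d (ofNat(n) : Ω) = 0 := d.map_natCast n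

omit [CharZero Ω] in
lemma dJ (d : Der Ω) {Q R : Ω} (h : Q ^ 3 - R ^ 2 ≠ 0) :
    d (Jq Q R) = 1728 * Q ^ 2 * R * (3 * R * d Q - 2 * Q * d R) / (-(Q ^ 3 - R ^ 2) ^ 2) := by
  simp only [Jq, Derivation.leibniz_div, Derivation.leibniz, map_sub, Derivation.leibniz_pow,
    der_ofNat, smul_eq_mul, nsmul_eq_mul]
  push_cast
  field_simp
  ring

/-- First coefficient. -/
def rr (J : Ω) : Ω := 2 / (3 * J) + 1 / (2 * (J - 1728))

/-- Second coefficient. -/
def ss (J : Ω) : Ω := 1 / (J * (J - 1728))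

omit [CharZero Ω] in
lemma d_rr (d : Der Ω) {J : Ω} (h : d J = 0) : d (rr J) = 0 := by
  simp [rr, Derivation.leibniz_div, Derivation.leibniz_inv, der_ofNat, h]

omit [CharZero Ω] in
lemma d_ss (d : Der Ω) {J : Ω} (h : d J = 0) : d (ss J) = 0 := by
  simp [ss, Derivation.leibniz_inv, der_ofNat, h]

section PQR
variable {P Q R g w : Ω} (hQ : Q ≠ 0) (hR : R ≠ 0) (hΔ : Q ^ 3 - R ^ 2 ≠ 0) (hg : g ≠ 0)
include hQ hR hΔ

omit hQ hR in
lemma Jq_sub : Jq Q R - 1728 = 1728 * R ^ 2 / (Q ^ 3 - R ^ 2) := by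
  rw [Jq]; field_simp; ring

omit hR in
lemma Jq_ne : Jq Q R ≠ 0 := div_ne_zero (mul_ne_zero (by norm_num) (pow_ne_zero _ hQ)) hΔ

omit hR in
lemma XJ {D : Der Ω} (h2 : D Q = g * ((1 / 3 : ℚ) * (P * Q - R)))
    (h3 : D R = g * ((1 / 2 : ℚ) * (P * R - Q * Q))) : D (Jq Q R) = -(g * Jq Q R * R / Q) := by
  rw [dJ D hΔ, h2, h3, Jq]
  push_cast
  field_simp
  ring

lemma Xu {D : Der Ω} (h0 : D g = w * g) (h2 : D Q = g * ((1 / 3 : ℚ) * (P * Q - R)))
    (h3 : D R = g * ((1 / 2 : ℚ) * (P * R - Q * Q))) : D (-(g * Jq Q R * R / Q)) =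
      (w + (1 / 6 : ℚ) * (g * P)) * -(g * Jq Q R * R / Q) +
        rr (Jq Q R) * (-(g * Jq Q R * R / Q) * -(g * Jq Q R * R / Q)) := by
  have hJ := Jq_ne hQ hΔ
  have e : (Jq Q R - 1728)⁻¹ = Q ^ 3 / (Jq Q R * R ^ 2) := by
    rw [Jq_sub hΔ, Jq]; field_simp
  simp only [map_neg, Derivation.leibniz_div, Derivation.leibniz, h0, h2, h3, XJ hQ hΔ h2 h3,
    smul_eq_mul, rr, one_div, mul_inv, e]
  generalize Jq Q R = J at *
  push_cast
  field_simp
  ring

lemma ss_eq : ss (Jq Q R) * (-(g * Jq Q R * R / Q) * -(g * Jq Q R * R / Q)) = g ^ 2 * Q := by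
  have hJ := Jq_ne hQ hΔ
  have e : (Jq Q R - 1728)⁻¹ = Q ^ 3 / (Jq Q R * R ^ 2) := by
    rw [Jq_sub hΔ, Jq]; field_simp
  simp only [ss, one_div, mul_inv, e]
  generalize Jq Q R = J at *
  field_simp

lemma Xp {D : Der Ω} (h0 : D g = w * g) (h1 : D P = g * ((1 / 12 : ℚ) * (P * P - Q))) :
    D ((1 / 6 : ℚ) * (g * P)) = w * ((1 / 6 : ℚ) * (g * P)) +
      (1 / 2 : ℚ) * ((1 / 6 : ℚ) * (g * P) * ((1 / 6 : ℚ) * (g * P))) - (1 / 72 : ℚ) *
        (ss (Jq Q R) * (-(g * Jq Q R * R / Q) * -(g * Jq Q R * R / Q))) := by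
  simp only [ss_eq hQ hR hΔ, Derivation.leibniz, h0, h1, der_rat, smul_eq_mul]
  push_cast
  ring

include hg in
lemma back {d : Der Ω} (h0 : d g = 0) (h1 : d (Jq Q R) = 0) (h2 : d (-(g * Jq Q R * R / Q)) = 0)
    (h3 : d ((1 / 6 : ℚ) * (g * P)) = 0) : d P = 0 ∧ d Q = 0 ∧ d R = 0 := by
  have k2 : d Q = 0 := by
    have := congrArg d (ss_eq (g := g) hQ hR hΔ)
    rw [Derivation.leibniz, Derivation.leibniz, h2, d_ss d h1] at this
    simpa [h0, hg] using this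
  refine ⟨by simpa [der_rat, h0, hg, Derivation.leibniz_inv, der_ofNat] using h3, k2, ?_⟩
  simpa [Derivation.leibniz_div, h0, h1, k2, hg, hQ, Jq_ne hQ hΔ] using h2

end PQR

/-- The setting. -/
structure Frame (k Ω σ : Type) [Field k] [Field Ω] [CharZero k] [Algebra k Ω] where
  /-- generators -/
  y : σ → k
  hy : IntermediateField.adjoin ℚ (Set.range y) = ⊤
  /-- the two points -/
  q : Fin 2 → k
  /-- the two embeddings -/
  φ : Fin 2 → AA →+* Ω
  hq : ∀ i, φ i (X 0) = algebraMap k Ω (q i)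
  inj : ∀ i, Function.Injective (φ i)
  lift : ∀ d : Der k, ∃ D : Der Ω, (∀ z, D (algebraMap k Ω z) = algebraMap k Ω (d z)) ∧
    ∀ i u, D (φ i u) = algebraMap k Ω (d (q i) / q i) * φ i (thA u)
  gen : ∀ d : Der Ω, (∀ z, d (algebraMap k Ω z) = 0) → (∀ i u, d (φ i u) = 0) → d = 0

namespace Frame

variable (F : Frame k Ω σ)

omit [CharZero Ω] in
lemma X_ne (i : Fin 2) (j : Fin 4) : F.φ i (X j) ≠ 0 := fun h =>
  X_ne_zero j (F.inj i (h.trans (map_zero _).symm))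

omit [CharZero Ω] in
lemma disc (i : Fin 2) : F.φ i (X 2) ^ 3 - F.φ i (X 3) ^ 2 ≠ 0 := fun h => by
  rw [← map_pow, ← map_pow, ← map_sub, ← map_zero (F.φ i)] at h
  simpa using congrArg (eval ![0, 0, 1, 0]) (F.inj i h)

omit [CharZero Ω] in
lemma th1 (i : Fin 2) : F.φ i (thA (X 1)) =
    (1 / 12 : ℚ) * (F.φ i (X 1) * F.φ i (X 1) - F.φ i (X 2)) := by
  rw [thA, mkDerivation_X, ← hom_C (F.φ i), ← map_mul, ← map_sub, ← map_mul]; rfl

omit [CharZero Ω] in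
lemma th2 (i : Fin 2) : F.φ i (thA (X 2)) =
    (1 / 3 : ℚ) * (F.φ i (X 1) * F.φ i (X 2) - F.φ i (X 3)) := by
  rw [thA, mkDerivation_X, ← hom_C (F.φ i), ← map_mul, ← map_sub, ← map_mul]; rfl

omit [CharZero Ω] in
lemma th3 (i : Fin 2) : F.φ i (thA (X 3)) =
    (1 / 2 : ℚ) * (F.φ i (X 1) * F.φ i (X 3) - F.φ i (X 2) * F.φ i (X 2)) := by
  rw [thA, mkDerivation_X, ← hom_C (F.φ i), ← map_mul, ← map_mul, ← map_sub, ← map_mul]; rfl

lemma trans (i : Fin 2) : Transcendental ℚ (F.q i) := fun h => by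
  have h1 : IsAlgebraic ℚ ((F.φ i).toRatAlgHom (X 0)) := by
    rw [RingHom.toRatAlgHom_apply, F.hq]; exact h.algebraMap
  exact transcendental_X ℚ (0 : Fin 4) ((isAlgebraic_algHom_iff _ (F.inj i)).1 h1)

lemma q_ne (i : Fin 2) : F.q i ≠ 0 := fun h => F.trans i (h ▸ isAlgebraic_zero)

variable [Finite σ]

lemma vert (i : Fin 2) (v : Fin 4 → Ω) (hv : v 0 = 0) : ∃ Z : Der Ω,
    (∀ z, Z (algebraMap k Ω z) = 0) ∧ ∀ j, Z (F.φ i (X j)) = v j := by
  classical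
  let Φ : AA →+* DualNumber Ω := eval₂Hom ((TrivSqZeroExt.inlHom Ω Ω).comp (Rat.castHom Ω))
    fun j => TrivSqZeroExt.inl (F.φ i (X j)) + TrivSqZeroExt.inr (v j)
  have hΦ : ∀ u, (Φ u).fst = F.φ i u := fun u => by
    refine RingHom.congr_fun (f := (TrivSqZeroExt.fstHom Ω Ω Ω).toRingHom.comp Φ) ?_ u
    exact ringHom_ext (fun a => by rw [hom_C, hom_C]) fun j => by simp [Φ]
  obtain ⟨δ, hδ⟩ := ext_ring Φ fun u hu => by
    rw [hΦ, ← map_zero (F.φ i)] at hu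
    rw [F.inj i hu, map_zero, TrivSqZeroExt.snd_zero]
  have hδ' : ∀ j, δ (F.φ i (X j)) = v j := fun j => by rw [← hΦ, hδ]; simp [Φ]
  let b := Module.Free.chooseBasis k Ω
  let d : Module.Free.ChooseBasisIndex k Ω → Der k := fun l => Derivation.mk'
    (AddMonoidHom.toIntLinearMap
      { toFun := fun z => b.repr (δ (algebraMap k Ω z)) l
        map_zero' := by simp
        map_add' := by simp }) fun x z => by
      change b.repr (δ (algebraMap k Ω (x * z))) l = x • b.repr (δ (algebraMap k Ω z)) l +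
        z • b.repr (δ (algebraMap k Ω x)) l
      rw [map_mul, Derivation.leibniz, smul_eq_mul, smul_eq_mul, ← Algebra.smul_def,
        ← Algebra.smul_def, map_add, map_smul, map_smul]
      rfl
  have hd : ∀ l z, d l z = b.repr (δ (algebraMap k Ω z)) l := fun _ _ => rfl
  choose D hD hD' using fun l => F.lift (d l)
  have := Fintype.ofFinite σ
  let I := univ.biUnion fun s => (b.repr (δ (algebraMap k Ω (F.y s)))).support
  refine ⟨δ - ∑ l ∈ I, b l • D l, fun z => ?_, fun j => ?_⟩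
  · have hz : z ∈ IntermediateField.adjoin ℚ (Set.range F.y) := F.hy ▸ IntermediateField.mem_top
    induction hz using IntermediateField.adjoin_induction with
    | mem x hx =>
      obtain ⟨s, rfl⟩ := hx
      simp only [Derivation.sub_apply, der_sum, Derivation.smul_apply, hD, hd]
      rw [sub_eq_zero]
      conv_lhs => rw [← b.linearCombination_repr (δ _), Finsupp.linearCombination_apply,
        Finsupp.sum_of_support_subset (s := I) _
          (subset_biUnion_of_mem (fun s => (b.repr (δ (algebraMap k Ω (F.y s)))).support)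
            (mem_univ s)) _ (by simp)]
      exact sum_congr rfl fun l _ => by rw [Algebra.smul_def, smul_eq_mul, mul_comm]
    | algebraMap x => rw [eq_ratCast, map_ratCast, der_rat]
    | add x y _ _ hx hy => rw [map_add, map_add, hx, hy, add_zero]
    | inv x _ hx => rw [map_inv₀, Derivation.leibniz_inv, hx, smul_zero]
    | mul x y _ _ hx hy => rw [map_mul, Derivation.leibniz, hx, hy, smul_zero, smul_zero, add_zero]
  · simp only [Derivation.sub_apply, der_sum, Derivation.smul_apply, hD', hd, ← F.hq,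
      hδ', hv]
    simp

/-- The value of the modular invariant. -/
noncomputable def J (i : Fin 2) : Ω := Jq (F.φ i (X 2)) (F.φ i (X 3))

/-- `D` acts on the Eisenstein series as a multiple of Ramanujan's vector field. -/
def Act (D : Der Ω) (i : Fin 2) (g : Ω) : Prop :=
  ∀ j : Fin 3, D (F.φ i (X j.succ)) = g * F.φ i (thA (X j.succ))

section Act
omit [Finite σ]
variable {F} {D : Der Ω} {i : Fin 2} {g : Ω} (h : F.Act D i g)
include h

omit [CharZero Ω] in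
lemma Act.h1 : D (F.φ i (X 1)) =
    g * ((1 / 12 : ℚ) * (F.φ i (X 1) * F.φ i (X 1) - F.φ i (X 2))) := F.th1 i ▸ h 0

omit [CharZero Ω] in
lemma Act.h2 : D (F.φ i (X 2)) =
    g * ((1 / 3 : ℚ) * (F.φ i (X 1) * F.φ i (X 2) - F.φ i (X 3))) := F.th2 i ▸ h 1

omit [CharZero Ω] in
lemma Act.h3 : D (F.φ i (X 3)) =
    g * ((1 / 2 : ℚ) * (F.φ i (X 1) * F.φ i (X 3) - F.φ i (X 2) * F.φ i (X 2))) := F.th3 i ▸ h 2

lemma Act.hJ : D (F.J i) = -(g * F.J i * F.φ i (X 3) / F.φ i (X 2)) :=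
  XJ (F.X_ne i 2) (F.disc i) h.h2 h.h3

lemma Act.J_ne (hg : g ≠ 0) : D (F.J i) ≠ 0 := by
  rw [h.hJ]
  exact neg_ne_zero.2 (div_ne_zero (mul_ne_zero (mul_ne_zero hg (Jq_ne (F.X_ne i 2) (F.disc i)))
    (F.X_ne i 3)) (F.X_ne i 2))

omit [CharZero Ω] in
lemma Act.hinc (u : BB) : D (F.φ i (inc u)) = g * F.φ i (inc (thB u)) :=
  hor ((F.φ i).comp inc.toRingHom) thB D g (fun j => by
    change D (F.φ i (inc (X j))) = g * F.φ i (inc (thB (X j)))
    rw [← thA_inc, inc_X, h j]) u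

end Act

lemma exists_act (i : Fin 2) : ∃ Z : Der Ω, (∀ z, Z (algebraMap k Ω z) = 0) ∧ F.Act Z i 1 := by
  obtain ⟨Z, h1, h2⟩ := F.vert i (Fin.cons 0 fun j => F.φ i (thA (X j.succ))) rfl
  exact ⟨Z, h1, fun j => by rw [h2, one_mul]; rfl⟩

variable {P : MvPolynomial (Fin 2) k} (hP : P ≠ 0) (hJ : aeval ![F.J 0, F.J 1] P = 0)
include hP hJ

lemma kill01 {d : Der Ω} (hd : ∀ z, d (algebraMap k Ω z) = 0) (h : d (F.J 0) = 0) :
    d (F.J 1) = 0 := by
  obtain ⟨Z, h1, h2⟩ := F.exists_act 0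
  exact kill2 hP hJ h1 (h2.J_ne one_ne_zero) hd h

lemma kill10 {d : Der Ω} (hd : ∀ z, d (algebraMap k Ω z) = 0) (h : d (F.J 1) = 0) :
    d (F.J 0) = 0 := by
  obtain ⟨Z, h1, h2⟩ := F.exists_act 1
  refine kill2 (P := rename (Equiv.swap 0 1) P) (fun h0 => hP ?_) ?_ h1 (h2.J_ne one_ne_zero) hd h
  · exact rename_injective _ (Equiv.injective _) (h0.trans (map_zero _).symm)
  · rw [aeval_rename, ← hJ]
    congr 2
    funext i
    fin_cases i <;> rfl

section Fixed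
variable {d : Der k} {D : Der Ω} (hD : ∀ z, D (algebraMap k Ω z) = algebraMap k Ω (d z))
  (hD' : ∀ i u, D (F.φ i u) = algebraMap k Ω (d (F.q i) / F.q i) * F.φ i (thA u))
  (h0 : d (F.q 0) = F.q 0) (h1 : d (F.q 1) ≠ 0)
include hD hD' h0 h1

omit h0 in
lemma uniq {e : Der Ω} (he : ∀ z, e (algebraMap k Ω z) = 0) (he' : ∀ j, e (F.φ 0 (X j)) = 0) :
    e = 0 := by
  let K : Der Ω → Prop := fun e => (∀ z, e (algebraMap k Ω z) = 0) ∧ ∀ u, e (F.φ 0 u) = 0
  have hK : K e := ⟨he, fun u => by simpa using hor (F.φ 0) 0 e 0 (by simpa using he') u⟩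
  have cl : ∀ e, K e → K ⁅e, D⁆ := fun e h =>
    ⟨fun z => by simp [Derivation.commutator_apply, hD, h.1],
      fun u => by simp [Derivation.commutator_apply, hD', h.1, h.2, -map_div₀]⟩
  have nxt : ∀ x, (∀ e, K e → e x = 0) → ∀ e, K e → e (D x) = 0 := fun x hx e h => by
    simpa [Derivation.commutator_apply, hx e h] using hx _ (cl e h)
  have k1 : ∀ e, K e → e (F.J 1) = 0 := fun e h => F.kill01 hP hJ h.1 (by
    simp [J, dJ e (F.disc 0), h.2])
  have A : F.Act D 1 _ := fun j => hD' 1 _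
  set g := d (F.q 1) / F.q 1
  have hg : g ≠ 0 := div_ne_zero h1 (F.q_ne 1)
  have hg' : algebraMap k Ω g ≠ 0 := by simpa using hg
  have k2 := nxt _ k1
  have hu := A.J_ne hg'
  rw [A.hJ] at k2 hu
  have k3 := nxt _ k2 e hK
  have hw : D (algebraMap k Ω g) = algebraMap k Ω (d g / g) * algebraMap k Ω g := by
    rw [hD, ← map_mul, div_mul_cancel₀ _ hg]
  rw [J, Xu (F.X_ne 1 2) (F.X_ne 1 3) (F.disc 1) hw A.h2 A.h3] at k3
  have k4 := k2 e hK
  have k5 := k1 e hK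
  rw [J] at k4 k5 hu
  have k6 : ∀ w p u r : Ω, e ((w + p) * u + r * (u * u)) = 0 → e w = 0 → e u = 0 → e r = 0 →
      u ≠ 0 → e p = 0 := fun w p u r a1 a2 a3 a4 a5 => by simpa [a2, a3, a4, a5] using a1
  replace k3 := k6 _ _ _ _ k3 (he _) k4 (d_rr e k5) hu
  obtain ⟨b1, b2, b3⟩ := back (F.X_ne 1 2) (F.X_ne 1 3) (F.disc 1) hg' (he _) k5 k4 k3
  refine F.gen e he fun i u => ?_
  fin_cases i
  · exact hK.2 u
  · simpa using hor (F.φ 1) 0 e 0 (fun j => by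
      fin_cases j
      · simp [F.hq, he]
      all_goals simpa) u

omit h0 in
lemma comm_eq {A B C : Der Ω} (hA : ∀ z, ∃ w, A (algebraMap k Ω z) = algebraMap k Ω w)
    (hB : ∀ z, B (algebraMap k Ω z) = 0) (hC : ∀ z, C (algebraMap k Ω z) = 0)
    (h : ∀ j : Fin 3, B (A (F.φ 0 (X j.succ))) - A (B (F.φ 0 (X j.succ))) = C (F.φ 0 (X j.succ)))
    (z : Ω) : B (A z) - A (B z) = C z := by
  have k1 : ∀ z, (⁅B, A⁆ - C) (algebraMap k Ω z) = 0 := fun z => by
    obtain ⟨w, hw⟩ := hA z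
    simp [Derivation.commutator_apply, hw, hB, hC]
  have := F.uniq hP hJ hD hD' h1 k1 fun j => by
    refine Fin.cases (by rw [F.hq, k1]) (fun j => ?_) j
    rw [Derivation.sub_apply, Derivation.commutator_apply, h, sub_self]
  simpa [Derivation.commutator_apply, sub_eq_zero] using DFunLike.congr_fun this z

lemma main_eq : d (d (d (F.q 1) / F.q 1) / (d (F.q 1) / F.q 1)) =
    (d (d (F.q 1) / F.q 1) / (d (F.q 1) / F.q 1)) ^ 2 / 2 ∧ (d (d (F.q 1) / F.q 1) = 0 →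
      ∃ Z : Der Ω, (∀ z, Z (algebraMap k Ω z) = 0) ∧ F.Act Z 0 1 ∧
        F.Act Z 1 (algebraMap k Ω (d (F.q 1) / F.q 1))) := by
  obtain ⟨Z, Z0, A0⟩ := F.exists_act 0
  obtain ⟨Y, Y0, hY⟩ := F.vert 0 ![0, 1, 0, 0] rfl
  obtain ⟨E, E0, hE⟩ := F.vert 0 ![0, F.φ 0 (X 1), 2 * F.φ 0 (X 2), 3 * F.φ 0 (X 3)] rfl
  have A1 : F.Act D 0 1 := fun j => by rw [hD', h0, div_self (F.q_ne 0), map_one]
  have A : F.Act D 1 _ := fun j => hD' 1 _
  set g := d (F.q 1) / F.q 1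
  have hg : g ≠ 0 := div_ne_zero h1 (F.q_ne 1)
  have hg' : algebraMap k Ω g ≠ 0 := by simpa using hg
  have hw : D (algebraMap k Ω g) = algebraMap k Ω (d g / g) * algebraMap k Ω g := by
    rw [hD, ← map_mul, div_mul_cancel₀ _ hg]
  have Y1 : Y (F.φ 0 (X 1)) = 1 := hY 1
  have Y2 : Y (F.φ 0 (X 2)) = 0 := hY 2
  have Y3 : Y (F.φ 0 (X 3)) = 0 := hY 3
  have E1 : E (F.φ 0 (X 1)) = F.φ 0 (X 1) := hE 1
  have E2 : E (F.φ 0 (X 2)) = 2 * F.φ 0 (X 2) := hE 2
  have E3 : E (F.φ 0 (X 3)) = 3 * F.φ 0 (X 3) := hE 3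
  have c := @F.comm_eq _ _ _ _ _ _ _ _ _ _ hP hJ _ _ hD hD' h1
  have fin : ∀ {p : Fin 4 → Prop}, p 1 → p 2 → p 3 → ∀ j : Fin 3, p j.succ := fun a1 a2 a3 j => by
    fin_cases j <;> assumption
  have hYA : ∀ A : Der Ω, F.Act A 0 1 → (∀ z, ∃ w, A (algebraMap k Ω z) = algebraMap k Ω w) →
      ∀ z, Y (A z) - A (Y z) = E z / 6 := fun A hA hA' z => by
    rw [c (C := (1 / 6 : Ω) • E) hA' Y0 (by simp [E0]), Derivation.smul_apply, smul_eq_mul]
    · ring
    refine fin (p := fun j => Y (A (F.φ 0 (X j))) - A (Y (F.φ 0 (X j))) =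
      ((1 / 6 : Ω) • E) (F.φ 0 (X j))) ?_ ?_ ?_ <;>
    simp only [hA.h1, hA.h2, hA.h3, Derivation.leibniz, map_sub, der_rat, Y1, Y2, Y3, E1, E2, E3,
      Derivation.smul_apply, smul_eq_mul, Derivation.map_one_eq_zero, map_zero] <;>
    push_cast <;> ring
  have hEA : ∀ A : Der Ω, F.Act A 0 1 → (∀ z, ∃ w, A (algebraMap k Ω z) = algebraMap k Ω w) →
      ∀ z, E (A z) - A (E z) = Z z := fun A hA hA' z => by
    refine c hA' E0 Z0 (fin (p := fun j => E (A (F.φ 0 (X j))) - A (E (F.φ 0 (X j))) =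
      Z (F.φ 0 (X j))) ?_ ?_ ?_) z <;>
    simp only [hA.h1, hA.h2, hA.h3, A0.h1, A0.h2, A0.h3, Derivation.leibniz, map_sub, der_rat,
      E1, E2, E3, der_ofNat, smul_eq_mul, Derivation.map_one_eq_zero] <;>
    push_cast <;> ring
  have hEY : ∀ z, E (Y z) - Y (E z) = -Y z := fun z => by
    refine c (C := -Y) (fun z => ⟨0, by simp [Y0]⟩) E0 (by simp [Y0])
      (fin (p := fun j => E (Y (F.φ 0 (X j))) - Y (E (F.φ 0 (X j))) =
      (-Y) (F.φ 0 (X j))) ?_ ?_ ?_) z <;>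
    simp [Y1, Y2, Y3, E1, E2, E3, der_ofNat]
  have hXZ : ∀ z, D (Z z) = Z (D z) := fun z => by
    refine (sub_eq_zero.1 (c (C := 0) (fun z => ⟨_, hD z⟩) Z0 (by simp) (fun j => ?_) z)).symm
    rw [A0 j, A1 j, ← inc_X, thA_inc, one_mul, A0.hinc, A1.hinc, sub_self, Derivation.zero_apply]
  have YJ : Y (F.J 1) = 0 := F.kill01 hP hJ Y0 (by simp [J, dJ Y (F.disc 0), Y2, Y3])
  have EJ : E (F.J 1) = 0 := F.kill01 hP hJ E0 (by
    simp only [J, dJ E (F.disc 0), E2, E3]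
    ring)
  obtain ⟨e1, e2, e3, e4⟩ := sl2 (hYA D A1 fun z => ⟨_, hD z⟩) (hEA D A1 fun z => ⟨_, hD z⟩) hEY
    (hYA Z A0 fun z => ⟨0, by simp [Z0]⟩) (hEA Z A0 fun z => ⟨0, by simp [Z0]⟩) hXZ YJ EJ
    (Y0 _) (E0 _) (Z0 _) (d_rr Y YJ) (d_ss Y YJ) (d_ss E EJ)
    (fun h => sub_eq_zero.1 (d_rr (D - Z) (sub_eq_zero.2 h))) A.hJ (A.hJ ▸ A.J_ne hg')
    (Xu (F.X_ne 1 2) (F.X_ne 1 3) (F.disc 1) hw A.h2 A.h3)
    (Xp (F.X_ne 1 2) (F.X_ne 1 3) (F.disc 1) hw A.h1)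
    fun h => A0.J_ne one_ne_zero (F.kill10 hP hJ Z0 h)
  refine ⟨(algebraMap k Ω).injective ?_, fun hg0 => ⟨Z, Z0, A0, ?_⟩⟩
  · rw [← hD, e4, map_div₀ _ (_ ^ 2), map_pow, map_ofNat, pow_two]
  · rw [hg0, zero_div, map_zero, map_zero, neg_zero] at e3
    obtain ⟨b1, b2, b3⟩ := back (d := D - Z) (F.X_ne 1 2) (F.X_ne 1 3) (F.disc 1) hg'
      (by simp [hD, hg0, Z0]) (sub_eq_zero.2 e1) (sub_eq_zero.2 e2) e3
    exact fun j => (sub_eq_zero.1 (fin (p := fun j => (D - Z) (F.φ 1 (X j)) = 0) b1 b2 b3 j)).symm.trans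
      (A j)

end Fixed

theorem main : ∃ m : Fin 2 → ℤ, m ≠ 0 ∧ IsAlgebraic ℚ (∏ i, F.q i ^ m i) ∧ ∃ Z : Der Ω,
    (∀ z, Z (algebraMap k Ω z) = 0) ∧ F.Act Z 0 (m 1) ∧ F.Act Z 1 (-m 0) := by
  have q0 := F.q_ne 0
  have q1 := F.q_ne 1
  have M : ∀ d : Der k, d (F.q 0) = F.q 0 → d (F.q 1) ≠ 0 → _ := fun d h0 h1 =>
    (F.lift d).elim fun D hD => F.main_eq hP hJ hD.1 hD.2 h0 h1
  have ex : ∀ i, ∃ d : Der k, d (F.q i) ≠ 0 := fun i => by
    by_contra h
    push Not at h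
    exact F.trans i (alg_of_const _ F.hy _ h)
  obtain ⟨d, h0, h1⟩ : ∃ d : Der k, d (F.q 0) = F.q 0 ∧ d (F.q 1) ≠ 0 := by
    obtain ⟨d, h0, h1⟩ : ∃ d : Der k, d (F.q 0) ≠ 0 ∧ d (F.q 1) ≠ 0 := by
      obtain ⟨a, ha⟩ := ex 0
      obtain ⟨b, hb⟩ := ex 1
      by_cases h : a (F.q 1) = 0
      · by_cases h' : b (F.q 0) = 0
        · exact ⟨a + b, by simpa [h'] using ha, by simpa [h] using hb⟩
        · exact ⟨b, h', hb⟩
      · exact ⟨a, ha, h⟩
    exact ⟨(F.q 0 / d (F.q 0)) • d, by simp [h0], by simp [h0, h1, q0]⟩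
  have s1 : ∀ e : Der k, e (F.q 0) = 0 → e (F.q 1) = 0 := fun e he => by
    by_contra h
    let t := (F.q 0 * F.q 1 - d (F.q 1)) / e (F.q 1)
    have a0 : (d + t • e) (F.q 0) = F.q 0 := by simp [h0, he]
    have a1 : (d + t • e) (F.q 1) = F.q 0 * F.q 1 := by simp [t, h]
    have := (M _ a0 (by rw [a1]; exact mul_ne_zero q0 q1)).1
    rw [a1, mul_div_cancel_right₀ _ q1, a0, div_self q0] at this
    simp at this
  have nxt : ∀ x, (∀ e : Der k, e (F.q 0) = 0 → e x = 0) → ∀ e : Der k, e (F.q 0) = 0 →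
      e (d x) = 0 := fun x hx e he => by
    simpa [Derivation.commutator_apply, hx e he] using
      hx ⁅e, d⁆ (by simp [Derivation.commutator_apply, h0, he])
  have gen : ∀ x, (∀ e : Der k, e (F.q 0) = 0 → e x = 0) → ∀ e : Der k,
      e x = e (F.q 0) / F.q 0 * d x := fun x hx e =>
    sub_eq_zero.1 (hx (e - (e (F.q 0) / F.q 0) • d) (by simp [h0, q0]))
  obtain ⟨M1, M2⟩ := M d h0 h1
  set g := d (F.q 1) / F.q 1 with hgd
  have hg : g ≠ 0 := div_ne_zero h1 q1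
  have s2 : ∀ e : Der k, e (F.q 0) = 0 → e g = 0 := fun e he => by
    simp [g, Derivation.leibniz_div, s1 e he, nxt _ s1 e he]
  have s3 : ∀ e : Der k, e (F.q 0) = 0 → e (d g / g) = 0 := fun e he => by
    simp [Derivation.leibniz_div, s2 e he, nxt _ s2 e he]
  have hw : d g = 0 := by
    by_contra h
    have hw := div_ne_zero h hg
    obtain ⟨m, hm, ha⟩ := exists_monomial (ι := Unit) _ F.hy (fun _ => F.q 0) (fun _ => 1)
      (-2 / (d g / g)) (fun _ => q0) (fun _ => isAlgebraic_one) (by simp [funext_iff]) fun e => by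
        rw [Derivation.leibniz_div, gen _ s3 e, M1, map_neg, der_ofNat]
        simp only [smul_eq_mul, Fintype.sum_unique]
        field_simp
        ring
    have hm' : m () ≠ 0 := fun h => hm (funext fun _ => h)
    rw [Fintype.prod_unique] at ha
    refine F.trans 0 (IsAlgebraic.of_pow (Int.natAbs_pos.2 hm') ?_)
    rcases Int.natAbs_eq (m ()) with h | h
    · rwa [h, zpow_natCast] at ha
    · rwa [h, zpow_neg, zpow_natCast, IsAlgebraic.inv_iff] at ha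
  obtain ⟨m, hm, ha⟩ := exists_monomial _ F.hy F.q ![g, -1] 0 F.q_ne
    (fun i => by
      fin_cases i
      · exact alg_of_const _ F.hy g fun e => by rw [gen _ s2 e, hw, mul_zero]
      · exact isAlgebraic_one.neg) (by simp [hg]) fun e => by
      simp [gen _ s1 e, hgd]
      ring
  obtain ⟨Z, Z0, A0, A1⟩ := M2 hw
  have e : (m 1 : k) * g = -m 0 := by
    have := der_alg d ha
    rw [Fin.prod_univ_two, Derivation.leibniz, Derivation.leibniz_zpow, Derivation.leibniz_zpow,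
      h0, zpow_sub_one₀ q0, zpow_sub_one₀ q1] at this
    simp only [smul_eq_mul, zsmul_eq_mul] at this
    refine mul_left_cancel₀ (mul_ne_zero (zpow_ne_zero (m 0) q0) (zpow_ne_zero (m 1) q1)) ?_
    rw [hgd]
    linear_combination this - F.q 0 ^ m 0 * F.q 1 ^ m 1 * m 0 * mul_inv_cancel₀ q0
  refine ⟨m, hm, ha, (m 1 : Ω) • Z, fun z => by simp [Z0], fun j => ?_, fun j => ?_⟩
  · rw [Derivation.smul_apply, A0, one_mul, smul_eq_mul]
  · rw [Derivation.smul_apply, A1, smul_eq_mul, ← mul_assoc, ← map_intCast (algebraMap k Ω),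
      ← map_mul, e, map_neg, map_intCast]

end Frame

end Pool.Agent.Lib.MP_8f9d9d_nt
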