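import Pool.Agent.Lib.MP_8f9d9d_nt.H39Stab

/-! From a relation in the support of the valuation to weighted relations. -/

open Finset Module MvPolynomial Sum
open scoped NNReal

namespace Pool.Agent.Lib.MP_8f9d9d_nt

open Pool.Agent.Lib.MP_1f047c_nt

variable {κ : Type} {V : Valuation (SS κ) ℝ≥0} {θ : ℝ≥0} {Cst : ℕ}

lemma Hyp.inj_eq (H : Hyp V θ Cst) (i : Fin 2) (u : AA) (h : V (inj i u) = 0) : u = 0 := by
  refine ser_inj u ?_
  ext n
  induction n using Nat.strong_induction_on with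
  | _ n ih =>
    by_contra hn
    have h0 := pos_iff_ne_zero.2 (H.hq i)
    obtain ⟨T, hT⟩ := NNReal.exists_pow_lt_of_lt_one (pow_pos h0 n) H.lt
    have h1 := H.hE i (T + n + 1) u
    have e : ∀ m, V (C (C (PowerSeries.coeff m (ser u)) * X (inl i) ^ m)) =
        V (algebraMap ℚ _ (PowerSeries.coeff m (ser u))) * V (C (X (inl i))) ^ m := fun m => by
      rw [map_mul, map_mul, map_pow, map_pow]; rfl
    rw [rem, V.map_sub_of_left_eq_zero h, tr, map_sum,
      V.map_sum_eq_of_lt (j := n) (mem_range.2 (by omega)) fun m hm => ?_, e, H.hQ _ hn,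
      one_mul] at h1
    · exact absurd (h1.trans (pow_le_pow_of_le_one zero_le H.lt.le (by omega))) hT.not_ge
    · rw [e, e, H.hQ _ hn, one_mul]
      rcases lt_or_gt_of_ne (show m ≠ n by simpa using (mem_sdiff.1 hm).2) with h2 | h2
      · simpa [ih m h2] using pow_pos h0 n
      · exact (mul_le_of_le_one_left' (H.hQ' _)).trans_lt
          (pow_lt_pow_right_of_lt_one₀ h0 ((H.hZ i).trans_lt H.lt) h2)

/-- Numerators of the powers of the modular invariant. -/
noncomputable def mon (D a : ℕ) : BB := (X 1 ^ 3 - X 2 ^ 2) ^ (D - a) * (1728 * X 1 ^ 3) ^ a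

/-- Products of forms at the two points. -/
noncomputable def pr (a b : BB) : SS κ := inj 0 (inc a) * inj 1 (inc b)

/-- The generic relation. -/
noncomputable def f0 [Fintype κ] (D : ℕ) (ex : κ → Fin 2 →₀ ℕ) : SS κ :=
  ∑ j, C (X (inr j)) * pr (mon D (ex j 0)) (mon D (ex j 1))

lemma hom_mon {Ω : Type} [Field Ω] (φ : AA →+* Ω) (h : φ (X 2) ^ 3 - φ (X 3) ^ 2 ≠ 0) {D a : ℕ}
    (ha : a ≤ D) : φ (inc (mon D a)) =
      (φ (X 2) ^ 3 - φ (X 3) ^ 2) ^ D * Jq (φ (X 2)) (φ (X 3)) ^ a := by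
  obtain ⟨b, rfl⟩ := Nat.exists_eq_add_of_le ha
  simp only [mon, map_mul, map_pow, map_sub, inc_X, map_ofNat, Jq, Nat.add_sub_cancel_left]
  rw [pow_add, div_pow]
  change (φ (X 2) ^ 3 - φ (X 3) ^ 2) ^ b * (1728 * φ (X 2) ^ 3) ^ a = _
  field_simp

lemma hom_f0 [Fintype κ] {Ω : Type} [Field Ω] (ψ : SS κ →+* Ω) {D : ℕ} {ex : κ → Fin 2 →₀ ℕ}
    (hD : ∀ j i, ex j i ≤ D) (h : ∀ i, ψ (inj i (X 2)) ^ 3 - ψ (inj i (X 3)) ^ 2 ≠ 0) :
    ψ (f0 D ex) = (∏ i, (ψ (inj i (X 2)) ^ 3 - ψ (inj i (X 3)) ^ 2) ^ D) *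
      ∑ j, ψ (C (X (inr j))) * ∏ i, Jq (ψ (inj i (X 2))) (ψ (inj i (X 3))) ^ ex j i := by
  simp only [f0, pr, map_sum, map_mul, mul_sum, Fin.prod_univ_two]
  refine sum_congr rfl fun j _ => ?_
  rw [show ψ (inj 0 _) = _ from hom_mon (ψ.comp (inj 0).toRingHom) (h 0) (hD j 0),
    show ψ (inj 1 _) = _ from hom_mon (ψ.comp (inj 1).toRingHom) (h 1) (hD j 1)]
  simp only [RingHom.comp_apply, AlgHom.toRingHom_eq_coe, RingHom.coe_coe]
  ring

lemma signs {a b : ℝ≥0} (ha : a ≠ 0) (ha' : a < 1) (hb : b ≠ 0) (hb' : b < 1) {m : Fin 2 → ℤ}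
    (hm : m ≠ 0) (h : a ^ m 0 * b ^ m 1 = 1) : 0 < m 1 ∧ m 0 < 0 ∨ m 1 < 0 ∧ 0 < m 0 := by
  have h1 := congrArg (fun x : ℝ≥0 => Real.log x) h
  have a0 : (0 : ℝ) < a := NNReal.coe_pos.2 (pos_iff_ne_zero.2 ha)
  have b0 : (0 : ℝ) < b := NNReal.coe_pos.2 (pos_iff_ne_zero.2 hb)
  simp only [NNReal.coe_mul, NNReal.coe_zpow, NNReal.coe_one, Real.log_one] at h1
  rw [Real.log_mul (by positivity) (by positivity), Real.log_zpow, Real.log_zpow] at h1
  have la := Real.log_neg a0 ha'
  have lb := Real.log_neg b0 hb'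
  rcases lt_trichotomy (m 0) 0 with h0 | h0 | h0
  · have : (m 0 : ℝ) < 0 := by exact_mod_cast h0
    exact .inl ⟨by exact_mod_cast (show (0 : ℝ) < m 1 by nlinarith), h0⟩
  · refine absurd (_root_.funext fun i => ?_) hm
    fin_cases i
    · exact h0
    · simpa [h0, lb.ne] using h1
  · have : (0 : ℝ) < m 0 := by exact_mod_cast h0
    exact .inr ⟨by exact_mod_cast (show (m 1 : ℝ) < 0 by nlinarith), h0⟩

lemma ext_der' {T Ω : Type} [CommRing T] [Field Ω] [CharZero Ω] (ψ : T →+* Ω) (D : Der T)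
    (h : ∀ t, ψ t = 0 → ψ (D t) = 0) : ∃ D' : Der Ω, ∀ t, D' (ψ t) = ψ (D t) :=
  ext_der ψ (ψ.toAddMonoidHom.comp D.toLinearMap.toAddMonoidHom) (by simp) h

section Fld

variable [Fintype κ] (H : Hyp V θ Cst) {k Ω : Type} [Field k] [Field Ω] [CharZero k]
  [CharZero Ω] [Algebra k Ω] (π : R0 κ →+* k) (ψ : SS κ →+* Ω)
  (hπ : ∀ r, ψ (C r) = algebraMap k Ω (π r)) (hker : ∀ f, ψ f = 0 ↔ V f = 0)
  (hk : ∀ x : k, ∃ a b, π b ≠ 0 ∧ x = π a / π b)
include H hπ hker hk

lemma Hyp.lift (d : Der k) : ∃ D : Der Ω, (∀ z, D (algebraMap k Ω z) = algebraMap k Ω (d z)) ∧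
    ∀ i u, D (ψ (inj i u)) =
      algebraMap k Ω (d (π (X (inl i))) / π (X (inl i))) * ψ (inj i (thA u)) := by
  classical
  have hker' : ∀ r, π r = 0 ↔ V (C r) = 0 := fun r => by
    rw [← hker, hπ, map_eq_zero (algebraMap k Ω)]
  have q0 : ∀ i, π (X (inl i)) ≠ 0 := fun i => by rw [Ne, hker']; exact H.hq i
  let x : Fin 2 ⊕ κ → k := Sum.elim (fun i => d (π (X (inl i))) / π (X (inl i)))
    fun j => d (π (X (inr j)))
  choose n b hb hx using fun s => hk (x s)
  let B := π (∏ s, b s)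
  have hB : B ≠ 0 := by
    simp only [B, map_prod]
    exact prod_ne_zero_iff.2 fun s _ => hb s
  have hB' : algebraMap k Ω B ≠ 0 := by simpa using hB
  have : ∀ s, ∃ r, π r = B * x s := fun s => ⟨n s * ∏ t ∈ univ.erase s, b t, by
    simp only [B]
    rw [← mul_prod_erase univ b (mem_univ s), hx s, map_mul, map_mul]
    field_simp [hb s]⟩
  choose r hr using this
  let D0 := mkDerivation ℚ (Sum.elim (fun i => r (inl i) * X (inl i)) fun j => r (inr j))
  obtain ⟨D, h1, h2⟩ := exists_der D0 fun p : Fin 2 × Fin 3 =>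
    C (r (inl p.1)) * inj p.1 (thA (X p.2.succ))
  have h6 : ∀ p, π (D0 p) = B * d (π p) := fun p => by
    induction p using MvPolynomial.induction_on with
    | C q => rw [hom_C, der_rat, derivation_C, map_zero, mul_zero]
    | add p q hp hq => rw [map_add, map_add, map_add, map_add, hp, hq, mul_add]
    | mul_X p s hp =>
      have : π (D0 (X s)) = B * d (π (X s)) := by
        rw [mkDerivation_X]
        rcases s with i | j
        · rw [Sum.elim_inl, map_mul, hr, mul_assoc]
          exact congrArg _ (div_mul_cancel₀ _ (q0 i))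
        · exact hr _
      simp only [Derivation.leibniz, smul_eq_mul, map_add, map_mul, this, hp]
      ring
  have h3 : ∀ i, D0 (X (inl i)) = r (inl i) * X (inl i) := fun i => mkDerivation_X _ _ _
  have h4 : ∀ p, V (C p) = 0 → V (C (D0 p)) = 0 := fun p hp => by
    rw [← hker', h6, (hker' _).2 hp, map_zero, mul_zero]
  have h5 := H.stab D0 (fun i => r (inl i)) D h1 (fun _ _ => h2 _) h3 h4
  obtain ⟨D', hD'⟩ := ext_der' ψ D fun t ht => (hker _).2 (h5 t ((hker _).1 ht))
  have h7 : ∀ p, ((algebraMap k Ω B)⁻¹ • D') (algebraMap k Ω (π p)) =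
      algebraMap k Ω (d (π p)) := fun p => by
    rw [Derivation.smul_apply, ← hπ p, hD', h1, hπ, h6, map_mul, smul_eq_mul,
      inv_mul_cancel_left₀ hB']
  refine ⟨(algebraMap k Ω B)⁻¹ • D', fun z => ?_, fun i u => ?_⟩
  · obtain ⟨a, b, -, rfl⟩ := hk z
    simp only [map_div₀, Derivation.leibniz_div, h7, smul_eq_mul, map_mul, map_sub, map_pow,
      map_inv₀]
  · change _ * D' (ψ (inj i u)) = _ * ψ (inj i (thA u))
    rw [hD', der_inj D0 (fun i => r (inl i)) D h1 (fun _ _ => h2 _) h3, map_mul, hπ, hr, map_mul, mul_assoc,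
      inv_mul_cancel_left₀ hB']
    rfl

lemma Hyp.ko_field (U : Valuation Ω ℝ≥0) (hU : ∀ f, U (ψ f) = V f)
    (hΩ : ∀ x : Ω, ∃ a b, x = ψ a / ψ b)
    {D : ℕ} {ex : κ → Fin 2 →₀ ℕ} (hex : Function.Injective ex) (hD : ∀ j i, ex j i ≤ D) {j0 : κ}
    (hj : V (C (X (inr j0))) ≠ 0) (hf : V (f0 D ex) = 0) :
    ∃ n : Fin 2 → ℕ, (∀ i, 0 < n i) ∧ ∃ Z : Der (SS κ), (∀ r, Z (C r) = 0) ∧
      (∀ i u, Z (inj i (inc u)) = (n i : SS κ) * inj i (inc (thB u))) ∧ ∀ f, V f = 0 → V (Z f) = 0 := by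
  classical
  have hker' : ∀ r, π r = 0 ↔ V (C r) = 0 := fun r => by
    rw [← hker, hπ, map_eq_zero (algebraMap k Ω)]
  let F : Frame k Ω (Fin 2 ⊕ κ) :=
    { y := fun s => π (X s)
      hy := by
        have : ∀ r, π r ∈ IntermediateField.adjoin ℚ (Set.range fun s => π (X s)) := fun r => by
          induction r using MvPolynomial.induction_on with
          | C q => rw [hom_C]; exact SubfieldClass.ratCast_mem _ q
          | add p q hp hq => rw [map_add]; exact add_mem hp hq
          | mul_X p s hp =>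
            rw [map_mul]; exact mul_mem hp (IntermediateField.subset_adjoin _ _ ⟨s, rfl⟩)
        rw [eq_top_iff]
        intro x _
        obtain ⟨a, b, -, rfl⟩ := hk x
        exact div_mem (this a) (this b)
      q := fun i => π (X (inl i))
      φ := fun i => ψ.comp (inj i).toRingHom
      hq := fun i => (congrArg ψ (inj_zero i)).trans (hπ _)
      inj := fun i => (injective_iff_map_eq_zero _).2 fun u hu => H.inj_eq i u ((hker _).1 hu)
      lift := H.lift π ψ hπ hker hk
      gen := fun d h1 h2 => by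
        have : ∀ f, d (ψ f) = 0 := fun f => by
          induction f using MvPolynomial.induction_on with
          | C r => rw [hπ, h1]
          | add p q hp hq => rw [map_add, map_add, hp, hq, add_zero]
          | mul_X p s hp =>
            have := h2 s.1 (X s.2.succ)
            change d (ψ (inj _ _)) = 0 at this
            rw [inj_succ] at this
            simp [hp, this]
        ext z
        obtain ⟨a, b, rfl⟩ := hΩ z
        simp [Derivation.leibniz_div, this] }
  obtain ⟨m, hm, ha, Z, Z0, A0, A1⟩ := F.main (P := ∑ j, monomial (ex j) (π (X (inr j))))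
    (fun h => hj (by
      have := congrArg (coeff (ex j0)) h
      rw [coeff_sum, sum_eq_single j0 (fun j _ hj => by
        rw [coeff_monomial, if_neg fun h => hj (hex h)]) (by simp)] at this
      simpa [hker'] using this))
    (by
      have := (hker _).2 hf
      rw [hom_f0 ψ hD F.disc, mul_eq_zero] at this
      rw [← this.resolve_left (prod_ne_zero_iff.2 fun i _ => pow_ne_zero _ (F.disc i)), map_sum]
      refine sum_congr rfl fun j _ => ?_
      rw [aeval_monomial, hπ, Finsupp.prod_fintype _ _ (by simp), Fin.prod_univ_two,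
        Fin.prod_univ_two]
      rfl)
  have _ : U.IsTrivialOn ℚ := ⟨fun q hq => by
    rw [eq_ratCast, ← eq_ratCast (ψ.comp (algebraMap ℚ _)), RingHom.comp_apply, hU]
    exact H.hQ q hq⟩
  have hs : V (C (X (inl 0))) ^ m 0 * V (C (X (inl 1))) ^ m 1 = 1 := by
    by_contra h
    refine Valuation.transcendental_of_ne_one (v := U) ℚ _ ?_ ?_ (ha.algebraMap (A := Ω))
    · exact (map_ne_zero _).2 (prod_ne_zero_iff.2 fun i _ => zpow_ne_zero _ (F.q_ne i))
    · simpa [F, ← hπ, hU] using h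
  obtain ⟨n, hn, Z, Z0, A⟩ : ∃ n : Fin 2 → ℕ, (∀ i, 0 < n i) ∧ ∃ Z : Der Ω,
      (∀ z, Z (algebraMap k Ω z) = 0) ∧ ∀ i, F.Act Z i (n i) := by
    rcases signs (H.hq 0) ((H.hZ 0).trans_lt H.lt) (H.hq 1) ((H.hZ 1).trans_lt H.lt) hm hs with
      ⟨h1, h0⟩ | ⟨h1, h0⟩
    · lift m 1 to ℕ using h1.le with a
      obtain ⟨b, hb⟩ := Int.eq_ofNat_of_zero_le (neg_nonneg.2 h0.le)
      rw [← Int.cast_neg, hb] at A1
      refine ⟨![a, b], Fin.forall_fin_two.2 ⟨by simpa using h1, by simp; omega⟩, Z, Z0,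
        Fin.forall_fin_two.2 ⟨by simpa using A0, by simpa using A1⟩⟩
    · lift m 0 to ℕ using h0.le with b
      obtain ⟨a, ha⟩ := Int.eq_ofNat_of_zero_le (neg_nonneg.2 h1.le)
      rw [neg_eq_iff_eq_neg.1 ha] at A0
      refine ⟨![a, b], Fin.forall_fin_two.2 ⟨by simp; omega, by simpa using h0⟩, -Z,
        by simp [Z0], Fin.forall_fin_two.2 ⟨fun j => ?_, fun j => ?_⟩⟩
      · simp [A0 j]
      · simp [A1 j]
  obtain ⟨Z', h1, h2⟩ := exists_der (0 : Derivation ℚ (R0 κ) (R0 κ)) fun p : Fin 2 × Fin 3 =>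
    (n p.1 : SS κ) * inj p.1 (thA (X p.2.succ))
  refine ⟨n, hn, Z', by simpa using h1, fun i => hor' ((inj i).comp inc) thB Z' 0 h1 _ fun j => ?_,
    fun f hf => ?_⟩
  · rw [AlgHom.comp_apply, AlgHom.comp_apply, ← thA_inc, inc_X, inj_succ, h2]
  · have : ∀ f, ψ (Z' f) = Z (ψ f) := fun f => by
      induction f using MvPolynomial.induction_on with
      | C r => rw [hπ, Z0, h1, Derivation.zero_apply, map_zero, map_zero]
      | add p q hp hq => simp only [map_add, hp, hq]
      | mul_X p s hp =>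
        have := A s.1 s.2
        change Z (ψ (inj _ _)) = _ * ψ (inj _ _) at this
        rw [inj_succ] at this
        simp [hp, this, h2]
    rw [← hker, this, (hker _).2 hf, map_zero]

end Fld

/-- Weighted truncated products. -/
noncomputable def Gw (n : Fin 2 → ℕ) (T : ℕ) (w : ℕ → ℚ) (a b : BB) : R0 κ :=
  ∑ p ∈ range T ×ˢ range T, C (w (n 0 * p.1 + n 1 * p.2) * (PowerSeries.coeff p.1 (ser (inc a)) *
    PowerSeries.coeff p.2 (ser (inc b)))) * (X (inl 0) ^ p.1 * X (inl 1) ^ p.2)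

lemma Gw_lag {n : Fin 2 → ℕ} (hn : ∀ i, 0 < n i) (T e : ℕ) (a b : BB) :
    (Gw n (T + e + 1) (fun x => (Lagrange.basis (range ((n 0 + n 1) * (T + e + 1) + e + 1))
      Nat.cast e).eval (x : ℚ)) a b : R0 κ) = Gw n (e + 1) (Pi.single e 1) a b := by
  symm
  rw [Gw, sum_subset (product_subset_product (range_subset_range.2 (by omega : e + 1 ≤ T + e + 1))
    (range_subset_range.2 (by omega : e + 1 ≤ T + e + 1))) fun p _ hp => ?_]
  · refine sum_congr rfl fun p hp => ?_
    congr 3
    beta_reduce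
    by_cases he : n 0 * p.1 + n 1 * p.2 = e
    · rw [he, Pi.single_eq_same, Lagrange.eval_basis_self Nat.cast_injective.injOn
        (mem_range.2 (by omega))]
    · rw [Pi.single_eq_of_ne he, Lagrange.eval_basis_of_ne (Ne.symm he)]
      simp only [mem_product, mem_range] at hp ⊢
      nlinarith [Nat.zero_le (n 0), Nat.zero_le (n 1)]
  · rw [Pi.single_eq_of_ne, zero_mul, map_zero, zero_mul]
    simp only [mem_product, mem_range, not_and_or, not_lt] at hp
    have := Nat.le_mul_of_pos_left p.1 (hn 0)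
    have := Nat.le_mul_of_pos_left p.2 (hn 1)
    omega

/-- The weighted parts of the generic relation. -/
noncomputable def GG [Fintype κ] (D : ℕ) (ex : κ → Fin 2 →₀ ℕ) (n : Fin 2 → ℕ) (T : ℕ)
    (w : ℕ → ℚ) : R0 κ := ∑ j, X (inr j) * Gw n T w (mon D (ex j 0)) (mon D (ex j 1))

lemma Hyp.weight [Fintype κ] (H : Hyp V θ Cst) {D : ℕ} {ex : κ → Fin 2 →₀ ℕ} {n : Fin 2 → ℕ}
    (hn : ∀ i, 0 < n i) {Z : Der (SS κ)} (h1 : ∀ r, Z (C r) = 0)
    (h2 : ∀ i u, Z (inj i (inc u)) = (n i : SS κ) * inj i (inc (thB u)))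
    (h3 : ∀ f, V f = 0 → V (Z f) = 0) (hf : V (f0 D ex) = 0) (e : ℕ) :
    V (C (GG D ex n (e + 1) (Pi.single e 1))) = 0 := by
  classical
  have lin : ∀ j r x, Z^[j] (C r * x) = C r * Z^[j] x := fun j r => by
    induction j with
    | zero => exact fun _ => rfl
    | succ j ih =>
      intro x
      rw [Function.iterate_succ_apply, Function.iterate_succ_apply, Derivation.leibniz, h1,
        smul_zero, add_zero, smul_eq_mul, ih]
  have A : ∀ T j a b, V (Z^[j] (pr a b) - C (Gw n T (fun x => x ^ j) a b)) ≤ θ ^ T := by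
    intro T j
    induction j with
    | zero =>
      intro a b
      have : Gw n T (fun x => x ^ 0) a b = (tr 0 T (ser (inc a)) * tr 1 T (ser (inc b)) : R0 κ) := by
        rw [Gw, tr, tr, sum_mul_sum, sum_product]
        refine sum_congr rfl fun _ _ => sum_congr rfl fun _ _ => ?_
        rw [pow_zero, one_mul, map_mul]
        ring
      rw [this, Function.iterate_zero_apply, show pr a b - C (_ * _) = rem 0 T (inc a) *
        inj 1 (inc b) + rem 1 T (inc b) * C (tr 0 T (ser (inc a))) by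
          rw [pr, rem, rem, map_mul]; ring]
      refine V.map_add_le ?_ ?_ <;> rw [map_mul] <;>
        exact (mul_le_of_le_one_right' (H.le_one _)).trans (H.hE _ _ _)
    | succ j ih =>
      intro a b
      have e1 : Z (pr a b) = C (n 0 : R0 κ) * pr (thB a) b + C (n 1 : R0 κ) * pr a (thB b) := by
        rw [pr, pr, pr, Derivation.leibniz, h2, h2, map_natCast, map_natCast, smul_eq_mul,
          smul_eq_mul]
        ring
      have e2 : (Gw n T (fun x => x ^ (j + 1)) a b : R0 κ) =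
          (n 0 : R0 κ) * Gw n T (fun x => x ^ j) (thB a) b +
            (n 1 : R0 κ) * Gw n T (fun x => x ^ j) a (thB b) := by
        simp only [Gw, mul_sum, ← sum_add_distrib, ← thA_inc, ser_thA, coeff_th]
        refine sum_congr rfl fun p _ => ?_
        simp only [pow_succ, Nat.cast_add, Nat.cast_mul, map_mul, map_add, map_natCast]
        ring
      rw [Function.iterate_succ_apply, e1, iter_add, lin, lin, e2, map_add, map_mul, map_mul,
        add_sub_add_comm, ← mul_sub, ← mul_sub]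
      refine V.map_add_le ?_ ?_ <;> rw [map_mul] <;>
        exact (mul_le_of_le_one_left' (H.le_one _)).trans (ih _ _)
  have B : ∀ T j, V (C (GG D ex n T fun x => x ^ j)) ≤ θ ^ T := by
    intro T j
    have k1 : V (Z^[j] (f0 D ex)) = 0 := by
      induction j with
      | zero => exact hf
      | succ j ih => rw [Function.iterate_succ_apply']; exact h3 _ ih
    have k2 : ∀ s : Finset κ, ∀ x : κ → SS κ, Z^[j] (∑ l ∈ s, x l) = ∑ l ∈ s, Z^[j] (x l) :=
      fun s x => by
        induction s using Finset.induction_on with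
        | empty => exact iter_zero _ _
        | insert a s ha ih => rw [sum_insert ha, sum_insert ha, iter_add, ih]
    rw [← V.map_sub_of_left_eq_zero k1, f0, k2, GG, map_sum, ← sum_sub_distrib]
    refine V.map_sum_le fun l _ => ?_
    rw [lin, map_mul, ← mul_sub, map_mul]
    exact (mul_le_of_le_one_left' (H.le_one _)).trans (A _ _ _ _)
  have B' : ∀ T (L : Polynomial ℚ), V (C (GG D ex n T fun x => L.eval x)) ≤ θ ^ T := by
    intro T L
    induction L using Polynomial.induction_on' with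
    | add p q hp hq =>
      have : GG D ex n T (fun x => (p + q).eval x) =
          GG D ex n T (fun x => p.eval x) + GG D ex n T fun x => q.eval x := by
        simp only [GG, Gw, Polynomial.eval_add, add_mul, map_add, sum_add_distrib, mul_add]
      rw [this, map_add]
      exact V.map_add_le hp hq
    | monomial j a =>
      have : GG D ex n T (fun x => (Polynomial.monomial j a).eval x) =
          C a * GG D ex n T fun x => x ^ j := by
        simp only [GG, Gw, Polynomial.eval_monomial, mul_sum, map_mul]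
        exact sum_congr rfl fun _ _ => sum_congr rfl fun _ _ => by ring
      rw [this, map_mul, map_mul]
      exact (mul_le_of_le_one_left' (H.le_one _)).trans (B _ _)
  by_contra h
  obtain ⟨T, hT⟩ := NNReal.exists_pow_lt_of_lt_one (pos_iff_ne_zero.2 h) H.lt
  refine hT.not_ge (le_trans (le_of_eq ?_) ((B' (T + e + 1) (Lagrange.basis
    (range ((n 0 + n 1) * (T + e + 1) + e + 1)) Nat.cast e)).trans
      (pow_le_pow_of_le_one zero_le H.lt.le (by omega))))
  simp only [GG, Gw_lag hn]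

theorem Hyp.ko [Fintype κ] (H : Hyp V θ Cst) {D : ℕ} {ex : κ → Fin 2 →₀ ℕ}
    (hex : Function.Injective ex) (hD : ∀ j i, ex j i ≤ D) {j0 : κ}
    (hj : V (C (X (inr j0))) ≠ 0) (hf : V (f0 D ex) = 0) :
    ∃ n : Fin 2 → ℕ, (∀ i, 0 < n i) ∧ ∀ e, V (C (GG D ex n (e + 1) (Pi.single e 1))) = 0 := by
  let A := SS κ ⧸ V.supp
  let Ω := FractionRing A
  let ψ : SS κ →+* Ω := (algebraMap A Ω).comp (Ideal.Quotient.mk _)
  have hS : nonZeroDivisors A ≤ (V.onQuot le_rfl).supp.primeCompl := by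
    intro x hx h
    rw [Valuation.supp_quot_supp] at h
    exact nonZeroDivisors.ne_zero hx h
  let U := (V.onQuot le_rfl).extendToLocalization hS Ω
  have hU : ∀ r, U (ψ r) = V r := fun r =>
    Valuation.extendToLocalization_apply_map_apply _ hS Ω _
  have _ : CharZero Ω := algebraRat.charZero Ω
  let k := Subfield.closure ((ψ.comp C).range : Set Ω)
  let π : R0 κ →+* k := (ψ.comp C).codRestrict k fun r => Subfield.subset_closure ⟨r, rfl⟩
  obtain ⟨n, hn, Z, h1, h2, h3⟩ := H.ko_field π ψ (fun _ => rfl)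
    (fun f => by rw [← hU, U.zero_iff]) (fun x => by
      obtain ⟨a, ha, b, hb, h⟩ := Subfield.mem_closure_iff.1 x.2
      rw [Subring.closure_eq] at ha hb
      obtain ⟨a, rfl⟩ := ha
      obtain ⟨b, rfl⟩ := hb
      by_cases h0 : π b = 0
      · refine ⟨0, 1, by simp, Subtype.ext ?_⟩
        rw [← h, show ψ.comp C b = 0 from congrArg Subtype.val h0]
        simp
      · exact ⟨a, b, h0, Subtype.ext h.symm⟩) U hU (fun x => by
      obtain ⟨a, b, -, rfl⟩ := IsFractionRing.div_surjective (A := A) x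
      obtain ⟨a, rfl⟩ := Ideal.Quotient.mk_surjective a
      obtain ⟨b, rfl⟩ := Ideal.Quotient.mk_surjective b
      exact ⟨a, b, rfl⟩) hex hD hj hf
  exact ⟨n, hn, H.weight hn h1 h2 h3 hf⟩

end Pool.Agent.Lib.MP_8f9d9d_nt
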