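import Pool.Agent.Lib.MP_8f9d9d_nt.H39Mahler

/-! Algebraic relations between `j(z)` and `j(r z + b)`. -/

open Finset Filter Topology Complex
open scoped Real

namespace Pool.Agent.Lib.MP_8f9d9d_nt

/-- The modular invariant as a function of `q`. -/
noncomputable def Jf (q : ℂ) : ℂ := 1728 * ev e4 q ^ 3 / (ev e4 q ^ 3 - ev e6 q ^ 2)

/-- The modular invariant. -/
noncomputable def jj (z : ℂ) : ℂ := Jf (qq z)

lemma jj_inv {z : ℂ} (hz : 0 < z.im) {a b c d : ℤ} (h : a * d - b * c = 1) :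
    jj ((a * z + b) / (c * z + d)) = jj z := by
  obtain ⟨h0, -, -, h4, h6⟩ := laws hz h
  have := disc_ne (qq_ne z) (norm_qq_lt hz)
  rw [jj, Jf, h4, h6, jj, Jf, show ((c * z + d : ℂ) ^ 4 * ev e4 (qq z)) ^ 3 -
    ((c * z + d) ^ 6 * ev e6 (qq z)) ^ 2 =
      (c * z + d) ^ 12 * (ev e4 (qq z) ^ 3 - ev e6 (qq z) ^ 2) by ring]
  field_simp

lemma diff_Jf {q : ℂ} (h0 : q ≠ 0) (h1 : ‖q‖ < 1) : DifferentiableAt ℂ Jf q := by
  have h4 := cv4.differentiableAt h1
  have h6 := cv6.differentiableAt h1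
  exact ((h4.pow 3).const_mul _).div ((h4.pow 3).sub (h6.pow 2)) (disc_ne h0 h1)

lemma diff_jj {z : ℂ} (hz : 0 < z.im) : DifferentiableAt ℂ jj z :=
  (diff_Jf (qq_ne z) (norm_qq_lt hz)).comp z (hasDerivAt_qq z).differentiableAt

lemma ev_half : ∀ᶠ z in 𝓝[≠] (0 : ℂ), ‖z‖ ≤ 1 / 2 := nhdsWithin_le_nhds
  (mem_of_superset (Metric.closedBall_mem_nhds (0 : ℂ) one_half_pos) fun z hz => by simpa using hz)

lemma qJ : Tendsto (fun q => q * Jf q) (𝓝[≠] 0) (𝓝 1) := by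
  have hc := ((cv4.mul cv4).mul cv4).sub (cv6.mul cv6)
  obtain ⟨B, -, hB⟩ := hc.tail 2
  have c0 : PowerSeries.coeff 0 (e4 * e4 * e4 - e6 * e6) = 0 := by simp [e4, e6, c0_eis]
  have c1 : PowerSeries.coeff 1 (e4 * e4 * e4 - e6 * e6) = 1728 := by
    norm_num [PowerSeries.coeff_mul, Finset.Nat.antidiagonal_succ, e4, e6, eis]
  have h1 : Tendsto (fun q => (ev e4 q ^ 3 - ev e6 q ^ 2) / q) (𝓝[≠] 0) (𝓝 1728) := by
    rw [tendsto_iff_norm_sub_tendsto_zero]
    refine squeeze_zero' (g := fun q => B * ‖q‖) (.of_forall fun _ => norm_nonneg _) ?_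
      (((by fun_prop : Continuous fun z : ℂ => B * ‖z‖).tendsto' 0 0 (by simp)).mono_left
        nhdsWithin_le_nhds)
    filter_upwards [ev_half, self_mem_nhdsWithin] with q h1 h0
    have h2 : ‖q‖ < 1 := by linarith
    have h3 := hB q h1
    rw [ev_sub ((cv4.mul cv4).mul cv4) (cv6.mul cv6) h2, ev_mul (cv4.mul cv4) cv4 h2,
      ev_mul cv4 cv4 h2, ev_mul cv6 cv6 h2] at h3
    simp only [sum_range_succ, range_zero, sum_empty, tm, c0, c1] at h3
    have h4 : 0 < ‖q‖ := norm_pos_iff.2 h0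
    rw [div_sub' h0, norm_div, div_le_iff₀ h4]
    refine (le_of_eq (congrArg norm ?_)).trans (h3.trans (le_of_eq (by ring)))
    push_cast
    ring
  have h4 : Tendsto (ev e4) (𝓝[≠] 0) (𝓝 1) := (tendsto_eis _ _).mono_left nhdsWithin_le_nhds
  have h2 := ((h4.pow 3).const_mul 1728).div h1 (by norm_num)
  rw [one_pow, mul_one, div_self (by norm_num)] at h2
  refine h2.congr fun q => ?_
  simp only [Pi.div_apply, Jf, div_div_eq_mul_div]
  ring

lemma J_bounds : ∃ ρ : ℝ, 0 < ρ ∧ ∀ q : ℂ, q ≠ 0 → ‖q‖ < ρ →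
    1 / 2 ≤ ‖q‖ * ‖Jf q‖ ∧ ‖q‖ * ‖Jf q‖ ≤ 2 := by
  have h1 := qJ.norm
  rw [norm_one] at h1
  have h2 := (h1.eventually (eventually_ge_nhds (by norm_num : (1 / 2 : ℝ) < 1))).and
    (h1.eventually (eventually_le_nhds (by norm_num : (1 : ℝ) < 2)))
  rw [eventually_nhdsWithin_iff, Metric.eventually_nhds_iff] at h2
  obtain ⟨ρ, h3, h4⟩ := h2
  exact ⟨ρ, h3, fun q h0 hq => by simpa using h4 (by simpa using hq) h0⟩

lemma jj_big (M : ℝ) : ∃ Y : ℝ, 0 < Y ∧ ∀ z : ℂ, Y ≤ z.im → M < ‖jj z‖ := by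
  obtain ⟨ρ, h0, h⟩ := J_bounds
  have h1 : Tendsto (fun y : ℝ => Real.exp (-(2 * π * y))) atTop (𝓝 0) :=
    Real.tendsto_exp_neg_atTop_nhds_zero.comp (tendsto_id.const_mul_atTop Real.two_pi_pos)
  obtain ⟨Y, hY⟩ := eventually_atTop.1 ((h1.eventually (eventually_lt_nhds h0)).and
    (h1.eventually (eventually_lt_nhds (show 0 < 1 / (2 * (|M| + 1)) by positivity))))
  refine ⟨max Y 1, by positivity, fun z hz => ?_⟩
  obtain ⟨h2, h3⟩ := hY _ ((le_max_left _ _).trans hz)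
  rw [← norm_qq] at h2 h3
  have h4 := (h _ (qq_ne z) h2).1
  rw [lt_div_iff₀ (by positivity)] at h3
  by_contra h5
  have h6 : ‖Jf (qq z)‖ ≤ |M| + 1 := (not_lt.1 h5).trans (by linarith [le_abs_self M])
  nlinarith [norm_nonneg (qq z)]

lemma jj_bdd : ∃ M : ℝ, ∀ z : ℂ, z.im = 1 → ‖jj z‖ ≤ M := by
  have h0 : Real.exp (-(2 * π * 1)) < 1 := by
    rw [Real.exp_lt_one_iff]; linarith [Real.pi_pos]
  obtain ⟨M, hM⟩ := (isCompact_sphere (0 : ℂ) (Real.exp (-(2 * π * 1)))).exists_bound_of_continuousOn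
    (f := Jf) fun q hq => by
      rw [mem_sphere_zero_iff_norm] at hq
      refine (diff_Jf ?_ (hq ▸ h0)).continuousAt.continuousWithinAt
      rw [← norm_pos_iff, hq]
      positivity
  exact ⟨M, fun z hz => hM _ (by rw [mem_sphere_zero_iff_norm, norm_qq, hz])⟩

lemma small_c : ∃ ε : ℝ, 0 < ε ∧ ∀ A B C D : ℝ, A * D - B * C = 1 → C ≠ 0 →
    (∀ z : ℂ, 0 < z.im → jj ((A * z + B) / (C * z + D)) = jj z) → ε ≤ |C| := by
  obtain ⟨M, hM⟩ := jj_bdd
  obtain ⟨Y, hY, h⟩ := jj_big M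
  refine ⟨min 1 Y⁻¹, by positivity, fun A B C D h1 hC h2 => ?_⟩
  by_contra h3
  rw [not_le, lt_min_iff] at h3
  have hC' : (C : ℂ) ≠ 0 := ofReal_ne_zero.2 hC
  have h1' : (A * D - B * C : ℂ) = 1 := by exact_mod_cast h1
  have e1 : (((-D / C : ℝ) : ℂ) + I).im = 1 := by simp
  have e2 : (A * (((-D / C : ℝ) : ℂ) + I) + B) / (C * (((-D / C : ℝ) : ℂ) + I) + D) =
      ((A / C : ℝ) : ℂ) + ((1 / C ^ 2 : ℝ) : ℂ) * I := by
    push_cast
    rw [show (C : ℂ) * (-D / C + I) + D = C * I by field_simp; ring,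
      div_eq_iff (mul_ne_zero hC' I_ne_zero)]
    field_simp
    linear_combination -h1' - I_sq
  have h4 := h2 _ (e1 ▸ one_pos)
  rw [e2] at h4
  refine (h _ ?_).not_ge (h4 ▸ hM _ e1)
  simp only [add_im, ofReal_im, mul_im, ofReal_re, I_im, mul_one, I_re, mul_zero, add_zero, zero_add]
  have h5 : 0 < |C| := abs_pos.2 hC
  rw [le_div_iff₀ (by positivity), ← sq_abs]
  have h6 := (lt_inv_comm₀ h5 hY).1 h3.2
  rw [lt_inv_comm₀ hY h5, ← one_div, lt_div_iff₀ hY] at h6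
  nlinarith [h3.1]

lemma an_dich {g : ℂ → ℂ} (hg : ∀ z : ℂ, 0 < z.im → DifferentiableAt ℂ g z) {w : ℂ} (hw : 0 < w.im)
    (h : ∃ᶠ z in 𝓝[≠] w, g z = 0) (z : ℂ) (hz : 0 < z.im) : g z = 0 := by
  have ho : IsOpen {z : ℂ | 0 < z.im} := isOpen_lt continuous_const continuous_im
  have h1 : AnalyticOnNhd ℂ g {z : ℂ | 0 < z.im} :=
    DifferentiableOn.analyticOnNhd (fun z hz => (hg z hz).differentiableWithinAt) ho
  exact h1.eqOn_zero_of_preconnected_of_frequently_eq_zero (convex_halfSpace_im_gt 0).isPreconnected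
    hw h hz

lemma low {z : ℂ} (hz : 0 < z.im) (s : ℤ) :
    (s * z + 1 : ℂ) ≠ 0 ∧ 0 < (z / (s * z + 1)).im ∧ jj (z / (s * z + 1)) = jj z := by
  have h1 := laws hz (a := 1) (b := 0) (c := s) (d := 1) (by simp)
  have h2 := jj_inv hz (a := 1) (b := 0) (c := s) (d := 1) (by simp)
  simp only [Int.cast_one, one_mul, Int.cast_zero, add_zero] at h1 h2
  exact ⟨h1.1, h1.2.1, h2⟩

lemma low_comp {z s t : ℂ} (h : s * z + 1 ≠ 0) :
    z / (s * z + 1) / (t * (z / (s * z + 1)) + 1) = z / ((s + t) * z + 1) := by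
  rw [show t * (z / (s * z + 1)) + 1 = ((s + t) * z + 1) / (s * z + 1) by
    rw [eq_div_iff h, add_mul, mul_assoc, div_mul_cancel₀ _ h]; ring, div_div_div_cancel_right₀ h]

lemma im_aff {r : ℚ} (hr : 0 < r) {b z : ℂ} (hb : 0 ≤ b.im) (hz : 0 < z.im) :
    0 < (r * z + b).im := by
  have : (0 : ℝ) < r := by exact_mod_cast hr
  simp only [add_im, mul_im, ratCast_re, ratCast_im, zero_mul, add_zero]
  positivity

open MvPolynomial

lemma eval_two (P : MvPolynomial (Fin 2) ℂ) (x y : ℂ) :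
    ((aeval ![Polynomial.C Polynomial.X, Polynomial.X] P : Polynomial (Polynomial ℂ)).map
      (Polynomial.evalRingHom x)).eval y = eval ![x, y] P := by
  induction P using MvPolynomial.induction_on with
  | C a => simp
  | add p q hp hq => simp only [map_add, Polynomial.map_add, Polynomial.eval_add, hp, hq]
  | mul_X p i hp =>
    simp only [map_mul, Polynomial.map_mul, Polynomial.eval_mul, hp]
    congr 1
    fin_cases i <;> simp

lemma exists_par {P : MvPolynomial (Fin 2) ℂ} (hP : P ≠ 0) {r : ℚ} (hr : 0 < r) {b : ℂ}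
    (hb : 0 ≤ b.im) (h : ∀ z : ℂ, 0 < z.im → eval ![jj z, jj (r * z + b)] P = 0) :
    ∃ s : ℤ, s ≠ 0 ∧ ∀ z : ℂ, 0 < z.im → jj (r * (z / (s * z + 1)) + b) = jj (r * z + b) := by
  let Q : Polynomial (Polynomial ℂ) := aeval ![Polynomial.C Polynomial.X, Polynomial.X] P
  have hQ : ∀ x y : ℂ, (Q.map (Polynomial.evalRingHom x)).eval y = eval ![x, y] P := eval_two P
  have hQ0 : Q ≠ 0 := fun h0 => hP (MvPolynomial.funext fun x => by
    rw [map_zero, show x = ![x 0, x 1] from funext fun i => by fin_cases i <;> rfl, ← hQ, h0]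
    simp)
  let f : Fin (Q.natDegree + 1) → ℂ → ℂ := fun i z => jj (r * (z / (((i : ℕ) : ℤ) * z + 1)) + b)
  have hf : ∀ i, ∀ z : ℂ, 0 < z.im → DifferentiableAt ℂ (f i) z := fun i z hz => by
    obtain ⟨k0, k1, -⟩ := low hz (i : ℕ)
    exact DifferentiableAt.comp (g := jj) z (diff_jj (im_aff hr hb k1))
      (by fun_prop (disch := exact k0))
  have hI : (0 : ℝ) < I.im := by simp
  have h1 : ∀ᶠ z in 𝓝[≠] I, Q.leadingCoeff.eval (jj z) ≠ 0 := by
    by_contra h1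
    rw [not_eventually] at h1
    have h2 := an_dich (g := fun z => Q.leadingCoeff.eval (jj z))
      (fun z hz => (Q.leadingCoeff.differentiableAt).comp z (diff_jj hz)) hI (by simpa using h1)
    obtain ⟨M, hM⟩ := (Q.leadingCoeff.roots.toFinset.image norm).bddAbove
    obtain ⟨Y, hY, h3⟩ := jj_big M
    refine (h3 (Y * I) (by simp)).not_ge (hM ?_)
    simpa using ⟨_, ⟨hQ0, h2 (Y * I) (by simpa using hY)⟩, rfl⟩
  by_contra hno
  push Not at hno
  have h2 : ∀ i l, ∀ᶠ z in 𝓝[≠] I, i ≠ l → f i z ≠ f l z := fun i l => by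
    by_cases hil : i = l
    · simp [hil]
    by_contra h2
    rw [not_eventually] at h2
    have h3 := an_dich (g := fun z => f i z - f l z) (fun z hz => (hf i z hz).sub (hf l z hz)) hI
      (by simpa [hil, sub_eq_zero] using h2)
    obtain ⟨z, hz, h4⟩ := hno ((i : ℕ) - (l : ℕ)) (by
      rw [sub_ne_zero, Ne, Nat.cast_inj]; exact fun h => hil (Fin.ext h))
    obtain ⟨k0, k1, -⟩ := low hz (-(l : ℕ))
    have h5 := sub_eq_zero.1 (h3 _ k1)
    simp only [f, low_comp k0] at h5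
    refine h4 ?_
    convert h5 using 5
    · push_cast
      ring
    · simp
  have h3 : ∀ᶠ z in 𝓝[≠] I, 0 < z.im := nhdsWithin_le_nhds
    ((isOpen_lt continuous_const continuous_im).mem_nhds hI)
  obtain ⟨z, ⟨k1, k2⟩, k3⟩ :=
    ((h1.and h3).and (eventually_all.2 fun i => eventually_all.2 (h2 i))).exists
  have h4 := Polynomial.eq_zero_of_natDegree_lt_card_of_eval_eq_zero
    (Q.map (Polynomial.evalRingHom (jj z))) (f := fun i => f i z)
    (fun i l hil => by_contra fun h => k3 i l h hil) (fun i => by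
      obtain ⟨-, k4, k5⟩ := low k2 (i : ℕ)
      rw [hQ, ← k5]
      exact h _ k4) (by simpa using Nat.lt_succ_of_le Polynomial.natDegree_map_le)
  have h5 := congrArg (Polynomial.coeff · Q.natDegree) h4
  simp only [Polynomial.coeff_map, Polynomial.coeff_zero] at h5
  exact k1 h5

lemma rat_of_im {P : MvPolynomial (Fin 2) ℂ} (hP : P ≠ 0) {r : ℚ} (hr : 0 < r) {b : ℂ}
    (hb : 0 ≤ b.im) (h : ∀ z : ℂ, 0 < z.im → eval ![jj z, jj (r * z + b)] P = 0) :
    ∃ β : ℚ, b = β := by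
  obtain ⟨s, hs, h1⟩ := exists_par hP hr hb h
  have hr' : (0 : ℝ) < r := by exact_mod_cast hr
  rcases hb.lt_or_eq with hb' | hb'
  · exfalso
    obtain ⟨Y, hY, h2⟩ := jj_big ‖jj b‖
    set z : ℂ := ((Y / r : ℝ) : ℂ) * I with hz
    have hz0 : 0 < z.im := by simpa [hz] using div_pos hY hr'
    have h3 : ∀ k : ℕ, jj (r * (z / ((k * s : ℤ) * z + 1)) + b) = jj (r * z + b) := fun k => by
      induction k with
      | zero => simp
      | succ k ih =>
        obtain ⟨k0, k1, -⟩ := low hz0 (k * s)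
        rw [← ih, ← h1 _ k1, low_comp k0]
        push_cast
        ring_nf
    have h4 : Tendsto (fun k : ℕ => (((k * s : ℤ) : ℂ) * z + 1)⁻¹) atTop (𝓝 0) := by
      refine tendsto_inv₀_cobounded.comp ((tendsto_add_const_cobounded 1).comp ?_)
      have : (s * z : ℂ) ≠ 0 := mul_ne_zero (by exact_mod_cast hs) fun h => by simp [h] at hz0
      refine tendsto_norm_atTop_iff_cobounded.1 ?_
      simpa [mul_assoc] using tendsto_natCast_atTop_atTop.atTop_mul_const (norm_pos_iff.2 this)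
    have h5 := ((h4.const_mul z).const_mul (r : ℂ)).add_const b
    simp only [mul_zero, zero_add] at h5
    have h6 := (diff_jj hb').continuousAt.tendsto.comp h5
    have h7 : jj b = jj (r * z + b) := tendsto_nhds_unique h6 (tendsto_const_nhds.congr fun k => by
      simp only [Function.comp_apply, ← div_eq_mul_inv, h3])
    refine (h2 (r * z + b) ?_).ne (congrArg norm h7)
    simp only [hz, add_im, mul_im, ratCast_re, ratCast_im, ofReal_re, ofReal_im, I_im, I_re,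
      zero_mul, mul_one, mul_zero, add_zero]
    rw [mul_div_cancel₀ _ hr'.ne']
    linarith
  · obtain ⟨β, rfl⟩ : ∃ β : ℝ, b = β := ⟨b.re, by apply Complex.ext <;> simp [← hb']⟩
    by_contra hno
    have hirr : Irrational β := by
      rintro ⟨q, rfl⟩
      exact hno ⟨q, by simp⟩
    set t : ℚ := s / r with ht
    have ht0 : t ≠ 0 := div_ne_zero (by exact_mod_cast hs) hr.ne'
    have ht1 : (t : ℝ) ≠ 0 := by exact_mod_cast ht0
    have hrc : (r : ℂ) ≠ 0 := by exact_mod_cast hr.ne'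
    have h2 : ∀ w : ℂ, 0 < w.im → (t * w + (1 - β * t) : ℂ) ≠ 0 ∧
        0 < (((1 + β * t) * w - β ^ 2 * t) / (t * w + (1 - β * t)) : ℂ).im ∧
        jj (((1 + β * t) * w - β ^ 2 * t) / (t * w + (1 - β * t))) = jj w := fun w hw => by
      have k1 : 0 < ((w - β) / r : ℂ).im := by
        rw [← ofReal_ratCast, div_ofReal_im]
        simpa using div_pos hw hr'
      obtain ⟨k2, k3, -⟩ := low k1 s
      have e1 : (s * ((w - β) / r) + 1 : ℂ) = t * w + (1 - β * t) := by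
        rw [ht]; push_cast; ring
      have k4 := h1 _ k1
      have k5 := im_aff hr hb k3
      rw [e1] at k2 k4 k5
      have e2 : (r * ((w - β) / r / (t * w + (1 - β * t))) + β : ℂ) =
          ((1 + β * t) * w - β ^ 2 * t) / (t * w + (1 - β * t)) := by
        rw [eq_div_iff k2, add_mul, mul_assoc, div_mul_cancel₀ _ k2, mul_div_cancel₀ _ hrc]
        ring
      rw [e2] at k4 k5
      exact ⟨k2, k5, k4.trans (by rw [mul_div_cancel₀ _ hrc, sub_add_cancel])⟩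
    obtain ⟨ε, hε, h3⟩ := small_c
    have hξ : Irrational ((t : ℝ)⁻¹ + β) := by exact_mod_cast hirr.ratCast_add t⁻¹
    obtain ⟨n, hn⟩ := exists_nat_gt (|(t : ℝ)| / ε)
    obtain ⟨q, hq, -⟩ := Real.exists_rat_abs_sub_le_and_den_le ((t : ℝ)⁻¹ + β) n.succ_pos
    obtain ⟨u, v, huv⟩ := Int.isCoprime_iff_gcd_eq_one.2 (show Int.gcd q.num q.den = 1 from q.reduced)
    have hd : (0 : ℝ) < q.den := by exact_mod_cast q.den_pos
    have e3 : (q.den * (1 + β * t) + -q.num * t : ℝ) = t * (q.den * ((t : ℝ)⁻¹ + β - q)) := by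
      rw [Rat.cast_def q]
      field_simp
      ring
    have huv' : (u * q.num + v * q.den : ℝ) = 1 := by exact_mod_cast huv
    have h4 := h3 (-u * (1 + β * t) - v * t) (-u * (-β ^ 2 * t) - v * (1 - β * t))
      (q.den * (1 + β * t) + -q.num * t) (q.den * (-β ^ 2 * t) + -q.num * (1 - β * t))
      (by linear_combination huv') (by
        rw [e3]
        exact mul_ne_zero ht1 (mul_ne_zero hd.ne' (sub_ne_zero.2 (hξ.ne_rat q)))) fun w hw => by
        obtain ⟨k1, k2, k3⟩ := h2 w hw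
        have k4 := jj_inv k2 (a := -u) (b := -v) (c := q.den) (d := -q.num)
          (by linear_combination huv)
        rw [← k3, ← k4]
        congr 1
        rw [← div_div_div_cancel_right₀ k1]
        push_cast
        congr 1 <;> field_simp <;> ring
    rw [e3, abs_mul, abs_mul, abs_of_pos hd] at h4
    rw [le_div_iff₀ (by positivity)] at hq
    rw [div_lt_iff₀ hε] at hn
    have h5 := abs_pos.2 ht1
    have h6 := abs_nonneg ((t : ℝ)⁻¹ + β - q)
    push_cast at hq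
    generalize |(t : ℝ)⁻¹ + β - q| = x at *
    have h7 : ε * (n + 1 + 1) ≤ |(t : ℝ)| * (x * ((n + 1 + 1) * q.den)) := by nlinarith
    nlinarith

lemma exists_prim (r β : ℚ) : ∃ (δ : ℕ) (α β' y : ℤ), 0 < δ ∧ (α : ℚ) = r * δ ∧
    (β' : ℚ) = β * δ ∧ IsCoprime (α * y + β') δ := by
  classical
  have ex : ∃ δ : ℕ, 0 < δ ∧ ∃ α β' : ℤ, (α : ℚ) = r * δ ∧ (β' : ℚ) = β * δ :=
    ⟨r.den * β.den, Nat.mul_pos r.den_pos β.den_pos, r.num * β.den, β.num * r.den, by
      push_cast; rw [← mul_assoc, Rat.mul_den_eq_num], by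
      push_cast; rw [mul_comm (r.den : ℚ), ← mul_assoc, Rat.mul_den_eq_num]⟩
  obtain ⟨h0, α, β', h1, h2⟩ := Nat.find_spec ex
  set δ := Nat.find ex with hδ
  refine ⟨δ, α, β', ∏ p ∈ δ.primeFactors.filter fun p : ℕ => ¬ (p : ℤ) ∣ β', p, h0, h1, h2, ?_⟩
  rw [Int.isCoprime_iff_gcd_eq_one, Int.gcd, Int.natAbs_natCast]
  refine Nat.Coprime.symm (Nat.coprime_of_dvd fun p hp h3 h4 => ?_)
  rw [← Int.natCast_dvd] at h4
  have hp' : Prime (p : ℤ) := Nat.prime_iff_prime_int.1 hp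
  by_cases h5 : (p : ℤ) ∣ β'
  · rcases hp'.dvd_or_dvd ((dvd_add_left h5).1 h4) with h6 | h6
    · obtain ⟨a, rfl⟩ := h6
      obtain ⟨b, rfl⟩ := h5
      obtain ⟨d, hd⟩ := h3
      have hp0 : (p : ℚ) ≠ 0 := by exact_mod_cast hp.ne_zero
      rw [hd] at h0 h1 h2
      push_cast at h1 h2
      have h7 : 0 < d := Nat.pos_of_mul_pos_left h0
      refine Nat.find_min ex (m := d) ?_ ⟨h7, a, b, mul_left_cancel₀ hp0 (by linarith),
        mul_left_cancel₀ hp0 (by linarith)⟩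
      rw [← hδ, hd]
      nlinarith [hp.two_le]
    · obtain ⟨p', h7, h8⟩ := (hp'.dvd_finsetProd_iff _).1 h6
      rw [mem_filter] at h7
      rw [Int.natCast_dvd_natCast, Nat.prime_dvd_prime_iff_eq hp
        (Nat.prime_of_mem_primeFactors h7.1)] at h8
      exact h7.2 (h8 ▸ h5)
  · refine h5 ((dvd_add_right (Dvd.dvd.mul_left ?_ α)).1 h4)
    exact dvd_prod_of_mem (fun p : ℕ => (p : ℤ))
      (mem_filter.2 ⟨Nat.mem_primeFactors.2 ⟨hp, h3, h0.ne'⟩, h5⟩)

lemma smith {r : ℚ} (hr : 0 < r) (β : ℚ) : ∃ s : ℕ, 0 < s ∧ ∀ z : ℂ, 0 < z.im →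
    ∃ w : ℂ, 0 < w.im ∧ jj w = jj z ∧ jj (r * w + β) = jj (s * z) := by
  obtain ⟨δ, α, β', y, h0, h1, h2, e, f, h3⟩ := exists_prim r β
  have hα : 0 < α := by
    have : (0 : ℚ) < α := by rw [h1]; positivity
    exact_mod_cast this
  lift α to ℕ using hα.le
  have hα' : 0 < α := by exact_mod_cast hα
  refine ⟨α * δ, Nat.mul_pos hα' h0, fun z hz => ?_⟩
  have hz' : 0 < ((α * δ : ℕ) * z : ℂ).im := by
    simpa using mul_pos (mul_pos (Nat.cast_pos.2 hα') (Nat.cast_pos.2 h0)) hz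
  have k1 := laws hz (a := 1 - y * (e * α)) (b := y) (c := -(e * α)) (d := 1) (by ring)
  refine ⟨_, k1.2.1, jj_inv hz (by ring), ?_⟩
  rw [← jj_inv hz' (a := f) (b := α * y + β') (c := -e) (d := δ) (by linear_combination h3)]
  have k3 := k1.1
  have hδ : (δ : ℂ) ≠ 0 := by exact_mod_cast h0.ne'
  have h1' : (r : ℂ) = α / δ := by rw [eq_div_iff hδ]; exact_mod_cast h1.symm
  have h2' : (β : ℂ) = β' / δ := by rw [eq_div_iff hδ]; exact_mod_cast h2.symm
  have h3' : (e * (α * y + β') + f * δ : ℂ) = 1 := by exact_mod_cast h3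
  congr 1
  push_cast at k3 ⊢
  rw [h1', h2', show (-e * (α * δ * z) + δ : ℂ) = δ * (-(e * α) * z + 1) by ring, div_mul_div_comm,
    ← mul_div_mul_right (β' : ℂ) δ k3, ← add_div]
  congr 1
  linear_combination (-(α * z : ℂ)) * h3'

lemma diff_eval (P : MvPolynomial (Fin 2) ℂ) {f g : ℂ → ℂ} {z : ℂ} (hf : DifferentiableAt ℂ f z)
    (hg : DifferentiableAt ℂ g z) : DifferentiableAt ℂ (fun w => eval ![f w, g w] P) z := by
  induction P using MvPolynomial.induction_on with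
  | C a => simp
  | add p q hp hq => simpa only [map_add] using hp.fun_add hq
  | mul_X p i hp =>
    simp only [map_mul, eval_X]
    refine hp.fun_mul ?_
    fin_cases i
    exacts [hf, hg]

lemma half {P : MvPolynomial (Fin 2) ℂ} (hP : P ≠ 0) {τ₁ τ₂ : ℂ} (h1 : 0 < τ₁.im) {n m : ℕ}
    (hn : 0 < n) (hm : 0 < m) (hb : 0 ≤ (τ₂ - m / n * τ₁).im)
    (h : ∀ σ : ℂ, 0 < σ.im → eval ![jj (τ₁ + n * σ), jj (τ₂ + m * σ)] P = 0) :
    ∃ β : ℚ, τ₂ - m / n * τ₁ = β ∧
      ∀ z : ℂ, 0 < z.im → eval ![jj z, jj ((m / n : ℚ) * z + β)] P = 0 := by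
  have hr : (0 : ℚ) < m / n := by positivity
  have hn' : (n : ℂ) ≠ 0 := by exact_mod_cast hn.ne'
  have h2 : ∀ z : ℂ, 0 < z.im → eval ![jj z, jj ((m / n : ℚ) * z + (τ₂ - m / n * τ₁))] P = 0 := by
    refine an_dich (w := τ₁ + I) (fun z hz => diff_eval P (diff_jj hz)
      (DifferentiableAt.comp (g := jj) z (diff_jj (im_aff hr hb hz)) (by fun_prop)))
      (by simp; linarith) (Eventually.frequently (nhdsWithin_le_nhds ?_))
    filter_upwards [(isOpen_lt (continuous_const (y := τ₁.im)) continuous_im).mem_nhds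
      (show τ₁.im < (τ₁ + I).im by simp)] with z hz
    have := h ((z - τ₁) / n) (by
      rw [← ofReal_natCast, div_ofReal_im, sub_im]
      exact div_pos (sub_pos.2 hz) (Nat.cast_pos.2 hn))
    convert this using 5
    · field_simp
      ring
    · push_cast
      field_simp
      ring_nf
  obtain ⟨β, hβ⟩ := rat_of_im hP hr hb h2
  exact ⟨β, hβ, hβ ▸ h2⟩

/-- The rigidity statement. -/
theorem rigid {P : MvPolynomial (Fin 2) ℂ} (hP : P ≠ 0) {q₁ q₂ : ℂ} (h1 : q₁ ≠ 0) (h1' : ‖q₁‖ < 1)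
    (h2 : q₂ ≠ 0) (h2' : ‖q₂‖ < 1) {n m : ℕ} (hn : 0 < n) (hm : 0 < m)
    (h : ∀ z : ℂ, z ≠ 0 → ‖z‖ < 1 → eval ![Jf (q₁ * z ^ n), Jf (q₂ * z ^ m)] P = 0) :
    (∃ s : ℕ, 0 < s ∧ ∀ z : ℂ, z ≠ 0 → ‖z‖ < 1 → eval ![Jf z, Jf (z ^ s)] P = 0) ∧
      ∃ a b : ℕ, 0 < a ∧ q₁ ^ a = q₂ ^ b := by
  obtain ⟨τ₁, k1, rfl⟩ := exists_qq h1 h1'
  obtain ⟨τ₂, k2, rfl⟩ := exists_qq h2 h2'
  have h3 : ∀ σ : ℂ, 0 < σ.im → eval ![jj (τ₁ + n * σ), jj (τ₂ + m * σ)] P = 0 := fun σ hσ => by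
    simpa only [jj, qq_add, qq_nat_mul] using h _ (qq_ne σ) (norm_qq_lt hσ)
  have hn' : (n : ℂ) ≠ 0 := by exact_mod_cast hn.ne'
  have hm' : (m : ℂ) ≠ 0 := by exact_mod_cast hm.ne'
  have hb : 0 ≤ (τ₂ - m / n * τ₁).im := by
    by_contra hb
    have e : τ₂ - m / n * τ₁ = ((-(m / n) : ℝ) : ℂ) * (τ₁ - n / m * τ₂) := by
      push_cast; field_simp; ring
    have h4 : (0 : ℝ) < m / n := by positivity
    rw [e, im_ofReal_mul, not_le] at hb
    obtain ⟨β, hβ, -⟩ := half (P := rename (Equiv.swap 0 1) P) (τ₂ := τ₁)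
      (fun h => hP (rename_injective _ (Equiv.injective _) (h.trans (map_zero _).symm))) k2 hm hn
      (by nlinarith) fun σ hσ => by
        rw [eval_rename, ← h3 σ hσ]
        congr 2
        funext i
        fin_cases i <;> rfl
    simp [hβ] at hb
  obtain ⟨β, hβ, h4⟩ := half hP k1 hn hm hb h3
  obtain ⟨s, hs, h5⟩ := smith (r := m / n) (by positivity) β
  refine ⟨⟨s, hs, fun z hz hz' => ?_⟩, m * β.den, n * β.den, Nat.mul_pos hm β.den_pos, ?_⟩
  · obtain ⟨τ, k3, rfl⟩ := exists_qq hz hz'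
    obtain ⟨w, k4, k5, k6⟩ := h5 τ k3
    have := h4 w k4
    rwa [k5, k6, jj, jj, qq_nat_mul] at this
  · rw [← qq_nat_mul, ← qq_nat_mul, ← mul_one (qq _), ← qq_int (n * β.num), ← qq_add]
    congr 1
    have e : (β.num : ℂ) = β * β.den := by exact_mod_cast (Rat.mul_den_eq_num β).symm
    push_cast
    rw [e, ← hβ]
    field_simp
    ring

end Pool.Agent.Lib.MP_8f9d9d_nt
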