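import Pool.Agent.Lib.MP_8f9d9d_nt.H39Ko
import Pool.Agent.Lib.MP_8f9d9d_nt.H39Rigid
import Pool.Agent.Lib.MP_1f047c_nt.Liouv

/-! The limit valuation along an ultrafilter. -/

open Finset MvPolynomial Sum Filter Topology Height
open scoped NNReal

namespace Pool.Agent.Lib.MP_8f9d9d_nt

open Pool.Agent.Lib.MP_1f047c_nt

lemma exists_limit {S : Type} [CommRing S] (U : Ultrafilter ℕ) (A : ℕ → S → ℝ) (c : ℕ → ℝ)
    (h0 : ∀ k u, 0 ≤ A k u) (hz : ∀ᶠ k in U, A k 0 = 0) (h1 : ∀ k, A k 1 = 1)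
    (hm : ∀ k u v, A k (u * v) = A k u * A k v) (hc : Tendsto c U (𝓝 1))
    (ha : ∀ u v, ∀ᶠ k in U, A k (u + v) ≤ c k * max (A k u) (A k v))
    (hb : ∀ u, ∃ B, ∀ᶠ k in U, A k u ≤ B) :
    ∃ V : Valuation S ℝ≥0, ∀ u, Tendsto (fun k => A k u) U (𝓝 (V u)) := by
  have : ∀ u, ∃ x : ℝ≥0, Tendsto (fun k => A k u) U (𝓝 x) := by
    intro u
    obtain ⟨B, hB⟩ := hb u
    obtain ⟨x, hx, h⟩ := (isCompact_Icc (a := 0) (b := B)).ultrafilter_le_nhds'
      (U.map fun k => A k u) (hB.mono fun k hk => ⟨h0 k u, hk⟩)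
    exact ⟨⟨x, hx.1⟩, h⟩
  choose V hV using this
  refine ⟨⟨⟨⟨V, ?_⟩, ?_, fun u v => ?_⟩, fun u v => ?_⟩, hV⟩
  · exact NNReal.eq (tendsto_nhds_unique (hV 0) (tendsto_const_nhds.congr' (hz.mono fun _ => .symm)))
  · exact NNReal.eq (tendsto_nhds_unique (hV 1) (by simp [h1]))
  · exact NNReal.eq (tendsto_nhds_unique (hV _) (by simpa [hm] using (hV u).mul (hV v)))
  · have := le_of_tendsto_of_tendsto (hV _) (hc.mul ((hV u).max (hV v))) (ha u v)
    rw [one_mul] at this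
    exact_mod_cast this

/-- Two algebraic points and further algebraic numbers. -/
structure Dat (κ : Type) where
  /-- the number field -/
  K : Type
  [fK : Field K]
  [nK : NumberField K]
  /-- the embedding -/
  φ : K →+* ℂ
  /-- the points -/
  q : Fin 2 → K
  /-- the coefficients -/
  γ : κ → K
  /-- the height bound -/
  h : ℝ
  h0 : 0 ≤ h
  hq : ∀ i, logHeight₁ (q i) ≤ h
  hγ : ∀ j, logHeight₁ (γ j) ≤ h
  q0 : ∀ i, q i ≠ 0
  nγ : ∀ j, ‖φ (γ j)‖ ≤ 1

attribute [instance] Dat.fK Dat.nK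

variable {κ : Type}

/-- The algebraic point. -/
noncomputable def Dat.y (X : Dat κ) : Fin 2 ⊕ κ → X.K := Sum.elim X.q X.γ

/-- Evaluation. -/
noncomputable def Dat.ev (X : Dat κ) : SS κ →+* ℂ :=
  eval₂Hom (X.φ.comp (aeval X.y : R0 κ →ₐ[ℚ] X.K).toRingHom) fun p =>
    Lib.MP_8f9d9d_nt.ev (![e2, e4, e6] p.2) (X.φ (X.q p.1))

/-- The degree. -/
noncomputable def Dat.d (X : Dat κ) : ℝ := Module.finrank ℚ X.K

lemma Dat.d1 (X : Dat κ) : 1 ≤ X.d := by
  unfold Dat.d
  exact_mod_cast Module.finrank_pos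

lemma Dat.ev_C (X : Dat κ) (P : R0 κ) : X.ev (C P) = X.φ (aeval X.y P) := eval₂Hom_C _ _ _

lemma Dat.ev_inj (Y : Dat κ) (i : Fin 2) (h : ‖Y.φ (Y.q i)‖ < 1) (u : AA) :
    Y.ev (inj i u) = Lib.MP_8f9d9d_nt.ev (ser u) (Y.φ (Y.q i)) := by
  rw [ev_ser u h]
  refine RingHom.congr_fun (f := Y.ev.comp (inj i).toRingHom) (g := (aeval _).toRingHom) ?_ u
  refine ringHom_ext (fun a => by rw [hom_C, hom_C]) fun j => ?_
  change Y.ev (inj i (X j)) = aeval _ (X j)
  rw [aeval_X]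
  refine Fin.cases ?_ (fun j => ?_) j
  · rw [inj_zero, Dat.ev_C, aeval_X]; rfl
  · rw [inj_succ, Dat.ev, eval₂Hom_X']
    fin_cases j <;> rfl

lemma lower {K : Type} [Field K] [NumberField K] (φ : K →+* ℂ) {x : K} (hx : x ≠ 0) :
    Real.exp (-logHeight₁ x) ≤ ‖φ x‖ := by
  have := good_complex.liou K φ x⁻¹
  rw [mulHeight₁_inv, map_inv₀, norm_inv] at this
  rw [Real.exp_neg, logHeight₁_eq_log_mulHeight₁, Real.exp_log (mulHeight₁_pos x)]
  exact inv_le_of_inv_le₀ (norm_pos_iff.2 (by simpa using hx)) this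

theorem core [Fintype κ] (U : Ultrafilter ℕ) (hU : (U : Filter ℕ) ≤ atTop)
    (Y : ℕ → Dat κ) (l : ℕ → ℝ) (δ : ℝ) (hδ : 0 < δ)
    (hl : ∀ k, δ * (Y k).h + k * (Y k).d ≤ l k)
    (hlam : ∀ k i, ‖(Y k).φ ((Y k).q i)‖ ≤ Real.exp (-l k)) {D : ℕ} {ex : κ → Fin 2 →₀ ℕ}
    (hex : Function.Injective ex) (hD : ∀ j i, ex j i ≤ D) {j0 : κ}
    (hj : ∀ᶠ k in U, (Y k).γ j0 ≠ 0)
    (hf0 : ∀ T : ℕ, ∀ᶠ k in U, ‖(Y k).ev (f0 D ex)‖ ≤ Real.exp (-T * l k)) :
    ∃ n : Fin 2 → ℕ, (∀ i, 0 < n i) ∧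
      ∀ᶠ k in U, ∀ e, aeval (Y k).y (GG D ex n (e + 1) (Pi.single e 1)) = 0 := by
  classical
  have kd : ∀ k : ℕ, k * (Y k).d ≤ l k := fun k => by
    have := mul_nonneg hδ.le (Y k).h0
    linarith [hl k]
  have kl : ∀ k : ℕ, (k : ℝ) ≤ l k := fun k =>
    (le_mul_of_one_le_right (by positivity) (Y k).d1).trans (kd k)
  have ev_ge : ∀ n : ℕ, ∀ᶠ k in U, (n : ℝ) ≤ l k := fun n =>
    ((eventually_ge_atTop n).filter_mono hU).mono fun k hk => (Nat.cast_le.2 hk).trans (kl k)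
  have lpos : ∀ᶠ k in U, 0 < l k := (ev_ge 1).mono fun k hk => by simp at hk; linarith
  have l0 : ∀ k, 0 ≤ l k := fun k => (Nat.cast_nonneg k).trans (kl k)
  have small : Tendsto (fun k => (Y k).d / l k) U (𝓝 0) := by
    refine squeeze_zero' (.of_forall fun k => div_nonneg (by linarith [(Y k).d1]) (l0 k)) ?_
      (tendsto_one_div_atTop_nhds_zero_nat.mono_left hU)
    filter_upwards [lpos, hU (eventually_gt_atTop 0)] with k h1 h2
    rw [div_le_div_iff₀ h1 (by exact_mod_cast h2)]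
    linarith [kd k]
  have lim : ∀ a b : ℝ, Tendsto (fun k => Real.exp (a + b * ((Y k).d / l k))) U (𝓝 (Real.exp a)) :=
    fun a b => by
      have := (Real.continuous_exp.tendsto _).comp ((small.const_mul b).const_add a)
      simpa [Function.comp_def] using this
  have rp : ∀ a b : ℝ, ∀ k, 0 < l k → Real.exp (a * l k + b * (Y k).d) ^ (1 / l k) =
      Real.exp (a + b * ((Y k).d / l k)) := fun a b k hk => by
    rw [← Real.exp_mul]
    congr 1
    field_simp
  let A : ℕ → SS κ → ℝ := fun k u => ‖(Y k).ev u‖ ^ (1 / l k)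
  have e0 : ∀ k, 0 ≤ 1 / l k := fun k => one_div_nonneg.2 (l0 k)
  have up : ∀ u (a b : ℝ), (∀ᶠ k in U, ‖(Y k).ev u‖ ≤ Real.exp (a * l k + b * (Y k).d)) →
      ∀ᶠ k in U, A k u ≤ Real.exp (a + b * ((Y k).d / l k)) := fun u a b h => by
    filter_upwards [h, lpos] with k h1 h2
    rw [← rp a b k h2]
    exact Real.rpow_le_rpow (norm_nonneg _) h1 (e0 k)
  have two : ∀ k, 2 ≤ Real.exp (Y k).d := fun k => by
    linarith [Real.add_one_le_exp (Y k).d, (Y k).d1]
  have q4 : ∀ᶠ k in U, ∀ i, ‖(Y k).φ ((Y k).q i)‖ ≤ 1 / 2 := (ev_ge 1).mono fun k hk i => by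
    refine (hlam k i).trans ?_
    rw [Real.exp_neg, one_div]
    exact inv_anti₀ (by norm_num) (by push_cast at hk; linarith [Real.add_one_le_exp (l k)])
  have evq : ∀ k (q : ℚ), (Y k).ev (algebraMap ℚ _ q) = q := fun k q =>
    eq_ratCast ((Y k).ev.comp (algebraMap ℚ _)) q
  have bq : ∀ q : ℚ, ∃ b : ℝ, ∀ k, ‖(Y k).ev (algebraMap ℚ _ q)‖ ≤
      Real.exp (0 * l k + b * (Y k).d) := fun q => by
    refine ⟨‖(q : ℂ)‖, fun k => ?_⟩
    rw [evq, zero_mul, zero_add]
    linarith [Real.add_one_le_exp (‖(q : ℂ)‖ * (Y k).d),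
      le_mul_of_one_le_right (norm_nonneg (q : ℂ)) (Y k).d1]
  have bE : ∀ i (T : ℕ) u, ∃ b : ℝ, ∀ᶠ k in U, ‖(Y k).ev (rem i T u)‖ ≤
      Real.exp (-T * l k + b * (Y k).d) := fun i T u => by
    obtain ⟨B, hB, h⟩ := (cv_ser u).tail T
    refine ⟨B, ?_⟩
    filter_upwards [q4] with k hk
    have e : (Y k).ev (rem i T u) = ev (ser u) ((Y k).φ ((Y k).q i)) -
        ∑ j ∈ range T, tm (ser u) ((Y k).φ ((Y k).q i)) j := by
      rw [rem, map_sub, (Y k).ev_inj i ((hk i).trans_lt (by norm_num)), Dat.ev_C, tr, map_sum,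
        map_sum]
      congr 1
      refine sum_congr rfl fun j _ => ?_
      rw [map_mul, map_pow, aeval_C, aeval_X, map_mul, map_pow, eq_ratCast, map_ratCast]
      rfl
    rw [e]
    refine (h _ (hk i)).trans ?_
    rw [Real.exp_add, show -(T : ℝ) * l k = T * -l k by ring, Real.exp_nat_mul, mul_comm]
    gcongr
    · exact hlam k i
    · linarith [Real.add_one_le_exp (B * (Y k).d), le_mul_of_one_le_right hB.le (Y k).d1]
  have hadd : ∀ u v k, ‖(Y k).ev (u + v)‖ ≤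
      Real.exp (Y k).d * max ‖(Y k).ev u‖ ‖(Y k).ev v‖ := fun u v k => by
    rw [map_add]
    refine (norm_add_le _ _).trans (le_trans ?_ (mul_le_mul_of_nonneg_right (two k) (by positivity)))
    linarith [le_max_left ‖(Y k).ev u‖ ‖(Y k).ev v‖, le_max_right ‖(Y k).ev u‖ ‖(Y k).ev v‖]
  have bd : ∀ u, ∃ b : ℝ, ∀ᶠ k in U, ‖(Y k).ev u‖ ≤ Real.exp (0 * l k + b * (Y k).d) := by
    let Q : SS κ → Prop := fun u =>
      ∃ b : ℝ, ∀ᶠ k in U, ‖(Y k).ev u‖ ≤ Real.exp (0 * l k + b * (Y k).d)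
    have Qa : ∀ u v, Q u → Q v → Q (u + v) := by
      rintro u v ⟨a, ha⟩ ⟨b, hb⟩
      refine ⟨1 + max a b, ?_⟩
      filter_upwards [ha, hb] with k h1 h2
      refine (hadd u v k).trans ?_
      have := (Y k).d1
      rw [zero_mul, zero_add] at *
      rw [add_mul, one_mul, Real.exp_add]
      refine mul_le_mul_of_nonneg_left (max_le (h1.trans ?_) (h2.trans ?_)) (by positivity)
      · gcongr; exact le_max_left _ _
      · gcongr; exact le_max_right _ _
    have Qm : ∀ u v, Q u → Q v → Q (u * v) := by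
      rintro u v ⟨a, ha⟩ ⟨b, hb⟩
      refine ⟨a + b, ?_⟩
      filter_upwards [ha, hb] with k h1 h2
      rw [zero_mul, zero_add] at *
      rw [map_mul, norm_mul, add_mul, Real.exp_add]
      exact mul_le_mul h1 h2 (by positivity) (by positivity)
    intro u
    change Q u
    induction u using MvPolynomial.induction_on with
    | C r =>
      induction r using MvPolynomial.induction_on with
      | C q => exact (bq q).imp fun b hb => .of_forall hb
      | add p q hp hq => rw [map_add]; exact Qa _ _ hp hq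
      | mul_X p s hp =>
        rw [map_mul]
        refine Qm _ _ hp ?_
        rcases s with i | j
        · simpa [rem_zero, inj_zero, Q] using bE i 0 (X 0)
        · exact ⟨0, .of_forall fun k => by simpa [Dat.ev_C, Dat.y] using (Y k).nγ j⟩
    | add p q hp hq => exact Qa _ _ hp hq
    | mul_X p i hp =>
      exact Qm _ _ hp (by simpa [rem_zero, inj_succ, Q] using bE i.1 0 (X i.2.succ))
  obtain ⟨V, hV⟩ := exists_limit U A (fun k => Real.exp (0 + 1 * ((Y k).d / l k)))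
    (fun k u => by positivity) (lpos.mono fun k hk => by simp [A, hk.ne']) (fun k => by simp [A])
    (fun k u v => by
      simp only [A, map_mul, norm_mul]; exact Real.mul_rpow (by positivity) (by positivity))
    (by simpa using lim 0 1)
    (fun u v => lpos.mono fun k hk => by
      rw [← rp 0 1 k hk, zero_mul, zero_add, one_mul]
      refine (Real.rpow_le_rpow (norm_nonneg _) (hadd u v k) (e0 k)).trans ?_
      rw [Real.mul_rpow (by positivity) (by positivity),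
        Real.rpow_max (by positivity) (by positivity) (e0 k)])
    (fun u => by
      obtain ⟨b, hb⟩ := bd u
      exact ⟨Real.exp 0 + 1, ((up u 0 b hb).and ((lim 0 b).eventually
        (eventually_le_nhds (lt_add_one _)))).mono fun k hk => hk.1.trans hk.2⟩)
  have up' : ∀ u (a b : ℝ), (∀ᶠ k in U, ‖(Y k).ev u‖ ≤ Real.exp (a * l k + b * (Y k).d)) →
      (V u : ℝ) ≤ Real.exp a := fun u a b h =>
    le_of_tendsto_of_tendsto (hV u) (lim a b) (up u a b h)
  let θ : ℝ≥0 := ⟨Real.exp (-1), by positivity⟩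
  have θp : ∀ n : ℕ, ((θ ^ n : ℝ≥0) : ℝ) = Real.exp (-n) := fun n => by
    rw [NNReal.coe_pow]
    change Real.exp (-1) ^ n = _
    rw [← Real.exp_nat_mul]
    simp
  let Cst := ⌈(Fintype.card (Fin 2 ⊕ κ) : ℝ) / δ⌉₊
  have dich : ∀ P : R0 κ, (∀ᶠ k in U, aeval (Y k).y P ≠ 0) →
      θ ^ (Cst * P.totalDegree) ≤ V (C P) := by
    intro P hP
    obtain ⟨c, -, hc⟩ := exists_liou P
    rw [← NNReal.coe_le_coe, θp]
    refine le_of_tendsto_of_tendsto (lim _ (-c)) (hV _) ?_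
    filter_upwards [hP, lpos] with k h1 h2
    rw [← rp _ _ k h2]
    refine Real.rpow_le_rpow (by positivity) (le_trans (Real.exp_le_exp.2 ?_)
      ((lower (Y k).φ h1).trans (by rw [Dat.ev_C]))) (e0 k)
    have h3 := hc _ (Y k).y
    have hd := (Y k).d1
    have h4 : ∑ s, logHeight₁ ((Y k).y s) ≤ Fintype.card (Fin 2 ⊕ κ) * (Y k).h := by
      rw [← nsmul_eq_mul, ← card_univ]
      refine sum_le_card_nsmul _ _ _ fun s _ => ?_
      rcases s with i | j
      exacts [(Y k).hq i, (Y k).hγ j]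
    have h5 : Fintype.card (Fin 2 ⊕ κ) * (Y k).h ≤ Cst * l k := by
      have h6 : (Fintype.card (Fin 2 ⊕ κ) : ℝ) ≤ Cst * δ := (div_le_iff₀ hδ).1 (Nat.le_ceil _)
      have h7 : δ * (Y k).h ≤ l k := by
        have : (0 : ℝ) ≤ k * (Y k).d := by positivity
        linarith [hl k]
      calc _ ≤ Cst * δ * (Y k).h := mul_le_mul_of_nonneg_right h6 (Y k).h0
        _ ≤ _ := by rw [mul_assoc]; gcongr
    have h6 := mul_le_mul_of_nonneg_left (h4.trans h5) (Nat.cast_nonneg (α := ℝ) P.totalDegree)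
    change _ ≤ _ + c * (Y k).d at h3
    push_cast
    linarith
  have θ0 : 0 < θ := Real.exp_pos _
  have Vq : ∀ q : ℚ, V (algebraMap ℚ _ q) ≤ 1 := fun q => by
    obtain ⟨b, hb⟩ := bq q
    simpa using up' _ 0 b (.of_forall hb)
  have H : Hyp V θ Cst :=
    { pos := θ0
      lt := Real.exp_lt_one_iff.2 (by norm_num)
      hQ := fun q hq => le_antisymm (Vq q) (by
        have : V (algebraMap ℚ _ q) * V (algebraMap ℚ _ q⁻¹) = 1 := by
          rw [← map_mul, ← map_mul, mul_inv_cancel₀ hq, map_one, map_one]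
        exact this ▸ mul_le_of_le_one_right' (Vq _))
      hq := fun i => ((pow_pos θ0 _).trans_le (dich _ (.of_forall fun k => by
        rw [aeval_X]; exact (Y k).q0 i))).ne'
      hΓ := fun j => by
        simpa using up' (C (X (inr j))) 0 0
          (.of_forall fun k => by simpa [Dat.ev_C, Dat.y] using (Y k).nγ j)
      hE := fun i T u => by
        rw [← NNReal.coe_le_coe, θp]
        exact (bE i T u).elim (up' _ _)
      hL := fun P hP => dich P (by
        refine Ultrafilter.eventually_not.2 fun h => ?_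
        apply hP
        refine NNReal.eq (tendsto_nhds_unique (hV _) (tendsto_const_nhds.congr' ?_))
        filter_upwards [h, lpos] with k h1 h2
        simp [A, Dat.ev_C, h1, h2.ne']) }
  have hV0 : V (f0 D ex) = 0 := by
    by_contra h
    obtain ⟨T, hT⟩ := NNReal.exists_pow_lt_of_lt_one (pos_iff_ne_zero.2 h) H.lt
    refine hT.not_ge ?_
    rw [← NNReal.coe_le_coe, θp]
    exact up' _ _ 0 (by simpa using hf0 T)
  obtain ⟨n, hn, hn'⟩ := H.ko hex hD (j0 := j0) ((pow_pos θ0 _).trans_le (dich _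
    (hj.mono fun k hk => by rw [aeval_X]; exact hk))).ne' hV0
  refine ⟨n, hn, ?_⟩
  obtain ⟨s, hs, hs'⟩ := (Submodule.fg_span_iff_fg_span_finset_subset (R := R0 κ)
    (Set.range fun e => GG D ex n (e + 1) (Pi.single e 1))).1 (IsNoetherian.noetherian _)
  have h1 : ∀ᶠ k in U, ∀ r ∈ s, aeval (Y k).y r = 0 := (eventually_all_finset _).2 fun r hr => by
    obtain ⟨e, rfl⟩ := hs hr
    by_contra h
    rw [← Ultrafilter.eventually_not] at h
    exact ((pow_pos θ0 _).trans_le (dich _ h)).ne' (hn' e)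
  filter_upwards [h1] with k hk e
  exact (Ideal.span_le (I := RingHom.ker (aeval (Y k).y : R0 κ →ₐ[ℚ] _))).2 hk
    (hs'.le (Submodule.subset_span ⟨e, rfl⟩))

end Pool.Agent.Lib.MP_8f9d9d_nt
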