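import Pool.Agent.Lib.MP_8f9d9d_nt.H39Limit

/-! The theorem near the cusp. -/

open Finset MvPolynomial Sum Filter Topology Height

namespace Pool.Agent.Lib.MP_8f9d9d_nt

open Pool.Agent.Lib.MP_1f047c_nt

lemma ev_mon {w : ℂ} (h0 : w ≠ 0) (h1 : ‖w‖ < 1) {D a : ℕ} (ha : a ≤ D) :
    ev (ser (inc (mon D a))) w = (ev e4 w ^ 3 - ev e6 w ^ 2) ^ D * Jf w ^ a := by
  rw [ev_ser _ h1]
  simpa [Jf, Jq] using hom_mon (aeval ![w, ev e2 w, ev e4 w, ev e6 w] : AA →ₐ[ℚ] ℂ).toRingHom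
    (by simpa using disc_ne h0 h1) ha

lemma Dat.resum {κ : Type} [Fintype κ] (Y : Dat κ) (hq : ∀ i, ‖Y.φ (Y.q i)‖ < 1) {D : ℕ}
    {ex : κ → Fin 2 →₀ ℕ} (hD : ∀ j i, ex j i ≤ D) {n : Fin 2 → ℕ} (hn : ∀ i, 0 < n i)
    (h : ∀ e, aeval Y.y (GG D ex n (e + 1) (Pi.single e 1)) = 0) {z : ℂ} (hz0 : z ≠ 0)
    (hz : ‖z‖ < 1) : ∑ j, Y.φ (Y.γ j) * (Jf (Y.φ (Y.q 0) * z ^ n 0) ^ ex j 0 *
      Jf (Y.φ (Y.q 1) * z ^ n 1) ^ ex j 1) = 0 := by
  let w : Fin 2 → ℂ := fun i => Y.φ (Y.q i) * z ^ n i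
  have w0 : ∀ i, w i ≠ 0 := fun i => mul_ne_zero (by simpa using Y.q0 i) (pow_ne_zero _ hz0)
  have w1 : ∀ i, ‖w i‖ < 1 := fun i => by
    rw [norm_mul, norm_pow]
    exact mul_lt_one_of_nonneg_of_lt_one_left (norm_nonneg _) (hq i)
      (pow_le_one₀ (norm_nonneg _) hz.le)
  let a : κ → Fin 2 → PS := fun j i => ser (inc (mon D (ex j i)))
  have h1 := (hasSum_sum (s := univ) fun j _ => ((((cv_ser _).hasSum (w1 0)).mul
    ((cv_ser _).hasSum (w1 1)) (summable_mul_of_summable_norm (cv_ser _ _ (w1 0))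
      (cv_ser _ _ (w1 1)))).mul_left (Y.φ (Y.γ j)) : HasSum (fun p : ℕ × ℕ => Y.φ (Y.γ j) *
        (tm (a j 0) (w 0) p.1 * tm (a j 1) (w 1) p.2)) _)).tsum_fiberwise
          fun p => n 0 * p.1 + n 1 * p.2
  have h2 : ∀ e, ∑' p : (fun p : ℕ × ℕ => n 0 * p.1 + n 1 * p.2) ⁻¹' {e}, ∑ j, Y.φ (Y.γ j) *
      (tm (a j 0) (w 0) p.1.1 * tm (a j 1) (w 1) p.1.2) = 0 := fun e => by
    rw [_root_.tsum_subtype _ fun p : ℕ × ℕ => ∑ j, Y.φ (Y.γ j) * (tm (a j 0) (w 0) p.1 *
      tm (a j 1) (w 1) p.2), tsum_eq_sum (s := range (e + 1) ×ˢ range (e + 1)) fun p hp => ?_,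
      ← mul_zero (z ^ e), ← map_zero Y.φ, ← h e]
    · simp only [GG, Gw, map_sum, map_mul, mul_sum, aeval_X, aeval_C, map_pow, eq_ratCast,
        map_ratCast]
      rw [sum_comm]
      refine sum_congr rfl fun p _ => ?_
      by_cases hp : n 0 * p.1 + n 1 * p.2 = e
      · rw [Set.indicator_of_mem (by exact hp)]
        refine sum_congr rfl fun j _ => ?_
        simp only [hp, Pi.single_eq_same, tm, w, a, Dat.y, Sum.elim_inl, Sum.elim_inr]
        rw [← hp]
        push_cast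
        ring
      · rw [Set.indicator_of_notMem (by exact hp), Pi.single_eq_of_ne hp]
        simp
    · rw [Set.indicator_of_notMem]
      intro (hp' : n 0 * p.1 + n 1 * p.2 = e)
      simp only [mem_product, mem_range, not_and_or, not_lt] at hp
      have := Nat.le_mul_of_pos_left p.1 (hn 0)
      have := Nat.le_mul_of_pos_left p.2 (hn 1)
      omega
  simp only [a] at h1 h2
  simp only [h2] at h1
  have h3 := h1.unique hasSum_zero
  simp only [ev_mon (w0 _) (w1 _) (hD _ _)] at h3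
  refine mul_left_cancel₀ (mul_ne_zero (pow_ne_zero D (disc_ne (w0 0) (w1 0)))
    (pow_ne_zero D (disc_ne (w0 1) (w1 1)))) ?_
  rw [mul_zero, ← h3, mul_sum]
  exact sum_congr rfl fun j _ => by ring

/-- The conclusion. -/
def Concl {K : Type} [Field K] (φ : K →+* ℂ) (q : Fin 2 → K) (P : MvPolynomial (Fin 2) K) : Prop :=
  (∃ s : ℕ, 0 < s ∧ ∀ z : ℂ, z ≠ 0 → ‖z‖ < 1 → eval₂ φ ![Jf z, Jf (z ^ s)] P = 0) ∧
    ∃ a b : ℕ, 0 < a ∧ q 0 ^ a = q 1 ^ b

theorem sym (D : ℕ) (δ : ℝ) (hδ : 0 < δ) : ∃ c : ℕ, ∀ (K : Type) [Field K] [NumberField K]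
    (φ : K →+* ℂ) (q : Fin 2 → K) (P : MvPolynomial (Fin 2) K) (h : ℝ), P ≠ 0 →
    P.totalDegree ≤ D → (∀ i, q i ≠ 0) → (∀ i, logHeight₁ (q i) ≤ h) →
    (∀ β, logHeight₁ (coeff β P) ≤ h) →
    (∀ i, ‖φ (q i)‖ ≤ Real.exp (-(δ * h + c * Module.finrank ℚ K))) →
    ‖eval₂ φ (fun i => Jf (φ (q i))) P‖ < Real.exp (-(c * (c + δ) * (h + Module.finrank ℚ K))) →
    Concl φ q P := by
  classical
  by_contra hcon
  simp only [not_exists, not_forall] at hcon
  choose K fK nK φ q F h hF0 hD hq0 hq hF hlam hsm hno using hcon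
  let κ := {β : Fin 2 →₀ ℕ | β.degree ≤ D}
  let _ : Fintype κ := (Finsupp.finite_of_degree_le D).fintype
  have hκ : ∀ (β : κ) i, β.1 i ≤ D := fun β i => (Finsupp.le_degree i _).trans β.2
  have h0 : ∀ k, 0 ≤ h k := fun k => (zero_le_logHeight₁ _).trans (hF k 0)
  have : ∀ k, ∃ β0 : κ, ∀ β : κ, ‖φ k (coeff β.1 (F k))‖ ≤ ‖φ k (coeff β0.1 (F k))‖ := fun k => by
    obtain ⟨β0, -, h⟩ := exists_max_image univ (fun β : κ => ‖φ k (coeff β.1 (F k))‖)
      ⟨⟨0, by simp [κ]⟩, mem_univ _⟩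
    exact ⟨β0, fun β => h β (mem_univ _)⟩
  choose β0 hβ0 using this
  let c0 := fun k => coeff (β0 k).1 (F k)
  have hc0 : ∀ k, c0 k ≠ 0 := fun k h => by
    obtain ⟨β, hβ⟩ := support_nonempty.2 (hF0 k)
    have := hβ0 k ⟨β, (le_totalDegree hβ).trans (hD k)⟩
    change _ ≤ ‖φ k (c0 k)‖ at this
    rw [h, map_zero, norm_zero, norm_le_zero_iff, map_eq_zero] at this
    exact mem_support_iff.1 hβ this
  let γ : ∀ k, κ → K k := fun k β => coeff β.1 (F k) / c0 k
  have hF' : ∀ k, F k = ∑ β : κ, monomial β.1 (coeff β.1 (F k)) := fun k => by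
    ext β
    simp only [coeff_sum, coeff_monomial]
    by_cases hβ : β.degree ≤ D
    · rw [sum_eq_single (⟨β, hβ⟩ : κ), if_pos rfl]
      · exact fun b _ hb => if_neg fun h => hb (Subtype.ext h)
      · simp
    · rw [sum_eq_zero fun b _ => if_neg fun h : b.1 = β => hβ (h ▸ b.2)]
      by_contra h
      exact hβ ((le_totalDegree (mem_support_iff.2 h)).trans (hD k))
  have e1 : ∀ k v, eval₂ (φ k) v (F k) = φ k (c0 k) * ∑ β : κ, φ k (γ k β) * ∏ i, v i ^ β.1 i := by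
    intro k v
    conv_lhs => rw [hF' k, eval₂_sum]
    rw [mul_sum]
    refine sum_congr rfl fun β _ => ?_
    rw [eval₂_monomial, Finsupp.prod_fintype _ _ (by simp), ← mul_assoc, ← map_mul,
      mul_div_cancel₀ _ (hc0 k)]
  let U := hyperfilter ℕ
  have hU : (U : Filter ℕ) ≤ atTop := Nat.hyperfilter_le_atTop
  let Y : ℕ → Dat κ := fun k =>
    { K := K k, φ := φ k, q := q k, γ := γ k, h := 2 * h k, q0 := hq0 k
      h0 := by linarith [h0 k]
      hq := fun j => (hq k _).trans (by linarith [h0 k])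
      hγ := fun β => by
        simp only [γ, div_eq_mul_inv]
        refine (logHeight₁_mul_le _ _).trans ?_
        rw [logHeight₁_inv]
        linarith [hF k β.1, hF k (β0 k).1]
      nγ := fun β => by
        simp only [γ, map_div₀, norm_div]
        exact div_le_one_of_le₀ (hβ0 k β) (norm_nonneg _) }
  obtain ⟨j0, hj0⟩ : ∃ j, ∀ᶠ k in U, γ k j ≠ 0 := Ultrafilter.eventually_exists_iff.1
    (.of_forall fun k => ⟨β0 k, div_ne_zero (hc0 k) (hc0 k)⟩)
  have kl : ∀ k : ℕ, (k : ℝ) ≤ δ * h k + k * Module.finrank ℚ (K k) := fun k => by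
    have := le_mul_of_one_le_right (Nat.cast_nonneg k) (Y k).d1
    have := mul_nonneg hδ.le (h0 k)
    change _ ≤ _ + k * (Y k).d
    linarith
  have q2 : ∀ k, 1 ≤ k → ∀ i, ‖φ k (q k i)‖ ≤ 1 / 2 := fun k hk i => by
    refine (hlam k i).trans ?_
    rw [Real.exp_neg, one_div]
    have : (1 : ℝ) ≤ k := by exact_mod_cast hk
    exact inv_anti₀ (by norm_num) (by
      linarith [Real.add_one_le_exp (δ * h k + k * Module.finrank ℚ (K k)), kl k])
  obtain ⟨B, hB, hB'⟩ := (cv_ser (X 2 ^ 3 - X 3 ^ 2)).tail 0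
  obtain ⟨n, hn, hn'⟩ := core U hU Y (fun k => δ * h k + k * Module.finrank ℚ (K k)) (δ / 2)
    (by positivity) (fun k => le_of_eq (by simp only [Y, Dat.d]; ring)) (fun k j => hlam k _)
    Subtype.val_injective hκ hj0 fun T => by
      filter_upwards [(eventually_ge_atTop (T + 2 + ⌈B ^ (2 * D)⌉₊)).filter_mono hU] with k k2
      have k3 := fun i => (q2 k (by omega) i).trans_lt one_half_lt_one
      have k4 : ∀ i u, (Y k).ev (inj i u) = ev (ser u) (φ k (q k i)) :=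
        fun i => (Y k).ev_inj i (k3 i)
      have k5 : ∀ z, ev (ser (X 2)) z = ev e4 z := fun z => by simp [ser]
      have k6 : ∀ z, ev (ser (X 3)) z = ev e6 z := fun z => by simp [ser]
      rw [hom_f0 _ hκ fun i => by rw [k4, k4, k5, k6]; exact disc_ne (by simpa using hq0 k i) (k3 i),
        norm_mul]
      simp only [k4, k5, k6, Dat.ev_C, aeval_X]
      have h1 := lower (φ k) (hc0 k)
      have h2 := hsm k
      rw [e1, norm_mul] at h2
      have h3 := (mul_le_mul_of_nonneg_right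
        ((Real.exp_le_exp.2 (neg_le_neg (hF k (β0 k).1))).trans h1) (norm_nonneg _)).trans h2.le
      rw [← le_div_iff₀' (by positivity), ← Real.exp_sub] at h3
      have h4 : ‖∏ i, (ev e4 (φ k (q k i)) ^ 3 - ev e6 (φ k (q k i)) ^ 2) ^ D‖ ≤
          Real.exp (δ * h k + k * Module.finrank ℚ (K k)) := by
        have : ∀ i, ‖ev e4 (φ k (q k i)) ^ 3 - ev e6 (φ k (q k i)) ^ 2‖ ≤ B := fun i => by
          have := hB' _ (q2 k (by omega) i)
          rw [ev_ser _ (k3 i)] at this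
          simpa using this
        rw [Fin.prod_univ_two, norm_mul, norm_pow, norm_pow]
        calc _ ≤ B ^ D * B ^ D := by gcongr <;> exact this _
          _ ≤ (⌈B ^ (2 * D)⌉₊ : ℝ) := by rw [← pow_add, ← two_mul]; exact Nat.le_ceil _
          _ ≤ k := by exact_mod_cast (by omega)
          _ ≤ _ := by linarith [Real.add_one_le_exp (δ * h k + k * Module.finrank ℚ (K k)), kl k]
      refine (mul_le_mul h4 h3 (norm_nonneg _) (by positivity)).trans ?_
      rw [← Real.exp_add, Real.exp_le_exp]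
      have h4 : (T : ℝ) + 2 ≤ k := by exact_mod_cast (by omega)
      have h5 : (0 : ℝ) ≤ Module.finrank ℚ (K k) := by positivity
      have h6 : (0 : ℝ) ≤ T := by positivity
      have h7 := h0 k
      generalize (Module.finrank ℚ (K k) : ℝ) = d at *
      have h8 : δ * h k + k * d ≤ (k + δ) * (h k + d) := by nlinarith
      have h9 : h k ≤ (k + δ) * (h k + d) := by nlinarith
      have h10 : (T + 2) * ((k + δ) * (h k + d)) ≤ k * ((k + δ) * (h k + d)) := by
        gcongr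
      nlinarith
  obtain ⟨k, k1, k2⟩ := (hn'.and ((eventually_ge_atTop 1).filter_mono hU)).exists
  have k3 := fun i => (q2 k k2 i).trans_lt one_half_lt_one
  obtain ⟨⟨s, hs, r1⟩, a, b, ha, r2⟩ := rigid (P := map (φ k) (F k))
    (fun h => hF0 k (map_injective _ (φ k).injective (h.trans (map_zero _).symm)))
    (by simpa using hq0 k 0) (k3 0) (by simpa using hq0 k 1) (k3 1) (hn 0) (hn 1) fun z hz hz' => by
      rw [eval_map, e1]
      simp only [Fin.prod_univ_two]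
      exact mul_eq_zero_of_right _ ((Y k).resum k3 hκ hn k1 hz hz')
  exact hno k ⟨⟨s, hs, fun z hz hz' => (eval_map _ _ _).symm.trans (r1 z hz hz')⟩, a, b, ha,
    (φ k).injective (by rw [map_pow, map_pow, r2])⟩

lemma unb {p : Polynomial ℂ} {s : ℕ} (hs : 0 < s) (i j : Fin 2)
    (h : ∀ z : ℂ, z ≠ 0 → ‖z‖ < 1 →
      p.eval (![Jf z, Jf (z ^ s)] i) = 0 ∨ ![Jf z, Jf (z ^ s)] j = 0) : p = 0 := by
  obtain ⟨ρ, hρ, hJ⟩ := J_bounds
  refine Polynomial.eq_zero_of_infinite_isRoot p fun hf => ?_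
  obtain ⟨M, hM0, hM⟩ := hf.isBounded.exists_pos_norm_le
  obtain ⟨x, x0, x1⟩ := exists_between (show 0 < min (min ρ 1) (1 / (2 * M)) by positivity)
  simp only [lt_min_iff] at x1
  have e : ‖(x : ℂ)‖ = x := by simp [x0.le]
  have x2 : (x : ℂ) ≠ 0 := by simpa using x0.ne'
  have k : ∀ w : ℂ, w ≠ 0 → ‖w‖ ≤ x → M < ‖Jf w‖ := fun w h0 h1 => by
    have h2 := (hJ w h0 (h1.trans_lt x1.1.1)).1
    have h3 := (lt_div_iff₀ (by positivity)).1 x1.2
    by_contra h4
    have := mul_le_mul h1 (not_lt.1 h4) (norm_nonneg _) x0.le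
    linarith
  have k' : ∀ t, M < ‖![Jf x, Jf (x ^ s)] t‖ := Fin.forall_fin_two.2 ⟨k _ x2 e.le,
    k _ (pow_ne_zero _ x2) (by
      rw [norm_pow, e]; exact pow_le_of_le_one x0.le x1.1.2.le hs.ne')⟩
  rcases h x x2 (e.trans_lt x1.1.2) with h | h
  · exact (k' i).not_ge (hM _ h)
  · simpa [h, hM0.not_gt] using k' j

lemma asym (D : ℕ) (δ : ℝ) (hδ : 0 < δ) : ∃ A : ℕ, 0 < A ∧ ∀ (K : Type) [Field K] [NumberField K]
    (φ : K →+* ℂ) (q : Fin 2 → K) (P : MvPolynomial (Fin 2) K) (l : Fin 2 → ℝ) (i j : Fin 2),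
    i ≠ j → P ≠ 0 → P.totalDegree ≤ D → (∀ t, ‖φ (q t)‖ = Real.exp (-l t)) →
    δ * logHeight₁ (q i) + A * Module.finrank ℚ K ≤ l i →
    (∀ β, δ * logHeight₁ (coeff β P) + A * Module.finrank ℚ K ≤ l i) → A * l i ≤ l j →
    Real.exp (-(A * l i)) < ‖eval₂ φ (fun t => Jf (φ (q t))) P‖ := by
  classical
  obtain ⟨k, hk⟩ := sym D δ hδ
  obtain ⟨ρ, hρ, hJ⟩ := J_bounds
  obtain ⟨E, hE⟩ := exists_nat_ge (k * (k + δ) * (1 / δ + 1) + 2 * D + (1 + 1 / δ))
  obtain ⟨R, hR⟩ := exists_nat_ge (1 / ρ)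
  set M := (Finsupp.finite_of_degree_le (σ := Fin 2) D).toFinset.card with hM
  refine ⟨2 * E + 2 + k + R + M, by omega, fun K _ _ φ q P l i j hij hP hD hl h1 h2 h3 => ?_⟩
  have hd : (1 : ℝ) ≤ Module.finrank ℚ K := by exact_mod_cast Module.finrank_pos
  push_cast at h1 h2 h3 ⊢
  have hE0 : (0 : ℝ) ≤ E := by positivity
  have hk0 : (0 : ℝ) ≤ k := by positivity
  have hR0 : (0 : ℝ) ≤ R := by positivity
  have hM0 : (0 : ℝ) ≤ M := by positivity
  generalize hA : (2 * E + 2 + k + R + M : ℝ) = A at h1 h2 h3 ⊢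
  have hA1 : 1 ≤ A := by linarith
  have hAd : A ≤ A * Module.finrank ℚ K := le_mul_of_one_le_right (by linarith) hd
  have hdA : (Module.finrank ℚ K : ℝ) ≤ A * Module.finrank ℚ K :=
    le_mul_of_one_le_left (by linarith) hA1
  have h4 := mul_nonneg hδ.le (zero_le_logHeight₁ (q i))
  have li : A ≤ l i := by linarith
  have lj : l i ≤ l j := (le_mul_of_one_le_left (by linarith) hA1).trans h3
  have ij := (by decide : ∀ i j : Fin 2, i ≠ j → ∀ t, t = i ∨ t = j) i j hij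
  have pr2 : ∀ f : Fin 2 → ℂ, ∏ t, f t = f i * f j := fun f =>
    Fintype.prod_eq_mul i j hij fun t ht => ((ij t).elim ht.1 ht.2).elim
  have q0 : ∀ t, φ (q t) ≠ 0 := fun t => norm_pos_iff.1 (hl t ▸ Real.exp_pos _)
  have hJ' : ∀ t, l i ≤ l t → Real.exp (l t) / 2 ≤ ‖Jf (φ (q t))‖ ∧
      ‖Jf (φ (q t))‖ ≤ 2 * Real.exp (l t) := fun t ht => by
    have := hJ _ (q0 t) (by
      rw [hl, Real.exp_neg, inv_lt_comm₀ (by positivity) hρ, ← one_div]
      linarith [Real.add_one_le_exp (l t)])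
    rw [hl, Real.exp_neg, le_inv_mul_iff₀ (by positivity), inv_mul_le_iff₀ (by positivity)] at this
    constructor <;> linarith [this.1, this.2]
  obtain ⟨β0, hβ0, hN⟩ := exists_mem_eq_sup P.support (support_nonempty.2 hP) fun β => β j
  have hle : ∀ β ∈ P.support, β j ≤ β0 j := fun β hβ => hN ▸ le_sup (f := fun β => β j) hβ
  have hlD : ∀ β ∈ P.support, ∀ t, β t ≤ D := fun β hβ t =>
    (Finsupp.le_degree t β).trans ((le_totalDegree hβ).trans hD)
  let S := P.support.filter fun β => β j = β0 j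
  let T := ∑ β ∈ S, monomial β (coeff β P)
  have cT : ∀ β, coeff β T = if β ∈ S then coeff β P else 0 := fun β => by
    simp only [T, coeff_sum, coeff_monomial, sum_ite_eq']
  have mS : β0 ∈ S := mem_filter.2 ⟨hβ0, rfl⟩
  let p : Polynomial ℂ := ∑ β ∈ S, Polynomial.monomial (β i) (φ (coeff β P))
  have eT : ∀ v : Fin 2 → ℂ, eval₂ φ v T = p.eval (v i) * v j ^ β0 j := fun v => by
    rw [eval₂_sum, Polynomial.eval_finsetSum, sum_mul]
    refine sum_congr rfl fun β hβ => ?_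
    rw [eval₂_monomial, Finsupp.prod_fintype _ _ (by simp), pr2, (mem_filter.1 hβ).2,
      Polynomial.eval_monomial, mul_assoc]
  have low : Real.exp (-(k * (k + δ) * (1 / δ + 1) * l i)) ≤
      ‖eval₂ φ (fun _ => Jf (φ (q i))) T‖ := by
    by_contra hlt
    obtain ⟨⟨s, hs, h5⟩, -⟩ := hk K φ (fun _ => q i) T ((l i - A * Module.finrank ℚ K) / δ)
      (fun h => mem_support_iff.1 hβ0 (by simpa [h, mS] using (cT β0).symm))
      ((sup_mono fun β hβ => mem_support_iff.2 fun h => mem_support_iff.1 hβ (by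
        simp [cT, h])).trans hD) (fun _ => by simpa using q0 i)
      (fun _ => (le_div_iff₀ hδ).2 (by linarith))
      (fun β => (le_div_iff₀ hδ).2 (by
        rw [cT]
        split_ifs
        · linarith [h2 β]
        · rw [logHeight₁_zero]; linarith))
      (fun _ => by
        rw [hl, mul_div_cancel₀ _ hδ.ne', Real.exp_le_exp]
        nlinarith)
      ((not_le.1 hlt).trans_le (by
        rw [Real.exp_le_exp, neg_le_neg_iff, mul_assoc _ _ (l i)]
        gcongr
        have := div_le_div_of_nonneg_right (show l i - A * Module.finrank ℚ K ≤ l i by linarith) hδ.le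
        rw [add_mul (1 / δ), one_div, inv_mul_eq_div]
        linarith))
    have h6 := congrArg (Polynomial.coeff · (β0 i)) (unb (p := p) hs i j fun z hz hz' =>
      (mul_eq_zero.1 ((eT _).symm.trans (h5 z hz hz'))).imp_right eq_zero_of_pow_eq_zero)
    simp only [p, Polynomial.finsetSum_coeff, Polynomial.coeff_monomial,
      Polynomial.coeff_zero] at h6
    rw [sum_eq_single β0 (fun β hβ hne => if_neg fun h => hne ?_) (by simp [mS]), if_pos rfl,
      map_eq_zero] at h6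
    · exact mem_support_iff.1 hβ0 h6
    · ext t
      rcases ij t with rfl | rfl
      exacts [h, (mem_filter.1 hβ).2]
  have e2 : 2 ≤ Real.exp (l i) := by linarith [Real.add_one_le_exp (l i)]
  have Ji : ∀ a ≤ D, ‖Jf (φ (q i))‖ ^ a ≤ Real.exp (2 * D * l i) := fun a ha => by
    have : ‖Jf (φ (q i))‖ ≤ Real.exp (2 * l i) := by
      rw [two_mul, Real.exp_add]
      exact (hJ' i le_rfl).2.trans (by gcongr)
    refine (pow_le_pow_left₀ (norm_nonneg _) this a).trans ?_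
    rw [← Real.exp_nat_mul, Real.exp_le_exp]
    have : (a : ℝ) ≤ D := by exact_mod_cast ha
    nlinarith
  have Jj := (hJ' j lj).1
  have Jj1 : 1 ≤ ‖Jf (φ (q j))‖ := by linarith [Real.exp_le_exp.2 lj]
  rw [eT, norm_mul, norm_pow] at low
  have low2 : Real.exp (-(E * l i)) ≤ ‖p.eval (Jf (φ (q i)))‖ := by
    refine le_of_mul_le_mul_right (le_trans ?_ (low.trans (mul_le_mul_of_nonneg_left
      (Ji _ (hlD _ hβ0 j)) (norm_nonneg _)))) (Real.exp_pos _)
    rw [← Real.exp_add, Real.exp_le_exp]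
    have : 0 ≤ 1 + 1 / δ := by positivity
    nlinarith
  have up : ‖eval₂ φ (fun t => Jf (φ (q t))) P - eval₂ φ (fun t => Jf (φ (q t))) T‖ ≤
      Real.exp (E * l i) * (‖Jf (φ (q j))‖ ^ β0 j / ‖Jf (φ (q j))‖) := by
    conv_lhs => rw [P.as_sum, ← sum_filter_add_sum_filter_not _ fun β => β j = β0 j, eval₂_add,
      add_sub_cancel_left, eval₂_sum]
    refine (norm_sum_le _ _).trans ((sum_le_card_nsmul _ _ (Real.exp (l i / δ) *
      (Real.exp (2 * D * l i) * (‖Jf (φ (q j))‖ ^ β0 j / ‖Jf (φ (q j))‖))) fun β hβ => ?_).trans ?_)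
    · obtain ⟨b1, b2⟩ := mem_filter.1 hβ
      rw [eval₂_monomial, Finsupp.prod_fintype _ _ (by simp), pr2, norm_mul, norm_mul, norm_pow,
        norm_pow]
      gcongr
      · refine (good_complex.liou K φ _).trans ?_
        rw [← Real.exp_log (mulHeight₁_pos _), ← logHeight₁_eq_log_mulHeight₁, Real.exp_le_exp,
          le_div_iff₀ hδ]
        linarith [h2 β]
      · exact Ji _ (hlD _ b1 i)
      · rw [le_div_iff₀ (by linarith), ← pow_succ]
        exact pow_le_pow_right₀ Jj1 ((hle _ b1).lt_of_ne b2)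
    · rw [nsmul_eq_mul, ← mul_assoc, ← mul_assoc]
      gcongr
      have : (#{β ∈ P.support | ¬β j = β0 j} : ℝ) ≤ M := by
        exact_mod_cast card_le_card fun β hβ => (Set.Finite.mem_toFinset _).2
          ((le_totalDegree (mem_filter.1 hβ).1).trans hD)
      calc _ ≤ Real.exp (l i) * Real.exp (l i / δ) * Real.exp (2 * D * l i) := by
            gcongr; linarith [Real.add_one_le_exp (l i)]
        _ ≤ _ := by
            rw [← Real.exp_add, ← Real.exp_add, Real.exp_le_exp, div_eq_mul_one_div]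
            have : 0 ≤ k * (k + δ) * (1 / δ + 1) := by positivity
            nlinarith
  by_contra hlt
  have h5 := norm_sub_norm_le (eval₂ φ (fun t => Jf (φ (q t))) T) (eval₂ φ (fun t => Jf (φ (q t))) P)
  rw [norm_sub_rev] at h5
  replace h5 := h5.trans up
  rw [eT, norm_mul, norm_pow, ← mul_div_assoc, mul_div_right_comm] at h5
  have h6 : 1 ≤ ‖Jf (φ (q j))‖ ^ β0 j := one_le_pow₀ Jj1
  have h7 : Real.exp (E * l i) / ‖Jf (φ (q j))‖ ≤ 2 * Real.exp (-(E * l i) - 2) := by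
    rw [div_le_iff₀ (by linarith)]
    calc _ ≤ Real.exp (-(E * l i) - 2) * Real.exp (l j) := by
          rw [← Real.exp_add, Real.exp_le_exp]; nlinarith
      _ ≤ _ := by rw [mul_comm 2, mul_assoc]; gcongr; linarith
  have h8 : Real.exp (-(A * l i)) ≤ Real.exp (-(E * l i) - 2) := by
    rw [Real.exp_le_exp]; nlinarith
  have h9 : 3 * Real.exp (-(E * l i) - 2) ≤ Real.exp (-(E * l i)) * (3 / Real.exp 2) := by
    rw [Real.exp_sub]; exact le_of_eq (by ring)
  have h10 : 3 / Real.exp 2 < 1 := by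
    rw [div_lt_one (by positivity)]; linarith [Real.add_one_lt_exp (x := 2) two_ne_zero]
  have h11 := Real.exp_pos (-(E * l i))
  have h12 := Real.exp_pos (-(E * l i) - 2)
  have h13 := mul_le_mul_of_nonneg_right low2 (zero_le_one.trans h6)
  have h14 := mul_le_mul_of_nonneg_right h7 (zero_le_one.trans h6)
  have h15 := le_mul_of_one_le_right h12.le h6
  have h16 := mul_lt_mul_of_pos_right (h9.trans_lt (mul_lt_of_lt_one_right h11 h10))
    (zero_lt_one.trans_le h6)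
  linarith [not_lt.1 hlt]

theorem main (D : ℕ) (δ : ℝ) (hδ : 0 < δ) : ∃ c : ℕ, 0 < c ∧ ∀ (K : Type) [Field K] [NumberField K]
    (φ : K →+* ℂ) (q : Fin 2 → K) (P : MvPolynomial (Fin 2) K), (∀ i, q i ≠ 0) → P ≠ 0 →
    P.totalDegree ≤ D →
    (∀ i, ‖φ (q i)‖ ≤ Real.exp (-(δ * logHeight₁ (q i) + c * Module.finrank ℚ K))) →
    (∀ i β, ‖φ (q i)‖ ≤ Real.exp (-(δ * logHeight₁ (coeff β P) + c * Module.finrank ℚ K))) →
    ‖eval₂ φ ![Jf (φ (q 0)), Jf (φ (q 1))] P‖ ≤ ‖φ (q 0) * φ (q 1)‖ ^ c → Concl φ q P := by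
  obtain ⟨A, hA, ha⟩ := asym D δ hδ
  have hA1 : (1 : ℝ) ≤ A := by exact_mod_cast hA
  obtain ⟨k, hk⟩ := sym D (δ / A) (by positivity)
  obtain ⟨E, hE⟩ := exists_nat_gt (k * (k + δ / A) * (1 / δ + 1))
  refine ⟨A * (k + 1) + E, by positivity, fun K _ _ φ q P q0 hP hD h1 h2 h3 => ?_⟩
  have hd : (1 : ℝ) ≤ Module.finrank ℚ K := by exact_mod_cast Module.finrank_pos
  let l : Fin 2 → ℝ := fun i => -Real.log ‖φ (q i)‖
  have hl : ∀ t, ‖φ (q t)‖ = Real.exp (-l t) := fun t => by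
    rw [neg_neg, Real.exp_log (by simpa using q0 t)]
  rw [norm_mul, hl, hl, ← Real.exp_add, ← Real.exp_nat_mul,
    show ![Jf (φ (q 0)), Jf (φ (q 1))] = fun t => Jf (φ (q t)) from
      _root_.funext (Fin.forall_fin_two.2 ⟨rfl, rfl⟩)] at h3
  simp only [hl, Real.exp_le_exp, neg_le_neg_iff] at h1 h2
  clear_value l
  push_cast at h1 h2 h3
  have hk0 : (0 : ℝ) ≤ k := by positivity
  have hE0 : (0 : ℝ) ≤ E := by positivity
  generalize hc : (A * (k + 1) + E : ℝ) = c at h1 h2 h3 ⊢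
  have hc1 : A * (k + 1) ≤ c := by linarith
  have hc2 : A ≤ c := by nlinarith
  have hc3 := mul_le_mul_of_nonneg_right hc1 (zero_le_one.trans hd)
  have hc4 := mul_le_mul_of_nonneg_right hc2 (zero_le_one.trans hd)
  have hc5 := mul_le_mul_of_nonneg_right hA1 (zero_le_one.trans hd)
  have l1 : ∀ t, (Module.finrank ℚ K : ℝ) ≤ l t := fun t => by
    linarith [h1 t, mul_nonneg hδ.le (zero_le_logHeight₁ (q t))]
  have no : ∀ i j, i ≠ j → l j < A * l i := fun i j hij => by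
    by_contra h
    refine (ha K φ q P l i j hij hP hD hl (by linarith [h1 i]) (fun β => by linarith [h2 i β])
      (not_lt.1 h)).not_ge (h3.trans (Real.exp_le_exp.2 ?_))
    have : l i ≤ l 0 + l 1 := by
      have := l1 0
      have := l1 1
      fin_cases i <;> simp <;> linarith
    nlinarith [l1 i]
  have h4 : ∀ t, max (l 0) (l 1) ≤ A * l t := fun t => by
    have := le_mul_of_one_le_left (zero_le_one.trans (hd.trans (l1 t))) hA1
    fin_cases t
    · exact max_le this (no 0 1 (by simp)).le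
    · exact max_le (no 1 0 (by simp)).le this
  have h5 : ∀ t, l t ≤ max (l 0) (l 1) := Fin.forall_fin_two.2 ⟨le_max_left _ _, le_max_right _ _⟩
  have h6 : max (l 0) (l 1) ≤ l 0 + l 1 := max_le (by linarith [l1 1]) (by linarith [l1 0])
  generalize max (l 0) (l 1) = L at *
  refine hk K φ q P ((L - c * Module.finrank ℚ K) / δ) hP hD q0
    (fun t => (le_div_iff₀ hδ).2 (by linarith [h1 t, h5 t]))
    (fun β => (le_div_iff₀ hδ).2 (by linarith [h2 0 β, h5 0])) (fun t => ?_) (h3.trans_lt ?_)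
  · rw [hl, Real.exp_le_exp, neg_le_neg_iff, div_mul_div_comm, mul_comm (A : ℝ),
      mul_div_mul_left _ _ hδ.ne', div_add' _ _ _ (by positivity), div_le_iff₀ (by positivity)]
    nlinarith [h4 t]
  · rw [Real.exp_lt_exp]
    have h7 : (L - c * Module.finrank ℚ K) / δ + Module.finrank ℚ K ≤ (1 / δ + 1) * (l 0 + l 1) := by
      have := div_le_div_of_nonneg_right
        (show L - c * Module.finrank ℚ K ≤ l 0 + l 1 by linarith) hδ.le
      rw [add_mul (1 / δ), one_div, inv_mul_eq_div]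
      linarith [l1 0, l1 1]
    have h8 := mul_le_mul_of_nonneg_left h7 (show 0 ≤ k * (k + δ / A) by positivity)
    have h9 := mul_lt_mul_of_pos_right hE (show 0 < l 0 + l 1 by linarith [l1 0, l1 1])
    have h10 : E * (l 0 + l 1) ≤ c * (l 0 + l 1) := by
      gcongr
      · linarith [l1 0, l1 1]
      · nlinarith
    nlinarith

end Pool.Agent.Lib.MP_8f9d9d_nt
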