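import Mathlib

/-! Rational power series that converge in the unit disc. -/

open Finset Filter Topology

namespace Pool.Agent.Lib.MP_8f9d9d_nt

/-- Rational power series. -/
abbrev PS := PowerSeries ℚ

/-- The general term. -/
noncomputable def tm (f : PS) (z : ℂ) (n : ℕ) : ℂ := (PowerSeries.coeff n f : ℚ) * z ^ n

/-- Absolute convergence in the unit disc. -/
def Cv (f : PS) : Prop := ∀ z : ℂ, ‖z‖ < 1 → Summable fun n => ‖tm f z n‖

/-- The sum of the series. -/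
noncomputable def ev (f : PS) (z : ℂ) : ℂ := ∑' n, tm f z n

/-- The operator `q d/dq`. -/
noncomputable def th : Derivation ℚ PS PS := (PowerSeries.X : PS) • PowerSeries.derivative ℚ

lemma coeff_th (f : PS) (n : ℕ) : PowerSeries.coeff n (th f) = n * PowerSeries.coeff n f := by
  simp only [th, Derivation.smul_apply, smul_eq_mul]
  rcases n with _ | n
  · simp
  · rw [PowerSeries.coeff_succ_X_mul, PowerSeries.coeff_derivative]
    push_cast
    ring

variable {f g : PS} {z : ℂ}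

lemma tm_add (f g : PS) (z : ℂ) (n : ℕ) : tm (f + g) z n = tm f z n + tm g z n := by
  simp [tm, add_mul]

lemma tm_mul (f g : PS) (z : ℂ) (n : ℕ) :
    tm (f * g) z n = ∑ p ∈ antidiagonal n, tm f z p.1 * tm g z p.2 := by
  simp only [tm, PowerSeries.coeff_mul, Rat.cast_sum, Rat.cast_mul, sum_mul]
  refine sum_congr rfl fun p hp => ?_
  rw [← mem_antidiagonal.1 hp, pow_add]
  ring

lemma tm_th (f : PS) (z : ℂ) (n : ℕ) : tm (th f) z n = n * tm f z n := by
  simp [tm, coeff_th, mul_assoc]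

lemma Cv.hasSum (hf : Cv f) (hz : ‖z‖ < 1) : HasSum (tm f z) (ev f z) := (hf z hz).of_norm.hasSum

lemma Cv.add (hf : Cv f) (hg : Cv g) : Cv (f + g) := fun z hz =>
  ((hf z hz).add (hg z hz)).of_nonneg_of_le (fun _ => norm_nonneg _) fun n => by
    rw [tm_add]; exact norm_add_le _ _

lemma ev_add (hf : Cv f) (hg : Cv g) (hz : ‖z‖ < 1) : ev (f + g) z = ev f z + ev g z := by
  have := (hf.hasSum hz).add (hg.hasSum hz)
  simp only [← tm_add] at this
  exact this.tsum_eq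

lemma Cv.mul (hf : Cv f) (hg : Cv g) : Cv (f * g) := fun z hz => by
  simp only [tm_mul]
  exact summable_norm_sum_mul_antidiagonal_of_summable_norm (hf z hz) (hg z hz)

lemma ev_mul (hf : Cv f) (hg : Cv g) (hz : ‖z‖ < 1) : ev (f * g) z = ev f z * ev g z := by
  simp only [ev, tm_mul]
  exact (tsum_mul_tsum_eq_tsum_sum_antidiagonal_of_summable_norm (hf z hz) (hg z hz)).symm

lemma tm_mono (a : ℚ) (k : ℕ) (z : ℂ) (n : ℕ) (hn : n ≠ k) :
    tm (PowerSeries.monomial k a) z n = 0 := by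
  simp [tm, PowerSeries.coeff_monomial, hn]

lemma cv_mono (a : ℚ) (k : ℕ) : Cv (PowerSeries.monomial k a) := fun z _ =>
  (hasSum_single k fun n hn => by rw [tm_mono a k z n hn, norm_zero]).summable

lemma ev_mono (a : ℚ) (k : ℕ) (z : ℂ) : ev (PowerSeries.monomial k a) z = a * z ^ k := by
  rw [ev, tsum_eq_single k (tm_mono a k z)]
  simp [tm]

lemma cv_C (a : ℚ) : Cv (PowerSeries.C a) := by simpa using cv_mono a 0

lemma ev_C (a : ℚ) (z : ℂ) : ev (PowerSeries.C a) z = a := by simpa using ev_mono a 0 z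

lemma cv_X : Cv PowerSeries.X := cv_mono 1 1

lemma ev_X (z : ℂ) : ev PowerSeries.X z = z := (ev_mono 1 1 z).trans (by simp)

lemma norm_tm_le (f : PS) {z w : ℂ} (h : ‖z‖ ≤ ‖w‖) (n : ℕ) : ‖tm f z n‖ ≤ ‖tm f w n‖ := by
  simp only [tm, norm_mul, norm_pow]
  gcongr

lemma Cv.tail (hf : Cv f) (T : ℕ) : ∃ B : ℝ, 0 < B ∧ ∀ z : ℂ, ‖z‖ ≤ 1 / 2 →
    ‖ev f z - ∑ n ∈ range T, tm f z n‖ ≤ B * ‖z‖ ^ T := by
  have h2 : ‖(1 / 2 : ℂ)‖ < 1 := by norm_num
  have hs := (summable_nat_add_iff T).2 (hf _ h2)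
  refine ⟨2 ^ T * ∑' n, ‖tm f (1 / 2) (n + T)‖ + 1, by positivity, fun z hz => ?_⟩
  rw [ev, ← (hf z (by linarith)).of_norm.sum_add_tsum_nat_add T, add_sub_cancel_left]
  refine (tsum_of_norm_bounded (hs.hasSum.mul_left (2 ^ T * ‖z‖ ^ T)) fun n => ?_).trans ?_
  · simp only [tm, norm_mul, norm_pow, pow_add]
    have h1 : ‖z‖ ^ n ≤ ‖(1 / 2 : ℂ)‖ ^ n := by gcongr; simpa using hz
    have h3 : (2 : ℝ) ^ T * ‖(1 / 2 : ℂ)‖ ^ T = 1 := by rw [← mul_pow]; norm_num
    have h4 := norm_nonneg ((PowerSeries.coeff (n + T) f : ℚ) : ℂ)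
    have h5 := norm_nonneg z
    generalize ‖((PowerSeries.coeff (n + T) f : ℚ) : ℂ)‖ = a at *
    generalize ‖(1 / 2 : ℂ)‖ = b at *
    generalize ‖z‖ = x at *
    calc _ ≤ a * (b ^ n * x ^ T) := by gcongr
      _ = _ := by linear_combination (-(a * b ^ n * x ^ T)) * h3
  · have : 0 ≤ ‖z‖ ^ T := by positivity
    nlinarith

lemma exists_mid (hz : ‖z‖ < 1) : ∃ r : ℝ, 0 < r ∧ ‖z‖ < r ∧ ‖(r : ℂ)‖ < 1 ∧ ‖(r : ℂ)‖ = r := by
  obtain ⟨r, h1, h2⟩ := exists_between hz
  have h0 : 0 < r := (norm_nonneg _).trans_lt h1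
  have : ‖(r : ℂ)‖ = r := by simp [h0.le]
  exact ⟨r, h0, h1, by rwa [this], this⟩

lemma Cv.der (hf : Cv f) : Cv (th f) := fun z hz => by
  obtain ⟨r, h0, h1, h2, h3⟩ := exists_mid hz
  have h4 : Tendsto (fun n : ℕ => (n : ℝ) * (‖z‖ / r) ^ n) atTop (𝓝 0) :=
    tendsto_self_mul_const_pow_of_lt_one (by positivity) ((div_lt_one h0).2 h1)
  obtain ⟨B, hB⟩ := h4.bddAbove_range
  refine ((hf _ h2).mul_left B).of_nonneg_of_le (fun _ => norm_nonneg _) fun n => ?_
  have h5 : (n : ℝ) * (‖z‖ / r) ^ n ≤ B := hB ⟨n, rfl⟩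
  rw [tm_th]
  simp only [tm, norm_mul, norm_pow, h3, Complex.norm_natCast]
  calc _ = (n : ℝ) * (‖z‖ / r) ^ n * (‖((PowerSeries.coeff n f : ℚ) : ℂ)‖ * r ^ n) := by
        rw [div_pow]; field_simp
    _ ≤ _ := by gcongr

lemma Cv.differentiableAt (hf : Cv f) (hz : ‖z‖ < 1) : DifferentiableAt ℂ (ev f) z := by
  obtain ⟨r, h0, h1, h2, h3⟩ := exists_mid hz
  have := Complex.differentiableOn_tsum_of_summable_norm (F := fun n w => tm f w n)
    (U := Metric.ball 0 r) (hf _ h2) (fun n => by unfold tm; fun_prop) Metric.isOpen_ball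
    fun n w hw => norm_tm_le f (by rw [h3]; simpa using (mem_ball_zero_iff.1 hw).le) n
  exact this.differentiableAt (Metric.isOpen_ball.mem_nhds (mem_ball_zero_iff.2 h1))

lemma Cv.mul_deriv (hf : Cv f) (hz : ‖z‖ < 1) : z * deriv (ev f) z = ev (th f) z := by
  obtain ⟨r, h0, h1, h2, h3⟩ := exists_mid hz
  have := Complex.hasSum_deriv_of_summable_norm (F := fun n w => tm f w n)
    (U := Metric.ball 0 r) (hf _ h2) (fun n => by unfold tm; fun_prop) Metric.isOpen_ball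
    (fun n w hw => norm_tm_le f (by rw [h3]; simpa using (mem_ball_zero_iff.1 hw).le) n)
    (mem_ball_zero_iff.2 h1)
  refine (this.mul_left z).unique ?_
  suffices h : tm (th f) z = fun i => z * deriv (fun w => tm f w i) z from h ▸ hf.der.hasSum hz
  funext n
  rw [tm_th]
  unfold tm
  rw [deriv_const_mul _ (by fun_prop), deriv_pow_field]
  rcases n with _ | n
  · simp
  · simp only [Nat.add_sub_cancel]
    ring

/-- A series whose sum vanishes near the origin is zero. -/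
lemma Cv.eq_zero (hf : Cv f) (h : ∀ᶠ z in 𝓝[≠] (0 : ℂ), ev f z = 0) : f = 0 := by
  ext n
  induction n using Nat.strong_induction_on with
  | _ n ih =>
    obtain ⟨B, hB, h1⟩ := hf.tail (n + 1)
    have h2 : ∀ᶠ z in 𝓝[≠] (0 : ℂ), ‖((PowerSeries.coeff n f : ℚ) : ℂ)‖ ≤ B * ‖z‖ := by
      have h3 : ∀ᶠ z in 𝓝[≠] (0 : ℂ), ‖z‖ ≤ 1 / 2 := nhdsWithin_le_nhds
        (mem_of_superset (Metric.closedBall_mem_nhds (0 : ℂ) one_half_pos)
          fun z hz => by simpa using hz)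
      filter_upwards [h, h3, self_mem_nhdsWithin] with z e1 e2 e3
      have h4 := h1 z e2
      rw [e1, sum_range_succ, sum_eq_zero fun m hm => by simp [tm, ih m (mem_range.1 hm)],
        zero_add, zero_sub, norm_neg, tm, norm_mul, norm_pow, pow_succ', ← mul_assoc] at h4
      exact le_of_mul_le_mul_right h4 (pow_pos (norm_pos_iff.2 e3) n)
    have h5 : Tendsto (fun z : ℂ => B * ‖z‖) (𝓝[≠] 0) (𝓝 0) := by
      refine Tendsto.mono_left ?_ nhdsWithin_le_nhds
      exact (by fun_prop : Continuous fun z : ℂ => B * ‖z‖).tendsto' 0 0 (by simp)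
    simpa using ge_of_tendsto h5 h2

/-- The subring of convergent series. -/
def cvs : Subalgebra ℚ PS where
  carrier := {f | Cv f}
  mul_mem' := Cv.mul
  add_mem' := Cv.add
  algebraMap_mem' := cv_C

/-- Evaluation as a homomorphism. -/
noncomputable def evh (z : ℂ) (hz : ‖z‖ < 1) : cvs →ₐ[ℚ] ℂ where
  toFun f := ev f z
  map_one' := by simpa using ev_C 1 z
  map_mul' f g := ev_mul f.2 g.2 hz
  map_zero' := by simpa using ev_C 0 z
  map_add' f g := ev_add f.2 g.2 hz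
  commutes' a := ev_C a z

end Pool.Agent.Lib.MP_8f9d9d_nt
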