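import Pool.Agent.Lib.MP_8f9d9d_nt.H39Frame
import Pool.Agent.Lib.MP_1f047c_nt.Stab

/-! The support of the limit valuation is stable under the modular derivations. -/

open Finset Module MvPolynomial Sum
open scoped NNReal

namespace Pool.Agent.Lib.MP_8f9d9d_nt

open Pool.Agent.Lib.MP_1f047c_nt

/-- Polynomials in the algebraic data. -/
abbrev R0 (κ : Type) := MvPolynomial (Fin 2 ⊕ κ) ℚ

/-- Polynomials in the algebraic data and the values of the Eisenstein series. -/
abbrev SS (κ : Type) := MvPolynomial (Fin 2 × Fin 3) (R0 κ)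

variable {κ : Type}

/-- The two copies of the ring of quasimodular forms. -/
noncomputable def inj (i : Fin 2) : AA →ₐ[ℚ] SS κ :=
  aeval (Fin.cons (C (X (inl i))) fun j => X (i, j))

lemma inj_zero (i : Fin 2) : inj i (X 0) = (C (X (inl i)) : SS κ) := aeval_X _ _

lemma inj_succ (i : Fin 2) (j : Fin 3) : inj i (X j.succ) = (X (i, j) : SS κ) := aeval_X _ _

/-- Truncation of a series. -/
noncomputable def tr (i : Fin 2) (T : ℕ) (f : PS) : R0 κ :=
  ∑ n ∈ range T, C (PowerSeries.coeff n f) * X (inl i) ^ n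

/-- The remainder. -/
noncomputable def rem (i : Fin 2) (T : ℕ) (u : AA) : SS κ := inj i u - C (tr i T (ser u))

/-- The hypotheses on the limit valuation. -/
structure Hyp (V : Valuation (SS κ) ℝ≥0) (θ : ℝ≥0) (Cst : ℕ) : Prop where
  pos : 0 < θ
  lt : θ < 1
  hQ : ∀ q : ℚ, q ≠ 0 → V (algebraMap ℚ _ q) = 1
  hq : ∀ i, V (C (X (inl i))) ≠ 0
  hΓ : ∀ j, V (C (X (inr j))) ≤ 1
  hE : ∀ i T u, V (rem i T u) ≤ θ ^ T
  hL : ∀ P : R0 κ, V (C P) ≠ 0 → θ ^ (Cst * P.totalDegree) ≤ V (C P)

variable {V : Valuation (SS κ) ℝ≥0} {θ : ℝ≥0} {Cst : ℕ}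

lemma rem_one (i : Fin 2) : rem i 1 (X 0) = (C (X (inl i)) : SS κ) := by
  simp [rem, tr, inj_zero, ser]

lemma rem_zero (i : Fin 2) (u : AA) : rem i 0 u = (inj i u : SS κ) := by simp [rem, tr]

lemma Hyp.hZ (H : Hyp V θ Cst) (i : Fin 2) : V (C (X (inl i))) ≤ θ := by
  simpa [rem_one] using H.hE i 1 (X 0)

lemma Hyp.hQ' (H : Hyp V θ Cst) (q : ℚ) : V (algebraMap ℚ _ q) ≤ 1 := by
  by_cases h : q = 0
  · simp [h]
  · exact (H.hQ q h).le

lemma Hyp.le_one (H : Hyp V θ Cst) (f : SS κ) : V f ≤ 1 := by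
  induction f using MvPolynomial.induction_on with
  | C r =>
    induction r using MvPolynomial.induction_on with
    | C q => exact H.hQ' q
    | add p q hp hq => rw [map_add]; exact V.map_add_le hp hq
    | mul_X p s hp =>
      rw [map_mul, map_mul]
      refine mul_le_one' hp ?_
      rcases s with i | j
      · exact (H.hZ i).trans H.lt.le
      · exact H.hΓ j
  | add p q hp hq => exact V.map_add_le hp hq
  | mul_X p i hp =>
    rw [map_mul]
    exact mul_le_one' hp (by simpa [rem_zero, inj_succ] using H.hE i.1 0 (X i.2.succ))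

lemma finrank_rtd (σ : Type) [Fintype σ] (n : ℕ) :
    finrank ℚ (restrictTotalDegree σ ℚ n) ≤ (n + 1) ^ Fintype.card σ := by
  classical
  refine (Submodule.finrank_mono (restrictTotalDegree_le_restrictDegree σ (R := ℚ) n)).trans ?_
  have := (basisRestrictSupport ℚ {s : σ →₀ ℕ | ∀ i, s i ≤ n}).mk_eq_rank''
  change finrank ℚ (restrictSupport ℚ {s : σ →₀ ℕ | ∀ i, s i ≤ n}) ≤ _
  rw [finrank, ← this]
  change Nat.card _ ≤ _
  refine (Nat.card_le_card_of_injective (β := σ → Fin (n + 1))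
    (fun s i => ⟨s.1 i, Nat.lt_succ_of_le (s.2 i)⟩) fun s t h => ?_).trans (by simp)
  ext i
  exact congrArg Fin.val (congrFun h i)

lemma exists_der {R σ : Type} [CommRing R] [Algebra ℚ R] (D0 : Derivation ℚ R R)
    (v : σ → MvPolynomial σ R) :
    ∃ D : Der (MvPolynomial σ R), (∀ r, D (C r) = C (D0 r)) ∧ ∀ i, D (X i) = v i := by
  let ψ : R →+* DualNumber (MvPolynomial σ R) :=
    { toFun := fun r => TrivSqZeroExt.inl (C r) + TrivSqZeroExt.inr (C (D0 r))
      map_one' := by simp
      map_mul' := by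
        intro p q
        ext1 <;> simp [mul_comm]
      map_zero' := by simp
      map_add' := by
        intro p q
        ext1 <;> simp }
  let Φ : MvPolynomial σ R →+* DualNumber (MvPolynomial σ R) :=
    eval₂Hom ψ fun i => TrivSqZeroExt.inl (X i) + TrivSqZeroExt.inr (v i)
  have h : ∀ a, (Φ a).fst = a := by
    intro a
    induction a using MvPolynomial.induction_on with
    | C r => simp [Φ, ψ]
    | add p q hp hq => simp [hp, hq]
    | mul_X p i hp => rw [map_mul, TrivSqZeroExt.fst_mul, hp]; simp [Φ]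
  exact ⟨derOfHom Φ h, fun r => by rw [derOfHom_apply]; simp [Φ, ψ],
    fun i => by rw [derOfHom_apply]; simp [Φ]⟩

lemma hor' {τ : Type} (ψ : MvPolynomial τ ℚ →ₐ[ℚ] SS κ)
    (t : Derivation ℚ (MvPolynomial τ ℚ) (MvPolynomial τ ℚ)) (D : Der (SS κ))
    (D0 : Derivation ℚ (R0 κ) (R0 κ)) (h1 : ∀ r, D (C r) = C (D0 r)) (c : SS κ)
    (h : ∀ j, D (ψ (X j)) = c * ψ (t (X j))) (u) : D (ψ u) = c * ψ (t u) := by
  induction u using MvPolynomial.induction_on with
  | C a =>
    rw [derivation_C, map_zero, algHom_C, mul_zero, IsScalarTower.algebraMap_apply ℚ (R0 κ) (SS κ),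
      algebraMap_eq, h1, D0.map_algebraMap, map_zero]
  | add p q hp hq => simp only [map_add, hp, hq, mul_add]
  | mul_X p i hp =>
    simp only [Derivation.leibniz, smul_eq_mul, map_add, map_mul, hp, h]
    ring

lemma der_inj (D0 : Derivation ℚ (R0 κ) (R0 κ)) (c : Fin 2 → R0 κ)
    (D : Der (SS κ)) (h1 : ∀ r, D (C r) = C (D0 r))
    (h2 : ∀ i j, D (X (i, j)) = C (c i) * inj i (thA (X j.succ)))
    (h3 : ∀ i, D0 (X (inl i)) = c i * X (inl i)) (i u) :
    D (inj i u) = C (c i) * inj i (thA u) :=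
  hor' _ _ D D0 h1 _ (fun j => Fin.cases (by
    rw [thA, mkDerivation_X, Matrix.cons_val_zero, inj_zero, h1, h3, map_mul])
    (fun j => by rw [inj_succ, h2]) j) u

lemma Hyp.stab [Fintype κ] (H : Hyp V θ Cst) (D0 : Derivation ℚ (R0 κ) (R0 κ))
    (c : Fin 2 → R0 κ) (D : Der (SS κ)) (h1 : ∀ r, D (C r) = C (D0 r))
    (h2 : ∀ i j, D (X (i, j)) = C (c i) * inj i (thA (X j.succ)))
    (h3 : ∀ i, D0 (X (inl i)) = c i * X (inl i))
    (h4 : ∀ r, V (C r) = 0 → V (C (D0 r)) = 0) (f : SS κ) (hf : V f = 0) : V (D f) = 0 := by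
  classical
  obtain ⟨W, W1, W2⟩ := exists_gauss D V θ H.lt H.le_one fun n hn => by
    simpa using H.hQ n (by exact_mod_cast hn)
  have hVW : ∀ u, V u ≤ W u := fun u => by simpa using W1 u 0
  have hW : ∀ u, W u ≤ 1 := fun u => W2 _ _ fun k =>
    mul_le_one' (pow_le_one₀ zero_le H.lt.le) (H.le_one _)
  have hc : ∀ r, V (C r) = 0 → W (C r) = 0 := by
    intro r hr
    refine nonpos_iff_eq_zero.1 (W2 _ _ fun k => ?_)
    have : ∃ r', D^[k] (C r) = C r' ∧ V (C r') = 0 := by
      induction k with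
      | zero => exact ⟨r, rfl, hr⟩
      | succ k ih =>
        obtain ⟨r', e, h⟩ := ih
        exact ⟨D0 r', by rw [Function.iterate_succ_apply', e, h1], h4 _ h⟩
    obtain ⟨r', e, h⟩ := this
    simp [e, h]
  have Drem : ∀ i T u, D (rem i T u) = C (c i) * rem i T (thA u) := by
    intro i T u
    rw [rem, rem, map_sub, der_inj D0 c D h1 h2 h3, h1, mul_sub, ← map_mul, ser_thA, tr, tr,
      map_sum, mul_sum]
    congr 2
    refine sum_congr rfl fun n _ => ?_
    rw [Derivation.leibniz, derivation_C, Derivation.leibniz_pow, h3, coeff_th]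
    rcases n with _ | n
    · simp
    · simp only [smul_eq_mul, nsmul_eq_mul, map_mul, map_natCast, Nat.add_sub_cancel]
      ring
  have Wrem : ∀ i T u, W (rem i T u) ≤ θ ^ T := by
    intro i T u
    have : ∀ k r u, V (D^[k] (C r * rem i T u)) ≤ θ ^ T := by
      intro k
      induction k with
      | zero =>
        intro r u
        rw [Function.iterate_zero_apply, map_mul]
        exact (mul_le_of_le_one_left' (H.le_one _)).trans (H.hE i T u)
      | succ k ih =>
        intro r u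
        rw [Function.iterate_succ_apply, Derivation.leibniz, Drem, h1, smul_eq_mul, smul_eq_mul,
          ← mul_assoc, ← map_mul, mul_comm (rem i T u), iter_add]
        exact V.map_add_le (ih _ _) (ih _ _)
    refine W2 _ _ fun k => (mul_le_of_le_one_left' (pow_le_one₀ zero_le H.lt.le)).trans ?_
    simpa using this k 1 u
  have WZ : ∀ i, W (C (X (inl i))) ≤ θ := fun i => by simpa [rem_one] using Wrem i 1 (X 0)
  let ζ : MvPolynomial (Fin 2) ℚ →ₐ[ℚ] SS κ := aeval fun i => C (X (inl i))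
  have ζe : ∀ p, ζ p = C (rename inl p) := fun p => by
    induction p using MvPolynomial.induction_on with
    | C q => simp [ζ]
    | add a b ha hb => simp [ha, hb]
    | mul_X a i ha => rw [map_mul, map_mul, map_mul, ha]; simp [ζ]
  have apΛ : ∀ i T, ∃ p, W (X i - ζ p) ≤ θ ^ T := fun i T =>
    ⟨∑ n ∈ range T, C (PowerSeries.coeff n (ser (X i.2.succ))) * X i.1 ^ n, by
      convert Wrem i.1 T (X i.2.succ) using 2
      simp [rem, inj_succ, ζe, tr]⟩
  let ξ : MvPolynomial (Fin 2 × Fin 3) ℚ →ₐ[ℚ] SS κ := aeval X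
  have ap1 : ∀ a T, ∃ p, W (ξ a - ζ p) ≤ θ ^ T := by
    intro a T
    induction a using MvPolynomial.induction_on with
    | C q => exact ⟨C q, by simp [ξ, ζ]⟩
    | add a b ha hb =>
      obtain ⟨p, hp⟩ := ha
      obtain ⟨q, hq⟩ := hb
      refine ⟨p + q, ?_⟩
      rw [map_add, map_add, add_sub_add_comm]
      exact W.map_add_le hp hq
    | mul_X a i ha =>
      obtain ⟨p, hp⟩ := ha
      obtain ⟨q, hq⟩ := apΛ i T
      refine ⟨p * q, ?_⟩
      rw [map_mul, map_mul, show ξ (X i) = X i from aeval_X _ _,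
        show ξ a * X i - ζ p * ζ q = (ξ a - ζ p) * X i + (X i - ζ q) * ζ p by ring]
      refine W.map_add_le ?_ ?_ <;> rw [map_mul] <;> refine (mul_le_of_le_one_right' (hW _)).trans ?_
      · exact hp
      · exact hq
  have trunc : ∀ p T, ∃ p1 : MvPolynomial (Fin 2) ℚ, p1.totalDegree ≤ T ∧
      W (ζ p - ζ p1) ≤ θ ^ T := by
    intro p T
    induction p using MvPolynomial.induction_on' with
    | monomial s a =>
      by_cases h : (s.sum fun _ e => e) ≤ T
      · exact ⟨monomial s a, (totalDegree_monomial_le _ _).trans h, by simp⟩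
      · refine ⟨0, by simp, ?_⟩
        rw [map_zero, sub_zero, aeval_monomial, map_mul, Finsupp.prod, map_prod]
        refine (mul_le_of_le_one_left' (hW _)).trans ?_
        refine le_trans (prod_le_prod' (g := fun i => θ ^ s i) fun i _ => ?_) ?_
        · rw [map_pow]; exact pow_le_pow_left' (WZ i) _
        · rw [prod_pow_eq_pow_sum]
          exact pow_le_pow_of_le_one zero_le H.lt.le (not_le.1 h).le
    | add a b ha hb =>
      obtain ⟨p, hp, hp'⟩ := ha
      obtain ⟨q, hq, hq'⟩ := hb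
      refine ⟨p + q, (totalDegree_add _ _).trans (max_le hp hq), ?_⟩
      rw [map_add, map_add, add_sub_add_comm]
      exact W.map_add_le hp' hq'
  let γ : R0 κ →ₗ[ℚ] SS κ := (IsScalarTower.toAlgHom ℚ (R0 κ) (SS κ)).toLinearMap
  have γe : ∀ r, γ r = C r := fun r => rfl
  let P : ℕ → Submodule ℚ (SS κ) := fun n => (restrictTotalDegree _ ℚ n).map γ
  have mP : ∀ n u, u ∈ P n ↔ ∃ r : R0 κ, r.totalDegree ≤ n ∧ C r = u := fun n u => by
    simp only [P, Submodule.mem_map, mem_restrictTotalDegree, γe]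
  let N : ℕ → Submodule ℚ (SS κ) := fun n =>
    Submodule.span ℚ {x | ∃ a, ∃ r : R0 κ, r.totalDegree ≤ n ∧ x = ξ a * C r}
  have Nmono : ∀ n m, n ≤ m → N n ≤ N m := fun n m h => Submodule.span_mono <| by
    rintro _ ⟨a, r, hr, rfl⟩
    exact ⟨a, r, hr.trans h, rfl⟩
  have hN : ∀ f : SS κ, ∃ e, ∀ n, ∀ g ∈ N n, f * g ∈ N (n + e) := by
    intro f
    have gen : ∀ a (r : R0 κ) n, ∀ g ∈ N n, ξ a * C r * g ∈ N (n + r.totalDegree) := by
      intro a r n g hg
      induction hg using Submodule.span_induction with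
      | mem x hx =>
        obtain ⟨b, s, hs, rfl⟩ := hx
        refine Submodule.subset_span ⟨a * b, r * s, (totalDegree_mul _ _).trans (by omega), ?_⟩
        rw [map_mul, map_mul]; ring
      | zero => simp
      | add x y _ _ hx hy => rw [mul_add]; exact add_mem hx hy
      | smul q x _ hx => rw [mul_smul_comm]; exact Submodule.smul_mem _ q hx
    induction f using MvPolynomial.induction_on' with
    | monomial s r =>
      refine ⟨r.totalDegree, fun n g hg => ?_⟩
      convert gen (monomial s 1) r n g hg using 2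
      rw [aeval_monomial, monomial_eq, map_one, one_mul, mul_comm]
    | add p q hp hq =>
      obtain ⟨e1, k1⟩ := hp
      obtain ⟨e2, k2⟩ := hq
      refine ⟨e1 + e2, fun n g hg => ?_⟩
      rw [add_mul]
      exact add_mem (Nmono _ _ (by omega) (k1 n g hg)) (Nmono _ _ (by omega) (k2 n g hg))
  obtain ⟨e, he⟩ := hN f
  have hWf := count V W θ H.pos H.lt hW hVW P N Cst (Fintype.card (Fin 2 ⊕ κ))
    (fun n => (Submodule.finrank_map_le _ _).trans (finrank_rtd _ n))
    (fun n => (mP _ _).2 ⟨1, by simp, map_one _⟩)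
    (fun n m h u hu => by
      obtain ⟨r, hr, rfl⟩ := (mP _ _).1 hu
      exact Submodule.subset_span ⟨1, r, hr.trans h, by simp⟩)
    (fun n m h u hu => by
      obtain ⟨r, hr, rfl⟩ := (mP _ _).1 hu
      exact (mP _ _).2 ⟨r, hr.trans h, rfl⟩)
    (fun n T u hu => by
      induction hu using Submodule.span_induction with
      | mem x hx =>
        obtain ⟨a, r, hr, rfl⟩ := hx
        obtain ⟨p, hp⟩ := ap1 a T
        obtain ⟨q, hq, hq'⟩ := trunc p T
        refine ⟨ζ q * C r, (mP _ _).2 ⟨rename inl q * r, (totalDegree_mul _ _).trans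
          (add_le_add ((totalDegree_rename_le _ _).trans hq) hr), by rw [map_mul, ζe]⟩, ?_⟩
        rw [← sub_mul, map_mul, ← sub_add_sub_cancel _ (ζ p)]
        exact (mul_le_of_le_one_right' (hW _)).trans (W.map_add_le hp hq')
      | zero => exact ⟨0, zero_mem _, by simp⟩
      | add x y _ _ hx hy =>
        obtain ⟨p, hp, hp'⟩ := hx
        obtain ⟨q, hq, hq'⟩ := hy
        refine ⟨p + q, add_mem hp hq, ?_⟩
        rw [add_sub_add_comm]
        exact W.map_add_le hp' hq'
      | smul q x _ hx =>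
        obtain ⟨p, hp, hp'⟩ := hx
        refine ⟨q • p, Submodule.smul_mem _ q hp, ?_⟩
        rw [← smul_sub, Algebra.smul_def, map_mul]
        exact (mul_le_of_le_one_left' (hW _)).trans hp')
    (fun n u hu => by
      obtain ⟨r, -, rfl⟩ := (mP _ _).1 hu
      exact hc r)
    (fun n u hu h => by
      obtain ⟨r, hr, rfl⟩ := (mP _ _).1 hu
      exact (pow_le_pow_of_le_one zero_le H.lt.le (Nat.mul_le_mul_left _ hr)).trans (H.hL r h))
    f e he hf
  have := W1 f 1
  rw [hWf, pow_one, nonpos_iff_eq_zero, mul_eq_zero] at this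
  exact this.resolve_left H.pos.ne'

end Pool.Agent.Lib.MP_8f9d9d_nt
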