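import Pool.Agent.Lib.MP_8f9d9d_nt.H53CaseV

set_option autoImplicit false

open scoped PowerSeries IntermediateField Polynomial

namespace Pool.Agent.Lib.MP_8f9d9d_nt.H53

variable {p : ℕ} [Fact p.Prime] {k K : Type*} [Field k] [IsAlgClosed k] [Field K] [Algebra k K]
  [CharP K p]

omit [IsAlgClosed k] in
theorem caseD_step {E : IntermediateField k K} {y x : K} (hy : IsAlgebraic E y)
    (hx : IsAlgebraic k⟮y⟯ x) : IsAlgebraic E x := by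
  obtain ⟨A, hA⟩ := exists_cl E
  have h : k⟮y⟯ ≤ A := IntermediateField.adjoin_simple_le_iff.2 ((hA y).2 hy)
  exact alg_trans (fun z hz => (hA z).1 (h hz)) hx

theorem caseD_dec (n : ℕ) (A : IntermediateField k K) {u x : K} (hu : ∀ w : K, w ^ p ≠ u)
    (huA : u ∈ A) (hxA : x ∈ A) (hx : IsAlgebraic k⟮u⟯ x) :
    ∃ a : ℕ → K, (∀ c, a c ^ p ^ n ∈ A) ∧
      x = ∑ c ∈ Finset.range (p ^ n), u ^ c * a c ^ p ^ n := by
  obtain ⟨F, hF⟩ := exists_Fr (p := p) (k := k) (K := K) n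
  have hm : ∀ y ∈ A, y ^ p ^ n ∈ A ⊓ F := fun y hy => ⟨pow_mem hy _, (hF _).2 ⟨y, rfl⟩⟩
  have h1 : x ∈ (A ⊓ F) ⊔ k⟮u⟯ :=
    sep_mem le_sup_right (sep1 hu hx) n ((le_sup_left : A ⊓ F ≤ _) (hm x hxA))
  obtain ⟨m, hm1, hm2⟩ := span_pow (A ⊓ F) (pow_pos (Fact.out : p.Prime).pos n) (hm u huA) h1
  choose a ha using fun c => (hF (m c)).1 (hm1 c).2
  refine ⟨a, fun c => ?_, ?_⟩
  · rw [ha]; exact (hm1 c).1
  · simpa only [ha] using hm2

omit [Fact p.Prime] [CharP K p] in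
theorem caseD_npp {q r : K} (hq : ∀ w : K, w ^ p ≠ q) (hr : r ≠ 0) (n : ℕ) :
    ∀ w : K, w ^ p ≠ q * r ^ p ^ (n + 1) := by
  intro w hw
  refine hq (w / r ^ p ^ n) ?_
  rw [div_pow, hw, ← pow_mul, ← pow_succ, mul_div_cancel_right₀ _ (pow_ne_zero _ hr)]

theorem caseD_const (n : ℕ) {t j x : K} (hj : Transcendental k⟮t⟯ j) (h1 : IsAlgebraic k⟮j⟯ x)
    (h2 : IsAlgebraic k⟮t⟯ x) : ∃ w : K, w ^ p ^ n = x := by
  obtain ⟨F, hF⟩ := exists_Fr (p := p) (k := k) (K := K) n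
  by_cases hx : IsAlgebraic k x
  · obtain ⟨c, rfl⟩ := minpoly.mem_range_of_degree_eq_one k x
      (IsAlgClosed.degree_eq_one_of_irreducible k (minpoly.irreducible hx.isIntegral))
    exact (hF _).1 (F.algebraMap_mem c)
  · exact absurd (caseD_step h2 (exchange0 hx h1)) hj

/-- Two values dependent over `k`. -/
theorem caseD {t q1 j1 q2 j2 : K} (ht : ∀ w : K, w ^ p ≠ t) (h1 : Pt p k q1 j1) (h2 : Pt p k q2 j2)
    (hq1 : IsAlgebraic k⟮t⟯ q1) (hq2 : IsAlgebraic k⟮t⟯ q2) (hd : IsAlgebraic k⟮j1⟯ j2) (n : ℕ) :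
    ∃ (c : ℕ) (a : K), q2 = a ^ p ^ n * q1 ^ c := by
  suffices h : ∃ (c : ℕ) (a : K), q2 = a ^ p ^ (n + 1) * q1 ^ c by
    obtain ⟨c, a, h⟩ := h
    exact ⟨c, a ^ p, by rw [h, ← pow_mul, ← pow_succ']⟩
  have hp : p ≠ 0 := (Fact.out : p.Prime).ne_zero
  have hV := caseV ht h1 hq1
  obtain ⟨A, hA⟩ := exists_cl k⟮j1⟯
  obtain ⟨B, hB⟩ := exists_cl k⟮t⟯
  obtain ⟨r1, hr1, hQ1⟩ := h1.f1 (n + 1)
  obtain ⟨r2, hr2, hQ2⟩ := h2.f1 (n + 1)
  have hQ2' := caseD_step hd hQ2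
  have hn1 := caseD_npp h1.nq hr1 n
  obtain ⟨a, haB, ha⟩ := caseD_dec (n + 1) B h1.nq ((hB _).2 hq1) ((hB _).2 hq2)
    (caseD_step (exchange0 (transc_of_not_pow h1.nq) hq1) hq2)
  obtain ⟨b, hbA, hb⟩ := caseD_dec (n + 1) A hn1 ((hA _).2 hQ1) ((hA _).2 hQ2')
    (caseD_step (exchange0 (transc_of_not_pow hn1) hQ1) hQ2')
  have hab := indep h1.nq (n + 1) (fun c => a c * r2) (fun c => r1 ^ c * b c) (by
    have e1 : ∑ c ∈ Finset.range (p ^ (n + 1)), q1 ^ c * (a c * r2) ^ p ^ (n + 1) =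
        q2 * r2 ^ p ^ (n + 1) := by
      conv_rhs => rw [ha, Finset.sum_mul]
      exact Finset.sum_congr rfl fun c _ => by rw [mul_pow, mul_assoc]
    rw [e1, hb]
    refine Finset.sum_congr rfl fun c _ => ?_
    rw [mul_pow, mul_pow, ← pow_mul, ← pow_mul, mul_comm c, mul_assoc])
  have hq10 : q1 ≠ 0 := fun e => h1.nq 0 (by rw [e, zero_pow hp])
  have hq20 : q2 ≠ 0 := fun e => h2.nq 0 (by rw [e, zero_pow hp])
  have hterm : ∀ c, c < p ^ (n + 1) → q1 ^ c * a c ^ p ^ (n + 1) * r2 ^ p ^ (n + 1) =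
      (q1 * r1 ^ p ^ (n + 1)) ^ c * b c ^ p ^ (n + 1) := by
    intro c hc
    have e : a c * r2 = r1 ^ c * b c := hab c hc
    rw [mul_assoc, ← mul_pow, e, mul_pow, mul_pow, ← pow_mul, ← pow_mul, mul_comm c, mul_assoc]
  have huniq : ∀ c c', c < p ^ (n + 1) → c' < p ^ (n + 1) → a c ≠ 0 → a c' ≠ 0 → c = c' := by
    intro c c' hc hc' h0 h0'
    have m1 : q1 ^ c * a c ^ p ^ (n + 1) / (q1 ^ c' * a c' ^ p ^ (n + 1)) ∈ B :=
      div_mem (mul_mem (pow_mem ((hB _).2 hq1) _) (haB c))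
        (mul_mem (pow_mem ((hB _).2 hq1) _) (haB c'))
    have m2 : q1 ^ c * a c ^ p ^ (n + 1) / (q1 ^ c' * a c' ^ p ^ (n + 1)) ∈ A := by
      rw [← mul_div_mul_right _ _ (pow_ne_zero (p ^ (n + 1)) hr2), hterm c hc, hterm c' hc']
      exact div_mem (mul_mem (pow_mem ((hA _).2 hQ1) _) (hbA c))
        (mul_mem (pow_mem ((hA _).2 hQ1) _) (hbA c'))
    obtain ⟨w, hw⟩ := caseD_const (p := p) (n + 1) hV ((hA _).1 m2) ((hB _).1 m1)
    have hdv := pow_dvd h1.nq (n + 1) ((c : ℤ) - c') (w * a c' / a c) (by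
      rw [div_pow, mul_pow, hw, zpow_sub₀ hq10, zpow_natCast, zpow_natCast]
      field_simp)
    have := Int.eq_zero_of_abs_lt_dvd hdv (by rw [abs_lt]; constructor <;> omega)
    omega
  obtain ⟨c, hc, h0⟩ := Finset.exists_ne_zero_of_sum_ne_zero (ha ▸ hq20 :
    ∑ c ∈ Finset.range (p ^ (n + 1)), q1 ^ c * a c ^ p ^ (n + 1) ≠ 0)
  have hac : a c ≠ 0 := fun e => h0 (by rw [e, zero_pow (pow_ne_zero _ hp), mul_zero])
  refine ⟨c, a c, ?_⟩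
  rw [ha, Finset.sum_eq_single_of_mem c hc, mul_comm]
  intro c' hc' hne
  by_contra h3
  refine hne (huniq c' c (Finset.mem_range.1 hc') (Finset.mem_range.1 hc) (fun e => h3 ?_) hac)
  rw [e, zero_pow (pow_ne_zero _ hp), mul_zero]

theorem abs_main {t q1 j1 q2 j2 : K} (ht : ∀ w : K, w ^ p ≠ t) (h1 : Pt p k q1 j1)
    (h2 : Pt p k q2 j2) (hq1 : IsAlgebraic k⟮t⟯ q1) (hq2 : IsAlgebraic k⟮t⟯ q2)
    (h : AlgebraicIndependent k ![j1, j2] → IsAlgebraic k⟮j1, j2⟯ t) :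
    Transcendental k⟮j1, j2⟯ t ∧ ∀ n : ℕ, ∃ (c : ℕ) (a : K), q2 = a ^ p ^ n * q1 ^ c := by
  by_cases hi : AlgebraicIndependent k ![j1, j2]
  · rcases sep3 ht (h hi) with hs | hs
    · exact (caseI ht h1 h2 hq1 hq2 hi hs).elim
    · exact (caseI ht h2 h1 hq2 hq1 (indep_swap hi) hs).elim
  · have hd : IsAlgebraic k⟮j1⟯ j2 := by
      by_contra hd
      exact hi (indep_swap ((indep_pair (transc_of_not_pow h1.nj)).2 hd))
    refine ⟨fun ha => caseV ht h1 hq1 (exchange0 (transc_of_not_pow ht) ?_),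
      caseD ht h1 h2 hq1 hq2 hd⟩
    obtain ⟨A, hA⟩ := exists_cl k⟮j1⟯
    have hle : k⟮j1, j2⟯ ≤ A := by
      rw [IntermediateField.adjoin_le_iff]
      rintro x (rfl | rfl)
      · exact (hA _).2 (alg_of_mem (IntermediateField.mem_adjoin_simple_self k _))
      · exact (hA _).2 hd
    exact alg_trans (fun y hy => (hA y).1 (hle hy)) ha

end Pool.Agent.Lib.MP_8f9d9d_nt.H53
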