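import Pool.Agent.Lib.MP_8f9d9d_nt.H53Fld1

set_option autoImplicit false

open scoped PowerSeries IntermediateField Polynomial

namespace Pool.Agent.Lib.MP_8f9d9d_nt.H53

variable {p : ℕ} [Fact p.Prime] {k K : Type*} [Field k] [IsAlgClosed k] [Field K] [Algebra k K]
  [CharP K p]

omit [IsAlgClosed k] in
/-- A simple root is separable. -/
lemma fld2_simple {E : Type*} [Field E] [Algebra E K] {z : K} {f : E[X]}
    (h0 : Polynomial.aeval z f = 0) (h1 : Polynomial.aeval z (Polynomial.derivative f) ≠ 0) :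
    IsSeparable E z := by
  have f0 : f ≠ 0 := by
    rintro rfl
    simp at h1
  have hz : IsIntegral E z := IsAlgebraic.isIntegral ⟨f, f0, h0⟩
  obtain ⟨g, rfl⟩ := minpoly.dvd E z h0
  refine (Polynomial.separable_iff_derivative_ne_zero (minpoly.irreducible hz)).2 fun e => h1 ?_
  simp [e]

omit [IsAlgClosed k] in
lemma fld2_sep {ι : Type} [Fintype ι] [DecidableEq ι] (x : ι → K) (i : ι)
    (E : IntermediateField k K) (P : MvPolynomial ι k)
    (hE : ∀ σ ∈ P.support, ∏ j ∈ Finset.univ.erase i, x j ^ σ j ∈ E)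
    (h0 : MvPolynomial.aeval x P = 0) (h1 : MvPolynomial.aeval x (MvPolynomial.pderiv i P) ≠ 0) :
    IsSeparable E (x i) := by
  obtain ⟨e, he⟩ : ∃ e : (ι →₀ ℕ) → E, ∀ σ ∈ P.support,
      algebraMap E K (e σ) = algebraMap k K (P.coeff σ) * ∏ j ∈ Finset.univ.erase i, x j ^ σ j := by
    classical
    refine ⟨fun σ => if h : σ ∈ P.support then
      ⟨_, mul_mem (E.algebraMap_mem (P.coeff σ)) (hE σ h)⟩ else 0, fun σ h => ?_⟩
    simp only [dif_pos h]
    rfl
  have mon : ∀ (σ : ι →₀ ℕ) (c : k), MvPolynomial.aeval x (MvPolynomial.monomial σ c) =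
      algebraMap k K c * (x i ^ σ i * ∏ j ∈ Finset.univ.erase i, x j ^ σ j) := by
    intro σ c
    rw [MvPolynomial.aeval_monomial, Finsupp.prod_fintype _ _ (by simp),
      ← Finset.mul_prod_erase _ _ (Finset.mem_univ i)]
  refine fld2_simple (f := ∑ σ ∈ P.support, Polynomial.monomial (σ i) (e σ)) ?_ ?_
  · rw [← h0, map_sum]
    conv_rhs => rw [P.as_sum, map_sum]
    refine Finset.sum_congr rfl fun σ h => ?_
    rw [Polynomial.aeval_monomial, he σ h, mon]
    ring
  · convert h1 using 1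
    rw [map_sum, map_sum]
    conv_rhs => rw [P.as_sum, map_sum, map_sum]
    refine Finset.sum_congr rfl fun σ h => ?_
    rw [Polynomial.derivative_monomial, Polynomial.aeval_monomial, MvPolynomial.pderiv_monomial,
      mon, map_mul, map_mul, he σ h, map_natCast, map_natCast]
    have : ∏ j ∈ Finset.univ.erase i, x j ^ (σ - Finsupp.single i 1 : ι →₀ ℕ) j =
        ∏ j ∈ Finset.univ.erase i, x j ^ σ j :=
      Finset.prod_congr rfl fun j hj => by
        rw [Finsupp.tsub_apply, Finsupp.single_eq_of_ne (Finset.ne_of_mem_erase hj), tsub_zero]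
    rw [this, Finsupp.tsub_apply, Finsupp.single_eq_same]
    ring

omit [IsAlgClosed k] in
lemma fld2_deg {ι : Type} (i : ι) {P : MvPolynomial ι k} (h : MvPolynomial.pderiv i P ≠ 0) :
    (MvPolynomial.pderiv i P).totalDegree < P.totalDegree := by
  classical
  obtain ⟨σ, hσ, e⟩ := Finset.exists_mem_eq_sup _ (MvPolynomial.support_nonempty.2 h)
    fun s : ι →₀ ℕ => s.sum fun _ e => e
  rw [MvPolynomial.totalDegree, e]
  rw [MvPolynomial.mem_support_iff, MvPolynomial.coeff_pderiv] at hσ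
  have := MvPolynomial.le_totalDegree (MvPolynomial.mem_support_iff.2 (left_ne_zero_of_mul hσ))
  rw [Finsupp.sum_add_index' (fun _ => rfl) (fun _ _ _ => rfl), Finsupp.sum_single_index rfl] at this
  omega

omit [IsAlgClosed k] in
lemma fld2_dvd [CharP k p] {ι : Type} (i : ι) {P : MvPolynomial ι k}
    (h : MvPolynomial.pderiv i P = 0) {σ : ι →₀ ℕ} (hσ : σ ∈ P.support) : p ∣ σ i := by
  rcases Nat.eq_zero_or_pos (σ i) with e | e
  · simp [e]
  have e1 : σ - Finsupp.single i 1 + Finsupp.single i 1 = σ :=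
    tsub_add_cancel_of_le (Finsupp.single_le_iff.2 e)
  have e2 := MvPolynomial.coeff_pderiv (i := i) P (σ - Finsupp.single i 1)
  rw [h, e1, MvPolynomial.coeff_zero, eq_comm, mul_eq_zero] at e2
  have e3 := e2.resolve_left (MvPolynomial.mem_support_iff.1 hσ)
  rw [Finsupp.tsub_apply, Finsupp.single_eq_same, ← Nat.cast_succ, Nat.succ_eq_add_one,
    Nat.sub_add_cancel e] at e3
  exact (CharP.cast_eq_zero_iff k p _).1 e3

omit [IsAlgClosed k] in
lemma fld2_dep {ι : Type} (x : ι → K) (i : ι)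
    (h : IsAlgebraic (IntermediateField.adjoin k (x '' {i}ᶜ)) (x i)) :
    ¬ AlgebraicIndependent k x := fun H =>
  H.transcendental_adjoin (i := i) (s := {i}ᶜ) (by simp)
    (IntermediateField.isAlgebraic_adjoin_iff.1 h)

/-- In a dependent family with a member that is not a `p`-th power, another member is separable
over the rest. -/
theorem sepgen {ι : Type} [Fintype ι] [DecidableEq ι] (x : ι → K) (i0 : ι)
    (hdep : ¬ AlgebraicIndependent k x) (h0 : ∀ w : K, w ^ p ≠ x i0) :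
    ∃ i, i ≠ i0 ∧ IsSeparable (IntermediateField.adjoin k (x '' {i}ᶜ)) (x i) := by
  have hp : p.Prime := Fact.out
  have : CharP k p := RingHom.charP (algebraMap k K) (algebraMap k K).injective p
  have : ExpChar k p := .prime hp
  obtain ⟨P, ⟨P0, Pa⟩, hmin⟩ : ∃ P ∈ {P : MvPolynomial ι k | P ≠ 0 ∧ MvPolynomial.aeval x P = 0},
      ∀ G : MvPolynomial ι k, G ≠ 0 → MvPolynomial.aeval x G = 0 →
        P.totalDegree ≤ G.totalDegree := by
    have hne : {P : MvPolynomial ι k | P ≠ 0 ∧ MvPolynomial.aeval x P = 0}.Nonempty := by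
      simpa [algebraicIndependent_iff, and_comm] using! hdep
    exact ⟨MvPolynomial.totalDegree.argminOn _ hne, MvPolynomial.totalDegree.argminOn_mem ..,
      fun G h₁ h₂ => MvPolynomial.totalDegree.argminOn_le
        {P : MvPolynomial ι k | P ≠ 0 ∧ MvPolynomial.aeval x P = 0} ⟨h₁, h₂⟩⟩
  have der : ∀ i, MvPolynomial.pderiv i P ≠ 0 →
      MvPolynomial.aeval x (MvPolynomial.pderiv i P) ≠ 0 :=
    fun i h e => (fld2_deg i h).not_ge (hmin _ h e)
  by_contra hc
  have h1 : ∀ i, i ≠ i0 → MvPolynomial.pderiv i P = 0 := by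
    intro i hi
    by_contra h
    refine hc ⟨i, hi, fld2_sep x i _ P (fun σ _ => prod_mem fun j hj => pow_mem ?_ _) Pa (der i h)⟩
    exact IntermediateField.subset_adjoin _ _ ⟨j, Finset.ne_of_mem_erase hj, rfl⟩
  have h2 : MvPolynomial.pderiv i0 P = 0 := by
    by_contra h
    obtain ⟨F, hF⟩ := exists_Fr (p := p) (k := k) (K := K) 1
    have hs := fld2_sep x i0 F P (fun σ hσ => prod_mem fun j hj => by
      obtain ⟨c, hc⟩ := fld2_dvd (p := p) j (h1 j (Finset.ne_of_mem_erase hj)) hσ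
      exact (hF _).2 ⟨x j ^ c, by rw [hc, pow_one, ← pow_mul, mul_comm]⟩) Pa (der i0 h)
    obtain ⟨w, hw⟩ := (hF _).1 (sep_mem (p := p) le_rfl hs 1 ((hF _).2 ⟨_, rfl⟩))
    exact h0 w (by rwa [pow_one] at hw)
  obtain ⟨i, σ, hσ, hi⟩ := MvPolynomial.exists_mem_support_not_dvd_of_forall_totalDegree_le p hp
    (fun s hs => by
      apply hs.map_of_injective_injective (frobeniusEquiv k p).symm
        (frobenius K p).toAddMonoidHom <;>
      simp [frobenius, Algebra.smul_def, mul_pow, ← map_pow, frobeniusEquiv_symm_pow]) hmin P0 Pa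
  refine hi (fld2_dvd i ?_ hσ)
  by_cases e : i = i0
  · rw [e, h2]
  · exact h1 i e

theorem sep1 {y x : K} (hy : ∀ w : K, w ^ p ≠ y) (hx : IsAlgebraic k⟮y⟯ x) :
    IsSeparable k⟮y⟯ x := by
  have e0 : ![x, y] '' {0}ᶜ = {y} := by
    ext z
    simp [Fin.exists_fin_succ, eq_comm]
  obtain ⟨i, hi, h⟩ := sepgen (p := p) (k := k) ![x, y] 1 (fld2_dep _ 0 (by rw [e0]; exact hx)) hy
  obtain rfl : i = 0 := by fin_cases i <;> simp at hi ⊢
  rw [e0] at h
  exact h

theorem sep3 {t u v : K} (ht : ∀ w : K, w ^ p ≠ t) (h : IsAlgebraic k⟮u, v⟯ t) :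
    IsSeparable k⟮t, v⟯ u ∨ IsSeparable k⟮t, u⟯ v := by
  have e0 : ![t, u, v] '' {0}ᶜ = {u, v} := by
    ext z
    simp [Fin.exists_fin_succ, eq_comm]
  have e1 : ![t, u, v] '' {1}ᶜ = {t, v} := by
    ext z
    simp [Fin.exists_fin_succ, eq_comm]
  have e2 : ![t, u, v] '' {2}ᶜ = {t, u} := by
    ext z
    simp [Fin.exists_fin_succ, eq_comm]
  obtain ⟨i, hi, h⟩ := sepgen (p := p) (k := k) ![t, u, v] 0
    (fld2_dep _ 0 (by rw [e0]; exact h)) ht
  obtain rfl | rfl : i = 1 ∨ i = 2 := by fin_cases i <;> simp at hi ⊢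
  · rw [e1] at h
    exact .inl h
  · rw [e2] at h
    exact .inr h

end Pool.Agent.Lib.MP_8f9d9d_nt.H53
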