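import Pool.Agent.Lib.MP_8f9d9d_nt.H53Fld3

set_option autoImplicit false

open scoped PowerSeries IntermediateField Polynomial

namespace Pool.Agent.Lib.MP_8f9d9d_nt.H53

/-- A quotient that is integral over an integrally closed domain comes from the domain. -/
theorem fld4_aux1 {A K : Type*} [CommRing A] [IsDomain A] [IsIntegrallyClosed A] [Field K]
    [Algebra A K] (hinj : Function.Injective (algebraMap A K)) (r s : A)
    (h : IsIntegral A (algebraMap A K r / algebraMap A K s)) :
    ∃ f : A, algebraMap A K f = algebraMap A K r / algebraMap A K s := by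
  let φ : FractionRing A →ₐ[A] K := IsFractionRing.liftAlgHom (g := Algebra.ofId A K) hinj
  have e : φ (algebraMap A (FractionRing A) r / algebraMap A (FractionRing A) s) =
      algebraMap A K r / algebraMap A K s := by
    rw [map_div₀, φ.commutes, φ.commutes]
  rw [← e, isIntegral_algHom_iff φ φ.toRingHom.injective] at h
  obtain ⟨f, hf⟩ := IsIntegrallyClosed.algebraMap_eq_of_integral h
  exact ⟨f, by rw [← e, ← hf, φ.commutes]⟩

variable {k K : Type*} [Field k] [IsAlgClosed k] [Field K] [Algebra k K]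

theorem fld4_aux2 (B : IntermediateField k K) {c : B} (h : IsIntegral k c) :
    ∃ a : k, algebraMap k K a = c := by
  obtain ⟨a, ha⟩ := minpoly.mem_range_of_degree_eq_one k c
    (IsAlgClosed.degree_eq_one_of_irreducible k (minpoly.irreducible h))
  exact ⟨a, by rw [← ha]; rfl⟩

/-- `k(u)` is algebraically closed in `B(u)`. -/
theorem ac_mem (B : IntermediateField k K) {u x : K} (hu : Transcendental B u)
    (hx : x ∈ B ⊔ k⟮u⟯) (ha : IsAlgebraic k⟮u⟯ x) : x ∈ k⟮u⟯ := by
  letI : Algebra k[X] K := (Polynomial.aeval u : k[X] →ₐ[k] K).toRingHom.toAlgebra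
  letI : Algebra B[X] K := (Polynomial.aeval u : B[X] →ₐ[B] K).toRingHom.toAlgebra
  letI : Algebra k[X] B[X] := Polynomial.algebra k B
  have e1 : ∀ f : k[X], algebraMap k[X] K f = Polynomial.aeval u f := fun _ => rfl
  have e2 : ∀ f : B[X], algebraMap B[X] K f = Polynomial.aeval u f := fun _ => rfl
  haveI : IsScalarTower k[X] B[X] K := IsScalarTower.of_algebraMap_eq fun f => by
    rw [e1, e2]
    exact (Polynomial.aeval_map_algebraMap B u f).symm
  have hinj : Function.Injective (algebraMap B[X] K) := transcendental_iff_injective.1 hu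
  have huk : Transcendental k u := hu.restrictScalars (algebraMap k B).injective
  have hinjk : Function.Injective (algebraMap k[X] K) := transcendental_iff_injective.1 huk
  have ha' : IsAlgebraic k[X] x := by
    rw [IntermediateField.isAlgebraic_adjoin_iff] at ha
    refine IsAlgebraic.of_ringHom_of_comp_eq
      (Polynomial.algEquivOfTranscendental k u huk).toRingEquiv.toRingHom (RingHom.id K) ha
      (Polynomial.algEquivOfTranscendental k u huk).surjective Function.injective_id ?_
    refine RingHom.ext fun f => ?_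
    exact (Polynomial.aeval_algHom_apply (Algebra.adjoin k {u}).val
      ⟨u, Algebra.self_mem_adjoin_singleton k u⟩ f).symm
  obtain ⟨d, hd0, hd⟩ := ha'.exists_integral_multiple
  rw [← IntermediateField.restrictScalars_adjoin_eq_sup, IntermediateField.mem_restrictScalars,
    IntermediateField.mem_adjoin_simple_iff] at hx
  obtain ⟨r, s, hrs⟩ := hx
  have e3 : d • x = algebraMap B[X] K (algebraMap k[X] B[X] d * r) / algebraMap B[X] K s := by
    rw [Algebra.smul_def, map_mul, ← IsScalarTower.algebraMap_apply, hrs, mul_div_assoc, e2, e2]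
  obtain ⟨f, hf⟩ := fld4_aux1 hinj (algebraMap k[X] B[X] d * r) s (by
    rw [← e3]; exact hd.tower_top)
  rw [← e3] at hf
  have hfi : IsIntegral k[X] f := by
    rw [← isIntegral_algHom_iff (IsScalarTower.toAlgHom k[X] B[X] K) hinj]
    show IsIntegral k[X] (algebraMap B[X] K f)
    rw [hf]
    exact hd
  have hu' : u ∈ k⟮u⟯ := IntermediateField.mem_adjoin_simple_self k u
  have hdx : d • x ∈ k⟮u⟯ := by
    rw [← hf, e2, Polynomial.aeval_eq_sum_range]
    refine sum_mem fun i _ => ?_
    obtain ⟨a, ha⟩ := fld4_aux2 B (Polynomial.isIntegral_iff_isIntegral_coeff.1 hfi i)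
    rw [Algebra.smul_def]
    refine mul_mem ?_ (pow_mem hu' i)
    show ((f.coeff i : B) : K) ∈ k⟮u⟯
    rw [← ha]
    exact IntermediateField.algebraMap_mem _ a
  have hdm : algebraMap k[X] K d ∈ k⟮u⟯ :=
    IntermediateField.algebra_adjoin_le_adjoin k {u} (Polynomial.aeval_mem_adjoin_singleton k u)
  have hdn : algebraMap k[X] K d ≠ 0 := fun e => hd0 (hinjk (by rw [e, map_zero]))
  have : x = (algebraMap k[X] K d)⁻¹ * (d • x) := by
    rw [Algebra.smul_def, inv_mul_cancel_left₀ hdn]
  rw [this]
  exact mul_mem (inv_mem hdm) hdx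

theorem deg_descent (B : IntermediateField k K) {u x : K} (hu : Transcendental B u)
    (ha : IsAlgebraic k⟮u⟯ x) :
    (minpoly k⟮u⟯ x).natDegree ≤ (minpoly (B ⊔ k⟮u⟯ : IntermediateField k K) x).natDegree := by
  set M : IntermediateField k K := B ⊔ k⟮u⟯ with hM
  have hle : k⟮u⟯ ≤ M := le_sup_right
  letI : Algebra k⟮u⟯ M := (IntermediateField.inclusion hle).toRingHom.toAlgebra
  haveI : IsScalarTower k⟮u⟯ M K := IsScalarTower.of_algebraMap_eq fun _ => rfl
  have hi : IsIntegral k⟮u⟯ x := ha.isIntegral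
  have hiM : IsIntegral M x := hi.tower_top
  have hc : ∀ i, IsIntegral k⟮u⟯ ((minpoly M x).coeff i) :=
    Polynomial.isIntegral_coeff_of_dvd _ _ (minpoly.monic hi) (minpoly.monic hiM)
      (minpoly.dvd_map_of_isScalarTower k⟮u⟯ M x)
  have hl : minpoly M x ∈ Polynomial.lifts (algebraMap k⟮u⟯ M) := by
    rw [Polynomial.lifts_iff_coeff_lifts]
    intro i
    have h1 : IsIntegral k⟮u⟯ (((minpoly M x).coeff i : M) : K) :=
      (hc i).map (IsScalarTower.toAlgHom k⟮u⟯ M K)
    exact ⟨⟨_, ac_mem B hu ((minpoly M x).coeff i).2 h1.isAlgebraic⟩, rfl⟩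
  obtain ⟨g, hg, hd, hm⟩ := Polynomial.lifts_and_natDegree_eq_and_monic hl (minpoly.monic hiM)
  rw [← hd]
  refine Polynomial.natDegree_le_natDegree (minpoly.min k⟮u⟯ x hm ?_)
  rw [← Polynomial.aeval_map_algebraMap M, hg, minpoly.aeval]

end Pool.Agent.Lib.MP_8f9d9d_nt.H53
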