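import Pool.Agent.Lib.MP_8f9d9d_nt.H53Fld1
import Pool.Agent.Lib.MP_8f9d9d_nt.H53Fld2
import Pool.Agent.Lib.MP_8f9d9d_nt.H53Fld4

set_option autoImplicit false

open scoped PowerSeries IntermediateField Polynomial

namespace Pool.Agent.Lib.MP_8f9d9d_nt.H53

variable {p : ℕ} [Fact p.Prime] {k K : Type*} [Field k] [IsAlgClosed k] [Field K] [Algebra k K]
  [CharP K p]

omit [IsAlgClosed k] in
theorem caseV_aux_adj {E : IntermediateField k K} {t : K} (ht : IsAlgebraic E t) :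
    ∀ y ∈ k⟮t⟯, IsAlgebraic E y := by
  obtain ⟨A, hA⟩ := exists_cl E
  intro y hy
  exact (hA y).1 ((IntermediateField.adjoin_simple_le_iff.2 ((hA t).2 ht)) hy)

omit [Fact p.Prime] [CharP K p] in
theorem caseV_aux_npp {q r : K} (hq : ∀ w : K, w ^ p ≠ q) (hr : r ≠ 0) (n : ℕ) :
    ∀ w : K, w ^ p ≠ q * r ^ p ^ (n + 1) := by
  intro w hw
  refine hq (w / r ^ p ^ n) ?_
  rw [div_pow, hw, ← pow_mul, ← pow_succ, mul_div_assoc, div_self (pow_ne_zero _ hr), mul_one]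

omit [IsAlgClosed k] in
theorem caseV_aux_mem (n : ℕ) {F L E : IntermediateField k K}
    (hF : ∀ x, x ∈ F ↔ ∃ w : K, w ^ p ^ n = x) {t x : K} (hE : E ≤ (L ⊓ F) ⊔ k⟮t⟯) (hx : x ∈ L)
    (hs : IsSeparable E x) : x ∈ (L ⊓ F) ⊔ k⟮t⟯ :=
  sep_mem hE hs n ((le_sup_left : L ⊓ F ≤ _) ⟨pow_mem hx _, (hF _).2 ⟨x, rfl⟩⟩)

omit [CharP K p] in
theorem caseV_aux_inv {q g : K} (hq : q ≠ 0) (n : ℕ) :
    q * (q * g)⁻¹ ^ p ^ n = (q ^ (p ^ n - 1) * g ^ p ^ n)⁻¹ := by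
  have hN : 0 < p ^ n := pow_pos (Fact.out : p.Prime).pos n
  obtain ⟨m, hm⟩ : ∃ m, p ^ n = m + 1 := ⟨p ^ n - 1, by omega⟩
  rw [hm, Nat.add_sub_cancel, inv_pow, mul_pow, pow_succ' q m, mul_assoc q, mul_inv q,
    ← mul_assoc, mul_inv_cancel₀ hq, one_mul]

omit [CharP K p] in
theorem caseV_aux_ne {q : K} (hq : ∀ w : K, w ^ p ≠ q) : q ≠ 0 := fun h =>
  hq 0 (by rw [h, zero_pow (Fact.out : p.Prime).ne_zero])

/-- The components of `j` along the powers of `q` are algebraic over `k(j)`. -/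
theorem Pt.comp_alg {q j : K} (h : Pt p k q j) (n : ℕ) (g : ℕ → K)
    (hg : j = ∑ c ∈ Finset.range (p ^ n), q ^ c * g c ^ p ^ n) (c : ℕ) (hc : c < p ^ n) :
    IsAlgebraic k⟮j⟯ (q ^ c * g c ^ p ^ n) := by
  obtain ⟨F, hF⟩ := exists_Fr (p := p) (k := k) (K := K) n
  obtain ⟨A, hA⟩ := exists_cl k⟮j⟯
  obtain ⟨r, hr, hQ⟩ := h.f1 (n + 1)
  have hnp := caseV_aux_npp h.nq hr n
  have hQe : q * r ^ p ^ (n + 1) = q * (r ^ p) ^ p ^ n := by rw [← pow_mul, ← pow_succ']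
  generalize q * r ^ p ^ (n + 1) = Q at hQ hnp hQe
  have hQA : Q ∈ A := (hA _).2 hQ
  have hjA : j ∈ A := (hA _).2 (alg_of_mem (IntermediateField.mem_adjoin_simple_self k j))
  have hjQ : IsAlgebraic k⟮Q⟯ j := exchange0 (transc_of_not_pow hnp) hQ
  have hjM : j ∈ (A ⊓ F) ⊔ k⟮Q⟯ := caseV_aux_mem n hF le_sup_right hjA (sep1 hnp hjQ)
  obtain ⟨m, hm, hj⟩ := span_pow (A ⊓ F) (pow_pos (Fact.out : p.Prime).pos n)
    (show Q ^ p ^ n ∈ A ⊓ F from ⟨pow_mem hQA _, (hF _).2 ⟨Q, rfl⟩⟩) hjM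
  choose w hw using fun c => (hF _).1 (hm c).2
  have e : ∀ c, q ^ c * ((r ^ p) ^ c * w c) ^ p ^ n = Q ^ c * m c := fun c => by
    rw [hQe, ← hw c, mul_pow, mul_pow, mul_assoc, ← pow_mul (r ^ p) c, ← pow_mul (r ^ p) _ c,
      mul_comm c]
  have hgc := indep h.nq n g (fun c => (r ^ p) ^ c * w c) (by
    rw [← hg]; simp only [e]; exact hj) c hc
  rw [hgc, e]
  exact (hA _).1 (mul_mem (pow_mem hQA _) (hm c).1)

/-- One point. -/
theorem caseV {t q j : K} (ht : ∀ w : K, w ^ p ≠ t) (h : Pt p k q j) (hq : IsAlgebraic k⟮t⟯ q) :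
    Transcendental k⟮t⟯ j := by
  classical
  intro hj
  have htj : IsAlgebraic k⟮j⟯ t := exchange0 (transc_of_not_pow h.nj) hj
  have hqj : IsAlgebraic k⟮j⟯ q := alg_trans (caseV_aux_adj htj) hq
  obtain ⟨D, hD⟩ := deg_sup k⟮j⟯ {t, q} (by
    intro s hs
    simp only [Finset.mem_insert, Finset.mem_singleton] at hs
    rcases hs with rfl | rfl
    exacts [htj, hqj])
  replace hD := hD _ le_rfl
  obtain ⟨n, hn⟩ := h.unb D
  obtain ⟨F, hF⟩ := exists_Fr (p := p) (k := k) (K := K) n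
  obtain ⟨g, hg, hg0⟩ := h.dec n
  set L := k⟮j⟯ ⊔ IntermediateField.adjoin k (({t, q} : Finset K) : Set K) with hL
  have htL : t ∈ L := (le_sup_right : _ ≤ L) (IntermediateField.subset_adjoin k _ (by simp))
  have hqL : q ∈ L := (le_sup_right : _ ≤ L) (IntermediateField.subset_adjoin k _ (by simp))
  have hjL : j ∈ L := (le_sup_left : _ ≤ L) (IntermediateField.mem_adjoin_simple_self k j)
  have hle : L ≤ (L ⊓ F) ⊔ k⟮t⟯ := by
    refine sup_le (IntermediateField.adjoin_simple_le_iff.2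
      (caseV_aux_mem n hF le_sup_right hjL (sep1 ht hj))) ?_
    rw [IntermediateField.adjoin_le_iff]
    intro s hs
    simp only [Finset.coe_insert, Finset.coe_singleton, Set.mem_insert_iff,
      Set.mem_singleton_iff] at hs
    rcases hs with rfl | rfl
    · exact (le_sup_right : _ ≤ (L ⊓ F) ⊔ k⟮s⟯) (IntermediateField.mem_adjoin_simple_self k s)
    · exact caseV_aux_mem n hF le_sup_right hqL (sep1 ht hq)
  have hN : 0 < p ^ n := pow_pos (Fact.out : p.Prime).pos n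
  have hgL := comp_mem n F L hF htL hle hqL h.nq g (hg ▸ hjL) (p ^ n - 1) (by omega)
  have hq0 := caseV_aux_ne h.nq
  have hx : q * (q * g (p ^ n - 1))⁻¹ ^ p ^ n ∈ L := by
    rw [caseV_aux_inv hq0]
    exact inv_mem (mul_mem (pow_mem hqL _) hgL)
  exact absurd (hn _ (inv_ne_zero (mul_ne_zero hq0 hg0)) (hD _ hx).1) (not_lt.2 (hD _ hx).2)

/-- Two values independent over `k` cannot be dependent over `k(t)`. -/
theorem caseI {t q1 j1 q2 j2 : K} (ht : ∀ w : K, w ^ p ≠ t) (h1 : Pt p k q1 j1) (h2 : Pt p k q2 j2)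
    (hq1 : IsAlgebraic k⟮t⟯ q1) (hq2 : IsAlgebraic k⟮t⟯ q2)
    (hi : AlgebraicIndependent k ![j1, j2]) (hs : IsSeparable k⟮t, j2⟯ j1) : False := by
  classical
  have hj1 : Transcendental k⟮j2⟯ j1 := (indep_pair (transc_of_not_pow h2.nj)).1 hi
  have hj2t : k⟮t, j2⟯ ≤ k⟮j2⟯ ⊔ k⟮t⟯ := by
    rw [IntermediateField.adjoin_le_iff]
    intro s hs
    rcases hs with rfl | rfl
    · exact (le_sup_right : _ ≤ k⟮j2⟯ ⊔ k⟮s⟯) (IntermediateField.mem_adjoin_simple_self k s)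
    · exact (le_sup_left : _ ≤ k⟮s⟯ ⊔ k⟮t⟯) (IntermediateField.mem_adjoin_simple_self k s)
  have htE : IsAlgebraic (k⟮j2⟯ ⊔ k⟮j1⟯ : IntermediateField k K) t :=
    exchange k⟮j2⟯ hj1 (alg_mono hj2t hs.isIntegral.isAlgebraic)
  obtain ⟨D, hD⟩ := deg_sup (k⟮j2⟯ ⊔ k⟮j1⟯) {t, q1, q2} (by
    intro s hs
    simp only [Finset.mem_insert, Finset.mem_singleton] at hs
    rcases hs with rfl | rfl | rfl
    exacts [htE, alg_trans (caseV_aux_adj htE) hq1, alg_trans (caseV_aux_adj htE) hq2])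
  obtain ⟨n, hn⟩ := h1.unb D
  obtain ⟨F, hF⟩ := exists_Fr (p := p) (k := k) (K := K) n
  obtain ⟨g, hg, hg0⟩ := h1.dec n
  obtain ⟨r, hr, hQ⟩ := h2.f1 (n + 1)
  have hnp := caseV_aux_npp h2.nq hr n
  have hQe : q2 * r ^ p ^ (n + 1) = q2 * (r ^ p) ^ p ^ n := by rw [← pow_mul, ← pow_succ']
  generalize q2 * r ^ p ^ (n + 1) = Q at hQ hnp hQe
  set B : IntermediateField k K := k⟮j2⟯ ⊔ k⟮Q⟯ with hB
  have hBalg : ∀ y ∈ B, IsAlgebraic k⟮j2⟯ y := by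
    obtain ⟨A, hA⟩ := exists_cl k⟮j2⟯
    have : B ≤ A := sup_le (fun y hy => (hA y).2 (alg_of_mem hy))
      (IntermediateField.adjoin_simple_le_iff.2 ((hA Q).2 hQ))
    exact fun y hy => (hA y).1 (this hy)
  have hj1B : Transcendental B j1 := fun hh => hj1 (alg_trans hBalg hh)
  replace hD := hD (B ⊔ k⟮j1⟯) (sup_le_sup_right le_sup_left _)
  set L := (B ⊔ k⟮j1⟯) ⊔ IntermediateField.adjoin k (({t, q1, q2} : Finset K) : Set K) with hL
  have htL : t ∈ L := (le_sup_right : _ ≤ L) (IntermediateField.subset_adjoin k _ (by simp))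
  have hq1L : q1 ∈ L := (le_sup_right : _ ≤ L) (IntermediateField.subset_adjoin k _ (by simp))
  have hq2L : q2 ∈ L := (le_sup_right : _ ≤ L) (IntermediateField.subset_adjoin k _ (by simp))
  have hBL : B ≤ L := le_sup_left.trans le_sup_left
  have hj1L : j1 ∈ L := (le_sup_right.trans le_sup_left : k⟮j1⟯ ≤ L)
    (IntermediateField.mem_adjoin_simple_self k j1)
  have hj2L : j2 ∈ L := hBL ((le_sup_left : _ ≤ B) (IntermediateField.mem_adjoin_simple_self k j2))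
  have hQL : Q ∈ L := hBL ((le_sup_right : _ ≤ B) (IntermediateField.mem_adjoin_simple_self k Q))
  have hq10 := caseV_aux_ne h1.nq
  have hq20 := caseV_aux_ne h2.nq
  have htM : t ∈ (L ⊓ F) ⊔ k⟮t⟯ :=
    (le_sup_right : _ ≤ (L ⊓ F) ⊔ k⟮t⟯) (IntermediateField.mem_adjoin_simple_self k t)
  have hq1M : q1 ∈ (L ⊓ F) ⊔ k⟮t⟯ := caseV_aux_mem n hF le_sup_right hq1L (sep1 ht hq1)
  have hq2M : q2 ∈ (L ⊓ F) ⊔ k⟮t⟯ := caseV_aux_mem n hF le_sup_right hq2L (sep1 ht hq2)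
  have hQM : Q ∈ (L ⊓ F) ⊔ k⟮t⟯ := by
    have e : (r ^ p) ^ p ^ n = q2⁻¹ * Q := by rw [hQe, inv_mul_cancel_left₀ hq20]
    have hrL : (r ^ p) ^ p ^ n ∈ L := by rw [e]; exact mul_mem (inv_mem hq2L) hQL
    have hrM : (r ^ p) ^ p ^ n ∈ (L ⊓ F) ⊔ k⟮t⟯ :=
      (le_sup_left : L ⊓ F ≤ _) ⟨hrL, (hF _).2 ⟨_, rfl⟩⟩
    have := mul_mem hq2M hrM
    rwa [← hQe] at this
  have hj2M : j2 ∈ (L ⊓ F) ⊔ k⟮t⟯ :=
    caseV_aux_mem n hF (IntermediateField.adjoin_simple_le_iff.2 hQM) hj2L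
      (sep1 hnp (exchange0 (transc_of_not_pow hnp) hQ))
  have hj1M : j1 ∈ (L ⊓ F) ⊔ k⟮t⟯ :=
    caseV_aux_mem n hF (hj2t.trans (sup_le (IntermediateField.adjoin_simple_le_iff.2 hj2M)
      le_sup_right)) hj1L hs
  have hle : L ≤ (L ⊓ F) ⊔ k⟮t⟯ := by
    refine sup_le (sup_le (sup_le (IntermediateField.adjoin_simple_le_iff.2 hj2M)
      (IntermediateField.adjoin_simple_le_iff.2 hQM))
      (IntermediateField.adjoin_simple_le_iff.2 hj1M)) ?_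
    rw [IntermediateField.adjoin_le_iff]
    intro s hs
    simp only [Finset.coe_insert, Finset.coe_singleton, Set.mem_insert_iff,
      Set.mem_singleton_iff] at hs
    rcases hs with rfl | rfl | rfl
    exacts [htM, hq1M, hq2M]
  have hN : 0 < p ^ n := pow_pos (Fact.out : p.Prime).pos n
  have hgL := comp_mem n F L hF htL hle hq1L h1.nq g (hg ▸ hj1L) (p ^ n - 1) (by omega)
  have hx : q1 * (q1 * g (p ^ n - 1))⁻¹ ^ p ^ n ∈ L := by
    rw [caseV_aux_inv hq10]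
    exact inv_mem (mul_mem (pow_mem hq1L _) hgL)
  have ha : IsAlgebraic k⟮j1⟯ (q1 * (q1 * g (p ^ n - 1))⁻¹ ^ p ^ n) := by
    rw [caseV_aux_inv hq10]
    exact (h1.comp_alg n g hg _ (by omega)).inv
  exact absurd (hn _ (inv_ne_zero (mul_ne_zero hq10 hg0)) ha)
    (not_lt.2 ((deg_descent B hj1B ha).trans (hD _ hx).2))

end Pool.Agent.Lib.MP_8f9d9d_nt.H53
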