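import Pool.Agent.Lib.MP_8f9d9d_nt.H53Fld1

set_option autoImplicit false

open scoped PowerSeries IntermediateField Polynomial

namespace Pool.Agent.Lib.MP_8f9d9d_nt.H53

theorem conj_dvd {p : ℤ} (hp : Prime p) (n : ℕ) {u v m : ℤ} (hm : 24 * m ∣ 288)
    (huv : u + v = 2 * m) (h : p ^ n ∣ 12 * (u * v)) : p ^ n ∣ 288 * u ∨ p ^ n ∣ 288 * v := by
  have key : ∀ (u v u' : ℤ) (i : ℕ), u + v = 2 * m → p ^ n ∣ 12 * (u * v) → ¬ p ∣ u' →
      u = p ^ i * u' → p ^ i ∣ v → p ^ n ∣ 288 * v := by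
    intro u v u' i huv h h1 h2 h3
    have h4 : p ^ n ∣ 12 * p ^ i * v :=
      hp.pow_dvd_of_dvd_mul_left n h1 
        (h.trans (dvd_of_eq (by rw [h2]; ring)))
    have h5 : p ^ i ∣ 2 * m := huv ▸ dvd_add (h2 ▸ dvd_mul_right _ _) h3
    refine h4.trans (mul_dvd_mul_right ((mul_dvd_mul_left 12 h5).trans ?_) _)
    exact (dvd_of_eq (by ring)).trans hm
  rcases eq_or_ne u 0 with rfl | hu
  · exact Or.inl (by simp)
  rcases eq_or_ne v 0 with rfl | hv
  · exact Or.inr (by simp)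
  obtain ⟨i, u', h1, h2⟩ := WfDvdMonoid.max_power_factor hu hp.irreducible
  obtain ⟨j, v', h3, h4⟩ := WfDvdMonoid.max_power_factor hv hp.irreducible
  rcases le_total i j with hij | hij
  · exact Or.inr (key u v u' i huv h h1 h2
      (h4 ▸ (pow_dvd_pow p hij).trans (dvd_mul_right _ _)))
  · exact Or.inl (key v u v' j (by rw [add_comm, huv]) (by rwa [mul_comm v]) h3 h4
      (h2 ▸ (pow_dvd_pow p hij).trans (dvd_mul_right _ _)))

theorem conj_card (N : ℕ) (c : ℤ) :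
    ((Finset.range N).filter fun a : ℕ => (N : ℤ) ∣ 288 * (a + c)).card ≤ 288 := by
  refine (Finset.card_le_card_of_injOn (t := Finset.range 288) (fun a => 288 * a / N)
    (fun a ha => ?_) fun a ha b hb e => ?_).trans (by simp)
  · have h := Finset.mem_range.1 (Finset.mem_filter.1 ha).1
    exact Finset.mem_range.2 (Nat.div_lt_of_lt_mul (by omega))
  · have h : 288 * a ≡ 288 * b [MOD N] := by
      refine Nat.modEq_iff_dvd.2 ((dvd_sub (Finset.mem_filter.1 hb).2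
        (Finset.mem_filter.1 ha).2).trans (dvd_of_eq ?_))
      push_cast
      ring
    have h1 := Nat.div_add_mod (288 * a) N
    have h2 := Nat.div_add_mod (288 * b) N
    have e' : 288 * a / N = 288 * b / N := e
    rw [e', h] at h1
    omega

theorem conj_count {p : ℕ} [Fact p.Prime] (n : ℕ) {m : ℕ} (h1 : 1 ≤ m) (h4 : m ≤ 4) :
    ((Finset.range (p ^ n)).filter fun a : ℕ =>
      ((p ^ n : ℕ) : ℤ) ∣ (12 * m ^ 2 : ℕ) - (12 * a ^ 2 : ℕ)).card ≤ 576 := by
  refine (Finset.card_le_card (t := _ ∪ _) fun a ha => ?_).trans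
    ((Finset.card_union_le _ _).trans (add_le_add (conj_card (p ^ n) (-m)) (conj_card (p ^ n) m)))
  obtain ⟨ha, hd⟩ := Finset.mem_filter.1 ha
  have h := conj_dvd (Nat.prime_iff_prime_int.1 (Fact.out : p.Prime)) n (u := m - a) (v := a + m)
    (m := m) (by interval_cases m <;> decide) (by ring) 
    ((dvd_of_eq (Nat.cast_pow p n).symm).trans (hd.trans (dvd_of_eq (by push_cast; ring))))
  simp only [Finset.mem_union, Finset.mem_filter, ha, true_and, Nat.cast_pow]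
  exact h.imp_left fun h => h.neg_right.trans (dvd_of_eq (by ring))

/-- Counting conjugates. -/
theorem conj_bound {p : ℕ} [Fact p.Prime] {E K : Type*} [Field E] [Field K] [Algebra E K]
    [CharP K p] (hsep : ∀ x : K, IsAlgebraic E x → IsSeparable E x) {q : K}
    (hq : ∀ w : K, w ^ p ≠ q) (n N : ℕ) (hN : N = p ^ n) (s : ℕ → K) (G : E[X])
    (hG : G.map (algebraMap E K) = ∏ a ∈ Finset.range N,
      (Polynomial.X - Polynomial.C ((q ^ (12 * a ^ 2) * s a ^ N) ^ N)) ^ N)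
    {y : K} (hy : y ≠ 0) {D : ℕ} (halg : IsAlgebraic E (q * y ^ N))
    (hD : (minpoly E (q * y ^ N)).natDegree ≤ D) {m : ℕ} (h1 : 1 ≤ m) (h4 : m ≤ 4) (hm : m < N)
    (hs : s m ≠ 0) : (minpoly E ((q ^ (12 * m ^ 2) * s m ^ N) ^ N)).natDegree ≤ 576 * D := by
  classical
  have hp : p.Prime := Fact.out
  have hN0 : 0 < N := by omega
  have hq0 : q ≠ 0 := fun h => hq 0 (by rw [h, zero_pow hp.ne_zero])
  obtain ⟨Q, hQ⟩ : ∃ Q, Q = q * y ^ N := ⟨_, rfl⟩
  obtain ⟨e, he⟩ : ∃ e, e = 12 * m ^ 2 := ⟨_, rfl⟩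
  obtain ⟨Y, hY⟩ : ∃ Y, Y = s m / y ^ e := ⟨_, rfl⟩
  rw [← hQ] at halg hD
  have hQ0 : Q ≠ 0 := hQ ▸ mul_ne_zero hq0 (pow_ne_zero _ hy)
  have hY0 : Y ≠ 0 := hY ▸ div_ne_zero hs (pow_ne_zero _ hy)
  have hz : q ^ (12 * m ^ 2) * s m ^ N = Q ^ e * Y ^ N := by
    rw [← he, hQ, hY, mul_pow, div_pow, ← pow_mul, ← pow_mul, mul_comm N e]
    field_simp
  have hG0 : G ≠ 0 := by
    rintro rfl
    rw [Polynomial.map_zero] at hG
    exact (Polynomial.monic_prod_of_monic _ _ fun a _ =>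
      (Polynomial.monic_X_sub_C _).pow N).ne_zero hG.symm
  have hGz : Polynomial.aeval ((Q ^ e * Y ^ N) ^ N) G = 0 := by
    rw [← hz, ← Polynomial.eval_map_algebraMap, hG, Polynomial.eval_prod]
    exact Finset.prod_eq_zero (Finset.mem_range.2 hm) (by simp [hN0.ne'])
  have hYa : IsAlgebraic E Y :=
    (IsAlgebraic.of_mul (mem_nonZeroDivisors_of_ne_zero (pow_ne_zero _ hQ0)) (halg.pow e)
      (IsAlgebraic.of_pow hN0 ⟨G, hG0, hGz⟩)).of_pow hN0
  have hYs : IsSeparable E⟮Q⟯ Y := IsSeparable.tower_top _ (hsep Y hYa)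
  have hYi : IsIntegral E⟮Q⟯ Y := hYs.isIntegral
  have hf : (minpoly E⟮Q⟯ Y).natDegree ≤ 576 := by
    let Kb := AlgebraicClosure K
    let ι := algebraMap K Kb
    rw [← Polynomial.card_rootSet_eq_natDegree (K := Kb) hYs (IsAlgClosed.splits _),
      ← Set.toFinset_card]
    refine (Finset.card_le_card_of_forall_subsingleton
      (fun ρ a => ι Q ^ e * ρ ^ N = ι (q ^ (12 * a ^ 2) * s a ^ N)) (fun ρ hρ => ?_)
      fun a _ ρ hρ ρ' hρ' => ?_).trans (conj_count (p := p) n h1 h4)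
    · have hρ0 : Polynomial.aeval ρ (minpoly E⟮Q⟯ Y) = 0 :=
        (Polynomial.mem_rootSet.1 (Set.mem_toFinset.1 hρ)).2
      have hd : minpoly E⟮Q⟯ Y ∣ (G.map (algebraMap E E⟮Q⟯)).comp
          ((Polynomial.C (IntermediateField.AdjoinSimple.gen E Q) ^ e * Polynomial.X ^ N) ^ N) := by
        refine minpoly.dvd _ _ ?_
        simpa [Polynomial.aeval_comp] using hGz
      have h2 := Polynomial.aeval_eq_zero_of_dvd_aeval_eq_zero hd hρ0
      have h3 : algebraMap E⟮Q⟯ Kb (IntermediateField.AdjoinSimple.gen E Q) = ι Q := rfl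
      rw [Polynomial.aeval_comp, Polynomial.aeval_map_algebraMap,
        ← Polynomial.aeval_map_algebraMap K, hG] at h2
      simp only [map_prod, map_pow, map_mul, map_sub, Polynomial.aeval_X, Polynomial.aeval_C,
        h3] at h2
      obtain ⟨a, ha, h2⟩ := Finset.prod_eq_zero_iff.1 h2
      have h5 : ι Q ^ e * ρ ^ N = ι (q ^ (12 * a ^ 2) * s a ^ N) := by
        refine iterateFrobenius_inj Kb p n ?_
        rw [iterateFrobenius_def, iterateFrobenius_def, ← hN, map_mul, map_pow, map_pow]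
        exact sub_eq_zero.1 (pow_eq_zero_iff hN0.ne' |>.1 h2)
      have h6 : IsSeparable K ρ :=
        IsSeparable.tower_top K (F := E⟮Q⟯) (hYs.of_dvd (minpoly.dvd _ _ hρ0))
      obtain ⟨r, rfl⟩ := sep_range (p := p) h6 n ⟨q ^ (12 * a ^ 2) * s a ^ N / Q ^ e, by
        rw [map_div₀, ← h5, ← hN, map_pow,
          mul_div_cancel_left₀ _ (pow_ne_zero _ ((map_ne_zero ι).2 hQ0))]⟩
      have hr : r ≠ 0 := by
        rintro rfl
        rw [map_zero, ← Polynomial.coeff_zero_eq_aeval_zero', map_eq_zero] at hρ0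
        exact minpoly.coeff_zero_ne_zero hYi hY0 hρ0
      refine ⟨a, Finset.mem_filter.2 ⟨hN ▸ ha, pow_dvd hq n _ (s a / (y ^ e * r)) ?_⟩, h5⟩
      have h7 : Q ^ e * r ^ N = q ^ (12 * a ^ 2) * s a ^ N := by
        refine ι.injective ?_
        rw [← h5, map_mul, map_pow, map_pow]
      rw [zpow_sub₀ hq0, zpow_natCast, zpow_natCast, ← hN, ← he, div_pow,
        div_eq_div_iff (pow_ne_zero _ hq0) (pow_ne_zero _ (mul_ne_zero (pow_ne_zero _ hy) hr)),
        mul_comm (s a ^ N), ← h7, hQ]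
      ring
    · refine iterateFrobenius_inj Kb p n ?_
      rw [iterateFrobenius_def, iterateFrobenius_def, ← hN]
      exact mul_left_cancel₀ (pow_ne_zero e ((map_ne_zero ι).2 hQ0)) (hρ.2.trans hρ'.2.symm)
  have := IntermediateField.adjoin.finiteDimensional halg.isIntegral
  have := IntermediateField.adjoin.finiteDimensional hYi
  have := Module.Finite.trans (R := E) E⟮Q⟯ E⟮Q⟯⟮Y⟯
  have hmem : (Q ^ e * Y ^ N) ^ N ∈ E⟮Q⟯⟮Y⟯ :=
    pow_mem (mul_mem (pow_mem (E⟮Q⟯⟮Y⟯.algebraMap_mem (IntermediateField.AdjoinSimple.gen E Q)) _)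
      (pow_mem (IntermediateField.mem_adjoin_simple_self _ _) _)) _
  have h2 := minpoly.natDegree_le (A := E) (⟨_, hmem⟩ : E⟮Q⟯⟮Y⟯)
  have : IsScalarTower E E⟮Q⟯⟮Y⟯ K := IsScalarTower.of_algebraMap_eq fun _ => rfl
  rw [← minpoly.algebraMap_eq (algebraMap E⟮Q⟯⟮Y⟯ K).injective,
    ← Module.finrank_mul_finrank E E⟮Q⟯ E⟮Q⟯⟮Y⟯, IntermediateField.adjoin.finrank hYi,
    IntermediateField.adjoin.finrank halg.isIntegral] at h2
  rw [hz, mul_comm 576]
  exact h2.trans (Nat.mul_le_mul hD hf)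

end Pool.Agent.Lib.MP_8f9d9d_nt.H53
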