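import Mathlib

set_option autoImplicit false

open scoped PowerSeries UpperHalfPlane IntermediateField ArithmeticFunction.sigma Real

namespace Pool.Agent.Lib.MP_8f9d9d_nt.H53

/-- The theta series `∑ u^m X^(N m (m-1)/2 + a m)` over all integers `m` (used for `a < N`). -/
noncomputable def th {R : Type*} [CommRing R] (N a : ℕ) (u : Rˣ) : R⟦X⟧ :=
  PowerSeries.mk fun e => ∑ m ∈ Finset.Icc (-(e : ℤ) - 1) (e + 1),
    if (N : ℤ) * m * (m - 1) + 2 * a * m = 2 * e then ((u ^ m : Rˣ) : R) else 0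

/-- Generating series of divisor sums. -/
noncomputable def sg (r : ℕ) : ℤ⟦X⟧ := PowerSeries.mk fun n => ((σ r n : ℕ) : ℤ)

/-- Weight four. -/
noncomputable def E4z : ℤ⟦X⟧ := 1 + 240 * sg 3

/-- Weight six. -/
noncomputable def E6z : ℤ⟦X⟧ := 1 - 504 * sg 5

/-- The discriminant. -/
noncomputable def Dz : ℤ⟦X⟧ :=
  (PowerSeries.mk fun n => (5 * ((σ 3 n : ℕ) : ℤ) + 7 * ((σ 5 n : ℕ) : ℤ)) / 12) +
    100 * sg 3 ^ 2 + 8000 * sg 3 ^ 3 - 147 * sg 5 ^ 2

/-- The series `∑ (-1)^l (2l+1) X^(l(l+1)/2)`. -/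
noncomputable def Xiz : ℤ⟦X⟧ := PowerSeries.mk fun e =>
  ∑ l ∈ Finset.range (e + 1), if l * (l + 1) = 2 * e then (-1) ^ l * (2 * (l : ℤ) + 1) else 0

/-- An integral series seen over `R`. -/
noncomputable def cz (R : Type*) [CommRing R] : ℤ⟦X⟧ →+* R⟦X⟧ := PowerSeries.map (Int.castRingHom R)

/-- `F` is the expansion of `f` in the parameter `exp (2 π i τ / N)`. -/
def Rep (N : ℕ) (f : ℍ → ℂ) (F : ℂ⟦X⟧) : Prop :=
  ∀ τ : ℍ, HasSum (fun m => PowerSeries.coeff m F * Function.Periodic.qParam (N : ℝ) τ ^ m) (f τ)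

/-- Theta constant with characteristic `(a/N - 1/2, b/N - 1/2)`. -/
noncomputable def tg (N : ℕ) (a b : ℤ) (τ : ℂ) : ℂ :=
  Complex.exp (π * Complex.I * ((a : ℂ) / N - 1 / 2) ^ 2 * τ) *
    jacobiTheta₂ (((a : ℂ) / N - 1 / 2) * τ + ((b : ℂ) / N - 1 / 2)) τ

/-- Its power that depends only on the class of `(a, b)` modulo `N`. -/
noncomputable def Gz (N : ℕ) (v : ZMod N × ZMod N) (τ : ℍ) : ℂ :=
  tg N (v.1.val : ℕ) (v.2.val : ℕ) τ ^ (24 * N ^ 2)

/-- The expansion of `Gz`. -/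
noncomputable def Fz {R : Type*} [CommRing R] (N : ℕ) (ζ : Rˣ) (v : ZMod N × ZMod N) : R⟦X⟧ :=
  PowerSeries.X ^ (3 * N * (2 * ((v.1.val : ℕ) : ℤ) - N).natAbs ^ 2) *
    th N v.1.val (-ζ ^ v.2.val) ^ (24 * N ^ 2)

/-- Laurent series over the prime field. -/
abbrev L0 (p : ℕ) : Type := FractionRing (ZMod p)⟦X⟧

/-- A power series as a Laurent series. -/
noncomputable def up (p : ℕ) : (ZMod p)⟦X⟧ →+* L0 p := algebraMap _ _

section
variable (p : ℕ) [Fact p.Prime]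

/-- The variable. -/
noncomputable def xx : L0 p := up p PowerSeries.X

/-- The discriminant modulo `p`. -/
noncomputable def Dl : L0 p := up p (cz _ Dz)

/-- The modular invariant modulo `p`. -/
noncomputable def Jb : L0 p := up p (cz _ E4z) ^ 3 / Dl p

/-- Theta series modulo `p`. -/
noncomputable def Th (N a : ℕ) : L0 p := up p (th N a (-1))

/-- Auxiliary series. -/
noncomputable def sv (N a : ℕ) : L0 p :=
  xx p ^ (3 * (N : ℤ) - 12 * a) * Th p N a ^ 24 / Dl p ^ N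

/-- The modular units of level `N`. -/
noncomputable def zv (N a : ℕ) : L0 p := (xx p ^ (12 * a ^ 2) * sv p N a ^ N) ^ N

/-- A series independent of the level. -/
noncomputable def kap : L0 p := xx p ^ 3 * up p (cz _ Xiz) ^ 24 / Dl p

end

/-- `z` satisfies a nontrivial relation over `F[J]` of degree at most `D`. -/
def Dep (F : Type*) {L : Type*} [Field F] [Field L] [Algebra F L] (J z : L) (D : ℕ) : Prop :=
  ¬ LinearIndependent F fun x : ℕ × Fin (D + 1) => J ^ x.1 * z ^ (x.2 : ℕ)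

/-- What is used about a point `q` and the value `j` of the invariant there. -/
structure Pt (p : ℕ) (k : Type*) {K : Type*} [Field k] [Field K] [Algebra k K] (q j : K) :
    Prop where
  nq : ∀ w : K, w ^ p ≠ q
  f1 : ∀ n : ℕ, ∃ r : K, r ≠ 0 ∧ IsAlgebraic k⟮j⟯ (q * r ^ p ^ n)
  dec : ∀ n : ℕ, ∃ g : ℕ → K,
    j = ∑ c ∈ Finset.range (p ^ n), q ^ c * g c ^ p ^ n ∧ g (p ^ n - 1) ≠ 0
  unb : ∀ D : ℕ, ∃ n : ℕ, ∀ y : K, y ≠ 0 → IsAlgebraic k⟮j⟯ (q * y ^ p ^ n) →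
    D < (minpoly k⟮j⟯ (q * y ^ p ^ n)).natDegree

/-- The value of the invariant at a power series. -/
noncomputable def JJ {k : Type*} [Field k] (K : Type*) [Field K] [Algebra k⟦X⟧ K] (q : k⟦X⟧) : K :=
  algebraMap k⟦X⟧ K (E4z.subst q) ^ 3 / algebraMap k⟦X⟧ K (Dz.subst q)

instance (p : ℕ) [Fact p.Prime] : CharP (L0 p) p :=
  charP_of_injective_algebraMap (algebraMap (ZMod p) (L0 p)).injective p

end Pool.Agent.Lib.MP_8f9d9d_nt.H53
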