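import Pool.Agent.Lib.MP_8f9d9d_nt.H53Defs

set_option autoImplicit false

open scoped PowerSeries IntermediateField Polynomial

namespace Pool.Agent.Lib.MP_8f9d9d_nt.H53

section
variable {p : ℕ} [Fact p.Prime] {K : Type*} [Field K] [CharP K p]

theorem fld1_li {y : K} (hy : ∀ w : K, w ^ p ≠ y) (n : ℕ) :
    LinearIndependent (iterateFrobenius K p n).fieldRange fun i : Fin (p ^ n) => y ^ (i : ℕ) := by
  obtain ⟨m, c, hc⟩ := (minpoly.natSepDegree_eq_one_iff_eq_X_pow_sub_C
    (F := (iterateFrobenius K p n).fieldRange) (x := y) p).1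
    ((minpoly.natSepDegree_eq_one_iff_pow_mem p).2 ⟨n, ⟨_, y, rfl⟩, rfl⟩)
  have h1 : y ^ p ^ m = c := by
    have := minpoly.aeval (iterateFrobenius K p n).fieldRange y
    rw [hc, map_sub, map_pow, Polynomial.aeval_X, Polynomial.aeval_C, sub_eq_zero] at this
    exact this
  obtain ⟨w, hw⟩ := c.2
  have h2 : n ≤ m := by
    by_contra h
    obtain ⟨r, hr⟩ := Nat.exists_eq_add_of_lt (not_le.1 h)
    refine hy (w ^ p ^ r) (iterateFrobenius_inj K p m ?_)
    rw [iterateFrobenius_def, iterateFrobenius_def, h1, ← hw, iterateFrobenius_def, hr,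
      ← pow_mul, ← pow_mul]
    congr 1
    ring
  have h3 : p ^ n ≤ (minpoly (iterateFrobenius K p n).fieldRange y).natDegree := by
    rw [hc, Polynomial.natDegree_X_pow_sub_C]
    exact Nat.pow_le_pow_right (Fact.out : p.Prime).pos h2
  exact (linearIndependent_pow y).comp (Fin.castLE h3) (Fin.castLE_injective h3)

/-- Powers of an element that is not a `p`-th power are independent over the `p^n`-th powers. -/
theorem indep {y : K} (hy : ∀ w : K, w ^ p ≠ y) (n : ℕ) (g h : ℕ → K)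
    (e : ∑ c ∈ Finset.range (p ^ n), y ^ c * g c ^ p ^ n =
      ∑ c ∈ Finset.range (p ^ n), y ^ c * h c ^ p ^ n) : ∀ c, c < p ^ n → g c = h c := by
  intro c hc
  have h1 := Fintype.linearIndependent_iff.1 (fld1_li hy n)
    (fun i => ⟨(g i - h i) ^ p ^ n, g i - h i, rfl⟩) (by
      rw [← sub_eq_zero, ← Finset.sum_sub_distrib, Finset.sum_range] at e
      rw [← e]
      refine Finset.sum_congr rfl fun i _ => ?_
      rw [← mul_sub, ← sub_pow_char_pow, mul_comm]
      rfl) ⟨c, hc⟩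
  exact sub_eq_zero.1 (pow_eq_zero_iff (pow_ne_zero n (Fact.out : p.Prime).ne_zero) |>.1
    (congrArg Subtype.val h1))

theorem pow_dvd {y : K} (hy : ∀ w : K, w ^ p ≠ y) (n : ℕ) (e : ℤ) (w : K)
    (h : y ^ e = w ^ p ^ n) : ((p ^ n : ℕ) : ℤ) ∣ e := by
  have hp : p.Prime := Fact.out
  have y0 : y ≠ 0 := fun e => hy 0 (by rw [e, zero_pow hp.ne_zero])
  have hN : (0 : ℤ) < ((p ^ n : ℕ) : ℤ) := Int.natCast_pos.2 (pow_pos hp.pos n)
  obtain ⟨c, hc⟩ := Int.eq_ofNat_of_zero_le (Int.emod_nonneg e hN.ne')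
  have h1 : c < p ^ n := by
    have := Int.emod_lt_of_pos e hN
    omega
  have h2 : y ^ c = (w / y ^ (e / ((p ^ n : ℕ) : ℤ))) ^ p ^ n := by
    rw [div_pow, ← h, ← zpow_natCast y, ← zpow_natCast (y ^ _), ← zpow_mul, ← zpow_sub₀ y0, ← hc,
      Int.emod_def, mul_comm]
  refine Int.dvd_of_emod_eq_zero ?_
  by_contra h3
  have h4 : c ≠ 0 := fun e => h3 (by rw [hc, e, Nat.cast_zero])
  have := indep hy n (fun i => if i = c then 1 else 0)
    (fun i => if i = 0 then w / y ^ (e / ((p ^ n : ℕ) : ℤ)) else 0) (by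
      rw [Finset.sum_eq_single c, Finset.sum_eq_single 0]
      · rw [if_pos rfl, if_pos rfl, one_pow, mul_one, pow_zero, one_mul, h2]
      · intro b _ hb
        rw [if_neg hb, zero_pow (pow_ne_zero n hp.ne_zero), mul_zero]
      · exact fun h => absurd (Finset.mem_range.2 (pow_pos hp.pos n)) h
      · intro b _ hb
        rw [if_neg hb, zero_pow (pow_ne_zero n hp.ne_zero), mul_zero]
      · exact fun h => absurd (Finset.mem_range.2 h1) h) c h1
  simp [h4] at this

/-- Separable and purely inseparable. -/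
theorem sep_range {E : Type*} [Field E] [Algebra E K] {x : K} (hx : IsSeparable E x) (n : ℕ)
    (h : x ^ p ^ n ∈ (algebraMap E K).range) : x ∈ (algebraMap E K).range := by
  have : CharP E p := (Algebra.charP_iff E K p).2 inferInstance
  have h1 := (minpoly.natSepDegree_eq_one_iff_pow_mem p).2 ⟨n, h⟩
  rwa [Polynomial.Separable.natSepDegree_eq_natDegree hx, minpoly.natDegree_eq_one_iff] at h1

theorem nj_of_dec {q j : K} (hq : ∀ w : K, w ^ p ≠ q) (g : ℕ → K)
    (hg : j = ∑ c ∈ Finset.range (p ^ 1), q ^ c * g c ^ p ^ 1) (h0 : g (p ^ 1 - 1) ≠ 0) :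
    ∀ w : K, w ^ p ≠ j := by
  intro w hw
  have hp : p.Prime := Fact.out
  have h1 : 2 ≤ p ^ 1 := by rw [pow_one]; exact hp.two_le
  have := indep hq 1 g (fun i => if i = 0 then w else 0) (by
    rw [← hg, Finset.sum_eq_single 0]
    · rw [if_pos rfl, pow_zero, one_mul, pow_one, hw]
    · intro b _ hb
      rw [if_neg hb, zero_pow (by omega), mul_zero]
    · exact fun h => absurd (Finset.mem_range.2 (by omega)) h) (p ^ 1 - 1) (by omega)
  exact h0 (this.trans (if_neg (by omega)))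

variable {k : Type*} [Field k] [Algebra k K]

theorem sep_mem {E M : IntermediateField k K} (hEM : E ≤ M) {x : K} (hx : IsSeparable E x) (n : ℕ)
    (h : x ^ p ^ n ∈ M) : x ∈ M := by
  let := (IntermediateField.inclusion hEM).toAlgebra
  have : IsScalarTower E M K := IsScalarTower.of_algebraMap_eq fun _ => rfl
  obtain ⟨y, hy⟩ := sep_range (p := p) (IsSeparable.tower_top M hx) n ⟨⟨_, h⟩, rfl⟩
  exact hy ▸ y.2

/-- The field of `p^n`-th powers. -/
theorem exists_Fr [IsAlgClosed k] (n : ℕ) :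
    ∃ F : IntermediateField k K, ∀ x, x ∈ F ↔ ∃ w : K, w ^ p ^ n = x := by
  refine ⟨(iterateFrobenius K p n).fieldRange.toIntermediateField fun c => ?_, fun x => Iff.rfl⟩
  obtain ⟨d, rfl⟩ := IsAlgClosed.exists_pow_nat_eq c (pow_pos (Fact.out : p.Prime).pos n)
  exact ⟨algebraMap k K d, by rw [iterateFrobenius_def, map_pow]⟩

theorem Pt.nj {q j : K} (h : Pt p k q j) : ∀ w : K, w ^ p ≠ j := by
  obtain ⟨g, hg, h0⟩ := h.dec 1
  exact nj_of_dec h.nq g hg h0

theorem transc_of_not_pow [IsAlgClosed k] {y : K} (hy : ∀ w : K, w ^ p ≠ y) :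
    Transcendental k y := by
  intro h
  obtain ⟨c, rfl⟩ := minpoly.mem_range_of_degree_eq_one k y
    (IsAlgClosed.degree_eq_one_of_irreducible k (minpoly.irreducible h.isIntegral))
  obtain ⟨d, rfl⟩ := IsAlgClosed.exists_pow_nat_eq c (Fact.out : p.Prime).pos
  exact hy (algebraMap k K d) (map_pow _ _ _).symm

end

section
variable {k K : Type*} [Field k] [Field K] [Algebra k K]

theorem span_pow (M : IntermediateField k K) {y : K} {N : ℕ} (hN : 0 < N) (hy : y ^ N ∈ M) {x : K}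
    (hx : x ∈ M ⊔ k⟮y⟯) :
    ∃ m : ℕ → K, (∀ c, m c ∈ M) ∧ x = ∑ c ∈ Finset.range N, y ^ c * m c := by
  let G : M[X] := Polynomial.X ^ N - Polynomial.C ⟨y ^ N, hy⟩
  have hG : G.Monic := Polynomial.monic_X_pow_sub_C _ hN.ne'
  have h0 : Polynomial.aeval y G = 0 := by
    simp only [G, map_sub, map_pow, Polynomial.aeval_X, Polynomial.aeval_C]
    exact sub_self _
  have hd : G.natDegree = N := Polynomial.natDegree_X_pow_sub_C
  rw [← IntermediateField.restrictScalars_adjoin_eq_sup, IntermediateField.mem_restrictScalars,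
    ← IntermediateField.mem_toSubalgebra,
    IntermediateField.adjoin_simple_toSubalgebra_of_isAlgebraic ⟨G, hG.ne_zero, h0⟩,
    Algebra.adjoin_singleton_eq_range_aeval] at hx
  obtain ⟨f, rfl⟩ := hx
  refine ⟨fun c => (f %ₘ G).coeff c, fun c => ((f %ₘ G).coeff c).2, ?_⟩
  have h1 : (f %ₘ G).natDegree < N := hd ▸ Polynomial.natDegree_modByMonic_lt f hG fun e => by
    rw [e, Polynomial.natDegree_one] at hd
    omega
  refine (Polynomial.aeval_modByMonic_eq_self_of_root h0).symm.trans ?_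
  rw [Polynomial.aeval_eq_sum_range' h1]
  exact Finset.sum_congr rfl fun c _ => mul_comm _ _

end

section
variable {p : ℕ} [Fact p.Prime] {k K : Type*} [Field k] [Field K] [Algebra k K] [CharP K p]

/-- If `L` is generated by `t` over its subfield of `p^n`-th powers of `K`, then the components
of an element of `L` along the powers of `q ∈ L` lie in `L`. -/
theorem comp_mem (n : ℕ) (F L : IntermediateField k K) (hF : ∀ x, x ∈ F ↔ ∃ w : K, w ^ p ^ n = x)
    {t q : K} (ht : t ∈ L) (hL : L ≤ (L ⊓ F) ⊔ k⟮t⟯) (hq : q ∈ L) (hqp : ∀ w : K, w ^ p ≠ q)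
    (g : ℕ → K) (hx : ∑ c ∈ Finset.range (p ^ n), q ^ c * g c ^ p ^ n ∈ L) :
    ∀ c, c < p ^ n → g c ^ p ^ n ∈ L := by
  have hp : p.Prime := Fact.out
  let W : Submodule (L ⊓ F : IntermediateField k K) K :=
    Submodule.span _ (Set.range fun c : Fin (p ^ n) => t ^ (c : ℕ))
  have h1 : ∀ x ∈ L, x ∈ W := fun x hx => by
    obtain ⟨m, m1, rfl⟩ := span_pow (L ⊓ F) (pow_pos hp.pos n)
      ⟨pow_mem ht _, (hF _).2 ⟨t, rfl⟩⟩ (hL hx)
    rw [Finset.sum_range]
    refine sum_mem fun c _ => ?_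
    rw [mul_comm]
    exact W.smul_mem ⟨m c, m1 c⟩ (Submodule.subset_span ⟨c, rfl⟩)
  have key : ∀ (a : Fin (p ^ n) → (L ⊓ F : IntermediateField k K)) (g : ℕ → K),
      ∑ c, a c • q ^ (c : ℕ) = ∑ c ∈ Finset.range (p ^ n), q ^ c * g c ^ p ^ n →
        ∀ c, (a c : K) = g c ^ p ^ n := fun a g e c => by
    choose w hw using fun c => (hF _).1 (a c).2.2
    have := indep hqp n g (fun i => if h : i < p ^ n then w ⟨i, h⟩ else 0) (by
      rw [← e, Finset.sum_range]
      refine Finset.sum_congr rfl fun i _ => ?_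
      rw [dif_pos i.2, hw, mul_comm]
      rfl) c c.2
    rw [this, dif_pos c.2, hw]
  have h2 : LinearIndependent (L ⊓ F : IntermediateField k K)
      fun c : Fin (p ^ n) => q ^ (c : ℕ) := Fintype.linearIndependent_iff.2 fun a ha c =>
    Subtype.ext ((key a 0 (by simp [ha, hp.ne_zero]) c).trans (by simp [hp.ne_zero]))
  have : Module.Finite (L ⊓ F : IntermediateField k K) W :=
    Module.Finite.span_of_finite _ (Set.finite_range _)
  have h3 : Submodule.span _ (Set.range fun c : Fin (p ^ n) => q ^ (c : ℕ)) = W :=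
    Submodule.eq_of_le_of_finrank_le
      (Submodule.span_le.2 (Set.range_subset_iff.2 fun c => h1 _ (pow_mem hq _)))
      (by rw [finrank_span_eq_card h2]; exact finrank_range_le_card _)
  obtain ⟨a, ha⟩ := (Submodule.mem_span_range_iff_exists_fun _).1 (h3.ge (h1 _ hx))
  intro c hc
  exact key a g ha ⟨c, hc⟩ ▸ (a ⟨c, hc⟩).2.1

end

end Pool.Agent.Lib.MP_8f9d9d_nt.H53
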