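import Pool.Agent.Lib.MP_8f9d9d_nt.H53Defs

set_option autoImplicit false

open scoped PowerSeries IntermediateField Polynomial

namespace Pool.Agent.Lib.MP_8f9d9d_nt.H53

variable {k K : Type*} [Field k] [Field K] [Algebra k K]

theorem alg_mono {E M : IntermediateField k K} (h : E ≤ M) {x : K} (hx : IsAlgebraic E x) :
    IsAlgebraic M x :=
  hx.tower_top_of_subalgebra_le (A := E.toSubalgebra) (B := M.toSubalgebra) h

theorem alg_of_mem {E : IntermediateField k K} {x : K} (hx : x ∈ E) : IsAlgebraic E x :=
  isAlgebraic_algebraMap (⟨x, hx⟩ : E)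

/-- Transitivity. -/
theorem alg_trans {E M : IntermediateField k K} (h : ∀ y ∈ M, IsAlgebraic E y) {x : K}
    (hx : IsAlgebraic M x) : IsAlgebraic E x := by
  let A := algebraicClosure E K
  have h1 : IsAlgebraic (A.restrictScalars k) x :=
    alg_mono (E := M) (fun y hy => (mem_algebraicClosure_iff (F := E)).2 (h y hy)) hx
  have h2 : IsAlgebraic A x := h1
  exact h2.restrictScalars E

/-- The relative algebraic closure. -/
theorem exists_cl (E : IntermediateField k K) :
    ∃ A : IntermediateField k K, ∀ x, x ∈ A ↔ IsAlgebraic E x :=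
  ⟨(algebraicClosure E K).restrictScalars k, fun _ => mem_algebraicClosure_iff⟩

/-- Exchange over a base `B`. -/
theorem exchange (B : IntermediateField k K) {x y : K} (hx : Transcendental B x)
    (h : IsAlgebraic (B ⊔ k⟮y⟯ : IntermediateField k K) x) :
    IsAlgebraic (B ⊔ k⟮x⟯ : IntermediateField k K) y := by
  by_cases hy : IsAlgebraic B y
  · exact alg_mono le_sup_left hy
  rw [← IntermediateField.restrictScalars_adjoin_eq_sup] at h ⊢
  have h1 : IsAlgebraic B⟮y⟯ x := h
  have h2 := IsAlgebraic.adjoin_singleton (x := y) (y := x) hy hx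
    (IntermediateField.isAlgebraic_adjoin_iff.1 h1)
  exact (IntermediateField.isAlgebraic_adjoin_iff (F := B) (s := {x})).2 h2

theorem exchange0 {x y : K} (hx : Transcendental k x) (h : IsAlgebraic k⟮y⟯ x) :
    IsAlgebraic k⟮x⟯ y := by
  by_cases hy : IsAlgebraic k y
  · exact hy.tower_top _
  exact IntermediateField.isAlgebraic_adjoin_iff.2 (IsAlgebraic.adjoin_singleton (x := y) (y := x)
    hy hx (IntermediateField.isAlgebraic_adjoin_iff.1 h))

theorem indep_pair {u v : K} (hv : Transcendental k v) :
    AlgebraicIndependent k ![u, v] ↔ Transcendental k⟮v⟯ u := by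
  rw [IntermediateField.transcendental_adjoin_iff,
    algebraicIndependent_equiv' (finSuccEquiv 1) (f := fun o => o.elim u ![v]) (by
      funext i; fin_cases i <;> rfl),
    (algebraicIndependent_iff_transcendental.2 hv).option_iff_transcendental,
    show Set.range ![v] = {v} by simp]

theorem indep_swap {u v : K} (h : AlgebraicIndependent k ![u, v]) :
    AlgebraicIndependent k ![v, u] :=
  (algebraicIndependent_equiv' (Equiv.swap 0 1) (by funext i; fin_cases i <;> rfl)).2 h

/-- A uniform bound for degrees after a change of base. -/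
theorem deg_sup (E : IntermediateField k K) (S : Finset K) (hS : ∀ s ∈ S, IsAlgebraic E s) :
    ∃ D : ℕ, ∀ E' : IntermediateField k K, E ≤ E' →
      ∀ x ∈ E' ⊔ IntermediateField.adjoin k (S : Set K),
        IsAlgebraic E' x ∧ (minpoly E' x).natDegree ≤ D := by
  classical
  have key : ∀ E' : IntermediateField k K, E ≤ E' → ∀ T : Finset K, T ⊆ S →
      FiniteDimensional E' (IntermediateField.adjoin E' (T : Set K)) ∧
      Module.finrank E' (IntermediateField.adjoin E' (T : Set K)) ≤
        ∏ s ∈ T, (minpoly E s).natDegree := by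
    intro E' hE T
    induction T using Finset.induction_on with
    | empty =>
      intro _
      rw [Finset.coe_empty, IntermediateField.adjoin_empty]
      exact ⟨inferInstance, by simp⟩
    | insert s T hs ih =>
      intro hT
      obtain ⟨h1, h2⟩ := ih ((Finset.subset_insert _ _).trans hT)
      have h3 := hS s (hT (Finset.mem_insert_self _ _))
      have h4 := (alg_mono hE h3).isIntegral
      have h5 := IntermediateField.adjoin.finiteDimensional h4
      rw [Finset.coe_insert, Set.insert_eq, IntermediateField.adjoin_union, Finset.prod_insert hs]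
      refine ⟨inferInstance, (IntermediateField.finrank_sup_le _ _).trans
        (Nat.mul_le_mul ?_ h2)⟩
      rw [IntermediateField.adjoin.finrank h4]
      let _ : Algebra E E' := (IntermediateField.inclusion hE).toAlgebra
      have : IsScalarTower E E' K := .of_algebraMap_eq fun _ => rfl
      exact (Polynomial.natDegree_le_of_dvd (minpoly.dvd_map_of_isScalarTower E E' s)
        (Polynomial.map_monic_ne_zero (minpoly.monic h3.isIntegral))).trans
        Polynomial.natDegree_map_le
  refine ⟨∏ s ∈ S, (minpoly E s).natDegree, fun E' hE x hx => ?_⟩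
  obtain ⟨h1, h2⟩ := key E' hE S subset_rfl
  rw [← IntermediateField.restrictScalars_adjoin_eq_sup] at hx
  let y : IntermediateField.adjoin E' (S : Set K) := ⟨x, hx⟩
  refine ⟨IntermediateField.isAlgebraic_iff.1 (Algebra.IsAlgebraic.isAlgebraic y), ?_⟩
  rw [show x = (y : K) from rfl, ← IntermediateField.minpoly_eq]
  exact (minpoly.natDegree_le y).trans h2

theorem dep_of_minpoly {j z : K} {D : ℕ} (h : IsAlgebraic k⟮j⟯ z)
    (hD : (minpoly k⟮j⟯ z).natDegree ≤ D) : Dep k j z D := by
  classical
  intro hl
  set f := minpoly k⟮j⟯ z with hf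
  have hm : f.Monic := minpoly.monic h.isIntegral
  have h1 : ∀ i : Fin (D + 1), ∃ r s : k[X], Polynomial.aeval j s ≠ 0 ∧
      Polynomial.aeval j s * (f.coeff i : K) = Polynomial.aeval j r := by
    intro i
    obtain ⟨r, s, e⟩ := (IntermediateField.mem_adjoin_simple_iff k _).1 (f.coeff i).2
    by_cases hs : Polynomial.aeval j s = 0
    · exact ⟨0, 1, by simp, by rw [e, hs]; simp⟩
    · exact ⟨r, s, hs, by rw [e]; field_simp⟩
  choose r s hs hr using h1
  obtain ⟨g, hg⟩ : ∃ g : Fin (D + 1) → k[X], ∀ i,
      Polynomial.aeval j (g i) = (∏ i, Polynomial.aeval j (s i)) * (f.coeff i : K) :=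
    ⟨fun i => (∏ l ∈ Finset.univ.erase i, s l) * r i, fun i => by
      rw [map_mul, map_prod, ← hr, ← Finset.prod_erase_mul _ _ (Finset.mem_univ i), mul_assoc]⟩
  obtain ⟨N, hN⟩ : ∃ N, ∀ i, (g i).natDegree < N :=
    ⟨Finset.univ.sup (fun i => (g i).natDegree) + 1, fun i =>
      Nat.lt_succ_of_le (Finset.le_sup (f := fun i => (g i).natDegree) (Finset.mem_univ i))⟩
  have h2 := linearIndependent_iff'.1 hl (Finset.range N ×ˢ Finset.univ)
    (fun x => (g x.2).coeff x.1) (by
      rw [Finset.sum_product_right]
      calc _ = ∑ i : Fin (D + 1), Polynomial.aeval j (g i) * z ^ (i : ℕ) :=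
            Finset.sum_congr rfl fun i _ => by
              rw [Polynomial.aeval_eq_sum_range' (hN i), Finset.sum_mul]
              exact Finset.sum_congr rfl fun a _ => (smul_mul_assoc _ _ _).symm
        _ = (∏ i, Polynomial.aeval j (s i)) * Polynomial.aeval z f := by
            rw [Polynomial.aeval_eq_sum_range' (Nat.lt_succ_of_le hD), Finset.mul_sum,
              Finset.sum_range]
            exact Finset.sum_congr rfl fun i _ => by rw [hg, mul_assoc]; rfl
        _ = 0 := by rw [hf, minpoly.aeval, mul_zero])
  let i : Fin (D + 1) := ⟨f.natDegree, Nat.lt_succ_of_le hD⟩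
  have h3 : g i = 0 := Polynomial.ext fun a => by
    rcases lt_or_ge a N with ha | ha
    · exact h2 (a, i) (Finset.mem_product.2 ⟨Finset.mem_range.2 ha, Finset.mem_univ _⟩)
    · exact Polynomial.coeff_eq_zero_of_natDegree_lt ((hN i).trans_le ha)
  have h4 := hg i
  rw [h3, map_zero, show f.coeff i = 1 from hm.coeff_natDegree] at h4
  exact Finset.prod_ne_zero_iff.2 (fun l _ => hs l) (by simpa using h4.symm)

end Pool.Agent.Lib.MP_8f9d9d_nt.H53
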