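import Pool.Agent.Lib.MP_8f9d9d_nt.H53Sym

set_option autoImplicit false

open scoped PowerSeries UpperHalfPlane IntermediateField Real

namespace Pool.Agent.Lib.MP_8f9d9d_nt.H53

theorem prod_desc {O : Type*} [CommRing O] [IsDomain O] {N : ℕ} (hN : N ≠ 0) (E U : O⟦X⟧)
    (hE : PowerSeries.constantCoeff E = 1) (hU : PowerSeries.constantCoeff U = 1) (c : ℕ → O)
    (d : ℕ) : ∀ W P : O⟦X⟧, PowerSeries.constantCoeff W = 1 →
      PowerSeries.X ^ (N * d) * P = W * ∑ i ∈ Finset.range (d + 1),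
        PowerSeries.C (c i) * E ^ i * (PowerSeries.X ^ N * U) ^ (d - i) →
      P = W * PowerSeries.C (c 0) * U ^ d := by
  induction d with
  | zero =>
    intro W P _ h
    simpa using h
  | succ d ih =>
    intro W P hW h
    rw [Finset.sum_range_succ] at h
    have h1 : ∑ i ∈ Finset.range (d + 1),
        PowerSeries.C (c i) * E ^ i * (PowerSeries.X ^ N * U) ^ (d + 1 - i) =
        PowerSeries.X ^ N * U * ∑ i ∈ Finset.range (d + 1),
          PowerSeries.C (c i) * E ^ i * (PowerSeries.X ^ N * U) ^ (d - i) := by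
      rw [Finset.mul_sum]
      refine Finset.sum_congr rfl fun i hi => ?_
      have : d + 1 - i = (d - i) + 1 := by
        have := Finset.mem_range.1 hi
        omega
      rw [this, pow_succ]
      ring
    rw [h1] at h
    have h0 : c (d + 1) = 0 := by
      have := congrArg PowerSeries.constantCoeff h
      have hne : N * (d + 1) ≠ 0 := Nat.mul_ne_zero hN (Nat.succ_ne_zero d)
      simpa [hW, hE, hN, hne] using this.symm
    rw [h0] at h
    have hX : (PowerSeries.X : O⟦X⟧) ^ N ≠ 0 := pow_ne_zero _ PowerSeries.X_ne_zero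
    have h2 : PowerSeries.X ^ (N * d) * P = (W * U) * ∑ i ∈ Finset.range (d + 1),
        PowerSeries.C (c i) * E ^ i * (PowerSeries.X ^ N * U) ^ (d - i) := by
      apply mul_left_cancel₀ hX
      rw [← mul_assoc, ← pow_add, show N + N * d = N * (d + 1) by ring, h]
      simp only [map_zero, zero_mul, add_zero]
      ring
    rw [ih (W * U) P (by simp [hW, hU]) h2]
    ring

theorem prod_zmod {M : Type*} [CommMonoid M] (N : ℕ) [NeZero N] (f : ℕ → M) :
    ∏ a : ZMod N, f a.val = ∏ a ∈ Finset.range N, f a := by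
  obtain ⟨k, rfl⟩ := Nat.exists_eq_succ_of_ne_zero (NeZero.ne N)
  exact Fin.prod_univ_eq_prod_range f (k + 1)

theorem prod_sum_zmod (N : ℕ) [NeZero N] (f : ℕ → ℤ) :
    ∑ a : ZMod N, f a.val = ∑ a ∈ Finset.range N, f a := by
  obtain ⟨k, rfl⟩ := Nat.exists_eq_succ_of_ne_zero (NeZero.ne N)
  exact Fin.sum_univ_eq_sum_range f (k + 1)

theorem prod_sq_sum (N : ℤ) (k : ℕ) :
    ∑ a ∈ Finset.range k, 3 * N * (2 * (a : ℤ) - N) ^ 2 =
      N * (2 * ((k : ℤ) - 1) * k * (2 * k - 1) - 6 * N * k * (k - 1) + 3 * k * N ^ 2) := by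
  induction k with
  | zero => simp
  | succ k ih =>
    rw [Finset.sum_range_succ, ih]
    push_cast
    ring

theorem prod_exp (N : ℕ) [NeZero N] :
    ∑ v ∈ (Finset.univ : Finset (ZMod N × ZMod N)).erase 0,
      3 * N * (2 * ((v.1.val : ℕ) : ℤ) - N).natAbs ^ 2 =
      N * (N ^ 2 * ((Finset.univ : Finset (ZMod N × ZMod N)).erase 0).card) := by
  have hc : (((Finset.univ : Finset (ZMod N × ZMod N)).erase 0).card : ℤ) = (N : ℤ) ^ 2 - 1 := by
    have := Finset.card_erase_add_one (Finset.mem_univ (0 : ZMod N × ZMod N))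
    rw [Finset.card_univ, Fintype.card_prod, ZMod.card] at this
    have h2 := congrArg (Nat.cast : ℕ → ℤ) this
    push_cast at h2
    linear_combination h2
  have hs := Finset.add_sum_erase (Finset.univ : Finset (ZMod N × ZMod N))
    (fun v => 3 * (N : ℤ) * (2 * ((v.1.val : ℕ) : ℤ) - N) ^ 2) (Finset.mem_univ 0)
  rw [Fintype.sum_prod_type] at hs
  simp only [Finset.sum_const, Finset.card_univ, ZMod.card, nsmul_eq_mul] at hs
  rw [prod_sum_zmod N fun a => (N : ℤ) * (3 * (N : ℤ) * (2 * (a : ℤ) - N) ^ 2),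
    ← Finset.mul_sum (Finset.range N), prod_sq_sum] at hs
  apply Nat.cast_injective (R := ℤ)
  push_cast
  simp only [sq_abs]
  rw [hc]
  simp only [Prod.fst_zero, ZMod.val_zero, Nat.cast_zero] at hs
  linear_combination hs

theorem prod_map_cz {R S : Type*} [CommRing R] [CommRing S] (ψ : R →+* S) (F : ℤ⟦X⟧) :
    PowerSeries.map ψ (cz R F) = cz S F := by
  ext m
  simp [cz]

theorem prod_const_cz (R : Type*) [CommRing R] {F : ℤ⟦X⟧}
    (h : PowerSeries.constantCoeff F = 1) : PowerSeries.constantCoeff (cz R F) = 1 := by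
  rw [← PowerSeries.coeff_zero_eq_constantCoeff_apply] at h ⊢
  simp [cz, h]

theorem prod_kap_ne (p : ℕ) [Fact p.Prime] : kap p ≠ 0 := by
  refine div_ne_zero (mul_ne_zero (pow_ne_zero _ (xx_ne p)) (pow_ne_zero _ ?_)) (Dl_ne p)
  intro h
  have h1 : cz (ZMod p) Xiz = 0 := up_inj p (by rw [h, map_zero])
  have h2 := prod_const_cz (ZMod p) Xiz_const
  rw [h1, map_zero] at h2
  exact zero_ne_one h2

theorem prod_main (p : ℕ) [Fact p.Prime] {n : ℕ} (hn : 0 < n) {N : ℕ} [NeZero N]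
    (hN : N = p ^ n) :
    ∏ v ∈ (Finset.univ : Finset (ZMod N × ZMod N)).erase 0,
      (if v.1.val = 0 then kap p ^ N ^ 3 else zv p N v.1.val) = 1 := by
  classical
  obtain ⟨O, ζ, ψ, hζ, hψ⟩ := exists_O p hn
  rw [← hN] at hζ
  have hN0 : N ≠ 0 := NeZero.ne N
  have hex : ∀ F : (ZMod p)⟦X⟧, PowerSeries.expand N hN0 F = F ^ N := by
    subst hN
    exact fun F => expand_eq_pow p n hN0 F
  set V : Finset (ZMod N × ZMod N) := Finset.univ.erase 0 with hV
  have hT : ∀ v ∈ V, (v.1, v.1 + v.2) ∈ V := by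
    intro v hv
    simp only [hV, Finset.mem_erase, Finset.mem_univ, and_true, ne_eq, Prod.mk_eq_zero,
      not_and] at hv ⊢
    intro h1 h2
    rw [h1, zero_add] at h2
    exact hv (Prod.ext h1 h2)
  have hS : ∀ v ∈ V, (v.2, -v.1) ∈ V := by
    intro v hv
    simp only [hV, Finset.mem_erase, Finset.mem_univ, and_true, ne_eq, Prod.mk_eq_zero,
      not_and, neg_eq_zero] at hv ⊢
    intro h1 h2
    exact hv (Prod.ext h2 h1)
  obtain ⟨c, hc⟩ := sym_level O ζ hζ V hT hS V.card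
  rw [Finset.powersetCard_self, Finset.sum_singleton] at hc
  obtain ⟨U0, hU0, hD⟩ := Dz_fac
  have hprim : IsPrimitiveRoot ((ζ : O) : ℂ) N := hζ ▸ Complex.isPrimitiveRoot_exp N hN0
  have hY : ∀ v : ZMod N × ZMod N, ∃ (κ : O) (Y : O⟦X⟧), (v ∈ V → κ ≠ 0) ∧
      th N v.1.val (-ζ ^ v.2.val) = PowerSeries.C κ * Y ∧ PowerSeries.constantCoeff Y = 1 ∧
      xx p ^ (3 * N * (2 * ((v.1.val : ℕ) : ℤ) - N).natAbs ^ 2) *
        up p (PowerSeries.map ψ Y) ^ (24 * N ^ 2) =
        (if v.1.val = 0 then kap p ^ N ^ 3 else zv p N v.1.val) * Dl p ^ N ^ 3 := by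
    intro v
    by_cases ha : v.1.val = 0
    · obtain ⟨Y, h1, h2, h3⟩ := th_zero_fac hN0 (ζ ^ v.2.val)
      refine ⟨1 - ((ζ ^ v.2.val : Oˣ) : O), Y, ?_, by rw [ha]; exact h1, h2, ?_⟩
      · intro hv h0
        have hb : v.2.val ≠ 0 := by
          intro hb
          have : v = 0 := Prod.ext ((ZMod.val_eq_zero _).1 ha) ((ZMod.val_eq_zero _).1 hb)
          simp [hV, this] at hv
        apply hprim.pow_ne_one_of_pos_of_lt hb (ZMod.val_lt _)
        have h4 : ((ζ ^ v.2.val : Oˣ) : O) = 1 := (sub_eq_zero.1 h0).symm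
        have h5 := congrArg (fun x : O => (x : ℂ)) h4
        simpa using h5
      · rw [h3 (ZMod p) ψ (by simp [hψ]), hex, if_pos ha, ha, map_pow, ← mul_pow, kap,
          div_mul_cancel₀ _ (Dl_ne p), mul_pow, ← pow_mul, ← pow_mul, ← pow_mul]
        congr 2
        · simp only [Nat.cast_zero, mul_zero, zero_sub, Int.natAbs_neg, Int.natAbs_natCast]
          ring
        · ring
    · refine ⟨1, th N v.1.val (-ζ ^ v.2.val), fun _ => one_ne_zero, by simp,
        th_const (Nat.pos_of_ne_zero ha) (ZMod.val_lt _) _, ?_⟩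
      have hu : Units.map ψ.toMonoidHom ζ = 1 := Units.ext (by simpa using hψ)
      rw [if_neg ha, ← zv_eq p N v, ← hu, ← map_Fz, Fz]
      simp only [map_mul, map_pow, PowerSeries.map_X, xx]
  choose κ Y hκ hth hY1 hY2 using hY
  set M := 24 * N ^ 2 with hM
  set U : O⟦X⟧ := PowerSeries.expand N hN0 (cz O U0) with hU
  have hUc : PowerSeries.constantCoeff U = 1 := by
    rw [hU, PowerSeries.constantCoeff_expand]
    exact prod_const_cz O hU0
  have hEc : PowerSeries.constantCoeff (PowerSeries.expand N hN0 (cz O E4z) ^ 3) = 1 := by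
    rw [map_pow, PowerSeries.constantCoeff_expand, prod_const_cz O E4z_const, one_pow]
  have hDe : PowerSeries.expand N hN0 (cz O Dz) = PowerSeries.X ^ N * U := by
    rw [hD, map_mul, map_mul, hU]
    congr 1
    simp [cz]
  have hL : ∏ v ∈ V, Fz N ζ v = PowerSeries.X ^ (N * (N ^ 2 * V.card)) *
      (PowerSeries.C (∏ v ∈ V, κ v ^ M) * ∏ v ∈ V, Y v ^ M) := by
    rw [← prod_exp N, ← Finset.prod_pow_eq_pow_sum, map_prod, ← Finset.prod_mul_distrib,
      ← Finset.prod_mul_distrib]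
    refine Finset.prod_congr rfl fun v _ => ?_
    rw [Fz, hth, mul_pow, map_pow]
  rw [hL, hDe] at hc
  have hP := prod_desc hN0 _ U hEc hUc c (N ^ 2 * V.card) 1 _ (by simp) (by rw [one_mul]; exact hc)
  have hc0 : ∏ v ∈ V, κ v ^ M = c 0 := by
    have := congrArg PowerSeries.constantCoeff hP
    simpa [hY1, hUc] using this
  have hne : (PowerSeries.C (∏ v ∈ V, κ v ^ M) : O⟦X⟧) ≠ 0 := by
    intro h
    have h1 := congrArg PowerSeries.constantCoeff h
    rw [PowerSeries.constantCoeff_C, map_zero] at h1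
    exact Finset.prod_ne_zero_iff.2 (fun v hv => pow_ne_zero _ (hκ v hv)) h1
  rw [one_mul, ← hc0] at hP
  have hQ := congrArg (fun F => up p (PowerSeries.map ψ F)) (mul_left_cancel₀ hne hP)
  simp only [map_prod, map_pow] at hQ
  have hUm : PowerSeries.map ψ U = cz (ZMod p) U0 ^ N := by
    rw [hU, PowerSeries.map_expand, prod_map_cz, hex]
  have hDl : Dl p = xx p * up p (cz (ZMod p) U0) := by
    rw [Dl, hD, map_mul, map_mul, xx]
    congr 2
    simp [cz]
  have hfin : ∏ v ∈ V, ((if v.1.val = 0 then kap p ^ N ^ 3 else zv p N v.1.val) * Dl p ^ N ^ 3) =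
      1 * (Dl p ^ N ^ 3) ^ V.card := by
    rw [← Finset.prod_congr rfl fun v _ => hY2 v, Finset.prod_mul_distrib,
      Finset.prod_pow_eq_pow_sum, prod_exp N, hQ, hUm, map_pow, hDl]
    ring
  rw [Finset.prod_mul_distrib, Finset.prod_const] at hfin
  exact mul_right_cancel₀ (pow_ne_zero _ (pow_ne_zero _ (Dl_ne p))) hfin

/-- The product of the modular units. -/
theorem prod_id (p : ℕ) [Fact p.Prime] {n : ℕ} (hn : 0 < n) :
    (∏ a ∈ Finset.Ico 1 (p ^ n), zv p (p ^ n) a) ^ p ^ n *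
      kap p ^ ((p ^ n) ^ 3 * (p ^ n - 1)) = 1 := by
  have hp : p ≠ 0 := (Fact.out : p.Prime).ne_zero
  obtain ⟨N, hN⟩ : ∃ N, N = p ^ n := ⟨_, rfl⟩
  rw [← hN]
  have hN0 : N ≠ 0 := hN ▸ pow_ne_zero n hp
  haveI : NeZero N := ⟨hN0⟩
  have h1 := prod_main p hn hN
  have h2 := Finset.mul_prod_erase (Finset.univ : Finset (ZMod N × ZMod N))
    (fun v => if v.1.val = 0 then kap p ^ N ^ 3 else zv p N v.1.val) (Finset.mem_univ 0)
  rw [h1, Fintype.prod_prod_type] at h2
  simp only [Finset.prod_const, Finset.card_univ, ZMod.card, Prod.fst_zero, ZMod.val_zero,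
    if_true, mul_one] at h2
  rw [Finset.prod_pow, prod_zmod N fun a => if a = 0 then kap p ^ N ^ 3 else zv p N a,
    Finset.range_eq_Ico, Finset.prod_eq_prod_Ico_succ_bot (Nat.pos_of_ne_zero hN0), if_pos rfl,
    Finset.prod_congr rfl (g := fun a => zv p N a)
      (fun a ha => if_neg (by have := (Finset.mem_Ico.1 ha).1; omega))] at h2
  have hk : kap p ^ N ^ 3 ≠ 0 := pow_ne_zero _ (prod_kap_ne p)
  apply mul_left_cancel₀ hk
  obtain ⟨k, rfl⟩ := Nat.exists_eq_succ_of_ne_zero hN0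
  rw [mul_one]
  conv_rhs => rw [h2]
  rw [Nat.succ_sub_one, pow_mul, mul_pow, pow_succ (kap p ^ k.succ ^ 3) k]
  simp only [zero_add]
  ring

end Pool.Agent.Lib.MP_8f9d9d_nt.H53
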