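import Pool.Agent.Lib.MP_8f9d9d_nt.H53ThRep

set_option autoImplicit false

open scoped PowerSeries UpperHalfPlane IntermediateField Real

namespace Pool.Agent.Lib.MP_8f9d9d_nt.H53

lemma somos_mul {f g : ℤ → ℂ} {a b : ℂ} (h1 : HasSum f a) (h2 : HasSum g b) :
    HasSum (fun p : ℤ × ℤ => f p.1 * g p.2) (a * b) :=
  h1.mul h2 (summable_mul_of_summable_norm h1.summable.norm h2.summable.norm)

lemma somos_congr {f g : ℤ × ℤ → ℂ} {a : ℂ} (h : ∀ p, g p = f p) (h1 : HasSum f a) :
    HasSum g a := (funext h : g = f) ▸ h1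

lemma somos_hs (x y : ℂ) {τ : ℂ} (hτ : 0 < τ.im) :
    HasSum (fun p : ℤ × ℤ => jacobiTheta₂_term p.1 x τ * jacobiTheta₂_term p.2 y τ)
      (jacobiTheta₂ x τ * jacobiTheta₂ y τ) :=
  somos_mul (f := fun n => jacobiTheta₂_term n x τ) (g := fun n => jacobiTheta₂_term n y τ)
    (hasSum_jacobiTheta₂_term x hτ) (hasSum_jacobiTheta₂_term y hτ)

/-- Splitting pairs of integers by the parity of their sum. -/
def somos_equiv : (ℤ × ℤ) ⊕ (ℤ × ℤ) ≃ ℤ × ℤ where
  toFun := Sum.elim (fun p => (p.1 + p.2, p.1 - p.2)) fun p => (p.1 + p.2 + 1, p.1 - p.2)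
  invFun p := if (p.1 + p.2) % 2 = 0 then Sum.inl ((p.1 + p.2) / 2, (p.1 - p.2) / 2)
    else Sum.inr ((p.1 + p.2) / 2, (p.1 - p.2) / 2)
  left_inv := by
    rintro (⟨a, b⟩ | ⟨a, b⟩)
    · simp only [Sum.elim_inl]
      rw [if_pos (by omega)]
      congr 2 <;> omega
    · simp only [Sum.elim_inr]
      rw [if_neg (by omega)]
      congr 2 <;> omega
  right_inv := by
    rintro ⟨a, b⟩
    by_cases h : (a + b) % 2 = 0
    · simp only [if_pos h, Sum.elim_inl]
      congr 1 <;> omega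
    · simp only [if_neg h, Sum.elim_inr]
      congr 1 <;> omega

lemma somos_split (x y : ℂ) {τ : ℂ} (hτ : 0 < τ.im) :
    jacobiTheta₂ (x + y) τ * jacobiTheta₂ (x - y) τ =
      jacobiTheta₂ (2 * x) (2 * τ) * jacobiTheta₂ (2 * y) (2 * τ) +
        Complex.exp (2 * π * Complex.I * (x + y) + π * Complex.I * τ) *
          (jacobiTheta₂ (2 * x + τ) (2 * τ) * jacobiTheta₂ (2 * y + τ) (2 * τ)) := by
  have hτ2 : 0 < (2 * τ).im := by
    simp only [Complex.mul_im, Complex.re_ofNat, Complex.im_ofNat, zero_mul, add_zero]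
    linarith
  have h0 := somos_equiv.hasSum_iff.2 (somos_hs (x + y) (x - y) hτ)
  refine h0.unique (HasSum.sum ?_ ?_)
  · refine (somos_hs (2 * x) (2 * y) hτ2) |> somos_congr ?_
    intro p
    simp only [Function.comp, somos_equiv, Equiv.coe_fn_mk, Sum.elim_inl, jacobiTheta₂_term,
      ← Complex.exp_add]
    congr 1
    push_cast
    ring
  · refine ((somos_hs (2 * x + τ) (2 * y + τ) hτ2).mul_left
      (Complex.exp (2 * π * Complex.I * (x + y) + π * Complex.I * τ))) |> somos_congr ?_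
    intro p
    simp only [Function.comp, somos_equiv, Equiv.coe_fn_mk, Sum.elim_inr, jacobiTheta₂_term,
      ← Complex.exp_add]
    congr 1
    push_cast
    ring

/-- The exponential factor. -/
noncomputable def somos_E (y : ℂ) : ℂ := Complex.exp (2 * π * Complex.I * y)

/-- The even part. -/
noncomputable def somos_P (τ y : ℂ) : ℂ := jacobiTheta₂ (2 * y) (2 * τ)

/-- The odd part. -/
noncomputable def somos_Q (τ y : ℂ) : ℂ := somos_E y * jacobiTheta₂ (2 * y + τ) (2 * τ)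

/-- The shifted theta function. -/
noncomputable def somos_T (τ y : ℂ) : ℂ := jacobiTheta₂ (y - τ / 2 - 1 / 2) τ

lemma somos_prod (x y : ℂ) {τ : ℂ} (hτ : 0 < τ.im) :
    somos_T τ (x + y) * somos_T τ (x - y) =
      somos_E x * (somos_Q τ x * somos_P τ y - somos_P τ x * somos_Q τ y) := by
  have h := somos_split (x - τ / 2 - 1 / 2) y hτ
  have e1 : x - τ / 2 - 1 / 2 + y = x + y - τ / 2 - 1 / 2 := by ring
  have e2 : x - τ / 2 - 1 / 2 - y = x - y - τ / 2 - 1 / 2 := by ring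
  have e3 : jacobiTheta₂ (2 * (x - τ / 2 - 1 / 2) + τ) (2 * τ) = jacobiTheta₂ (2 * x) (2 * τ) := by
    rw [← jacobiTheta₂_add_left]
    congr 1
    ring
  have e4 : jacobiTheta₂ (2 * (x - τ / 2 - 1 / 2)) (2 * τ) =
      somos_E x * (somos_E x * jacobiTheta₂ (2 * x + τ) (2 * τ)) := by
    have h1 := jacobiTheta₂_add_left' (2 * x - τ) (2 * τ)
    have h2 : 2 * x - τ + 2 * τ = 2 * x + τ := by ring
    rw [h2] at h1
    rw [h1, ← jacobiTheta₂_add_left, somos_E, ← mul_assoc, ← mul_assoc, ← Complex.exp_add,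
      ← Complex.exp_add]
    have h3 : 2 * (π : ℂ) * Complex.I * x + 2 * π * Complex.I * x +
        -π * Complex.I * (2 * τ + 2 * (2 * x - τ)) = 0 := by ring
    rw [h3, Complex.exp_zero, one_mul]
    congr 1
    ring
  have e5 : Complex.exp (2 * π * Complex.I * (x - τ / 2 - 1 / 2 + y) + π * Complex.I * τ) =
      -(somos_E x * somos_E y) := by
    have h3 : 2 * (π : ℂ) * Complex.I * (x - τ / 2 - 1 / 2 + y) + π * Complex.I * τ =
        2 * π * Complex.I * x + 2 * π * Complex.I * y - π * Complex.I := by ring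
    rw [h3, Complex.exp_sub_pi_mul_I, Complex.exp_add, somos_E, somos_E]
  rw [e3, e4, e5, e1, e2] at h
  unfold somos_T somos_Q somos_P
  rw [h]
  ring

lemma somos_an (A w : ℂ) {τ : ℂ} (hτ : 0 < τ.im) :
    somos_E w * somos_T τ (A + 2 * w) * somos_T τ (A - 2 * w) * somos_T τ w ^ 2 =
      somos_T τ (A + w) * somos_T τ (A - w) * somos_T τ (2 * w) ^ 2 -
        somos_T τ (3 * w) * somos_T τ w * somos_T τ A ^ 2 := by
  have h1 := somos_prod A (2 * w) hτ
  have h2 := somos_prod w 0 hτ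
  have h3 := somos_prod A w hτ
  have h4 := somos_prod (2 * w) 0 hτ
  have h5 := somos_prod (2 * w) w hτ
  have h6 := somos_prod A 0 hτ
  rw [add_zero, sub_zero, ← sq] at h2 h4 h6
  rw [show 2 * w + w = 3 * w by ring, show 2 * w - w = w by ring] at h5
  have h7 : somos_E (2 * w) = somos_E w * somos_E w := by
    unfold somos_E
    rw [← Complex.exp_add]
    congr 1
    ring
  rw [mul_assoc (somos_E w), h1, h2, h3, h4, h5, h6, h7]
  ring

lemma somos_rep {N a : ℕ} (haN : a < N) :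
    Rep N (fun τ => somos_T τ (a * ((τ : ℂ) / N))) (th N a (-1 : ℂˣ)) := by
  have h := rep_th haN (-1 / 2) (-1 : ℂˣ) (by
    have e : 2 * (π : ℂ) * Complex.I * (-1 / 2) = -(π * Complex.I) := by ring
    rw [e, Complex.exp_neg, Complex.exp_pi_mul_I]
    simp)
  convert h using 2 with τ
  unfold somos_T
  congr 1
  ring

lemma somos_C {N a : ℕ} (h : a + 4 < N) :
    PowerSeries.X * th N (a + 4) (-1 : ℂˣ) * th N a (-1) * th N 1 (-1) ^ 2 =
      th N (a + 3) (-1) * th N (a + 1) (-1) * th N 2 (-1) ^ 2 -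
        th N 3 (-1) * th N 1 (-1) * th N (a + 2) (-1) ^ 2 := by
  have hN : 0 < N := by omega
  have hL := ((((rep_X_pow N 1).mul hN (somos_rep (a := a + 4) h)).mul hN
    (somos_rep (a := a) (by omega))).mul hN ((somos_rep (a := 1) (by omega)).pow hN 2))
  have hR := ((((somos_rep (N := N) (a := a + 3) (by omega)).mul hN
    (somos_rep (a := a + 1) (by omega))).mul hN ((somos_rep (a := 2) (by omega)).pow hN 2)).sub
    (((somos_rep (a := 3) (by omega)).mul hN (somos_rep (a := 1) (by omega))).mul hN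
      ((somos_rep (a := a + 2) (by omega)).pow hN 2)))
  rw [pow_one] at hL
  refine Rep.unique hN hL ?_
  convert hR using 1
  funext τ
  have key := somos_an (((a : ℂ) + 2) * ((τ : ℂ) / N)) ((τ : ℂ) / N) (τ := τ) τ.2
  have eq : Function.Periodic.qParam (N : ℝ) (τ : ℂ) ^ 1 = somos_E ((τ : ℂ) / N) := by
    rw [pow_one, Function.Periodic.qParam, somos_E]
    congr 1
    push_cast
    ring
  rw [eq]
  push_cast
  have e1 : ((a : ℂ) + 2) * ((τ : ℂ) / N) + 2 * ((τ : ℂ) / N) = (a + 4) * ((τ : ℂ) / N) := by ring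
  have e2 : ((a : ℂ) + 2) * ((τ : ℂ) / N) - 2 * ((τ : ℂ) / N) = a * ((τ : ℂ) / N) := by ring
  have e3 : ((a : ℂ) + 2) * ((τ : ℂ) / N) + (τ : ℂ) / N = (a + 3) * ((τ : ℂ) / N) := by ring
  have e4 : ((a : ℂ) + 2) * ((τ : ℂ) / N) - (τ : ℂ) / N = (a + 1) * ((τ : ℂ) / N) := by ring
  rw [e1, e2, e3, e4] at key
  rw [one_mul]
  exact key

/-- The three-term relation between theta series. -/
theorem somos (R : Type*) [CommRing R] {N a : ℕ} (h : a + 4 < N) :
    PowerSeries.X * th N (a + 4) (-1 : Rˣ) * th N a (-1) * th N 1 (-1) ^ 2 =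
      th N (a + 3) (-1) * th N (a + 1) (-1) * th N 2 (-1) ^ 2 -
        th N 3 (-1) * th N 1 (-1) * th N (a + 2) (-1) ^ 2 := by
  have hm : ∀ b : ℕ,
      PowerSeries.map (Int.castRingHom R) (th N b (-1 : ℤˣ)) = th N b (-1 : Rˣ) := by
    intro b
    rw [map_th]
    congr 1
    ext
    simp
  have hc : ∀ b : ℕ,
      PowerSeries.map (Int.castRingHom ℂ) (th N b (-1 : ℤˣ)) = th N b (-1 : ℂˣ) := by
    intro b
    rw [map_th]
    congr 1
    ext
    simp
  have hZ : PowerSeries.X * th N (a + 4) (-1 : ℤˣ) * th N a (-1) * th N 1 (-1) ^ 2 =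
      th N (a + 3) (-1) * th N (a + 1) (-1) * th N 2 (-1) ^ 2 -
        th N 3 (-1) * th N 1 (-1) * th N (a + 2) (-1) ^ 2 := by
    apply PowerSeries.map_injective (Int.castRingHom ℂ) (RingHom.injective_int _)
    simp only [map_mul, map_sub, map_pow, PowerSeries.map_X, hc]
    exact somos_C h
  have h2 := congrArg (PowerSeries.map (Int.castRingHom R)) hZ
  simpa only [map_mul, map_sub, map_pow, PowerSeries.map_X, hm] using h2

end Pool.Agent.Lib.MP_8f9d9d_nt.H53
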