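import Pool.Agent.Lib.MP_8f9d9d_nt.H53Defs

set_option autoImplicit false

open scoped PowerSeries UpperHalfPlane IntermediateField Real

namespace Pool.Agent.Lib.MP_8f9d9d_nt.H53

theorem spec_place (F : Type) [Field F] [Finite F] {L : Type} [Field L] [Algebra F L]
    (A : Subalgebra F L) (hA : A.FG) : ∃ (k Ω : Type) (_ : Field k) (_ : Finite k) (_ : Field Ω)
      (_ : Algebra k Ω) (_ : Algebra.IsIntegral k Ω) (φ : integralClosure A L →+* Ω),
      ∀ a : A, φ (algebraMap A _ a) ∈ Set.range (algebraMap k Ω) := by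
  obtain ⟨m, hm⟩ := Ideal.exists_maximal (integralClosure A L)
  have h1 := Ideal.isMaximal_comap_of_isIntegral_of_isMaximal (R := A) m
  have h2 : Algebra.FiniteType F A := (Subalgebra.fg_iff_finiteType A).1 hA
  let _ := Ideal.Quotient.field m
  let _ := Ideal.Quotient.field (m.comap (algebraMap A (integralClosure A L)))
  have h3 := finite_of_finite_type_of_isJacobsonRing F
    (A ⧸ m.comap (algebraMap A (integralClosure A L)))
  exact ⟨A ⧸ m.comap (algebraMap A (integralClosure A L)), integralClosure A L ⧸ m, inferInstance,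
    Module.finite_of_finite F, inferInstance, inferInstance, Algebra.IsIntegral.quotient,
    Ideal.Quotient.mk m, fun a => ⟨Ideal.Quotient.mk _ a, rfl⟩⟩

theorem spec_fin (k : Type) {Ω : Type} [Field k] [Finite k] [Field Ω] [Algebra k Ω]
    [Algebra.IsIntegral k Ω] {U : Set Ω} (hU : U.Finite) :
    ∃ F : Subfield Ω, (F : Set Ω).Finite ∧ U ⊆ F := by
  have h0 : Finite U := hU
  have h1 := IntermediateField.finiteDimensional_adjoin (K := k) (S := U)
    fun x _ => Algebra.IsIntegral.isIntegral x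
  have h2 : Finite (IntermediateField.adjoin k U) := Module.finite_of_finite k
  exact ⟨(IntermediateField.adjoin k U).toSubfield, h2, IntermediateField.subset_adjoin k U⟩

theorem spec_frob {Ω : Type} [Field Ω] (p : ℕ) [Fact p.Prime] [CharP Ω p] (F : Subfield Ω)
    (hF : (F : Set Ω).Finite) (n : ℕ) {x : Ω} (h : x ^ p ^ n ∈ F) : x ∈ F := by
  have h0 : Finite F := hF
  have h1 : ∀ a b : Ω, a ^ p ^ n = b ^ p ^ n → a = b := fun a b e =>
    (iterateFrobenius Ω p n).injective e
  have h2 : Function.Injective fun y : F => y ^ p ^ n := fun a b e =>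
    Subtype.ext (h1 _ _ (congrArg Subtype.val e))
  obtain ⟨y, hy⟩ := Finite.injective_iff_surjective.1 h2 ⟨_, h⟩
  exact h1 _ _ (congrArg Subtype.val hy) ▸ y.2

theorem spec_bound (k : Type) {Ω : Type} [Field k] [Finite k] [Field Ω] [Algebra k Ω]
    [Algebra.IsIntegral k Ω] (p : ℕ) [Fact p.Prime] [CharP Ω p] (D : ℕ) :
    ∃ F2 F1 : Subfield Ω, (F1 : Set Ω).Finite ∧
      (∀ f : Polynomial Ω, f ≠ 0 → f.natDegree ≤ D →
        (∀ i, f.coeff i ∈ Set.range (algebraMap k Ω)) → ∀ x, f.eval x = 0 → x ∈ F2) ∧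
      ∀ (n : ℕ) (x : Ω), x ^ (24 * (p ^ n) ^ 2) ∈ F2 → x ∈ F1 := by
  classical
  obtain ⟨F2, a1, a2⟩ := spec_fin k (Polynomial.bUnion_roots_finite (RingHom.id Ω) D
    (Set.finite_range (algebraMap k Ω)))
  obtain ⟨F1, b1, b2⟩ := spec_fin k (a1.biUnion
    fun c _ => (Polynomial.nthRoots 24 c).toFinset.finite_toSet)
  refine ⟨F2, F1, b1, fun f h0 h1 h2 x hx => a2 ?_, fun n x hx => b2 ?_⟩
  · simp only [Set.mem_iUnion]
    refine ⟨f, ⟨h1, h2⟩, ?_⟩
    simpa [h0] using hx
  · rw [pow_mul, ← pow_mul p] at hx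
    simp only [Set.mem_iUnion]
    exact ⟨x ^ 24, spec_frob p F2 a1 _ hx, by simp⟩

theorem spec_rec {Ω : Type} [Field Ω] (F : Subfield Ω) (hF : (F : Set Ω).Finite) {N : ℕ}
    (hN : Nat.card F ^ 2 + 5 ≤ N) (W : ℕ → Ω) {Γ : Ω} (hΓ : Γ ∈ F) (h0 : W 0 = 1) (h1 : W 1 ∈ F)
    (hΓ0 : Γ ≠ 0) (hW : ∀ a, a + 4 ≤ N → W a ≠ 0)
    (hr : ∀ a, a + 5 < N → Γ * W (a + 2) * W a * W (a + 1) ^ 2 = W (a + 1) - 1) : False := by
  have hf : Finite F := hF
  have mem : ∀ a, a + 5 ≤ N → W a ∈ F ∧ W (a + 1) ∈ F := by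
    intro a
    induction a with
    | zero => exact fun _ => ⟨h0 ▸ F.one_mem, h1⟩
    | succ a ih =>
      intro ha
      obtain ⟨m1, m2⟩ := ih (by omega)
      refine ⟨m2, ?_⟩
      have n1 := hW a (by omega)
      have n2 := hW (a + 1) (by omega)
      have e : W (a + 1 + 1) = (W (a + 1) - 1) / (Γ * W a * W (a + 1) ^ 2) := by
        rw [← hr a (by omega)]
        field_simp
      rw [e]
      exact div_mem (sub_mem m2 F.one_mem) (mul_mem (mul_mem hΓ m1) (pow_mem m2 2))
  have key : ∀ j d, j + (d + 1) + 5 ≤ N → W j = W (j + d + 1) → W (j + 1) = W (j + d + 2) →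
      False := by
    intro j
    induction j with
    | zero =>
      intro d hd e1 _
      have h2 := hr d (by omega)
      rw [zero_add] at e1
      rw [← e1, h0, sub_self] at h2
      have n1 := hW d (by omega)
      have n2 := hW (d + 2) (by omega)
      simp [hΓ0, n1, n2] at h2
    | succ j ih =>
      intro d hd e1 e2
      have h2 := hr j (by omega)
      have h3 := hr (j + d + 1) (by omega)
      rw [show j + 1 + d + 1 = j + d + 1 + 1 by ring] at e1
      rw [show j + 1 + d + 2 = j + d + 1 + 2 by ring] at e2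
      rw [← e1, ← e2, ← h2] at h3
      have n1 := hW (j + 1) (by omega)
      have n2 := hW (j + 2) (by omega)
      refine ih d (by omega) ?_ e1
      exact (mul_left_cancel₀ (mul_ne_zero hΓ0 n2) (mul_right_cancel₀ (pow_ne_zero 2 n1) h3)).symm
  obtain ⟨i, j, e, hij⟩ := Function.not_injective_iff.1 fun h => absurd
    (Nat.card_le_card_of_injective (fun i : Fin (Nat.card F ^ 2 + 1) =>
      ((⟨W i, (mem i (by omega)).1⟩, ⟨W (i + 1), (mem i (by omega)).2⟩) : F × F)) h) (by simp [sq])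
  have e1 : W i = W j := congrArg (fun x : F × F => (x.1 : Ω)) e
  have e2 : W (i + 1) = W (j + 1) := congrArg (fun x : F × F => (x.2 : Ω)) e
  have hi := i.2
  have hj := j.2
  rcases lt_or_gt_of_ne (Fin.val_ne_of_ne hij) with h | h
  · obtain ⟨d, hd⟩ := Nat.exists_eq_add_of_lt h
    rw [hd] at e1 e2
    exact key i d (by omega) e1 e2
  · obtain ⟨d, hd⟩ := Nat.exists_eq_add_of_lt h
    rw [hd] at e1 e2
    exact key j d (by omega) e1.symm e2.symm

theorem spec_deg {F L : Type} [Field F] [Field L] [Algebra F L] {J z : L}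
    (hJ : Transcendental F J) {D : ℕ} (h : Dep F J z D) :
    (minpoly (Algebra.adjoin F {J}) z).natDegree ≤ D := by
  let e := Polynomial.algEquivOfTranscendental F J hJ
  have h0 : IsIntegrallyClosed (Algebra.adjoin F {J}) := IsIntegrallyClosed.of_equiv e.toRingEquiv
  have h1 : LinearIndependent F fun i : ℕ => e (Polynomial.X ^ i) := by
    have := (Polynomial.basisMonomials F).linearIndependent.map' e.toLinearEquiv.toLinearMap
      e.toLinearEquiv.ker
    simpa [Function.comp_def, Polynomial.monomial_one_right_eq_X_pow] using this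
  have h2 : ¬ LinearIndependent (Algebra.adjoin F {J}) fun j : Fin (D + 1) => z ^ (j : ℕ) :=
    fun h2 => h (by
      have := linearIndependent_smul h1 h2
      simpa [e, Subalgebra.smul_def] using this)
  obtain ⟨g, g1, i, g2⟩ := Fintype.not_linearIndependent_iff.1 h2
  have h3 : ∀ j : Fin (D + 1), (∑ l : Fin (D + 1), Polynomial.monomial (l : ℕ) (g l)).coeff j =
      g j := fun j => by
    rw [Polynomial.finsetSum_coeff, Finset.sum_eq_single j]
    · simp
    · intro l _ hl
      exact Polynomial.coeff_monomial_of_ne _ (Fin.val_ne_of_ne hl.symm)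
    · simp
  have h4 : (∑ l : Fin (D + 1), Polynomial.monomial (l : ℕ) (g l)) ≠ 0 := fun h4 =>
    g2 (by rw [← h3 i, h4, Polynomial.coeff_zero])
  refine (Polynomial.natDegree_le_natDegree
    (minpoly.IsIntegrallyClosed.degree_le_of_ne_zero h4 ?_)).trans ?_
  · rw [← g1, map_sum]
    exact Finset.sum_congr rfl fun l _ => by rw [Polynomial.aeval_monomial, Algebra.smul_def]
  · exact Polynomial.natDegree_sum_le_of_forall_le _ _ fun l _ =>
      (Polynomial.natDegree_monomial_le _).trans (Nat.le_of_lt_succ l.2)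

theorem spec_root {A L : Type} [CommRing A] [Field L] [Algebra A L] {x : L} {M : ℕ} (hM : 0 < M)
    {u w : integralClosure A L} (hu : IsUnit u) (hw : IsUnit w) (h : x ^ M * u = w) :
    ∃ y : integralClosure A L, (y : L) = x ∧ IsUnit y ∧ y ^ M * u = w := by
  obtain ⟨u', hu'⟩ := hu.exists_right_inv
  have h1 : x ^ M = (w * u' : integralClosure A L) := by
    rw [MulMemClass.coe_mul, ← h, mul_assoc, ← MulMemClass.coe_mul, hu', OneMemClass.coe_one,
      mul_one]
  have h2 : IsIntegral A x := IsIntegral.of_pow hM (h1 ▸ (w * u').2)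
  have h3 : (⟨x, h2⟩ : integralClosure A L) ^ M * u = w := Subtype.ext h
  exact ⟨⟨x, h2⟩, rfl, (isUnit_pow_iff hM.ne').1 (isUnit_of_mul_isUnit_left (h3 ▸ hw)), h3⟩

/-- Specialisation at a finite place: the degrees cannot stay bounded. -/
theorem spec (p : ℕ) [Fact p.Prime] {L : Type} [Field L] [Algebra (ZMod p) L] (J κ : L)
    (hJ : Transcendental (ZMod p) J) (D : ℕ) :
    ∃ N0 : ℕ, ∀ n N : ℕ, N = p ^ n → N0 ≤ N → ∀ (z v : ℕ → L) (γ : L) (E : ℕ),
      (∀ a, a < N → IsIntegral (Algebra.adjoin (ZMod p) {J}) (z a)) →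
      (∏ a ∈ Finset.Ico 1 N, z a) ^ N * κ ^ E = 1 →
      (∀ a, a + 4 ≤ N → v (a + 2) ^ (24 * N ^ 2) * (z (a + 2) ^ 2 * z 3 * z 1) =
        z (a + 3) * z (a + 1) * z 2 ^ 2) →
      γ ^ (24 * N ^ 2) * z 2 ^ 8 = z 1 ^ 5 * z 3 ^ 3 →
      v 1 = 0 → v 2 = 1 →
      (∀ a, a + 4 < N → γ * v (a + 3) * v (a + 1) * v (a + 2) ^ 2 = v (a + 2) - 1) →
      ¬ ∀ m, 1 ≤ m → m ≤ 4 → Dep (ZMod p) J (z m) D := by
  classical
  obtain ⟨A, hA⟩ : ∃ A, A = Algebra.adjoin (ZMod p) {J, κ} := ⟨_, rfl⟩
  have le : Algebra.adjoin (ZMod p) {J} ≤ A := hA ▸ Algebra.adjoin_mono (by simp)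
  have hκ : κ ∈ A := hA ▸ Algebra.subset_adjoin (by simp)
  obtain ⟨k, Ω, _, _, _, _, _, φ, hφ⟩ := spec_place (ZMod p) A
    (hA ▸ ⟨{J, κ}, by simp⟩)
  have hc : CharP Ω p := charP_of_injective_ringHom
    (φ.comp ((algebraMap A _).comp (algebraMap (ZMod p) A))).injective p
  obtain ⟨F2, F1, f1, f2, f3⟩ := spec_bound k (Ω := Ω) p D
  refine ⟨Nat.card F1 ^ 2 + 5, fun n N hn hN z v γ E hz hp hv hγ v1 v2 hr hd => ?_⟩
  let ι : Algebra.adjoin (ZMod p) {J} →+* integralClosure A L :=
    (algebraMap A _).comp (Subalgebra.inclusion le).toRingHom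
  have hι : (algebraMap (integralClosure A L) L).comp ι = algebraMap _ L := rfl
  have hz' : ∀ a, a < N → IsIntegral A (z a) := fun a ha =>
    IsIntegral.map_of_comp_eq (Subalgebra.inclusion le).toRingHom (RingHom.id L) rfl (hz a ha)
  obtain ⟨y, hy⟩ : ∃ y : ℕ → integralClosure A L, ∀ a, a < N → (y a : L) = z a :=
    ⟨fun a => if h : a < N then ⟨z a, hz' a h⟩ else 0, fun a h => by simp [h]⟩
  have N0 : 0 < 24 * N ^ 2 := by have : 0 < N := by omega
                                 positivity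
  have hu : ∀ a, 1 ≤ a → a < N → IsUnit (y a) := fun a h1 h2 => by
    have e : (∏ a ∈ Finset.Ico 1 N, y a) ^ N * algebraMap A _ ⟨κ, hκ⟩ ^ E = 1 := by
      refine Subtype.ext ?_
      rw [OneMemClass.coe_one, ← hp, ← Finset.prod_congr rfl
        fun a ha => hy a (Finset.mem_Ico.1 ha).2]
      simp
    exact isUnit_of_dvd_one (e ▸ ((Finset.dvd_prod_of_mem y (Finset.mem_Ico.2 ⟨h1, h2⟩)).trans
      (dvd_pow_self _ (by omega))).mul_right _)
  have u1 := hu 1 le_rfl (by omega)
  have u2 := hu 2 (by omega) (by omega)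
  have u3 := hu 3 (by omega) (by omega)
  have hw : ∀ a, a + 4 ≤ N → ∃ w : integralClosure A L, (w : L) = v (a + 2) ∧ IsUnit w ∧
      w ^ (24 * N ^ 2) * (y (a + 2) ^ 2 * y 3 * y 1) = y (a + 3) * y (a + 1) * y 2 ^ 2 :=
    fun a ha => spec_root N0 ((((hu _ (by omega) (by omega)).pow 2).mul u3).mul u1)
      (((hu _ (by omega) (by omega)).mul (hu _ (by omega) (by omega))).mul (u2.pow 2)) (by
        push_cast
        rw [hy _ (by omega), hy _ (by omega), hy _ (by omega), hy _ (by omega), hy _ (by omega),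
          hy _ (by omega)]
        exact hv a ha)
  choose! w w1 w2 w3 using hw
  obtain ⟨g, g1, g2, g3⟩ := spec_root (x := γ) N0 (u2.pow 8) ((u1.pow 5).mul (u3.pow 3)) (by
    push_cast
    rw [hy _ (by omega), hy _ (by omega), hy _ (by omega)]
    exact hγ)
  have mem : ∀ m, 1 ≤ m → m ≤ 4 → φ (y m) ∈ F2 := fun m h1 h2 => by
    have m1 := minpoly.monic (hz m (by omega))
    refine f2 ((minpoly (Algebra.adjoin (ZMod p) {J}) (z m)).map (φ.comp ι)) (m1.map _).ne_zero
      (Polynomial.natDegree_map_le.trans (spec_deg hJ (hd m h1 h2))) (fun i => ?_) _ ?_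
    · rw [Polynomial.coeff_map]
      exact hφ _
    · rw [Polynomial.eval_map, ← Polynomial.hom_eval₂]
      refine (congrArg φ (Subtype.ext ?_)).trans (map_zero φ)
      have := Polynomial.hom_eval₂ (minpoly (Algebra.adjoin (ZMod p) {J}) (z m)) ι
        (algebraMap (integralClosure A L) L) (y m)
      rw [hι] at this
      refine this.trans ?_
      rw [show algebraMap (integralClosure A L) L (y m) = z m from hy m (by omega)]
      exact minpoly.aeval _ _
  have m1 := mem 1 (by omega) (by omega)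
  have m2 := mem 2 (by omega) (by omega)
  have m3 := mem 3 (by omega) (by omega)
  have m4 := mem 4 (by omega) (by omega)
  have n1 := (u1.map φ).ne_zero
  have n2 := (u2.map φ).ne_zero
  have n3 := (u3.map φ).ne_zero
  refine spec_rec F1 f1 hN (fun a => φ (w a)) (Γ := φ g) (f3 n _ ?_) ?_ (f3 n _ ?_)
    (g2.map φ).ne_zero (fun a ha => ((w2 a ha).map φ).ne_zero) fun a ha => ?_
  · have e := congrArg φ g3
    simp only [map_mul, map_pow] at e
    rw [← hn, eq_div_of_mul_eq (pow_ne_zero 8 n2) e]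
    exact div_mem (mul_mem (pow_mem m1 5) (pow_mem m3 3)) (pow_mem m2 8)
  · have e : w 0 = 1 := Subtype.ext ((w1 0 (by omega)).trans v2)
    simp [e]
  · have e := congrArg φ (w3 1 (by omega))
    simp only [map_mul, map_pow] at e
    rw [← hn, eq_div_of_mul_eq (mul_ne_zero (mul_ne_zero (pow_ne_zero 2 n3) n3) n1) e]
    exact div_mem (mul_mem (mul_mem m4 m2) (pow_mem m2 2))
      (mul_mem (mul_mem (pow_mem m3 2) m3) m1)
  · have e : g * w (a + 2) * w a * w (a + 1) ^ 2 = w (a + 1) - 1 := by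
      refine Subtype.ext ?_
      push_cast
      rw [g1, w1 _ (by omega), w1 _ (by omega), w1 _ (by omega)]
      exact hr (a + 1) (by omega)
    simpa using congrArg φ e

end Pool.Agent.Lib.MP_8f9d9d_nt.H53
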