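import Pool.Agent.Lib.MP_8f9d9d_nt.H53Mono
import Pool.Agent.Lib.MP_8f9d9d_nt.H53Prod
import Pool.Agent.Lib.MP_8f9d9d_nt.H53Somos
import Pool.Agent.Lib.MP_8f9d9d_nt.H53Spec

set_option autoImplicit false

open scoped PowerSeries UpperHalfPlane IntermediateField Real

namespace Pool.Agent.Lib.MP_8f9d9d_nt.H53

variable (p : ℕ) [Fact p.Prime]

theorem ids_const {F : ℤ⟦X⟧} (h : PowerSeries.constantCoeff F = 1) :
    PowerSeries.constantCoeff (cz (ZMod p) F) = 1 := by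
  rw [cz, ← PowerSeries.coeff_zero_eq_constantCoeff_apply, PowerSeries.coeff_map,
    PowerSeries.coeff_zero_eq_constantCoeff_apply, h, map_one]

theorem ids_H : ∃ H : (ZMod p)⟦X⟧, PowerSeries.constantCoeff H = 1 ∧ xx p * Jb p = up p H := by
  obtain ⟨U, h1, h2⟩ := Dz_fac
  have hU := ids_const p h1
  obtain ⟨W, hW⟩ := (PowerSeries.isUnit_iff_constantCoeff.2 (hU ▸ isUnit_one)).exists_right_inv
  refine ⟨cz _ E4z ^ 3 * W, ?_, ?_⟩
  · have := congrArg PowerSeries.constantCoeff hW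
    rw [map_mul, hU, one_mul, map_one] at this
    rw [map_mul, map_pow, ids_const p E4z_const, this, one_pow, one_mul]
  · have h3 : Dl p = xx p * up p (cz _ U) := by
      rw [Dl, h2, map_mul, map_mul, xx, cz, PowerSeries.map_X]
    have h4 : up p (cz _ U) * up p W = 1 := by rw [← map_mul, hW, map_one]
    rw [Jb, ← mul_div_assoc, div_eq_iff (Dl_ne p), h3, map_mul, map_pow]
    linear_combination (-(xx p * up p (cz _ E4z) ^ 3)) * h4

theorem Jb_transc : Transcendental (ZMod p) (Jb p) := by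
  intro h
  obtain ⟨H, h1, h2⟩ := ids_H p
  obtain ⟨W, hW⟩ := (PowerSeries.isUnit_iff_constantCoeff.2 (h1 ▸ isUnit_one)).exists_right_inv
  have h3 : Jb p * up p (PowerSeries.X * W) = 1 := by
    rw [map_mul, ← mul_assoc, mul_comm (Jb p), ← xx, h2, ← map_mul, hW, map_one]
  have h4 : IsAlgebraic (ZMod p) (PowerSeries.X * W) := by
    have := h.inv
    rw [inv_eq_of_mul_eq_one_right h3] at this
    exact (isAlgebraic_algebraMap_iff (up_inj p)).1 this
  have h5 : PowerSeries.X * W ≠ 0 := fun e => by simp [e] at h3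
  obtain ⟨q, q1, q2⟩ := h4.exists_nonzero_coeff_and_aeval_eq_zero
    (mem_nonZeroDivisors_of_ne_zero h5)
  rw [← Polynomial.X_mul_divX_add q] at q2
  have := congrArg PowerSeries.constantCoeff q2
  simp only [map_add, map_mul, Polynomial.aeval_X, Polynomial.aeval_C, PowerSeries.constantCoeff_X,
    zero_mul, zero_add, map_zero] at this
  exact q1 (by simpa using this)

theorem ids_split {R : Type*} [CommRing R] {N : ℕ} (hN : N ≠ 0) (H : R⟦X⟧) :
    H = ∑ c ∈ Finset.range N, PowerSeries.X ^ c *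
      PowerSeries.expand N hN (PowerSeries.mk fun i => PowerSeries.coeff (N * i + c) H) := by
  ext m
  have h1 := Nat.div_add_mod m N
  have h2 := Nat.mod_lt m (Nat.pos_of_ne_zero hN)
  rw [map_sum, Finset.sum_eq_single (m % N)]
  · rw [PowerSeries.coeff_X_pow_mul', if_pos (Nat.mod_le m N),
      show m - m % N = N * (m / N) by omega, PowerSeries.coeff_expand_mul, PowerSeries.coeff_mk, h1]
  · intro c hc hne
    rw [PowerSeries.coeff_X_pow_mul']
    split_ifs with h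
    · refine PowerSeries.coeff_expand_of_not_dvd _ _ _ fun ⟨k, hk⟩ => hne ?_
      rw [show m = N * k + c by omega, Nat.mul_add_mod, Nat.mod_eq_of_lt (Finset.mem_range.1 hc)]
    · rfl
  · exact fun h => absurd (Finset.mem_range.2 h2) h

/-- Decomposition of the invariant along the basis `1, X, ..., X^(p^n - 1)`. -/
theorem Jb_dec (n : ℕ) : ∃ g : ℕ → L0 p,
    Jb p = ∑ c ∈ Finset.range (p ^ n), xx p ^ c * g c ^ p ^ n ∧ g (p ^ n - 1) ≠ 0 := by
  obtain ⟨H, h1, h2⟩ := ids_H p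
  have hN : p ^ n ≠ 0 := pow_ne_zero _ (Fact.out : p.Prime).ne_zero
  have hx := xx_ne p
  set h : ℕ → L0 p := fun c =>
    up p (PowerSeries.mk fun i => PowerSeries.coeff (p ^ n * i + c) H) with hh
  have h3 : xx p * Jb p = ∑ c ∈ Finset.range (p ^ n), xx p ^ c * h c ^ p ^ n := by
    rw [h2, ids_split hN H, map_sum]
    refine Finset.sum_congr rfl fun c _ => ?_
    rw [expand_eq_pow, map_mul, map_pow, map_pow]
    rfl
  have h0 : h 0 ≠ 0 := fun e => by
    have := congrArg (PowerSeries.coeff 0) (up_inj p (e.trans (map_zero (up p)).symm))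
    simp [h1] at this
  clear_value h
  obtain ⟨M, hM⟩ := Nat.exists_eq_succ_of_ne_zero hN
  rw [hM] at h3 ⊢
  refine ⟨fun c => if c = M then h 0 / xx p else h (c + 1), ?_, by simp [h0, hx]⟩
  apply mul_left_cancel₀ hx
  rw [h3, Finset.sum_range_succ', Finset.sum_range_succ, mul_add, Finset.mul_sum]
  congr 1
  · refine Finset.sum_congr rfl fun c hc => ?_
    simp only [if_neg (Finset.mem_range.1 hc).ne]
    ring
  · simp only [if_true, div_pow, Nat.succ_eq_add_one]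
    field_simp
    ring

theorem sv_ne {N a : ℕ} (ha : 0 < a) (haN : a < N) : sv p N a ≠ 0 :=
  div_ne_zero (mul_ne_zero (zpow_ne_zero _ (xx_ne p)) (pow_ne_zero _ (Th_ne p ha haN)))
    (pow_ne_zero _ (Dl_ne p))

theorem ids_sv (N : ℕ) : ∃ A w : L0 p, xx p ^ 12 * w = 1 ∧
    ∀ a, sv p N a = A * w ^ a * Th p N a ^ 24 := by
  have hx := xx_ne p
  refine ⟨xx p ^ (3 * N) / Dl p ^ N, (xx p ^ 12)⁻¹, mul_inv_cancel₀ (pow_ne_zero _ hx), fun a => ?_⟩
  rw [sv, zpow_sub₀ hx, show (3 * (N : ℤ)) = ((3 * N : ℕ) : ℤ) by push_cast; rfl,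
    show (12 * (a : ℤ)) = ((12 * a : ℕ) : ℤ) by push_cast; rfl, zpow_natCast, zpow_natCast,
    pow_mul (xx p) 12 a, inv_pow]
  ring

theorem fact1 {N : ℕ} (hN : 3 < N) : ∃ r : L0 p, r ≠ 0 ∧
    (xx p * r ^ N) ^ (24 * N) * zv p N 2 ^ 2 = zv p N 3 * zv p N 1 := by
  have t1 := Th_ne p (a := 1) (N := N) (by omega) (by omega)
  have t2 := Th_ne p (a := 2) (N := N) (by omega) (by omega)
  have t3 := Th_ne p (a := 3) (N := N) (by omega) hN
  obtain ⟨A, w, -, hs⟩ := ids_sv p N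
  refine ⟨Th p N 3 * Th p N 1 / Th p N 2 ^ 2, div_ne_zero (mul_ne_zero t3 t1) (pow_ne_zero _ t2), ?_⟩
  have h : (Th p N 3 * Th p N 1 / Th p N 2 ^ 2) ^ 24 * sv p N 2 ^ 2 = sv p N 3 * sv p N 1 := by
    simp only [hs]
    field_simp
  generalize Th p N 3 * Th p N 1 / Th p N 2 ^ 2 = r at h ⊢
  calc _ = (xx p ^ 120 * (r ^ 24 * sv p N 2 ^ 2) ^ N) ^ N := by rw [zv]; ring
    _ = _ := by rw [h, zv, zv]; ring

theorem fact2 (D : ℕ) : ∃ n0 : ℕ, ∀ n, n0 ≤ n →
    ¬ ∀ m, 1 ≤ m → m ≤ 4 → Dep (ZMod p) (Jb p) (zv p (p ^ n) m) D := by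
  obtain ⟨N0, h⟩ := spec p (Jb p) (kap p) (Jb_transc p) D
  refine ⟨N0 + 3, fun n hn => ?_⟩
  have hlt : n < p ^ n := Nat.lt_pow_self (Fact.out : p.Prime).one_lt
  have hm := mono p (n := n) (by omega)
  have hp := prod_id p (n := n) (by omega)
  obtain ⟨N, hN⟩ : ∃ N, N = p ^ n := ⟨_, rfl⟩
  rw [← hN] at hm hp hlt ⊢
  have t1 := Th_ne p (a := 1) (N := N) (by omega) (by omega)
  have t2 := Th_ne p (a := 2) (N := N) (by omega) (by omega)
  have t3 := Th_ne p (a := 3) (N := N) (by omega) (by omega)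
  obtain ⟨A, w, hw, hs⟩ := ids_sv p N
  refine h n N hN (by omega) (zv p N) (fun a => Th p N (a + 1) * Th p N (a - 1) / Th p N a ^ 2 /
    (Th p N 3 * Th p N 1 / Th p N 2 ^ 2)) (xx p * Th p N 1 ^ 5 * Th p N 3 ^ 3 / Th p N 2 ^ 8) _
    (fun a ha => ?_) hp (fun a ha => ?_) ?_ ?_ ?_ (fun a ha => ?_)
  · obtain ⟨q, q1, -, q2⟩ := Polynomial.lifts_and_natDegree_eq_and_monic
      (f := algebraMap (Algebra.adjoin (ZMod p) {Jb p}) (L0 p))
      (p := ∏ a ∈ Finset.range N, (Polynomial.X - Polynomial.C (zv p N a)) ^ N)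
      ((Polynomial.lifts_iff_coeff_lifts _).2 fun i => ⟨⟨_, hm i⟩, rfl⟩)
      (Polynomial.monic_prod_of_monic _ _ fun a _ => (Polynomial.monic_X_sub_C _).pow _)
    refine ⟨q, q2, ?_⟩
    rw [← Polynomial.eval_map, q1, Polynomial.eval_prod]
    exact Finset.prod_eq_zero (Finset.mem_range.2 ha) (by simp; omega)
  · have u1 := Th_ne p (a := a + 2) (N := N) (by omega) (by omega)
    have k : (Th p N (a + 3) * Th p N (a + 1) / Th p N (a + 2) ^ 2 /
        (Th p N 3 * Th p N 1 / Th p N 2 ^ 2)) ^ 24 * (sv p N (a + 2) ^ 2 * sv p N 3 * sv p N 1) =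
        sv p N (a + 3) * sv p N (a + 1) * sv p N 2 ^ 2 := by
      simp only [hs]
      field_simp
      ring
    change (Th p N (a + 3) * Th p N (a + 1) / _ / _) ^ _ * _ = _
    generalize Th p N (a + 3) * Th p N (a + 1) / Th p N (a + 2) ^ 2 /
      (Th p N 3 * Th p N 1 / Th p N 2 ^ 2) = v at k ⊢
    calc _ = (xx p ^ (24 * a ^ 2 + 96 * a + 216) *
          (v ^ 24 * (sv p N (a + 2) ^ 2 * sv p N 3 * sv p N 1)) ^ N) ^ N := by
          simp only [zv]; ring
      _ = _ := by rw [k]; simp only [zv]; ring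
  · have k : (xx p * Th p N 1 ^ 5 * Th p N 3 ^ 3 / Th p N 2 ^ 8) ^ 24 * sv p N 2 ^ 8 =
        sv p N 1 ^ 5 * sv p N 3 ^ 3 := by
      simp only [hs]
      calc _ = (xx p ^ 12 * w) ^ 2 * ((A * w ^ 1 * Th p N 1 ^ 24) ^ 5 *
            (A * w ^ 3 * Th p N 3 ^ 24) ^ 3) := by field_simp
        _ = _ := by rw [hw, one_pow, one_mul]
    generalize xx p * Th p N 1 ^ 5 * Th p N 3 ^ 3 / Th p N 2 ^ 8 = v at k ⊢
    calc _ = (xx p ^ 384 * (v ^ 24 * sv p N 2 ^ 8) ^ N) ^ N := by simp only [zv]; ring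
      _ = _ := by rw [k]; simp only [zv]; ring
  · have : Th p N 0 = 0 := by rw [Th, th_zero _ _ (by omega), map_zero]
    simp [this]
  · exact div_self (div_ne_zero (mul_ne_zero t3 t1) (pow_ne_zero _ t2))
  · have u1 := Th_ne p (a := a + 1) (N := N) (by omega) (by omega)
    have u2 := Th_ne p (a := a + 2) (N := N) (by omega) (by omega)
    have u3 := Th_ne p (a := a + 3) (N := N) (by omega) (by omega)
    have k := congrArg (up p) (somos (ZMod p) ha)
    simp only [map_mul, map_sub, map_pow] at k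
    change xx p * Th p N (a + 4) * Th p N a * Th p N 1 ^ 2 = Th p N (a + 3) * Th p N (a + 1) *
      Th p N 2 ^ 2 - Th p N 3 * Th p N 1 * Th p N (a + 2) ^ 2 at k
    change _ * (Th p N (a + 4) * Th p N (a + 2) / Th p N (a + 3) ^ 2 / _) *
      (Th p N (a + 2) * Th p N a / Th p N (a + 1) ^ 2 / _) *
      (Th p N (a + 3) * Th p N (a + 1) / Th p N (a + 2) ^ 2 / _) ^ 2 =
      Th p N (a + 3) * Th p N (a + 1) / Th p N (a + 2) ^ 2 / _ - 1
    field_simp
    linear_combination k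

end Pool.Agent.Lib.MP_8f9d9d_nt.H53
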