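import Pool.Agent.Lib.MP_8f9d9d_nt.H53Rep

set_option autoImplicit false

open scoped PowerSeries UpperHalfPlane IntermediateField Real

namespace Pool.Agent.Lib.MP_8f9d9d_nt.H53

open scoped ArithmeticFunction.sigma MatrixGroups ModularForm

theorem level_dvd (d : ℤ) : (12 : ℤ) ∣ 5 * d ^ 3 + 7 * d ^ 5 := by
  have h : ∀ x : ZMod 12, 5 * x ^ 3 + 7 * x ^ 5 = 0 := by decide
  have h1 := (ZMod.intCast_zmod_eq_zero_iff_dvd (5 * d ^ 3 + 7 * d ^ 5) 12).1 (by
    push_cast
    exact h d)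
  exact_mod_cast h1

theorem level_dvd_sigma (n : ℕ) :
    (12 : ℤ) ∣ 5 * ((σ 3 n : ℕ) : ℤ) + 7 * ((σ 5 n : ℕ) : ℤ) := by
  simp only [ArithmeticFunction.sigma_apply]
  push_cast
  rw [Finset.mul_sum, Finset.mul_sum, ← Finset.sum_add_distrib]
  exact Finset.dvd_sum fun d _ => level_dvd d

theorem level_twelve :
    12 * (PowerSeries.mk fun n => (5 * ((σ 3 n : ℕ) : ℤ) + 7 * ((σ 5 n : ℕ) : ℤ)) / 12 : ℤ⟦X⟧) =
      5 * sg 3 + 7 * sg 5 := by
  ext n
  have h12 : (12 : ℤ⟦X⟧) = PowerSeries.C (12 : ℤ) := rfl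
  have h5 : (5 : ℤ⟦X⟧) = PowerSeries.C (5 : ℤ) := rfl
  have h7 : (7 : ℤ⟦X⟧) = PowerSeries.C (7 : ℤ) := rfl
  rw [h12, h5, h7, map_add, PowerSeries.coeff_C_mul, PowerSeries.coeff_C_mul,
    PowerSeries.coeff_C_mul, PowerSeries.coeff_mk, sg, sg, PowerSeries.coeff_mk,
    PowerSeries.coeff_mk]
  exact Int.mul_ediv_cancel' (level_dvd_sigma n)

theorem Dz_eq : 1728 * Dz = E4z ^ 3 - E6z ^ 2 := by
  unfold Dz E4z E6z
  linear_combination 144 * level_twelve

theorem level_sg_const (r : ℕ) : PowerSeries.constantCoeff (sg r) = 0 := by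
  rw [← PowerSeries.coeff_zero_eq_constantCoeff_apply, sg, PowerSeries.coeff_mk]
  simp

theorem E4z_const : PowerSeries.constantCoeff E4z = 1 := by
  simp [E4z, level_sg_const]

theorem level_coeff_one_pow (r e : ℕ) (he : 2 ≤ e) : PowerSeries.coeff 1 (sg r ^ e) = 0 := by
  obtain ⟨A, hA⟩ := PowerSeries.X_dvd_iff.2 (level_sg_const r)
  rw [hA, mul_pow, PowerSeries.coeff_X_pow_mul', if_neg (by omega)]

/-- The discriminant is `X` times a series with constant term one. -/
theorem Dz_fac : ∃ U : ℤ⟦X⟧, PowerSeries.constantCoeff U = 1 ∧ Dz = PowerSeries.X * U := by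
  have h0 : PowerSeries.constantCoeff Dz = 0 := by
    simp [Dz, level_sg_const, ← PowerSeries.coeff_zero_eq_constantCoeff_apply (PowerSeries.mk _)]
  obtain ⟨U, hU⟩ := PowerSeries.X_dvd_iff.2 h0
  refine ⟨U, ?_, hU⟩
  have h1 : PowerSeries.coeff 1 Dz = 1 := by
    have h100 : (100 : ℤ⟦X⟧) = PowerSeries.C (100 : ℤ) := rfl
    have h8000 : (8000 : ℤ⟦X⟧) = PowerSeries.C (8000 : ℤ) := rfl
    have h147 : (147 : ℤ⟦X⟧) = PowerSeries.C (147 : ℤ) := rfl
    rw [Dz, h100, h8000, h147, map_sub, map_add, map_add, PowerSeries.coeff_C_mul,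
      PowerSeries.coeff_C_mul, PowerSeries.coeff_C_mul, level_coeff_one_pow _ _ le_rfl,
      level_coeff_one_pow _ _ le_rfl, level_coeff_one_pow _ _ (by norm_num), PowerSeries.coeff_mk]
    simp
  rw [hU, PowerSeries.coeff_succ_X_mul, PowerSeries.coeff_zero_eq_constantCoeff_apply] at h1
  exact h1

theorem level_rep_q {k : ℤ} (M : ModularForm 𝒮ℒ k) :
    Rep 1 (fun τ => M τ) (UpperHalfPlane.qExpansion 1 M) := by
  intro τ
  have : Fact (IsCusp OnePoint.infty 𝒮ℒ) :=
    ⟨(𝒮ℒ).isCusp_of_mem_strictPeriods one_pos one_mem_strictPeriods_SL⟩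
  rw [Nat.cast_one]
  exact ModularForm.hasSum_qExpansion M one_pos one_mem_strictPeriods_SL τ

theorem level_coeff_cz (R : Type*) [CommRing R] (F : ℤ⟦X⟧) (m : ℕ) :
    PowerSeries.coeff m (cz R F) = ((PowerSeries.coeff m F : ℤ) : R) := by
  rw [cz, PowerSeries.coeff_map]
  rfl

theorem level_q4 : UpperHalfPlane.qExpansion 1 ModularForm.E₄ = cz ℂ E4z := by
  ext m
  have h240 : (240 : ℤ⟦X⟧) = PowerSeries.C (240 : ℤ) := rfl
  rw [EisensteinSeries.E_qExpansion_coeff _ ⟨2, rfl⟩, level_coeff_cz, E4z, h240, map_add,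
    PowerSeries.coeff_C_mul, sg, PowerSeries.coeff_mk, PowerSeries.coeff_one,
    show bernoulli 4 = -1 / 30 by decide +kernel]
  split_ifs with hm
  · subst hm
    simp
  · push_cast
    norm_num

theorem level_q6 : UpperHalfPlane.qExpansion 1 ModularForm.E₆ = cz ℂ E6z := by
  ext m
  have h504 : (504 : ℤ⟦X⟧) = PowerSeries.C (504 : ℤ) := rfl
  rw [EisensteinSeries.E_qExpansion_coeff _ ⟨3, rfl⟩, level_coeff_cz, E6z, h504, map_sub,
    PowerSeries.coeff_C_mul, sg, PowerSeries.coeff_mk, PowerSeries.coeff_one,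
    show bernoulli 6 = 1 / 42 by decide +kernel]
  split_ifs with hm
  · subst hm
    simp
  · push_cast
    norm_num

theorem rep_E4 : Rep 1 (fun τ => ModularForm.E₄ τ) (cz ℂ E4z) := by
  rw [← level_q4]
  exact level_rep_q _

theorem level_rep_E6 : Rep 1 (fun τ => ModularForm.E₆ τ) (cz ℂ E6z) := by
  rw [← level_q6]
  exact level_rep_q _

theorem rep_Dz : Rep 1 ModularForm.discriminant (cz ℂ Dz) := by
  have h := (rep_C 1 (1728 : ℂ)⁻¹).mul one_pos
    ((rep_E4.pow one_pos 3).sub (level_rep_E6.pow one_pos 2))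
  have h1 : PowerSeries.C (1728 : ℂ)⁻¹ * (cz ℂ E4z ^ 3 - cz ℂ E6z ^ 2) = cz ℂ Dz := by
    have h2 : (1728 : ℂ⟦X⟧) = PowerSeries.C (1728 : ℂ) := rfl
    rw [← map_pow, ← map_pow, ← map_sub, ← Dz_eq, map_mul, map_ofNat, h2, ← mul_assoc, ← map_mul,
      inv_mul_cancel₀ (by norm_num), map_one, one_mul]
  have h3 : ModularForm.discriminant = fun τ =>
      (1728 : ℂ)⁻¹ * (ModularForm.E₄ τ ^ 3 - ModularForm.E₆ τ ^ 2) := by
    funext τ
    rw [ModularForm.discriminant_eq_E₄_cube_sub_E₆_sq]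
    ring
  rw [h3, ← h1]
  exact h

theorem level_qD : UpperHalfPlane.qExpansion 1 ModularForm.discriminant = cz ℂ Dz :=
  Rep.unique one_pos (level_rep_q (CuspForm.discriminant : ModularForm 𝒮ℒ 12)) rep_Dz

theorem level_map_cz (O : Subring ℂ) (F : ℤ⟦X⟧) :
    PowerSeries.map O.subtype (cz O F) = cz ℂ F := by
  ext m
  rw [PowerSeries.coeff_map, level_coeff_cz, level_coeff_cz, map_intCast]

theorem level_const_cz (R : Type*) [CommRing R] (F : ℤ⟦X⟧) :
    PowerSeries.constantCoeff (cz R F) = ((PowerSeries.constantCoeff F : ℤ) : R) := by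
  rw [← PowerSeries.coeff_zero_eq_constantCoeff_apply, level_coeff_cz,
    PowerSeries.coeff_zero_eq_constantCoeff_apply]

theorem level_div (R : Type*) [CommRing R] (G : R⟦X⟧) (hG : PowerSeries.constantCoeff G = 0) :
    ∃ G' : R⟦X⟧, G = cz R Dz * G' := by
  obtain ⟨U, hU, hD⟩ := Dz_fac
  obtain ⟨A, hA⟩ := PowerSeries.X_dvd_iff.2 hG
  have hu : IsUnit (cz R U) := by
    rw [PowerSeries.isUnit_iff_constantCoeff, level_const_cz, hU, Int.cast_one]
    exact isUnit_one
  obtain ⟨V, hV⟩ := hu.exists_right_inv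
  refine ⟨V * A, ?_⟩
  have hX : cz R PowerSeries.X = PowerSeries.X := by rw [cz, PowerSeries.map_X]
  rw [hD, map_mul, hX, hA]
  linear_combination (-(PowerSeries.X * A)) * hV

theorem level_D_ne : cz ℂ Dz ≠ 0 := by
  intro h
  obtain ⟨G, hG⟩ := level_div ℂ PowerSeries.X PowerSeries.constantCoeff_X
  rw [h, zero_mul] at hG
  exact PowerSeries.X_ne_zero hG

theorem level_aux (O : Subring ℂ) (d : ℕ) : ∀ (k : ℤ) (_ : k = 12 * d) (M : ModularForm 𝒮ℒ k)
    (F : O⟦X⟧), UpperHalfPlane.qExpansion 1 M = PowerSeries.map O.subtype F →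
    ∃ c : ℕ → O, F = ∑ i ∈ Finset.range (d + 1), PowerSeries.C (c i) *
      (cz O E4z ^ 3) ^ i * cz O Dz ^ (d - i) := by
  have hinj : Function.Injective (PowerSeries.map O.subtype) :=
    PowerSeries.map_injective _ O.subtype_injective
  induction d with
  | zero =>
    intro k hk M F hF
    obtain rfl : k = 0 := by simpa using hk
    obtain ⟨c, hc⟩ := ModularFormClass.levelOne_weight_zero_const M
    have h1 : Rep 1 (fun τ => M τ) (PowerSeries.C c) := by
      have h2 : (fun τ => M τ) = fun _ => c := hc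
      rw [h2]
      exact rep_C 1 c
    have h3 := Rep.unique one_pos (level_rep_q M) h1
    rw [hF] at h3
    refine ⟨fun _ => PowerSeries.constantCoeff F, hinj ?_⟩
    have h4 : O.subtype (PowerSeries.constantCoeff F) = c := by
      have := congrArg (PowerSeries.coeff 0) h3
      rwa [PowerSeries.coeff_map, PowerSeries.coeff_zero_C,
        PowerSeries.coeff_zero_eq_constantCoeff_apply] at this
    rw [h3, zero_add, Finset.sum_range_one, pow_zero, Nat.sub_zero, pow_zero, mul_one, mul_one,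
      PowerSeries.map_C, h4]
  | succ d ih =>
    intro k hk M F hF
    let c0 : O := PowerSeries.constantCoeff F
    let M1 : ModularForm 𝒮ℒ k :=
      M - (c0 : ℂ) • ModularForm.mcast (by rw [hk]; push_cast; ring)
        (ModularForm.E₄.pow (3 * (d + 1)))
    let G : O⟦X⟧ := F - PowerSeries.C c0 * (cz O E4z ^ 3) ^ (d + 1)
    have hM : Rep 1 (fun τ => M τ) (PowerSeries.map O.subtype F) := hF ▸ level_rep_q M
    have h1 : Rep 1 (fun τ => M1 τ) (PowerSeries.map O.subtype G) := by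
      have h2 := hM.sub ((rep_C 1 (c0 : ℂ)).mul one_pos (rep_E4.pow one_pos (3 * (d + 1))))
      have h3 : (fun τ => M1 τ) = fun τ => M τ - (c0 : ℂ) * ModularForm.E₄ τ ^ (3 * (d + 1)) := by
        funext τ
        change M τ - (c0 : ℂ) * (ModularForm.E₄.pow (3 * (d + 1))) τ = _
        rw [ModularForm.coe_pow, Pi.pow_apply]
      have h4 : PowerSeries.map O.subtype G = PowerSeries.map O.subtype F -
          PowerSeries.C (c0 : ℂ) * cz ℂ E4z ^ (3 * (d + 1)) := by
        simp only [G, map_sub, map_mul, map_pow, PowerSeries.map_C, level_map_cz, ← pow_mul]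
        rfl
      rw [h3, h4]
      exact h2
    have hq := Rep.unique one_pos (level_rep_q M1) h1
    have hG : PowerSeries.constantCoeff G = 0 := by
      simp [G, c0, level_const_cz, E4z_const]
    have h0 : PowerSeries.coeff 0 (UpperHalfPlane.qExpansion 1 M1) = 0 := by
      rw [hq, PowerSeries.coeff_map, PowerSeries.coeff_zero_eq_constantCoeff_apply, hG, map_zero]
    obtain ⟨G', hG'⟩ := level_div O G hG
    have h5 := ModularForm.qExpansion_eq_qExpansion_discriminant_mul M1 h0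
    rw [hq, hG', map_mul, level_map_cz, level_qD] at h5
    obtain ⟨c, hc⟩ := ih (k - 12) (by rw [hk]; push_cast; ring) _ G'
      (mul_left_cancel₀ level_D_ne h5).symm
    refine ⟨fun i => if i = d + 1 then c0 else c i, ?_⟩
    have h6 : F = cz O Dz * G' + PowerSeries.C c0 * (cz O E4z ^ 3) ^ (d + 1) := by
      rw [← hG']
      simp [G]
    beta_reduce
    rw [Finset.sum_range_succ, if_pos rfl, Nat.sub_self, pow_zero, mul_one]
    refine h6.trans ?_
    rw [hc, Finset.mul_sum]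
    congr 1
    refine Finset.sum_congr rfl fun i hi => ?_
    have hi' := Finset.mem_range.1 hi
    rw [if_neg (by omega), show d + 1 - i = d - i + 1 by omega]
    ring

/-- A level one form of weight `12 d` with expansion over a subring `O`. -/
theorem level_one (O : Subring ℂ) {N : ℕ} (hN : N ≠ 0) (d : ℕ) (f : ℍ → ℂ) (F : O⟦X⟧)
    (hrep : Rep N f (PowerSeries.map O.subtype F))
    (hS : ∀ τ : ℍ, f (ModularGroup.S • τ) = (τ : ℂ) ^ (12 * d) * f τ)
    (hT : ∀ τ : ℍ, f (ModularGroup.T • τ) = f τ) :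
    ∃ c : ℕ → O, F = ∑ i ∈ Finset.range (d + 1), PowerSeries.C (c i) *
      (PowerSeries.expand N hN (cz O E4z) ^ 3) ^ i * PowerSeries.expand N hN (cz O Dz) ^ (d - i) := by
  have hN' : 0 < N := Nat.pos_of_ne_zero hN
  have hinj : Function.Injective (PowerSeries.map O.subtype) :=
    PowerSeries.map_injective _ O.subtype_injective
  have hsl : ∀ γ : SL(2, ℤ), f ∣[((12 * d : ℕ) : ℤ)] γ = f := by
    refine SlashInvariantForm.slash_action_generators_SL2Z (funext fun τ => ?_) (funext fun τ => ?_)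
    · rw [ModularForm.slash_action_eq'_iff, hS, zpow_natCast]
      simp [ModularGroup.S]
    · rw [ModularForm.slash_action_eq'_iff, hT]
      simp [ModularGroup.T]
  let M : ModularForm 𝒮ℒ ((12 * d : ℕ) : ℤ) :=
    { toFun := f
      slash_action_eq' := fun _ ⟨γ, hγ⟩ => hγ ▸ hsl γ
      holo' := hrep.mdiff hN'
      bdd_at_cusps' := fun {c} hc => by
        rw [Subgroup.IsArithmetic.isCusp_iff_isCusp_SL2Z] at hc
        rw [OnePoint.isBoundedAt_iff_forall_SL2Z hc]
        intro γ _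
        rw [hsl γ]
        exact hrep.bdd hN' }
  have h1 : Rep 1 f (UpperHalfPlane.qExpansion 1 M) := level_rep_q M
  have h2 := Rep.unique hN' hrep (h1.expand hN)
  let F1 : O⟦X⟧ := PowerSeries.mk fun m => PowerSeries.coeff (N * m) F
  have h3 : UpperHalfPlane.qExpansion 1 M = PowerSeries.map O.subtype F1 := by
    ext m
    rw [← PowerSeries.coeff_expand_mul N hN, ← h2, PowerSeries.coeff_map, PowerSeries.coeff_map,
      PowerSeries.coeff_mk]
  obtain ⟨c, hc⟩ := level_aux O d _ (by push_cast; ring) M F1 h3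
  have h4 : F = PowerSeries.expand N hN F1 := hinj (by rw [PowerSeries.map_expand, ← h3, h2])
  refine ⟨c, ?_⟩
  rw [h4, hc, map_sum]
  refine Finset.sum_congr rfl fun i _ => ?_
  rw [map_mul, map_mul, map_pow, map_pow, map_pow, PowerSeries.expand_C]

end Pool.Agent.Lib.MP_8f9d9d_nt.H53
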