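import Pool.Agent.Lib.MP_8f9d9d_nt.H53Defs

set_option autoImplicit false

open scoped PowerSeries IntermediateField Polynomial

namespace Pool.Agent.Lib.MP_8f9d9d_nt.H53

section Aux

variable {k : Type*} [Field k]

theorem val_ord_mul {f g : k⟦X⟧} (hf : f ≠ 0) (hg : g ≠ 0) :
    (f * g).order.toNat = f.order.toNat + g.order.toNat := by
  rw [PowerSeries.order_mul, ENat.toNat_add (PowerSeries.order_eq_top.not.mpr hf)
    (PowerSeries.order_eq_top.not.mpr hg)]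

theorem val_ord_pow {f : k⟦X⟧} (hf : f ≠ 0) (n : ℕ) :
    (f ^ n).order.toNat = n * f.order.toNat := by
  induction n with
  | zero => simp
  | succ n ih => rw [pow_succ, val_ord_mul (pow_ne_zero n hf) hf, ih]; ring

theorem val_ord_pos {f : k⟦X⟧} (hf : f ≠ 0) (hc : PowerSeries.constantCoeff f = 0) :
    0 < f.order.toNat := by
  have h1 : f.order ≠ 0 := PowerSeries.order_ne_zero_iff_constCoeff_eq_zero.mpr hc
  rw [← PowerSeries.coe_toNat_order hf] at h1
  exact Nat.pos_of_ne_zero (by exact_mod_cast h1)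

/-- A root in the fraction field of a power series is a power series. -/
theorem val_root (K : Type*) [Field K] [Algebra k⟦X⟧ K] [IsFractionRing k⟦X⟧ K] {n : ℕ}
    (hn : 0 < n) {w : K} {q : k⟦X⟧} (h : w ^ n = algebraMap k⟦X⟧ K q) :
    ∃ r : k⟦X⟧, algebraMap k⟦X⟧ K r = w ∧ r ^ n = q := by
  obtain ⟨r, hr⟩ := IsIntegrallyClosed.exists_algebraMap_eq_of_isIntegral_pow (R := k⟦X⟧) hn
    (h ▸ isIntegral_algebraMap)
  refine ⟨r, hr, IsFractionRing.injective k⟦X⟧ K ?_⟩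
  rw [map_pow, hr, h]

theorem val_coeff_pow (p : ℕ) [Fact p.Prime] [CharP k p] (y : k⟦X⟧) (n i : ℕ) (h0 : 0 < i)
    (hi : i < p ^ n) : PowerSeries.coeff i (y ^ p ^ n) = 0 := by
  have : CharP k⟦X⟧ p := charP_of_injective_ringHom (f := PowerSeries.C (R := k))
    PowerSeries.C_injective p
  conv_lhs => rw [PowerSeries.eq_X_mul_shift_add_const y]
  rw [add_pow_char_pow, mul_pow, ← map_pow, map_add, PowerSeries.coeff_X_pow_mul',
    if_neg (by omega), PowerSeries.coeff_C, if_neg (by omega), add_zero]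

/-- A power series that is a root of a constant is constant. -/
theorem val_const [IsAlgClosed k] {y : k⟦X⟧} {g : ℕ} (hg : 0 < g) {η : k}
    (h : y ^ g = PowerSeries.C η) : ∃ θ : k, y = PowerSeries.C θ := by
  have hi : IsIntegral k y := by
    refine IsIntegral.of_pow hg ?_
    rw [h]
    exact isIntegral_algebraMap (R := k) (x := η)
  obtain ⟨θ, hθ⟩ := minpoly.mem_range_of_degree_eq_one k y
    (IsAlgClosed.degree_eq_one_of_irreducible k (minpoly.irreducible hi))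
  exact ⟨θ, hθ.symm⟩

end Aux

variable (p : ℕ) [Fact p.Prime] {k : Type*} [Field k] [IsAlgClosed k] [CharP k p]
  (K : Type*) [Field K] [Algebra k⟦X⟧ K] [IsFractionRing k⟦X⟧ K]

omit [IsAlgClosed k] [CharP k p] in
theorem X_not_pow (w : K) : w ^ p ≠ algebraMap k⟦X⟧ K PowerSeries.X := by
  intro h
  have hp : p.Prime := Fact.out
  obtain ⟨r, -, hr⟩ := val_root K hp.pos h
  have hr0 : r ≠ 0 := by
    rintro rfl
    rw [zero_pow hp.ne_zero] at hr
    exact PowerSeries.X_ne_zero hr.symm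
  have h1 := val_ord_pow hr0 p
  rw [hr, PowerSeries.order_X, ENat.toNat_one] at h1
  exact hp.one_lt.ne' (Nat.eq_one_of_mul_eq_one_right h1.symm)

omit [IsAlgClosed k] [CharP k p] in
/-- Extraction of the largest `p`-power root. -/
theorem exists_root {q : k⟦X⟧} (h0 : q ≠ 0) (hc : PowerSeries.constantCoeff q = 0) :
    ∃ (e : ℕ) (r : k⟦X⟧), r ≠ 0 ∧ PowerSeries.constantCoeff r = 0 ∧ q = r ^ p ^ e ∧
      ∀ w : K, w ^ p ≠ algebraMap k⟦X⟧ K r := by
  have hp : p.Prime := Fact.out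
  induction hn : q.order.toNat using Nat.strong_induction_on generalizing q with
  | _ n ih =>
    by_cases hq : ∀ w : K, w ^ p ≠ algebraMap k⟦X⟧ K q
    · exact ⟨0, q, h0, hc, by simp, hq⟩
    · push Not at hq
      obtain ⟨w, hw⟩ := hq
      obtain ⟨r, -, hr⟩ := val_root K hp.pos hw
      have hr0 : r ≠ 0 := by
        rintro rfl
        rw [zero_pow hp.ne_zero] at hr
        exact h0 hr.symm
      have hrc : PowerSeries.constantCoeff r = 0 := by
        rw [← hr, map_pow] at hc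
        exact pow_eq_zero_iff hp.ne_zero |>.mp hc
      have h1 := val_ord_pow hr0 p
      have h2 := val_ord_pos hr0 hrc
      rw [hr, hn] at h1
      have h3 : r.order.toNat < n := by
        have := hp.one_lt
        nlinarith
      obtain ⟨e, s, hs0, hsc, hs, hsw⟩ := ih _ h3 hr0 hrc rfl
      refine ⟨e + 1, s, hs0, hsc, ?_, hsw⟩
      rw [← hr, hs, ← pow_mul, pow_succ]

omit [IsAlgClosed k] in
/-- Congruences modulo all `p^n`-th powers give a relation up to a constant. -/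
theorem rel_of_cong {q1 q2 : k⟦X⟧} (h1 : q1 ≠ 0) (c1 : PowerSeries.constantCoeff q1 = 0)
    (h2 : q2 ≠ 0) (c2 : PowerSeries.constantCoeff q2 = 0)
    (h : ∀ n : ℕ, ∃ (c : ℕ) (a : K),
      algebraMap k⟦X⟧ K q2 = a ^ p ^ n * algebraMap k⟦X⟧ K q1 ^ c) :
    ∃ (m n : ℕ) (η : k), 0 < m ∧ 0 < n ∧ η ≠ 0 ∧ q1 ^ m = PowerSeries.C η * q2 ^ n := by
  have hp : p.Prime := Fact.out
  have hv1 := val_ord_pos h1 c1
  have hv2 := val_ord_pos h2 c2
  set v1 := q1.order.toNat with hv1d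
  set v2 := q2.order.toNat with hv2d
  -- the quotient is a power series
  obtain ⟨u, hu⟩ : ∃ u : k⟦X⟧, q1 ^ v2 = u * q2 ^ v1 := by
    obtain ⟨u2, hu2⟩ := PowerSeries.isUnit_divided_by_X_pow_order h2
    refine ⟨q1.divXPowOrder ^ v2 * (↑u2⁻¹ : k⟦X⟧) ^ v1, ?_⟩
    have e1 : q1 = PowerSeries.X ^ v1 * q1.divXPowOrder :=
      PowerSeries.X_pow_order_mul_divXPowOrder.symm
    have e2 : q2 = PowerSeries.X ^ v2 * (u2 : k⟦X⟧) := by
      rw [hu2]; exact PowerSeries.X_pow_order_mul_divXPowOrder.symm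
    have e3 : ((↑u2⁻¹ : k⟦X⟧) * (u2 : k⟦X⟧)) ^ v1 = 1 := by simp
    generalize q1.divXPowOrder = u1 at e1 ⊢
    rw [e1, e2]
    linear_combination (-(PowerSeries.X ^ (v1 * v2) * u1 ^ v2)) * e3
  have hu0 : u ≠ 0 := by
    rintro rfl
    exact pow_ne_zero _ h1 (by rw [hu, zero_mul])
  -- it is a power for every level
  have hpow : ∀ n : ℕ, ∃ y : k⟦X⟧, u = y ^ p ^ n := by
    intro n
    obtain ⟨c, a, ha⟩ := h n
    have hN : 0 < p ^ n := pow_pos hp.pos n
    generalize p ^ n = N at ha hN ⊢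
    obtain ⟨α, β, hβ, rfl⟩ := IsFractionRing.div_surjective (A := k⟦X⟧) a
    have hβ0 : β ≠ 0 := nonZeroDivisors.ne_zero hβ
    have hβK : algebraMap k⟦X⟧ K β ≠ 0 := by
      simpa using hβ0
    have e : q2 * β ^ N = α ^ N * q1 ^ c := by
      apply IsFractionRing.injective k⟦X⟧ K
      simp only [map_mul, map_pow]
      rw [ha, div_pow]
      field_simp
    have hα0 : α ≠ 0 := by
      rintro rfl
      rw [zero_pow hN.ne', zero_mul] at e
      exact mul_ne_zero h2 (pow_ne_zero _ hβ0) e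
    have eo : v2 + N * β.order.toNat = N * α.order.toNat + c * v1 := by
      have := congrArg (fun f : k⟦X⟧ => f.order.toNat) e
      rwa [val_ord_mul h2 (pow_ne_zero _ hβ0), val_ord_mul (pow_ne_zero _ hα0) (pow_ne_zero _ h1),
        val_ord_pow hβ0, val_ord_pow hα0, val_ord_pow h1] at this
    set oa := α.order.toNat
    set ob := β.order.toNat
    have e2 : (q1 ^ oa * β ^ v1) ^ N = u * (α ^ v1 * q1 ^ ob) ^ N := by
      apply mul_left_cancel₀ (pow_ne_zero (v2 + c * v1) h1)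
      have e3 : q1 ^ (v2 + N * ob) = q1 ^ (N * oa + c * v1) := by rw [eo]
      have e4 : (q2 * β ^ N) ^ v1 = (α ^ N * q1 ^ c) ^ v1 := by rw [e]
      calc q1 ^ (v2 + c * v1) * (q1 ^ oa * β ^ v1) ^ N
          = q1 ^ v2 * β ^ (N * v1) * q1 ^ (N * oa + c * v1) := by ring
        _ = u * (q2 * β ^ N) ^ v1 * q1 ^ (v2 + N * ob) := by rw [hu, e3]; ring
        _ = _ := by rw [e4]; ring
    have hB : α ^ v1 * q1 ^ ob ≠ 0 := mul_ne_zero (pow_ne_zero _ hα0) (pow_ne_zero _ h1)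
    have hd : α ^ v1 * q1 ^ ob ∣ q1 ^ oa * β ^ v1 :=
      (IsIntegrallyClosed.pow_dvd_pow_iff hN.ne').mp ⟨u, by rw [e2, mul_comm]⟩
    obtain ⟨y, hy⟩ := hd
    refine ⟨y, ?_⟩
    rw [hy, mul_pow, mul_comm u] at e2
    exact (mul_left_cancel₀ (pow_ne_zero N hB) e2).symm
  have hC : u = PowerSeries.C (PowerSeries.constantCoeff u) := by
    ext i
    rcases Nat.eq_zero_or_pos i with rfl | hi
    · simp
    · obtain ⟨y, hy⟩ := hpow i
      rw [PowerSeries.coeff_C, if_neg hi.ne', hy]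
      exact val_coeff_pow p y i i hi (Nat.lt_pow_self hp.one_lt)
  refine ⟨v2, v1, PowerSeries.constantCoeff u, hv2, hv1, ?_, by rw [← hC, hu]⟩
  intro h0
  rw [h0, map_zero] at hC
  exact hu0 hC

/-- A common parameter. -/
theorem exists_param {q1 q2 : k⟦X⟧} (h2 : q2 ≠ 0) (c2 : PowerSeries.constantCoeff q2 = 0)
    {m n : ℕ} {η : k} (hm : 0 < m) (hn : 0 < n) (hη : η ≠ 0)
    (h : q1 ^ m = PowerSeries.C η * q2 ^ n) :
    ∃ (a b : ℕ) (ζ : k) (s : k⟦X⟧), 0 < a ∧ 0 < b ∧ ζ ≠ 0 ∧ s ≠ 0 ∧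
      PowerSeries.constantCoeff s = 0 ∧ q1 = PowerSeries.C ζ * s ^ a ∧ q2 = s ^ b := by
  have hg : 0 < Nat.gcd m n := Nat.gcd_pos_of_pos_left n hm
  obtain ⟨m', n', hco, em, en⟩ := Nat.exists_coprime m n
  generalize Nat.gcd m n = g at hg em en
  subst em en
  have hm' : 0 < m' := Nat.pos_of_mul_pos_right hm
  have hn' : 0 < n' := Nat.pos_of_mul_pos_right hn
  rw [pow_mul, pow_mul] at h
  have hB : q2 ^ n' ≠ 0 := pow_ne_zero _ h2
  have hd : q2 ^ n' ∣ q1 ^ m' :=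
    (IsIntegrallyClosed.pow_dvd_pow_iff hg.ne').mp ⟨PowerSeries.C η, by rw [h, mul_comm]⟩
  obtain ⟨y, hy⟩ := hd
  have hyg : y ^ g = PowerSeries.C η := by
    rw [hy, mul_pow, mul_comm (PowerSeries.C η)] at h
    exact mul_left_cancel₀ (pow_ne_zero g hB) h
  obtain ⟨θ, rfl⟩ := val_const hg hyg
  have hθ : θ ≠ 0 := by
    rintro rfl
    rw [map_zero, zero_pow hg.ne'] at hyg
    exact hη (PowerSeries.C_injective (by rw [← hyg, map_zero]))
  obtain ⟨ζ, rfl⟩ := IsAlgClosed.exists_pow_nat_eq θ hm'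
  have hζ : ζ ≠ 0 := by
    rintro rfl
    exact hθ (zero_pow hm'.ne')
  have hCC : PowerSeries.C ζ * PowerSeries.C ζ⁻¹ = (1 : k⟦X⟧) := by
    rw [← map_mul, mul_inv_cancel₀ hζ, map_one]
  have e : (PowerSeries.C ζ⁻¹ * q1) ^ m' = q2 ^ n' := by
    rw [mul_pow, hy, map_pow]
    calc PowerSeries.C ζ⁻¹ ^ m' * (q2 ^ n' * PowerSeries.C ζ ^ m')
        = (PowerSeries.C ζ * PowerSeries.C ζ⁻¹) ^ m' * q2 ^ n' := by ring
      _ = q2 ^ n' := by rw [hCC, one_pow, one_mul]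
  have eK : algebraMap k⟦X⟧ (FractionRing k⟦X⟧) (PowerSeries.C ζ⁻¹ * q1) ^ m' =
      algebraMap k⟦X⟧ (FractionRing k⟦X⟧) q2 ^ n' := by
    rw [← map_pow, ← map_pow, e]
  obtain ⟨c, hc1, hc2⟩ := (pow_eq_pow_iff_of_coprime hco).mp eK
  obtain ⟨s, rfl, hs⟩ := val_root (FractionRing k⟦X⟧) hm' hc2.symm
  have hs1 : PowerSeries.C ζ⁻¹ * q1 = s ^ n' :=
    IsFractionRing.injective k⟦X⟧ (FractionRing k⟦X⟧) (by rw [hc1, map_pow])
  refine ⟨n', m', ζ, s, hn', hm', hζ, ?_, ?_, ?_, hs.symm⟩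
  · rintro rfl
    rw [zero_pow hm'.ne'] at hs
    exact h2 hs.symm
  · rw [← hs, map_pow] at c2
    exact (pow_eq_zero_iff hm'.ne').mp c2
  · rw [← hs1, ← mul_assoc, hCC, one_mul]

end Pool.Agent.Lib.MP_8f9d9d_nt.H53
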