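import Pool.Agent.Lib.MP_8f9d9d_nt.H53PtK
import Pool.Agent.Lib.MP_8f9d9d_nt.H53CaseD
import Pool.Agent.Lib.MP_8f9d9d_nt.H53Val

set_option autoImplicit false

open scoped PowerSeries IntermediateField Polynomial

namespace Pool.Agent.Lib.MP_8f9d9d_nt.H53

/-- A power series algebraic over the polynomial ring is algebraic over `k(t)`. -/
theorem main_aux_alg {k : Type*} [Field k] (K : Type*) [Field K] [Algebra k⟦X⟧ K]
    [IsFractionRing k⟦X⟧ K] [Algebra k K] [IsScalarTower k k⟦X⟧ K] {q : k⟦X⟧}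
    (a : IsAlgebraic k[X] q) :
    IsAlgebraic k⟮algebraMap k⟦X⟧ K PowerSeries.X⟯ (algebraMap k⟦X⟧ K q) := by
  set t : K := algebraMap k⟦X⟧ K PowerSeries.X with ht
  let f : k[X] →+* k⟮t⟯ := (Polynomial.aeval (IntermediateField.AdjoinSimple.gen k t)).toRingHom
  have hc : RingHom.comp (algebraMap k⟮t⟯ K) f =
      RingHom.comp (algebraMap k⟦X⟧ K) (algebraMap k[X] k⟦X⟧) := by
    apply Polynomial.ringHom_ext
    · intro c
      have e1 : algebraMap k[X] k⟦X⟧ (Polynomial.C c) = algebraMap k k⟦X⟧ c := by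
        rw [← Polynomial.algebraMap_eq, ← IsScalarTower.algebraMap_apply]
      simp only [RingHom.comp_apply, e1, ← IsScalarTower.algebraMap_apply]
      simp [f]
    · have e1 : algebraMap k[X] k⟦X⟧ Polynomial.X = PowerSeries.X := by
        simp [PowerSeries.algebraMap_apply']
      simp only [RingHom.comp_apply, e1]
      simp [f, ht]
  have hi : Function.Injective f := by
    have h1 : Function.Injective (RingHom.comp (algebraMap k⟮t⟯ K) f) := by
      rw [hc]
      refine (IsFractionRing.injective k⟦X⟧ K).comp ?_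
      intro x y hxy
      simpa [PowerSeries.algebraMap_apply'] using hxy
    exact Function.Injective.of_comp (f := algebraMap k⟮t⟯ K) h1
  exact a.ringHom_of_comp_eq f (algebraMap k⟦X⟧ K) hi hc

/-- The coefficients of a relation satisfied by a transcendental element vanish. -/
theorem main_aux_zero {k K : Type*} [Field k] [Field K] [Algebra k K] (E : IntermediateField k K)
    {t : K} (ht : Transcendental E t) (d : ℕ) (c : ℕ → K) (hc : ∀ i, c i ∈ E)
    (h : ∑ i ∈ Finset.range d, t ^ i * c i = 0) : ∀ i, i < d → c i = 0 := by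
  intro i hi
  let P : E[X] := ∑ i ∈ Finset.range d, Polynomial.monomial i (⟨c i, hc i⟩ : E)
  have hP : Polynomial.aeval t P = 0 := by
    rw [← h]
    simp only [P, map_sum, Polynomial.aeval_monomial]
    refine Finset.sum_congr rfl fun j _ => ?_
    rw [mul_comm]
    rfl
  have hP0 : P = 0 := by
    by_contra hne
    exact ht ⟨P, hne, hP⟩
  have h1 : P.coeff i = ⟨c i, hc i⟩ := by
    simp only [P, Polynomial.finsetSum_coeff, Polynomial.coeff_monomial]
    rw [Finset.sum_ite_eq' (Finset.range d) i, if_pos (Finset.mem_range.2 hi)]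
  rw [hP0, Polynomial.coeff_zero] at h1
  exact (congrArg Subtype.val h1).symm

theorem main_aux_mem {k K : Type*} [Field k] [Field K] [Algebra k K] (E : IntermediateField k K)
    {u v : K} (hu : u ∈ E) (hv : v ∈ E) (R : MvPolynomial (Fin 2) k) :
    MvPolynomial.aeval ![u, v] R ∈ E := by
  induction R using MvPolynomial.induction_on with
  | C a => simp
  | add f g hf hg => rw [map_add]; exact E.add_mem hf hg
  | mul_X f i hf =>
    rw [map_mul, MvPolynomial.aeval_X]
    refine E.mul_mem hf ?_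
    fin_cases i
    · exact hu
    · exact hv

theorem main_aux_pow {k K : Type*} [Field k] [Field K] [Algebra k K] {u v : K}
    (h : AlgebraicIndependent k ![u, v]) {a b : ℕ} (ha : 0 < a) (hb : 0 < b) :
    AlgebraicIndependent k ![u ^ a, v ^ b] := by
  have h1 := h.polynomial_aeval_of_transcendental
    (f := ![Polynomial.X ^ a, Polynomial.X ^ b]) (by
      intro i
      fin_cases i
      · exact (Polynomial.transcendental_X k).pow ha
      · exact (Polynomial.transcendental_X k).pow hb)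
  convert h1 using 1
  funext i
  fin_cases i <;> simp

theorem main_gen (p : ℕ) [Fact p.Prime] {k : Type*} [Field k] [IsAlgClosed k] [Algebra (ZMod p) k]
    (K : Type*) [Field K] [Algebra k⟦X⟧ K] [IsFractionRing k⟦X⟧ K] [Algebra k K]
    [IsScalarTower k k⟦X⟧ K] {q1 q2 : k⟦X⟧} (h1 : q1 ≠ 0)
    (c1 : PowerSeries.constantCoeff q1 = 0) (h2 : q2 ≠ 0) (c2 : PowerSeries.constantCoeff q2 = 0)
    (a1 : IsAlgebraic k[X] q1) (a2 : IsAlgebraic k[X] q2) (d : ℕ)
    (R : ℕ → MvPolynomial (Fin 2) k) (hR : ∃ i, i < d ∧ R i ≠ 0)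
    (h : ∑ i ∈ Finset.range d, algebraMap k⟦X⟧ K PowerSeries.X ^ i *
      MvPolynomial.aeval ![JJ K q1, JJ K q2] (R i) = 0) :
    ∃ (a b : ℕ) (ζ : k) (s0 : k⟦X⟧), 0 < a ∧ 0 < b ∧ ζ ≠ 0 ∧
      q1 = PowerSeries.C ζ * s0 ^ a ∧ q2 = s0 ^ b ∧
      ∀ s : k⟦X⟧, s ≠ 0 → PowerSeries.constantCoeff s = 0 → ∀ i, i < d →
        MvPolynomial.aeval ![JJ K (PowerSeries.C ζ * s ^ a), JJ K (s ^ b)] (R i) = 0 := by
  have hp : p.Prime := Fact.out
  haveI : CharP k p := charP_of_injective_algebraMap (algebraMap (ZMod p) k).injective p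
  haveI : CharP K p := charP_of_injective_algebraMap (algebraMap k K).injective p
  obtain ⟨e1, r1, hr1, cr1, hq1, np1⟩ := exists_root p K h1 c1
  obtain ⟨e2, r2, hr2, cr2, hq2, np2⟩ := exists_root p K h2 c2
  obtain ⟨σ1, x1, j1, l1⟩ := exists_sig K p hr1 cr1
  obtain ⟨σ2, x2, j2, l2⟩ := exists_sig K p hr2 cr2
  have P1 : Pt p k (algebraMap k⟦X⟧ K r1) (JJ K r1) := by
    have := pt_of_sig p (k := k) σ1 l1 (by rw [x1]; exact np1)
    rwa [x1, j1] at this
  have P2 : Pt p k (algebraMap k⟦X⟧ K r2) (JJ K r2) := by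
    have := pt_of_sig p (k := k) σ2 l2 (by rw [x2]; exact np2)
    rwa [x2, j2] at this
  have A1 : IsAlgebraic k⟮algebraMap k⟦X⟧ K PowerSeries.X⟯ (algebraMap k⟦X⟧ K r1) := by
    have := main_aux_alg K a1
    rw [hq1, map_pow] at this
    exact IsAlgebraic.of_pow (pow_pos hp.pos _) this
  have A2 : IsAlgebraic k⟮algebraMap k⟦X⟧ K PowerSeries.X⟯ (algebraMap k⟦X⟧ K r2) := by
    have := main_aux_alg K a2
    rw [hq2, map_pow] at this
    exact IsAlgebraic.of_pow (pow_pos hp.pos _) this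
  have J1 : JJ K q1 = JJ K r1 ^ p ^ e1 := by rw [hq1, JJ_pow K p cr1]
  have J2 : JJ K q2 = JJ K r2 ^ p ^ e2 := by rw [hq2, JJ_pow K p cr2]
  have m1 : JJ K q1 ∈ k⟮JJ K r1, JJ K r2⟯ := by
    rw [J1]
    exact pow_mem (IntermediateField.subset_adjoin k _ (by simp)) _
  have m2 : JJ K q2 ∈ k⟮JJ K r1, JJ K r2⟯ := by
    rw [J2]
    exact pow_mem (IntermediateField.subset_adjoin k _ (by simp)) _
  have key : Transcendental k⟮JJ K r1, JJ K r2⟯ (algebraMap k⟦X⟧ K PowerSeries.X) →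
      ∀ i, i < d → MvPolynomial.aeval ![JJ K q1, JJ K q2] (R i) = 0 := fun ht =>
    main_aux_zero _ ht d _ (fun i => main_aux_mem _ m1 m2 (R i)) h
  obtain ⟨tr, cong⟩ := abs_main (X_not_pow p K) P1 P2 A1 A2 (by
    intro hi
    by_contra hna
    obtain ⟨i, hid, hRi⟩ := hR
    have h3 := main_aux_pow hi (pow_pos hp.pos e1) (pow_pos hp.pos e2)
    rw [← J1, ← J2] at h3
    exact hRi (algebraicIndependent_iff.1 h3 _ (key hna i hid)))
  obtain ⟨m, n, η, hm, hn, hη, hrel⟩ := rel_of_cong p K hr1 cr1 hr2 cr2 cong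
  have hrel' : q1 ^ (m * p ^ e2) =
      PowerSeries.C (η ^ (p ^ e1 * p ^ e2)) * q2 ^ (n * p ^ e1) := by
    have h4 := congrArg (fun z => z ^ (p ^ e1 * p ^ e2)) hrel
    simp only [mul_pow, ← map_pow, ← pow_mul] at h4
    rw [hq1, hq2, ← pow_mul, ← pow_mul]
    rw [show p ^ e1 * (m * p ^ e2) = m * (p ^ e1 * p ^ e2) by ring,
      show p ^ e2 * (n * p ^ e1) = n * (p ^ e1 * p ^ e2) by ring]
    exact h4
  obtain ⟨a, b, ζ, s0, ha, hb, hζ, hs0, cs0, e1', e2'⟩ :=
    exists_param h2 c2 (mul_pos hm (pow_pos hp.pos _)) (mul_pos hn (pow_pos hp.pos _))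
      (pow_ne_zero _ hη) hrel'
  refine ⟨a, b, ζ, s0, ha, hb, hζ, e1', e2', fun s hs cs i hi => ?_⟩
  refine rel_all K hs0 cs0 hs cs ha hb ζ (R i) ?_
  rw [← e1', ← e2']
  exact key tr i hi

end Pool.Agent.Lib.MP_8f9d9d_nt.H53
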