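import Pool.Agent.Lib.MP_8f9d9d_nt.H53Sym

set_option autoImplicit false

open scoped PowerSeries UpperHalfPlane IntermediateField Real

namespace Pool.Agent.Lib.MP_8f9d9d_nt.H53

theorem mono_aux1 (p : ℕ) [Fact p.Prime] {n : ℕ} (hn : 0 < n) [NeZero (p ^ n)] (r : ℕ) :
    ∑ T ∈ Finset.powersetCard r (Finset.univ : Finset (ZMod (p ^ n) × ZMod (p ^ n))),
      ∏ v ∈ T, zv p (p ^ n) v.1.val ∈ Algebra.adjoin (ZMod p) {Jb p} := by
  obtain ⟨O, ζ, ψ, hζ, hψ⟩ := exists_O p hn
  obtain ⟨c, hc⟩ := sym_level O ζ hζ Finset.univ (fun _ _ => Finset.mem_univ _)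
    (fun _ _ => Finset.mem_univ _) r
  have h1 : Units.map ψ.toMonoidHom ζ = 1 := Units.ext hψ
  have hcz : ∀ F : ℤ⟦X⟧, PowerSeries.map ψ (cz O F) = cz (ZMod p) F := fun F => by
    ext m
    simp [cz]
  have h2 := congrArg (fun F => up p (PowerSeries.map ψ F)) hc
  simp only [map_sum, map_prod, map_mul, map_pow, map_Fz, h1, zv_eq, PowerSeries.map_expand, hcz,
    expand_eq_pow, PowerSeries.map_C] at h2
  have hD := Dl_ne p
  have h3 : ∑ T ∈ Finset.powersetCard r (Finset.univ : Finset (ZMod (p ^ n) × ZMod (p ^ n))),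
      ∏ v ∈ T, zv p (p ^ n) v.1.val = ∑ i ∈ Finset.range ((p ^ n) ^ 2 * r + 1),
        algebraMap (ZMod p) (L0 p) (ψ (c i)) * (Jb p ^ p ^ n) ^ i := by
    refine mul_right_cancel₀ (pow_ne_zero ((p ^ n) ^ 3 * r) hD) ?_
    rw [Finset.sum_mul, Finset.sum_mul]
    refine Eq.trans (Finset.sum_congr rfl fun T hT => ?_) (h2.trans
      (Finset.sum_congr rfl fun i hi => ?_))
    · rw [Finset.prod_mul_distrib, Finset.prod_const, (Finset.mem_powersetCard.1 hT).2,
        ← pow_mul (Dl p)]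
    · obtain ⟨j, hj⟩ := Nat.exists_eq_add_of_le (Nat.lt_succ_iff.1 (Finset.mem_range.1 hi))
      have e : up p (PowerSeries.C (ψ (c i))) = algebraMap (ZMod p) (L0 p) (ψ (c i)) := rfl
      have e2 : (p ^ n) ^ 3 * r = p ^ n * i + p ^ n * j := by rw [← mul_add, ← hj]; ring
      rw [e, hj, Nat.add_sub_cancel_left, e2, Jb, pow_add, div_pow, div_pow, ← pow_mul (Dl p),
        mul_assoc, mul_assoc, ← mul_assoc (_ / _), div_mul_cancel₀ _ (pow_ne_zero _ hD), Dl]
      simp only [← pow_mul]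
      congr 3
      ring
  rw [h3]
  exact Subalgebra.sum_mem _ fun i _ => Subalgebra.mul_mem _ (Subalgebra.algebraMap_mem _ _)
    (Subalgebra.pow_mem _ (Subalgebra.pow_mem _ (Algebra.self_mem_adjoin_singleton _ _) _) _)

/-- The modular units are the roots of a monic polynomial over `F_p[J]`. -/
theorem mono (p : ℕ) [Fact p.Prime] {n : ℕ} (hn : 0 < n) (i : ℕ) :
    (∏ a ∈ Finset.range (p ^ n),
      (Polynomial.X - Polynomial.C (zv p (p ^ n) a)) ^ p ^ n).coeff i ∈
        Algebra.adjoin (ZMod p) {Jb p} := by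
  have : NeZero (p ^ n) := ⟨pow_ne_zero _ (Fact.out : p.Prime).ne_zero⟩
  have e : ∏ a ∈ Finset.range (p ^ n), (Polynomial.X - Polynomial.C (zv p (p ^ n) a)) ^ p ^ n =
      ∏ v : ZMod (p ^ n) × ZMod (p ^ n), (Polynomial.X - Polynomial.C (zv p (p ^ n) v.1.val)) := by
    rw [Fintype.prod_prod_type]
    simp only [Finset.prod_const, Finset.card_univ, ZMod.card]
    refine (Finset.prod_bij (fun (v : ZMod (p ^ n)) _ => v.val)
      (fun v _ => Finset.mem_range.2 (ZMod.val_lt v)) (fun a _ b _ h => ZMod.val_injective _ h)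
      (fun a ha => ⟨a, Finset.mem_univ _, ZMod.val_cast_of_lt (Finset.mem_range.1 ha)⟩)
      fun _ _ => rfl).symm
  rw [e]
  by_cases hi : i ≤ (Finset.univ : Finset (ZMod (p ^ n) × ZMod (p ^ n))).card
  · have e2 := Multiset.prod_X_sub_C_coeff ((Finset.univ : Finset (ZMod (p ^ n) × ZMod (p ^ n))).1.map
      fun v => zv p (p ^ n) v.1.val) (k := i) (by rwa [Multiset.card_map])
    rw [Multiset.map_map, Finset.esymm_map_val] at e2
    rw [Finset.prod_eq_multiset_prod]
    refine e2 ▸ ?_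
    exact Subalgebra.mul_mem _ (Subalgebra.pow_mem _ (Subalgebra.neg_mem _ (one_mem _)) _)
      (mono_aux1 p hn _)
  · rw [Polynomial.coeff_eq_zero_of_natDegree_lt]
    · exact zero_mem _
    · rw [Polynomial.natDegree_prod_of_monic _ _ fun _ _ => Polynomial.monic_X_sub_C _]
      simpa using hi

end Pool.Agent.Lib.MP_8f9d9d_nt.H53
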