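import Pool.Agent.Lib.MP_8f9d9d_nt.H53Defs

set_option autoImplicit false

open scoped PowerSeries IntermediateField Polynomial

namespace Pool.Agent.Lib.MP_8f9d9d_nt.H53

variable {k : Type*} [Field k]

theorem subst_inj {q : k⟦X⟧} (h0 : q ≠ 0) (hc : PowerSeries.constantCoeff q = 0) {f : k⟦X⟧}
    (hf : (f.subst q : k⟦X⟧) = 0) : f = 0 := by
  by_contra hne
  have hs := PowerSeries.HasSubst.of_constantCoeff_zero' hc
  have hu : IsUnit (PowerSeries.divXPowOrder f) :=
    PowerSeries.isUnit_iff_constantCoeff.2 (IsUnit.mk0 _ fun h =>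
      hne (PowerSeries.constantCoeff_divXPowOrder_eq_zero_iff.1 h))
  have h1 := hu.map (PowerSeries.substAlgHom (R := k) hs)
  rw [PowerSeries.coe_substAlgHom] at h1
  rw [← PowerSeries.X_pow_order_mul_divXPowOrder (f := f), PowerSeries.subst_mul hs,
    PowerSeries.subst_pow hs, PowerSeries.subst_X hs] at hf
  exact mul_ne_zero (pow_ne_zero _ h0) h1.ne_zero hf

variable (K : Type*) [Field K] [Algebra k⟦X⟧ K] [IsFractionRing k⟦X⟧ K] [Algebra k K]
  [IsScalarTower k k⟦X⟧ K]

theorem sub_map {R : Type*} [CommRing R] [Algebra R k] {q : k⟦X⟧}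
    (hc : PowerSeries.constantCoeff q = 0) (f : R⟦X⟧) :
    ((PowerSeries.map (algebraMap R k) f).subst q : k⟦X⟧) = f.subst q := by
  have hs := PowerSeries.HasSubst.of_constantCoeff_zero' hc
  ext e
  rw [PowerSeries.coeff_subst' hs, PowerSeries.coeff_subst' hs]
  simp only [PowerSeries.coeff_map, algebraMap_smul]

theorem sub_cz {R : Type*} [CommRing R] [Algebra R k] {q : k⟦X⟧}
    (hc : PowerSeries.constantCoeff q = 0) (f : ℤ⟦X⟧) :
    ((cz R f).subst q : k⟦X⟧) = f.subst q := by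
  have hs := PowerSeries.HasSubst.of_constantCoeff_zero' hc
  ext e
  rw [PowerSeries.coeff_subst' hs, PowerSeries.coeff_subst' hs]
  simp only [cz, PowerSeries.coeff_map, eq_intCast, Int.cast_smul_eq_zsmul]

theorem sub_hat {s : k⟦X⟧} (h0 : s ≠ 0) (hc : PowerSeries.constantCoeff s = 0) :
    ∃ σ : K →ₐ[k] K, ∀ f : k⟦X⟧, σ (algebraMap k⟦X⟧ K f) = algebraMap k⟦X⟧ K (f.subst s) := by
  have hs := PowerSeries.HasSubst.of_constantCoeff_zero' hc
  let φ : k⟦X⟧ →ₐ[k] K := (IsScalarTower.toAlgHom k k⟦X⟧ K).comp (PowerSeries.substAlgHom hs)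
  have hφ : ∀ f, φ f = algebraMap k⟦X⟧ K (f.subst s) := fun f => by
    rw [← PowerSeries.coe_substAlgHom hs]; rfl
  have hi : Function.Injective φ := (injective_iff_map_eq_zero φ).2 fun f hf =>
    subst_inj h0 hc (by rwa [hφ, FaithfulSMul.algebraMap_eq_zero_iff] at hf)
  exact ⟨IsFractionRing.liftAlgHom hi, fun f => by
    rw [IsFractionRing.liftAlgHom_apply, IsFractionRing.lift_algebraMap]; exact hφ f⟩

/-- Substitution as an endomorphism of the field of Laurent series. -/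
theorem exists_hat {s : k⟦X⟧} (h0 : s ≠ 0) (hc : PowerSeries.constantCoeff s = 0) :
    ∃ σ : K →ₐ[k] K, ∀ q : k⟦X⟧, PowerSeries.constantCoeff q = 0 →
      σ (JJ K q) = JJ K (q.subst s) := by
  obtain ⟨σ, hσ⟩ := sub_hat K h0 hc
  refine ⟨σ, fun q hq => ?_⟩
  have hs := PowerSeries.HasSubst.of_constantCoeff_zero' hc
  have hq' := PowerSeries.HasSubst.of_constantCoeff_zero' hq
  rw [JJ, JJ, map_div₀, map_pow, hσ, hσ, PowerSeries.subst_comp_subst_apply hq' hs,
    PowerSeries.subst_comp_subst_apply hq' hs]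

/-- Substitution in Laurent series over the prime field; it preserves linear independence. -/
theorem exists_sig (p : ℕ) [Fact p.Prime] [Algebra (ZMod p) k] {q : k⟦X⟧} (h0 : q ≠ 0)
    (hc : PowerSeries.constantCoeff q = 0) :
    ∃ σ : L0 p →+* K, σ (xx p) = algebraMap k⟦X⟧ K q ∧ σ (Jb p) = JJ K q ∧
      ∀ (ι : Type) (f : ι → L0 p), LinearIndependent (ZMod p) f →
        LinearIndependent k fun i => σ (f i) := by
  classical
  have hs := PowerSeries.HasSubst.of_constantCoeff_zero' hc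
  let φ : (ZMod p)⟦X⟧ →+* K :=
    (algebraMap k⟦X⟧ K).comp (PowerSeries.substAlgHom (R := ZMod p) hs).toRingHom
  have hφ : ∀ f, φ f = algebraMap k⟦X⟧ K (f.subst q) := fun f => by
    rw [← PowerSeries.coe_substAlgHom hs]; rfl
  have hi : Function.Injective φ := (injective_iff_map_eq_zero φ).2 fun f hf => by
    rw [hφ, FaithfulSMul.algebraMap_eq_zero_iff, ← sub_map hc] at hf
    exact PowerSeries.map_injective _ (algebraMap (ZMod p) k).injective
      ((subst_inj h0 hc hf).trans (map_zero _).symm)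
  have hσ : ∀ f : (ZMod p)⟦X⟧, IsFractionRing.lift (K := L0 p) hi (algebraMap _ _ f) =
      algebraMap k⟦X⟧ K (f.subst q) := fun f => by rw [IsFractionRing.lift_algebraMap, hφ]
  refine ⟨IsFractionRing.lift hi, ?_, ?_, fun ι f hf => ?_⟩
  · rw [xx, up, hσ, PowerSeries.subst_X hs]
  · rw [Jb, Dl, up, map_div₀, map_pow, hσ, hσ, sub_cz hc, sub_cz hc, JJ]
  · rw [linearIndependent_iff'] at hf ⊢
    intro s c h i hi'
    obtain ⟨d, hd⟩ := IsLocalization.exist_integer_multiples
      (nonZeroDivisors (ZMod p)⟦X⟧) s f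
    choose! g hg using hd
    have h1 : ∑ j ∈ s, c j • PowerSeries.map (algebraMap (ZMod p) k) (g j) = 0 := by
      refine subst_inj h0 hc (IsFractionRing.injective k⟦X⟧ K ?_)
      have h2 := congrArg (fun x => IsFractionRing.lift (K := L0 p) hi
        (algebraMap _ _ (d : (ZMod p)⟦X⟧)) * x) h
      simp only [mul_zero, Finset.mul_sum] at h2
      rw [map_zero, ← h2, ← PowerSeries.coe_substAlgHom hs, map_sum, map_sum]
      refine Finset.sum_congr rfl fun j hj => ?_
      rw [map_smul, PowerSeries.coe_substAlgHom, sub_map hc, mul_smul_comm, ← map_mul,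
        ← Algebra.smul_def, ← hg j hj, hσ, Algebra.smul_def, map_mul,
        ← IsScalarTower.algebraMap_apply, ← Algebra.smul_def]
    refine (Module.forall_dual_apply_eq_zero_iff (ZMod p) (c i)).1 fun l => ?_
    refine hf s (fun j => l (c j)) ?_ i hi'
    have h3 : ∑ j ∈ s, l (c j) • g j = 0 := by
      ext e
      have h4 := congrArg (fun x => l (PowerSeries.coeff e x)) h1
      simp only [map_sum, map_smul, PowerSeries.coeff_map, map_zero, smul_eq_mul] at h4 ⊢
      rw [← h4]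
      refine Finset.sum_congr rfl fun j _ => ?_
      rw [mul_comm (c j), ← Algebra.smul_def, map_smul, smul_eq_mul, mul_comm]
    have h5 : algebraMap _ (L0 p) (d : (ZMod p)⟦X⟧) * ∑ j ∈ s, l (c j) • f j = 0 := by
      rw [← map_zero (algebraMap (ZMod p)⟦X⟧ (L0 p)), ← h3, map_sum, Finset.mul_sum]
      refine Finset.sum_congr rfl fun j hj => ?_
      rw [mul_smul_comm, ← Algebra.smul_def, ← hg j hj, Algebra.smul_def, Algebra.smul_def,
        map_mul, ← IsScalarTower.algebraMap_apply]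
    exact (mul_eq_zero.1 h5).resolve_left
      (IsFractionRing.to_map_ne_zero_of_mem_nonZeroDivisors d.2)

theorem sub_frob (p : ℕ) [hp : Fact p.Prime] [Algebra (ZMod p) k] {q : k⟦X⟧}
    (hc : PowerSeries.constantCoeff q = 0) (e : ℕ) (F : ℤ⟦X⟧) :
    (F.subst (q ^ p ^ e) : k⟦X⟧) = F.subst q ^ p ^ e := by
  have hs := PowerSeries.HasSubst.of_constantCoeff_zero' hc
  have hN : p ^ e ≠ 0 := pow_ne_zero _ hp.out.ne_zero
  have hc' : PowerSeries.constantCoeff (q ^ p ^ e) = 0 := by rw [map_pow, hc, zero_pow hN]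
  have h1 : (cz (ZMod p) F).subst (PowerSeries.X ^ p ^ e : (ZMod p)⟦X⟧) =
      cz (ZMod p) F ^ p ^ e := by
    rw [← PowerSeries.expand_apply _ hN,
      ← MvPowerSeries.map_iterateFrobenius_expand p hp.out.ne_zero,
      RingHom.ext_zmod (iterateFrobenius (ZMod p) p e) (RingHom.id _), MvPowerSeries.map_id]
    rfl
  rw [← sub_cz (R := ZMod p) hc, ← sub_cz (R := ZMod p) hc', ← PowerSeries.subst_pow hs, ← h1,
    PowerSeries.subst_comp_subst_apply (PowerSeries.HasSubst.X_pow hN) hs,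
    PowerSeries.subst_pow hs, PowerSeries.subst_X hs]

omit [IsFractionRing k⟦X⟧ K] [Algebra k K] [IsScalarTower k k⟦X⟧ K] in
theorem JJ_pow (p : ℕ) [Fact p.Prime] [Algebra (ZMod p) k] {q : k⟦X⟧}
    (hc : PowerSeries.constantCoeff q = 0) (e : ℕ) : JJ K (q ^ p ^ e) = JJ K q ^ p ^ e := by
  rw [JJ, JJ, sub_frob p hc, sub_frob p hc, map_pow, map_pow, div_pow, pow_right_comm]

/-- A relation over `k` at one parameter holds at every parameter. -/
theorem rel_all {s0 s : k⟦X⟧} (h0 : s0 ≠ 0) (hc0 : PowerSeries.constantCoeff s0 = 0) (h : s ≠ 0)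
    (hc : PowerSeries.constantCoeff s = 0) {a b : ℕ} (ha : 0 < a) (hb : 0 < b) (ζ : k)
    (R : MvPolynomial (Fin 2) k)
    (hR : MvPolynomial.aeval ![JJ K (PowerSeries.C ζ * s0 ^ a), JJ K (s0 ^ b)] R = 0) :
    MvPolynomial.aeval ![JJ K (PowerSeries.C ζ * s ^ a), JJ K (s ^ b)] R = 0 := by
  have key : ∀ {t : k⟦X⟧}, t ≠ 0 → PowerSeries.constantCoeff t = 0 → ∃ σ : K →ₐ[k] K,
      σ (MvPolynomial.aeval ![JJ K (PowerSeries.C ζ * PowerSeries.X ^ a : k⟦X⟧),
        JJ K (PowerSeries.X ^ b : k⟦X⟧)] R) =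
        MvPolynomial.aeval ![JJ K (PowerSeries.C ζ * t ^ a), JJ K (t ^ b)] R := by
    intro t h1 h2
    have hs := PowerSeries.HasSubst.of_constantCoeff_zero' h2
    obtain ⟨σ, hσ⟩ := exists_hat K h1 h2
    refine ⟨σ, ?_⟩
    rw [← AlgHom.comp_apply, MvPolynomial.comp_aeval]
    congr 2
    funext i
    fin_cases i
    · simp only [Fin.zero_eta, Matrix.cons_val_zero]
      rw [hσ _ (by simp [ha.ne']), PowerSeries.subst_mul hs, PowerSeries.subst_pow hs,
        PowerSeries.subst_X hs, PowerSeries.subst_C]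
      rfl
    · simp only [Fin.mk_one, Matrix.cons_val_one, Matrix.cons_val_zero]
      rw [hσ _ (by simp [hb.ne']), PowerSeries.subst_pow hs, PowerSeries.subst_X hs]
  obtain ⟨σ0, e0⟩ := key h0 hc0
  obtain ⟨σ, e⟩ := key h hc
  rw [← e, (map_eq_zero_iff σ0 σ0.injective).1 (e0.trans hR), map_zero]

end Pool.Agent.Lib.MP_8f9d9d_nt.H53
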