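import Pool.Agent.Lib.MP_8f9d9d_nt.H53Level
import Pool.Agent.Lib.MP_8f9d9d_nt.H53Sub

set_option autoImplicit false

open scoped PowerSeries UpperHalfPlane IntermediateField Polynomial Real

namespace Pool.Agent.Lib.MP_8f9d9d_nt.H53

/-- A complex root of unity of order `r` can be sent to any primitive `r`-th root of unity. -/
theorem exists_O' {k : Type*} [Field k] {r : ℕ} (hr : 0 < r) {ζ : k} (hζ : IsPrimitiveRoot ζ r) :
    ∃ (O : Subring ℂ) (ω : O) (ψ : O →+* k),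
      (ω : ℂ) = Complex.exp (2 * π * Complex.I / (r : ℂ)) ∧ ψ ω = ζ := by
  set z : ℂ := Complex.exp (2 * π * Complex.I / (r : ℂ)) with hz
  have hprim : IsPrimitiveRoot z r := Complex.isPrimitiveRoot_exp _ hr.ne'
  have hint : IsIntegral ℤ z := hprim.isIntegral hr
  have hmin : Polynomial.cyclotomic r ℤ = minpoly ℤ z := Polynomial.cyclotomic_eq_minpoly hprim hr
  let S : Subalgebra ℤ ℂ := Algebra.adjoin ℤ {z}
  have hzS : z ∈ S := Algebra.subset_adjoin (Set.mem_singleton z)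
  let pb := Algebra.adjoin.powerBasis' hint
  have hgen : pb.gen = ⟨z, hzS⟩ := Algebra.adjoin.powerBasis'_gen hint
  have hmg : minpoly ℤ pb.gen = minpoly ℤ z := by
    rw [hgen]
    exact (minpoly.algebraMap_eq (A := ℤ) (B := S) (B' := ℂ) Subtype.val_injective ⟨z, hzS⟩).symm
  have h1 : Polynomial.aeval ζ (minpoly ℤ pb.gen) = 0 := by
    rw [hmg, ← hmin, Polynomial.aeval_def, Polynomial.eval₂_eq_eval_map, Polynomial.map_cyclotomic]
    exact hζ.isRoot_cyclotomic hr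
  let φ : S →ₐ[ℤ] k := pb.lift ζ h1
  let ι : S.toSubring →+* S := RingHom.codRestrict S.toSubring.subtype S (fun x => x.2)
  let x : S.toSubring := ⟨z, hzS⟩
  refine ⟨S.toSubring, x, φ.toRingHom.comp ι, rfl, ?_⟩
  have : ι x = pb.gen := by rw [hgen]; rfl
  change φ (ι x) = ζ
  rw [this]
  exact pb.lift_gen ζ h1

/-- The series `F (c X ^ a)`. -/
noncomputable def phi1_tw {R : Type*} [CommRing R] (c : R) (a : ℕ) (F : ℤ⟦X⟧) : R⟦X⟧ :=
  PowerSeries.mk fun e => if a ∣ e then (PowerSeries.coeff (e / a) F : ℤ) * c ^ (e / a) else 0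

theorem phi1_map {R S : Type*} [CommRing R] [CommRing S] (ψ : R →+* S) (c : R) (a : ℕ)
    (F : ℤ⟦X⟧) : PowerSeries.map ψ (phi1_tw c a F) = phi1_tw (ψ c) a F := by
  ext e
  simp [phi1_tw, apply_ite ψ]

theorem phi1_subst {k : Type*} [Field k] (c : k) {a : ℕ} (ha : 0 < a) (F : ℤ⟦X⟧) :
    (F.subst (PowerSeries.C c * PowerSeries.X ^ a : k⟦X⟧) : k⟦X⟧) = phi1_tw c a F := by
  have hs := PowerSeries.HasSubst.of_constantCoeff_zero'
    (a := (PowerSeries.C c * PowerSeries.X ^ a : k⟦X⟧)) (by simp [ha.ne'])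
  ext e
  rw [PowerSeries.coeff_subst' hs, phi1_tw, PowerSeries.coeff_mk]
  simp only [mul_pow, ← map_pow, ← pow_mul, PowerSeries.coeff_C_mul, PowerSeries.coeff_X_pow]
  split_ifs with h
  · obtain ⟨d, rfl⟩ := h
    rw [finsum_eq_single _ d fun d' hd => by
      rw [if_neg fun h => hd (Nat.eq_of_mul_eq_mul_left ha h).symm, mul_zero, smul_zero]]
    simp [Nat.mul_div_cancel_left d ha]
  · exact finsum_eq_zero_of_forall_eq_zero fun d => by
      rw [if_neg fun h' => h ⟨d, h'⟩, mul_zero, smul_zero]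

theorem phi1_rep {f : ℍ → ℂ} {F : ℤ⟦X⟧} (hf : Rep 1 f (cz ℂ F)) {a : ℕ} (ha : 0 < a) (s : ℂ)
    {t : ℍ → ℍ} (ht : ∀ τ, (t τ : ℂ) = a * τ + s) :
    Rep 1 (fun τ => f (t τ)) (phi1_tw (Complex.exp (2 * π * Complex.I * s)) a F) := by
  intro τ
  have h1 : Function.Periodic.qParam ((1 : ℕ) : ℝ) (t τ) =
      Complex.exp (2 * π * Complex.I * s) * Function.Periodic.qParam ((1 : ℕ) : ℝ) τ ^ a := by
    rw [Function.Periodic.qParam, Function.Periodic.qParam, ← Complex.exp_nat_mul,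
      ← Complex.exp_add, ht]
    congr 1
    push_cast
    ring
  refine ((mul_right_injective₀ ha.ne').hasSum_iff fun m hm => ?_).1 ?_
  · rw [phi1_tw, PowerSeries.coeff_mk, if_neg, zero_mul]
    rintro ⟨d, rfl⟩
    exact hm ⟨d, rfl⟩
  · simpa only [Function.comp_def, phi1_tw, PowerSeries.coeff_mk, dvd_mul_right, if_true,
      Nat.mul_div_cancel_left _ ha, pow_mul, h1, mul_pow, mul_assoc, level_coeff_cz] using hf (t τ)

theorem phi1_ne {k : Type*} [Field k] {c : k} (hc : c ≠ 0) {a : ℕ} (ha : 0 < a) :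
    phi1_tw c a Dz ≠ 0 := by
  obtain ⟨U, hU, hD⟩ := Dz_fac
  intro h
  have h1 := congrArg (PowerSeries.coeff a) h
  have h2 : PowerSeries.coeff 1 Dz = 1 := by
    rw [hD, PowerSeries.coeff_succ_X_mul, PowerSeries.coeff_zero_eq_constantCoeff_apply, hU]
  simp [phi1_tw, Nat.div_self ha, h2, hc] at h1

theorem phi1_hom {L : Type*} [Field L] (Φ : MvPolynomial (Fin 2) ℤ) (e1 e2 : L) {d1 d2 : L}
    (h1 : d1 ≠ 0) (h2 : d2 ≠ 0) :
    ∑ m ∈ Φ.support, ((Φ.coeff m : ℤ) : L) * (e1 ^ (3 * m 0) * d1 ^ (Φ.totalDegree - m 0) *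
      (e2 ^ (3 * m 1) * d2 ^ (Φ.totalDegree - m 1))) =
      d1 ^ Φ.totalDegree * d2 ^ Φ.totalDegree *
        MvPolynomial.aeval ![e1 ^ 3 / d1, e2 ^ 3 / d2] Φ := by
  rw [MvPolynomial.aeval_def, MvPolynomial.eval₂_eq', Finset.mul_sum]
  refine Finset.sum_congr rfl fun m hm => ?_
  have h3 : ∀ i, m i ≤ Φ.totalDegree := fun i =>
    (MvPolynomial.monomial_le_degreeOf i hm).trans (MvPolynomial.degreeOf_le_totalDegree Φ i)
  rw [pow_sub₀ _ h1 (h3 0), pow_sub₀ _ h2 (h3 1), Fin.prod_univ_two]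
  simp only [Matrix.cons_val_zero, Matrix.cons_val_one, div_pow, ← pow_mul, eq_intCast,
    algebraMap_int_eq]
  field_simp

/-- An identity between complex values of `j` gives the identity between the series over `k`. -/
theorem phi_transfer (Φ : MvPolynomial (Fin 2) ℤ) {r a b : ℕ} (hr : 0 < r) (ha : 0 < a) (hb : 0 < b)
    (h : ∀ τ τ1 τ2 : ℍ, (τ1 : ℂ) = a * τ + 1 / r → (τ2 : ℂ) = b * τ →
      MvPolynomial.aeval ![ModularForm.E₄ τ1 ^ 3 / ModularForm.discriminant τ1,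
        ModularForm.E₄ τ2 ^ 3 / ModularForm.discriminant τ2] Φ = 0)
    {k : Type*} [Field k] {ζ : k} (hζ : IsPrimitiveRoot ζ r) (K : Type*) [Field K]
    [Algebra k⟦X⟧ K] [IsFractionRing k⟦X⟧ K] :
    MvPolynomial.aeval ![JJ K (PowerSeries.C ζ * PowerSeries.X ^ a : k⟦X⟧),
      JJ K (PowerSeries.X ^ b : k⟦X⟧)] Φ = 0 := by
  obtain ⟨O, ω, ψ, hω, hψ⟩ := exists_O' hr hζ
  let t1 : ℍ → ℍ := fun τ => ⟨a * τ + 1 / r, by
    have : (1 / r : ℂ).im = 0 := by rw [← Complex.ofReal_natCast, ← Complex.ofReal_one,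
      ← Complex.ofReal_div, Complex.ofReal_im]
    simpa [this, ha] using τ.im_pos⟩
  let t2 : ℍ → ℍ := fun τ => ⟨b * τ + 0, by simpa [hb] using τ.im_pos⟩
  have e1 : Complex.exp (2 * π * Complex.I * (1 / r)) = O.subtype ω := by
    rw [mul_one_div, ← hω]
    rfl
  have e2 : Complex.exp (2 * π * Complex.I * 0) = O.subtype 1 := by simp
  have a1 := phi1_rep rep_E4 ha _ (t := t1) fun _ => rfl
  have a2 := phi1_rep rep_Dz ha _ (t := t1) fun _ => rfl
  have a3 := phi1_rep rep_E4 hb _ (t := t2) fun _ => rfl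
  have a4 := phi1_rep rep_Dz hb _ (t := t2) fun _ => rfl
  rw [e1, ← phi1_map] at a1 a2
  rw [e2, ← phi1_map] at a3 a4
  have h1 := rep_sum Φ.support _ _ fun m _ => (rep_C 1 ((Φ.coeff m : ℤ) : ℂ)).mul one_pos
    (((a1.pow one_pos (3 * m 0)).mul one_pos (a2.pow one_pos (Φ.totalDegree - m 0))).mul one_pos
      ((a3.pow one_pos (3 * m 1)).mul one_pos (a4.pow one_pos (Φ.totalDegree - m 1))))
  have h2 := h1.unique one_pos (G := PowerSeries.C 0) (by
    convert rep_C 1 0 using 2 with τ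
    rw [phi1_hom Φ _ _ (ModularForm.discriminant_ne_zero _) (ModularForm.discriminant_ne_zero _),
      h τ (t1 τ) (t2 τ) rfl (add_zero _), mul_zero])
  have h3 : ∑ m ∈ Φ.support, ((Φ.coeff m : ℤ) : O⟦X⟧) * (phi1_tw ω a E4z ^ (3 * m 0) *
      phi1_tw ω a Dz ^ (Φ.totalDegree - m 0) * (phi1_tw 1 b E4z ^ (3 * m 1) *
        phi1_tw 1 b Dz ^ (Φ.totalDegree - m 1))) = 0 :=
    PowerSeries.map_injective O.subtype O.subtype_injective (by
      simpa only [map_sum, map_mul, map_pow, map_intCast, map_zero] using h2)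
  have h4 := congrArg ((algebraMap k⟦X⟧ K).comp (PowerSeries.map ψ)) h3
  have h5 : ∀ c : k, c ≠ 0 → ∀ a : ℕ, 0 < a → algebraMap k⟦X⟧ K (phi1_tw c a Dz) ≠ 0 :=
    fun c hc a ha => (map_ne_zero_iff _ (IsFractionRing.injective k⟦X⟧ K)).2 (phi1_ne hc ha)
  have h6 := h5 ζ (hζ.ne_zero hr.ne') a ha
  have h7 := h5 1 one_ne_zero b hb
  simp only [map_sum, map_mul, map_pow, map_intCast, map_zero, RingHom.comp_apply, phi1_map, hψ,
    map_one] at h4
  rw [phi1_hom Φ _ _ h6 h7] at h4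
  have h8 := phi1_subst (1 : k) hb
  rw [map_one, one_mul] at h8
  rw [JJ, JJ, phi1_subst ζ ha, phi1_subst ζ ha, h8, h8]
  exact (mul_eq_zero.1 h4).resolve_left (mul_ne_zero (pow_ne_zero _ h6) (pow_ne_zero _ h7))

end Pool.Agent.Lib.MP_8f9d9d_nt.H53
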