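import Pool.Agent.Lib.MP_8f9d9d_nt.H53Defs

set_option autoImplicit false

open scoped PowerSeries UpperHalfPlane IntermediateField Polynomial Real

namespace Pool.Agent.Lib.MP_8f9d9d_nt.H53

theorem phi2_zero (j : ℂ → ℂ) (Φ : ℕ → MvPolynomial (Fin 2) ℤ)
    (hΦ : ∀ s : ℕ, 0 < s → ∀ τ : ℂ, 0 < τ.im → ∀ x : ℂ, MvPolynomial.aeval ![x, j τ] (Φ s) =
      ∏ c ∈ s.divisorsAntidiagonal,
        ∏ b ∈ (Finset.range c.2).filter (fun b => Nat.gcd (Nat.gcd c.1 b) c.2 = 1),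
          (x - j ((c.1 * τ + b) / c.2)))
    {A B D : ℕ} (hA : 0 < A) (hBD : B < D) (hg : Nat.gcd (Nat.gcd A B) D = 1) {τ : ℂ}
    (hτ : 0 < τ.im) {x : ℂ} (hx : x = j ((A * τ + B) / D)) :
    MvPolynomial.aeval ![x, j τ] (Φ (A * D)) = 0 := by
  have hD : 0 < D := lt_of_le_of_lt (Nat.zero_le B) hBD
  rw [hΦ _ (Nat.mul_pos hA hD) τ hτ]
  refine Finset.prod_eq_zero (i := (A, D))
    (Nat.mem_divisorsAntidiagonal.2 ⟨rfl, (Nat.mul_pos hA hD).ne'⟩) ?_
  exact Finset.prod_eq_zero (i := B) (Finset.mem_filter.2 ⟨Finset.mem_range.2 hBD, hg⟩)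
    (sub_eq_zero.2 hx)

theorem phi2_prim {A B D : ℕ} (hA : 0 < A) : ∃ g A' B' D' : ℕ, 0 < g ∧ A = g * A' ∧ B = g * B' ∧
    D = g * D' ∧ Nat.gcd (Nat.gcd A' B') D' = 1 := by
  have hg : 0 < Nat.gcd (Nat.gcd A B) D := Nat.gcd_pos_of_pos_left _ (Nat.gcd_pos_of_pos_left _ hA)
  obtain ⟨A', hA'⟩ : Nat.gcd (Nat.gcd A B) D ∣ A :=
    (Nat.gcd_dvd_left _ _).trans (Nat.gcd_dvd_left _ _)
  obtain ⟨B', hB'⟩ : Nat.gcd (Nat.gcd A B) D ∣ B :=
    (Nat.gcd_dvd_left _ _).trans (Nat.gcd_dvd_right _ _)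
  obtain ⟨D', hD'⟩ : Nat.gcd (Nat.gcd A B) D ∣ D := Nat.gcd_dvd_right _ _
  generalize hgg : Nat.gcd (Nat.gcd A B) D = g at *
  refine ⟨g, A', B', D', hg, hA', hB', hD', Nat.eq_of_mul_eq_mul_left hg ?_⟩
  rw [← Nat.gcd_mul_left, ← Nat.gcd_mul_left, ← hA', ← hB', ← hD', hgg, mul_one]

theorem phi2_zero' (j : ℂ → ℂ) (Φ : ℕ → MvPolynomial (Fin 2) ℤ)
    (hΦ : ∀ s : ℕ, 0 < s → ∀ τ : ℂ, 0 < τ.im → ∀ x : ℂ, MvPolynomial.aeval ![x, j τ] (Φ s) =
      ∏ c ∈ s.divisorsAntidiagonal,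
        ∏ b ∈ (Finset.range c.2).filter (fun b => Nat.gcd (Nat.gcd c.1 b) c.2 = 1),
          (x - j ((c.1 * τ + b) / c.2)))
    {A B D : ℕ} (hA : 0 < A) (hBD : B < D) : ∃ s : ℕ, 0 < s ∧ ∀ τ : ℂ, 0 < τ.im →
      MvPolynomial.aeval ![j ((A * τ + B) / D), j τ] (Φ s) = 0 := by
  obtain ⟨g, A', B', D', hg, rfl, rfl, rfl, h⟩ := phi2_prim (B := B) (D := D) hA
  have hA' : 0 < A' := Nat.pos_of_mul_pos_left hA
  have hBD' : B' < D' := Nat.lt_of_mul_lt_mul_left hBD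
  refine ⟨A' * D', Nat.mul_pos hA' (lt_of_le_of_lt (Nat.zero_le _) hBD'), fun τ hτ =>
    phi2_zero j Φ hΦ hA' hBD' h hτ (congrArg j ?_)⟩
  have hg' : (g : ℂ) ≠ 0 := Nat.cast_ne_zero.2 hg.ne'
  push_cast
  rw [mul_assoc, ← mul_add, mul_div_mul_left _ _ hg']

/-- The pair `(a τ + 1/r, b τ)` lies on a modular correspondence. -/
theorem phi_index (j : ℂ → ℂ) (Φ : ℕ → MvPolynomial (Fin 2) ℤ)
    (hΦ : ∀ s : ℕ, 0 < s → ∀ τ : ℂ, 0 < τ.im → ∀ x : ℂ, MvPolynomial.aeval ![x, j τ] (Φ s) =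
      ∏ c ∈ s.divisorsAntidiagonal,
        ∏ b ∈ (Finset.range c.2).filter (fun b => Nat.gcd (Nat.gcd c.1 b) c.2 = 1),
          (x - j ((c.1 * τ + b) / c.2)))
    (hj : ∀ τ : ℂ, 0 < τ.im → j (τ + 1) = j τ) {r a b : ℕ} (hr : 0 < r) (ha : 0 < a)
    (hb : 0 < b) : ∃ s : ℕ, 0 < s ∧ ∀ τ : ℂ, 0 < τ.im →
      MvPolynomial.aeval ![j (a * τ + 1 / r), j (b * τ)] (Φ s) = 0 := by
  have hb' : (b : ℂ) ≠ 0 := Nat.cast_ne_zero.2 hb.ne'
  have hr' : (r : ℂ) ≠ 0 := Nat.cast_ne_zero.2 hr.ne'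
  have him : ∀ (c : ℕ), 0 < c → ∀ τ : ℂ, 0 < τ.im → 0 < ((c : ℂ) * τ).im := fun c hc τ hτ => by
    rw [Complex.mul_im, Complex.natCast_im, zero_mul, add_zero, Complex.natCast_re]
    exact mul_pos (Nat.cast_pos.2 hc) hτ
  rcases (Nat.succ_le_of_lt hr).eq_or_lt with h1 | h1
  · obtain ⟨s, hs, h⟩ := phi2_zero' j Φ hΦ (A := a) (B := 0) (D := b) ha hb
    refine ⟨s, hs, fun τ hτ => ?_⟩
    have e : ((a : ℂ) * (b * τ) + ((0 : ℕ) : ℂ)) / b = a * τ := by
      rw [Nat.cast_zero, add_zero]; field_simp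
    have h2 := h _ (him b hb τ hτ)
    rw [e] at h2
    have hr1 : (r : ℂ) = 1 := by rw [← h1]; exact Nat.cast_one
    rw [hr1, div_one, hj _ (him a ha τ hτ)]
    exact h2
  · obtain ⟨s, hs, h⟩ := phi2_zero' j Φ hΦ (A := a * r) (B := b) (D := b * r) (Nat.mul_pos ha hr)
      (lt_mul_of_one_lt_right hb h1)
    refine ⟨s, hs, fun τ hτ => ?_⟩
    have e : (((a * r : ℕ) : ℂ) * (b * τ) + b) / ((b * r : ℕ) : ℂ) = a * τ + 1 / r := by
      push_cast; field_simp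
    have h2 := h _ (him b hb τ hτ)
    rwa [e] at h2

theorem phi2_dvd {R K : Type*} [CommRing R] [IsDomain R] [UniqueFactorizationMonoid R] [Field K]
    (φ : R →+* K) (hφ : Function.Injective φ) {y : K} {p q : R[X]} (hp : Irreducible p)
    (h1 : p.eval₂ φ y = 0) (h2 : q.eval₂ φ y = 0) : p ∣ q := by
  have hd : p.natDegree ≠ 0 := fun h0 => by
    rw [Polynomial.eq_C_of_natDegree_eq_zero h0, Polynomial.eval₂_C] at h1
    refine hp.ne_zero ?_
    rw [Polynomial.eq_C_of_natDegree_eq_zero h0, hφ (h1.trans φ.map_zero.symm), map_zero]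
  have hprim := hp.isPrimitive hd
  let ψ : FractionRing R →+* K := IsFractionRing.lift hφ
  let _ : Algebra (FractionRing R) K := ψ.toAlgebra
  have hψ : (algebraMap (FractionRing R) K).comp (algebraMap R (FractionRing R)) = φ :=
    RingHom.ext fun a => IsFractionRing.lift_algebraMap hφ a
  have hev : ∀ f : R[X], Polynomial.aeval y (f.map (algebraMap R (FractionRing R))) =
      f.eval₂ φ y := fun f => by
    rw [Polynomial.aeval_def, Polynomial.eval₂_map, hψ]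
  have hirr := (hprim.irreducible_iff_irreducible_map_fraction_map (K := FractionRing R)).1 hp
  rw [hprim.dvd_iff_fraction_map_dvd_fraction_map (FractionRing R)]
  have h3 : minpoly (FractionRing R) y ∣ p.map (algebraMap R (FractionRing R)) :=
    minpoly.dvd _ _ ((hev p).trans h1)
  have h4 : minpoly (FractionRing R) y ∣ q.map (algebraMap R (FractionRing R)) :=
    minpoly.dvd _ _ ((hev q).trans h2)
  have hint : IsIntegral (FractionRing R) y :=
    (show IsAlgebraic (FractionRing R) y from ⟨_, hirr.ne_zero, (hev p).trans h1⟩).isIntegral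
  exact ((minpoly.irreducible hint).associated_of_dvd hirr h3).symm.dvd.trans h4

/-- An irreducible relation divides every relation. -/
theorem dvd_of_rel {A K : Type*} [CommRing A] [IsDomain A] [UniqueFactorizationMonoid A] [Field K]
    [Algebra A K] (hinj : Function.Injective (algebraMap A K)) {x y : K}
    (hx : Transcendental A x) {P Q : MvPolynomial (Fin 2) A} (hP : Irreducible P)
    (h1 : MvPolynomial.aeval ![x, y] P = 0) (h2 : MvPolynomial.aeval ![x, y] Q = 0) : P ∣ Q := by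
  let e := Polynomial.Bivariate.equivMvPolynomial A
  let φ : A[X] →+* K := (Polynomial.aeval x).toRingHom
  have hφ : Function.Injective φ := transcendental_iff_injective.1 hx
  have hev : ∀ f : MvPolynomial (Fin 2) A,
      (e.symm f).eval₂ φ y = MvPolynomial.aeval ![x, y] f := fun f => by
    induction f using MvPolynomial.induction_on with
    | C a => simp [e, φ]
    | add p q hp hq => rw [map_add, Polynomial.eval₂_add, hp, hq, map_add]
    | mul_X p i hp =>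
      rw [map_mul, Polynomial.eval₂_mul, hp, map_mul]
      fin_cases i <;> simp [e, φ]
  have _ := hinj
  have h := phi2_dvd φ hφ ((MulEquiv.irreducible_iff e.symm).2 hP) ((hev P).trans h1)
    ((hev Q).trans h2)
  exact (map_dvd_iff e.symm).1 h

end Pool.Agent.Lib.MP_8f9d9d_nt.H53
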