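import Pool.Agent.Lib.MP_8f9d9d_nt.H53Main
import Pool.Agent.Lib.MP_8f9d9d_nt.H53Phi1
import Pool.Agent.Lib.MP_8f9d9d_nt.H53Phi2

set_option autoImplicit false

open scoped PowerSeries UpperHalfPlane IntermediateField Polynomial Real

namespace Pool.Agent.Lib.MP_8f9d9d_nt.H53

/-- One point: the value of the invariant at an algebraic point is transcendental. -/
theorem voloch (p : ℕ) [Fact p.Prime] {k : Type*} [Field k] [IsAlgClosed k] [Algebra (ZMod p) k]
    (K : Type*) [Field K] [Algebra k⟦X⟧ K] [IsFractionRing k⟦X⟧ K] [Algebra k K]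
    [IsScalarTower k k⟦X⟧ K] [Algebra k[X] K] [IsScalarTower k[X] k⟦X⟧ K] {q : k⟦X⟧} (h : q ≠ 0)
    (c : PowerSeries.constantCoeff q = 0) (a : IsAlgebraic k[X] q) :
    Transcendental k[X] (JJ K q) := by
  have hp : p.Prime := Fact.out
  have : CharP k p := charP_of_injective_algebraMap (algebraMap (ZMod p) k).injective p
  have : CharP K p := charP_of_injective_algebraMap (algebraMap k K).injective p
  obtain ⟨e, r, hr, cr, hq, np⟩ := exists_root p K h c
  obtain ⟨σ, x, j, l⟩ := exists_sig K p hr cr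
  have P : Pt p k (algebraMap k⟦X⟧ K r) (JJ K r) := by
    have := pt_of_sig p (k := k) σ l (by rw [x]; exact np)
    rwa [x, j] at this
  have A : IsAlgebraic k⟮algebraMap k⟦X⟧ K PowerSeries.X⟯ (algebraMap k⟦X⟧ K r) := by
    have := main_aux_alg K a
    rw [hq, map_pow] at this
    exact IsAlgebraic.of_pow (pow_pos hp.pos _) this
  have T := (caseV (X_not_pow p K) P A).pow (pow_pos hp.pos e)
  rw [← JJ_pow K p cr, ← hq] at T
  intro hal
  apply T
  set t : K := algebraMap k⟦X⟧ K PowerSeries.X with ht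
  let f : k[X] →+* k⟮t⟯ := (Polynomial.aeval (IntermediateField.AdjoinSimple.gen k t)).toRingHom
  have hc : RingHom.comp (algebraMap k⟮t⟯ K) f = RingHom.comp (RingHom.id K) (algebraMap k[X] K) := by
    rw [RingHom.id_comp, IsScalarTower.algebraMap_eq k[X] k⟦X⟧ K]
    apply Polynomial.ringHom_ext
    · intro c
      have e1 : algebraMap k[X] k⟦X⟧ (Polynomial.C c) = algebraMap k k⟦X⟧ c := by
        rw [← Polynomial.algebraMap_eq, ← IsScalarTower.algebraMap_apply]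
      simp only [RingHom.comp_apply, e1, ← IsScalarTower.algebraMap_apply]
      simp [f]
    · have e1 : algebraMap k[X] k⟦X⟧ Polynomial.X = PowerSeries.X := by
        simp [PowerSeries.algebraMap_apply']
      simp only [RingHom.comp_apply, e1]
      simp [f, ht]
  have hi : Function.Injective f := by
    have h1 : Function.Injective (RingHom.comp (algebraMap k⟮t⟯ K) f) := by
      rw [hc, RingHom.id_comp, IsScalarTower.algebraMap_eq k[X] k⟦X⟧ K]
      refine (IsFractionRing.injective k⟦X⟧ K).comp ?_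
      intro x y hxy
      simpa [PowerSeries.algebraMap_apply'] using hxy
    exact Function.Injective.of_comp (f := algebraMap k⟮t⟯ K) h1
  exact hal.ringHom_of_comp_eq f (RingHom.id K) hi hc

theorem root_of_unity (p : ℕ) [Fact p.Prime] {k : Type*} [Field k] [Algebra (ZMod p) k]
    [Algebra.IsAlgebraic (ZMod p) k] {ζ : k} (hζ : ζ ≠ 0) :
    ∃ r : ℕ, 0 < r ∧ IsPrimitiveRoot ζ r := by
  have hi : IsIntegral (ZMod p) ζ := (Algebra.IsAlgebraic.isAlgebraic ζ).isIntegral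
  have : FiniteDimensional (ZMod p) (IntermediateField.adjoin (ZMod p) {ζ}) :=
    IntermediateField.adjoin.finiteDimensional hi
  have : Finite (IntermediateField.adjoin (ZMod p) {ζ}) := Module.finite_of_finite (ZMod p)
  let u : (IntermediateField.adjoin (ZMod p) {ζ})ˣ := Units.mk0
    ⟨ζ, IntermediateField.mem_adjoin_simple_self _ _⟩ fun h0 => hζ (congrArg Subtype.val h0)
  have h1 := congrArg (fun w : (IntermediateField.adjoin (ZMod p) {ζ})ˣ =>
    ((w : IntermediateField.adjoin (ZMod p) {ζ}) : k)) (pow_orderOf_eq_one u)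
  simp only [Units.val_pow_eq_pow_val, SubmonoidClass.coe_pow, Units.val_one,
    OneMemClass.coe_one] at h1
  have hf : IsOfFinOrder ζ := isOfFinOrder_iff_pow_eq_one.2 ⟨orderOf u, orderOf_pos u, h1⟩
  exact ⟨orderOf ζ, hf.orderOf_pos, IsPrimitiveRoot.orderOf ζ⟩

theorem phi_per {f : ℍ → ℂ} {F : ℂ⟦X⟧} (h : Rep 1 f F) {τ : ℂ} (hτ : 0 < τ.im)
    (hτ' : 0 < (τ + 1).im) : f ⟨τ + 1, hτ'⟩ = f ⟨τ, hτ⟩ := by
  have h1 := h ⟨τ + 1, hτ'⟩
  have e : Function.Periodic.qParam ((1 : ℕ) : ℝ) ((⟨τ + 1, hτ'⟩ : ℍ) : ℂ) =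
      Function.Periodic.qParam ((1 : ℕ) : ℝ) ((⟨τ, hτ⟩ : ℍ) : ℂ) := by
    change Complex.exp (2 * π * Complex.I * (τ + 1) / (((1 : ℕ) : ℝ) : ℂ)) =
      Complex.exp (2 * π * Complex.I * τ / (((1 : ℕ) : ℝ) : ℂ))
    rw [Nat.cast_one, Complex.ofReal_one, div_one, div_one, mul_add, mul_one, Complex.exp_add,
      Complex.exp_two_pi_mul_I, mul_one]
  rw [e] at h1
  exact h1.unique (h ⟨τ, hτ⟩)

/-- The values at `ζ s^a` and `s^b` are a zero of a modular polynomial. -/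
theorem phi_zero (j : ℂ → ℂ)
    (hj : ∀ τ : ℍ, j τ = ModularForm.E₄ τ ^ 3 / ModularForm.discriminant τ)
    (Φ : ℕ → MvPolynomial (Fin 2) ℤ)
    (hΦ : ∀ s : ℕ, 0 < s → ∀ τ : ℂ, 0 < τ.im → ∀ x : ℂ, MvPolynomial.aeval ![x, j τ] (Φ s) =
      ∏ c ∈ s.divisorsAntidiagonal,
        ∏ b ∈ (Finset.range c.2).filter (fun b => Nat.gcd (Nat.gcd c.1 b) c.2 = 1),
          (x - j ((c.1 * τ + b) / c.2)))
    {k : Type*} [Field k] (K : Type*) [Field K] [Algebra k⟦X⟧ K] [IsFractionRing k⟦X⟧ K]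
    [Algebra k K] [IsScalarTower k k⟦X⟧ K] {ζ : k} {r a b : ℕ} (hr : 0 < r)
    (hζ : IsPrimitiveRoot ζ r) (ha : 0 < a) (hb : 0 < b) {s0 : k⟦X⟧} (h0 : s0 ≠ 0)
    (c0 : PowerSeries.constantCoeff s0 = 0) : ∃ s : ℕ, 0 < s ∧
      MvPolynomial.aeval ![JJ K (PowerSeries.C ζ * s0 ^ a), JJ K (s0 ^ b)] (Φ s) = 0 := by
  obtain ⟨s, hs, h⟩ := phi_index j Φ hΦ (fun τ hτ => by
    have hτ' : 0 < (τ + 1).im := by simpa using hτ
    have h1 := hj ⟨τ + 1, hτ'⟩
    have h2 := hj ⟨τ, hτ⟩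
    rw [phi_per rep_E4 hτ hτ', phi_per rep_Dz hτ hτ', ← h2] at h1
    exact h1) hr ha hb
  refine ⟨s, hs, ?_⟩
  have h1 := phi_transfer (Φ s) hr ha hb (fun τ τ1 τ2 e1 e2 => by
    rw [← hj, ← hj, e1, e2]
    exact h τ τ.im_pos) hζ K
  have h2 := rel_all K (k := k) PowerSeries.X_ne_zero PowerSeries.constantCoeff_X h0 c0 ha hb ζ
    (MvPolynomial.map (algebraMap ℤ k) (Φ s)) (by rw [MvPolynomial.aeval_map_algebraMap]; exact h1)
  rwa [MvPolynomial.aeval_map_algebraMap] at h2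

end Pool.Agent.Lib.MP_8f9d9d_nt.H53
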