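import Pool.Agent.Lib.MP_8f9d9d_nt.H53Ids
import Pool.Agent.Lib.MP_8f9d9d_nt.H53Fld2
import Pool.Agent.Lib.MP_8f9d9d_nt.H53Fld3
import Pool.Agent.Lib.MP_8f9d9d_nt.H53Conj
import Pool.Agent.Lib.MP_8f9d9d_nt.H53Sub

set_option autoImplicit false

open scoped PowerSeries IntermediateField Polynomial

namespace Pool.Agent.Lib.MP_8f9d9d_nt.H53

theorem ptk_mem (p : ℕ) [Fact p.Prime] {k K : Type*} [Field k] [Field K] [Algebra k K]
    (σ : L0 p →+* K) {x : L0 p} (hx : x ∈ Algebra.adjoin (ZMod p) {Jb p}) :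
    σ x ∈ k⟮σ (Jb p)⟯ := by
  induction hx using Algebra.adjoin_induction with
  | mem x hx =>
    rw [Set.mem_singleton_iff.mp hx]
    exact IntermediateField.mem_adjoin_simple_self k _
  | algebraMap r =>
    rw [← ZMod.natCast_zmod_val r, map_natCast, map_natCast]
    exact natCast_mem _ _
  | add x y _ _ hx hy => rw [map_add]; exact add_mem hx hy
  | mul x y _ _ hx hy => rw [map_mul]; exact mul_mem hx hy

theorem ptk_zv (p : ℕ) [Fact p.Prime] {K : Type*} [Field K] (σ : L0 p →+* K) (N a : ℕ) :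
    σ (zv p N a) = (σ (xx p) ^ (12 * a ^ 2) * σ (sv p N a) ^ N) ^ N := by
  simp only [zv, map_pow, map_mul]

theorem ptk_G (p : ℕ) [Fact p.Prime] {k K : Type*} [Field k] [Field K] [Algebra k K]
    (σ : L0 p →+* K) {n : ℕ} (hn : 0 < n) :
    ∃ G : k⟮σ (Jb p)⟯[X], G.map (algebraMap k⟮σ (Jb p)⟯ K) = ∏ a ∈ Finset.range (p ^ n),
      (Polynomial.X - Polynomial.C (σ (zv p (p ^ n) a))) ^ p ^ n := by
  have e : (∏ a ∈ Finset.range (p ^ n),
      (Polynomial.X - Polynomial.C (σ (zv p (p ^ n) a))) ^ p ^ n : K[X]) =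
      Polynomial.map σ (∏ a ∈ Finset.range (p ^ n),
        (Polynomial.X - Polynomial.C (zv p (p ^ n) a)) ^ p ^ n) := by
    simp only [Polynomial.map_prod, Polynomial.map_pow, Polynomial.map_sub, Polynomial.map_X,
      Polynomial.map_C]
  rw [← Polynomial.mem_lifts, Polynomial.lifts_iff_coeff_lifts]
  intro i
  rw [e, Polynomial.coeff_map]
  exact ⟨⟨_, ptk_mem p σ (mono p hn i)⟩, rfl⟩

theorem ptk_alg (p : ℕ) [Fact p.Prime] {k K : Type*} [Field k] [Field K] [Algebra k K]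
    (σ : L0 p →+* K) {n : ℕ} (hn : 0 < n) {a : ℕ} (ha : a < p ^ n) :
    IsAlgebraic k⟮σ (Jb p)⟯ (σ (zv p (p ^ n) a)) := by
  obtain ⟨G, hG⟩ := ptk_G p (k := k) σ hn
  have hN : p ^ n ≠ 0 := by omega
  refine ⟨G, ?_, ?_⟩
  · intro h0
    have hm : (∏ a ∈ Finset.range (p ^ n),
        (Polynomial.X - Polynomial.C (σ (zv p (p ^ n) a))) ^ p ^ n : K[X]).Monic :=
      Polynomial.monic_prod_of_monic _ _ fun a _ => (Polynomial.monic_X_sub_C _).pow _
    rw [← hG, h0, Polynomial.map_zero] at hm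
    exact Polynomial.not_monic_zero hm
  · rw [Polynomial.aeval_def, ← Polynomial.eval_map, hG, Polynomial.eval_prod]
    refine Finset.prod_eq_zero (Finset.mem_range.mpr ha) ?_
    rw [Polynomial.eval_pow, Polynomial.eval_sub, Polynomial.eval_X, Polynomial.eval_C, sub_self,
      zero_pow hN]

theorem ptk_lt (p : ℕ) [Fact p.Prime] {n m : ℕ} (h : m ≤ n) : 2 ^ m ≤ p ^ n :=
  le_trans (Nat.pow_le_pow_right (by norm_num) h)
    (Nat.pow_le_pow_left (Fact.out : p.Prime).two_le n)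

theorem pt_of_sig (p : ℕ) [Fact p.Prime] {k K : Type*} [Field k] [IsAlgClosed k] [Field K]
    [Algebra k K] [CharP K p] (σ : L0 p →+* K)
    (hld : ∀ (ι : Type) (f : ι → L0 p), LinearIndependent (ZMod p) f →
      LinearIndependent k fun i => σ (f i))
    (hq : ∀ w : K, w ^ p ≠ σ (xx p)) : Pt p k (σ (xx p)) (σ (Jb p)) := by
  have hdec : ∀ n : ℕ, ∃ g : ℕ → K,
      σ (Jb p) = ∑ c ∈ Finset.range (p ^ n), σ (xx p) ^ c * g c ^ p ^ n ∧
        g (p ^ n - 1) ≠ 0 := by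
    intro n
    obtain ⟨g, hg, h0⟩ := Jb_dec p n
    refine ⟨fun c => σ (g c), ?_, (map_ne_zero σ).mpr h0⟩
    conv_lhs => rw [hg]
    simp only [map_sum, map_mul, map_pow]
  have hnj : ∀ w : K, w ^ p ≠ σ (Jb p) := by
    obtain ⟨g, hg, h0⟩ := hdec 1
    exact nj_of_dec hq g hg h0
  have hsep : ∀ x : K, IsAlgebraic k⟮σ (Jb p)⟯ x → IsSeparable k⟮σ (Jb p)⟯ x :=
    fun x hx => sep1 hnj hx
  refine ⟨hq, ?_, hdec, ?_⟩
  · intro n
    have h4 : 2 ^ 2 ≤ p ^ (n + 2) := ptk_lt p (by omega)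
    obtain ⟨r, hr, e⟩ := fact1 p (N := p ^ (n + 2)) (by omega)
    refine ⟨σ r ^ p ^ 2, pow_ne_zero _ ((map_ne_zero σ).mpr hr), ?_⟩
    have hz : σ (zv p (p ^ (n + 2)) 2) ≠ 0 := by
      rw [map_ne_zero, zv]
      exact pow_ne_zero _ (mul_ne_zero (pow_ne_zero _ (xx_ne p))
        (pow_ne_zero _ (sv_ne p (by norm_num) (by omega))))
    have a1 := ptk_alg p (k := k) σ (n := n + 2) (by omega) (a := 1) (by omega)
    have a2 := ptk_alg p (k := k) σ (n := n + 2) (by omega) (a := 2) (by omega)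
    have a3 := ptk_alg p (k := k) σ (n := n + 2) (by omega) (a := 3) (by omega)
    have e2 : (σ (xx p) * (σ r ^ p ^ 2) ^ p ^ n) ^ (24 * p ^ (n + 2)) =
        σ (zv p (p ^ (n + 2)) 3) * σ (zv p (p ^ (n + 2)) 1) *
          (σ (zv p (p ^ (n + 2)) 2) ^ 2)⁻¹ := by
      have e3 := congrArg σ e
      simp only [map_mul, map_pow] at e3
      rw [← e3, mul_inv_cancel_right₀ (pow_ne_zero _ hz), ← pow_mul (σ r), ← pow_add,
        add_comm 2 n]
    refine IsAlgebraic.of_pow (n := 24 * p ^ (n + 2)) (by omega) ?_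
    rw [e2]
    exact (a3.mul a1).mul (a2.pow 2).inv
  · intro D
    obtain ⟨n0, hn0⟩ := fact2 p (576 * D)
    refine ⟨n0 + 3, fun y hy halg => ?_⟩
    by_contra hD
    rw [not_lt] at hD
    have h8 : 2 ^ 3 ≤ p ^ (n0 + 3) := ptk_lt p (by omega)
    obtain ⟨G, hG⟩ := ptk_G p (k := k) σ (n := n0 + 3) (by omega)
    simp only [ptk_zv] at hG
    refine hn0 (n0 + 3) (by omega) fun m h1 h4 => ?_
    have hm : m < p ^ (n0 + 3) := by omega
    have hb := conj_bound hsep hq (n0 + 3) (p ^ (n0 + 3)) rfl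
      (fun a => σ (sv p (p ^ (n0 + 3)) a)) G hG hy halg hD h1 h4 hm
      ((map_ne_zero σ).mpr (sv_ne p (by omega) hm))
    rw [← ptk_zv] at hb
    have hd := dep_of_minpoly (ptk_alg p (k := k) σ (n := n0 + 3) (by omega) hm) hb
    intro hli
    apply hd
    simpa only [map_mul, map_pow] using hld _ _ hli

end Pool.Agent.Lib.MP_8f9d9d_nt.H53
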