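import Pool.Agent.Lib.MP_8f9d9d_nt.H53Defs

set_option autoImplicit false

open scoped PowerSeries UpperHalfPlane IntermediateField Real

namespace Pool.Agent.Lib.MP_8f9d9d_nt.H53

variable {N : ℕ} {f g : ℍ → ℂ} {F G : ℂ⟦X⟧}

theorem Rep.add (hf : Rep N f F) (hg : Rep N g G) : Rep N (fun τ => f τ + g τ) (F + G) := by
  intro τ
  simpa only [map_add, add_mul] using (hf τ).add (hg τ)

theorem Rep.sub (hf : Rep N f F) (hg : Rep N g G) : Rep N (fun τ => f τ - g τ) (F - G) := by
  intro τ
  simpa only [map_sub, sub_mul] using (hf τ).sub (hg τ)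

theorem rep_aux_ex (hN : 0 < N) {q : ℂ} (hq : ‖q‖ < 1) (h0 : q ≠ 0) :
    ∃ τ : ℍ, Function.Periodic.qParam (N : ℝ) τ = q :=
  have h : (0 : ℝ) < N := by exact_mod_cast hN
  ⟨⟨Function.Periodic.invQParam N q, Function.Periodic.im_invQParam_pos_of_norm_lt_one h hq h0⟩,
    Function.Periodic.qParam_right_inv h.ne' h0⟩

theorem rep_aux_lt (hN : 0 < N) (τ : ℍ) : ‖Function.Periodic.qParam (N : ℝ) τ‖ < 1 :=
  Function.Periodic.norm_qParam_lt_one (by exact_mod_cast hN) τ.im_pos

/-- Absolute convergence in the whole disc. -/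
theorem Rep.summable_norm (hN : 0 < N) (hf : Rep N f F) {q : ℂ} (hq : ‖q‖ < 1) :
    Summable fun m => ‖PowerSeries.coeff m F * q ^ m‖ := by
  rcases eq_or_ne q 0 with rfl | h0
  · exact (hasSum_single 0 fun m hm => by simp [hm]).summable
  · obtain ⟨τ, rfl⟩ := rep_aux_ex hN hq h0
    exact summable_norm_iff.2 (hf τ).summable

theorem Rep.mul (hN : 0 < N) (hf : Rep N f F) (hg : Rep N g G) :
    Rep N (fun τ => f τ * g τ) (F * G) := by
  intro τ
  have h1 := hf.summable_norm hN (rep_aux_lt hN τ)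
  have h2 := hg.summable_norm hN (rep_aux_lt hN τ)
  have h3 := (summable_norm_sum_mul_antidiagonal_of_summable_norm h1 h2).of_norm.hasSum
  rw [← tsum_mul_tsum_eq_tsum_sum_antidiagonal_of_summable_norm h1 h2, (hf τ).tsum_eq,
    (hg τ).tsum_eq] at h3
  have e : ∀ (q : ℂ) (m : ℕ), PowerSeries.coeff m (F * G) * q ^ m =
      ∑ p ∈ Finset.HasAntidiagonal.antidiagonal m, PowerSeries.coeff p.1 F * q ^ p.1 * (PowerSeries.coeff p.2 G * q ^ p.2) := fun q m => by
    rw [PowerSeries.coeff_mul, Finset.sum_mul]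
    refine Finset.sum_congr rfl fun p hp => ?_
    rw [← Finset.HasAntidiagonal.mem_antidiagonal.1 hp, pow_add]
    ring
  simp only [e]
  exact h3

theorem rep_C (N : ℕ) (c : ℂ) : Rep N (fun _ => c) (PowerSeries.C c) := by
  intro τ
  have := hasSum_single (f := fun m => PowerSeries.coeff m (PowerSeries.C c) *
    Function.Periodic.qParam (N : ℝ) τ ^ m) 0 fun m hm => by simp [PowerSeries.coeff_C, hm]
  simpa using this

theorem rep_X_pow (N e : ℕ) :
    Rep N (fun τ => Function.Periodic.qParam (N : ℝ) τ ^ e) (PowerSeries.X ^ e) := by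
  intro τ
  have := hasSum_single (f := fun m => PowerSeries.coeff m (PowerSeries.X ^ e : ℂ⟦X⟧) *
    Function.Periodic.qParam (N : ℝ) τ ^ m) e fun m hm => by simp [PowerSeries.coeff_X_pow, hm]
  simpa using this

theorem Rep.pow (hN : 0 < N) (hf : Rep N f F) (e : ℕ) : Rep N (fun τ => f τ ^ e) (F ^ e) := by
  induction e with
  | zero => simpa using rep_C N 1
  | succ e ih => simpa only [pow_succ] using ih.mul hN hf

theorem rep_sum {ι : Type*} (s : Finset ι) (f : ι → ℍ → ℂ) (F : ι → ℂ⟦X⟧)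
    (h : ∀ i ∈ s, Rep N (f i) (F i)) : Rep N (fun τ => ∑ i ∈ s, f i τ) (∑ i ∈ s, F i) := by
  induction s using Finset.cons_induction with
  | empty => simpa using rep_C N 0
  | cons a s ha ih =>
    simpa only [Finset.sum_cons] using (h a (Finset.mem_cons_self _ _)).add
      (ih fun i hi => h i (Finset.mem_cons_of_mem hi))

theorem rep_prod (hN : 0 < N) {ι : Type*} (s : Finset ι) (f : ι → ℍ → ℂ) (F : ι → ℂ⟦X⟧)
    (h : ∀ i ∈ s, Rep N (f i) (F i)) : Rep N (fun τ => ∏ i ∈ s, f i τ) (∏ i ∈ s, F i) := by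
  induction s using Finset.cons_induction with
  | empty => simpa using rep_C N 1
  | cons a s ha ih =>
    simpa only [Finset.prod_cons] using (h a (Finset.mem_cons_self _ _)).mul hN
      (ih fun i hi => h i (Finset.mem_cons_of_mem hi))

theorem rep_aux_ball (hN : 0 < N) (hf : Rep N f F) :
    HasFPowerSeriesOnBall (fun q : ℂ => ∑' m, PowerSeries.coeff m F * q ^ m)
      (.ofScalars ℂ fun m => PowerSeries.coeff m F) 0 1 := by
  constructor
  · refine le_of_forall_lt_imp_le_of_dense fun r hr => ?_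
    lift r to NNReal using hr.ne_top
    apply FormalMultilinearSeries.le_radius_of_summable
    simpa using hf.summable_norm hN (q := (r : ℝ)) (by simpa using hr)
  · simp
  · intro y hy
    rw [← ENNReal.coe_one, Metric.eball_coe, NNReal.coe_one, mem_ball_zero_iff] at hy
    simpa [mul_comm] using (hf.summable_norm hN hy).of_norm.hasSum

theorem Rep.unique (hN : 0 < N) (hf : Rep N f F) (hg : Rep N f G) : F = G := by
  have h1 := (rep_aux_ball hN hf).hasFPowerSeriesAt
  have h2 := (rep_aux_ball hN hg).hasFPowerSeriesAt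
  have h3 := (h1.continuousAt.eventuallyEq_nhds_iff_eventuallyEq_nhdsNE h2.continuousAt).1 (by
    filter_upwards [self_mem_nhdsWithin,
      nhdsWithin_le_nhds (Metric.ball_mem_nhds (0 : ℂ) one_pos)] with q h0 hq
    obtain ⟨τ, rfl⟩ := rep_aux_ex hN (mem_ball_zero_iff.1 hq) h0
    rw [(hf τ).tsum_eq, (hg τ).tsum_eq])
  have h4 := h1.eq_formalMultilinearSeries_of_eventually h2 h3
  ext m
  simpa using congrArg (FormalMultilinearSeries.coeff · m) h4

theorem Rep.mdiff (hN : 0 < N) (hf : Rep N f F) :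
    MDifferentiable (modelWithCornersSelf ℂ ℂ) (modelWithCornersSelf ℂ ℂ) f := by
  rw [UpperHalfPlane.mdifferentiable_iff]
  intro z hz
  have h1 : DifferentiableAt ℂ (fun q : ℂ => ∑' m, PowerSeries.coeff m F * q ^ m)
      (Function.Periodic.qParam (N : ℝ) z) :=
    ((rep_aux_ball hN hf).analyticAt_of_mem (by
      rw [← ENNReal.coe_one, Metric.eball_coe, NNReal.coe_one, mem_ball_zero_iff]
      exact rep_aux_lt hN ⟨z, hz⟩)).differentiableAt
  refine (h1.comp z (Function.Periodic.differentiable_qParam z)).differentiableWithinAt.congr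
    (fun w hw => ?_) ?_
  · rw [Function.comp_apply, UpperHalfPlane.ofComplex_apply_of_im_pos hw]
    exact (hf ⟨w, hw⟩).tsum_eq.symm
  · rw [Function.comp_apply, UpperHalfPlane.ofComplex_apply_of_im_pos hz]
    exact (hf ⟨z, hz⟩).tsum_eq.symm

theorem Rep.bdd (hN : 0 < N) (hf : Rep N f F) : UpperHalfPlane.IsBoundedAtImInfty f :=
  UpperHalfPlane.isBoundedAtImInfty_of_hasSum_qExpansion (h := (N : ℝ))
    (c := fun m => PowerSeries.coeff m F) (by exact_mod_cast hN) hf

theorem Rep.expand (hN : N ≠ 0) (hf : Rep 1 f F) : Rep N f (PowerSeries.expand N hN F) := by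
  intro τ
  have h1 : Function.Periodic.qParam ((1 : ℕ) : ℝ) τ = Function.Periodic.qParam (N : ℝ) τ ^ N := by
    have : (N : ℂ) ≠ 0 := by exact_mod_cast hN
    rw [Function.Periodic.qParam, Function.Periodic.qParam, ← Complex.exp_nat_mul]
    congr 1
    push_cast
    field_simp
  refine ((mul_right_injective₀ hN).hasSum_iff fun m hm => ?_).1 ?_
  · rw [PowerSeries.coeff_expand_of_not_dvd, zero_mul]
    rintro ⟨a, rfl⟩
    exact hm ⟨a, rfl⟩
  · simpa only [Function.comp_def, PowerSeries.coeff_expand_mul, pow_mul, h1] using hf τ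

end Pool.Agent.Lib.MP_8f9d9d_nt.H53
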