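import Pool.Agent.Lib.MP_8f9d9d_nt.H53Rep

set_option autoImplicit false

open scoped PowerSeries UpperHalfPlane IntermediateField Real

namespace Pool.Agent.Lib.MP_8f9d9d_nt.H53

theorem map_th {R S : Type*} [CommRing R] [CommRing S] (φ : R →+* S) (N a : ℕ) (u : Rˣ) :
    PowerSeries.map φ (th N a u) = th N a (Units.map φ.toMonoidHom u) := by
  ext e
  simp only [th, PowerSeries.coeff_map, PowerSeries.coeff_mk, map_sum]
  refine Finset.sum_congr rfl fun m _ => ?_
  split_ifs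
  · rw [← map_zpow]
    rfl
  · exact map_zero φ

theorem map_Fz {R S : Type*} [CommRing R] [CommRing S] (φ : R →+* S) (N : ℕ) (ζ : Rˣ)
    (v : ZMod N × ZMod N) :
    PowerSeries.map φ (Fz N ζ v) = Fz N (Units.map φ.toMonoidHom ζ) v := by
  have h : Units.map φ.toMonoidHom (-ζ ^ v.2.val) = -(Units.map φ.toMonoidHom ζ) ^ v.2.val := by
    ext
    simp
  simp only [Fz, map_mul, map_pow, PowerSeries.map_X, map_th, h]

theorem th_const {R : Type*} [CommRing R] {N a : ℕ} (ha : 0 < a) (haN : a < N) (u : Rˣ) :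
    PowerSeries.constantCoeff (th N a u) = 1 := by
  rw [← PowerSeries.coeff_zero_eq_constantCoeff_apply, th, PowerSeries.coeff_mk,
    Finset.sum_eq_single 0]
  · simp
  · intro m hm h0
    rw [Finset.mem_Icc] at hm
    have : m = -1 ∨ m = 1 := by omega
    rcases this with rfl | rfl <;> exact if_neg (by omega)
  · simp

theorem thRep_sum {R : Type*} [AddCommMonoid R] (f : ℤ → R) (n : ℕ) :
    ∑ m ∈ Finset.Icc (-(n : ℤ)) (n + 1), f m = ∑ l ∈ Finset.range (n + 1), (f (l + 1) + f (-l)) := by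
  induction n with
  | zero =>
    have : Finset.Icc (-((0 : ℕ) : ℤ)) ((0 : ℕ) + 1) = {1, 0} := by decide
    rw [this]
    simp
  | succ n ih =>
    have : Finset.Icc (-((n + 1 : ℕ) : ℤ)) ((n + 1 : ℕ) + 1) = insert (((n + 1 : ℕ) : ℤ) + 1)
        (insert (-((n + 1 : ℕ) : ℤ)) (Finset.Icc (-(n : ℤ)) (n + 1))) := by
      ext m
      simp only [Finset.mem_Icc, Finset.mem_insert]
      omega
    rw [this, Finset.sum_insert (by simp only [Finset.mem_Icc, Finset.mem_insert]; omega),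
      Finset.sum_insert (by simp only [Finset.mem_Icc]; omega), ih,
      Finset.sum_range_succ _ (n + 1), ← add_assoc, add_comm]

theorem Xiz_const : PowerSeries.constantCoeff Xiz = 1 := by
  rw [← PowerSeries.coeff_zero_eq_constantCoeff_apply, Xiz, PowerSeries.coeff_mk]
  simp

/-- The series with `a = 0` is divisible by `1 - w`; the quotient specialises to `Xiz (X^N)`. -/
theorem th_zero_fac {R : Type*} [CommRing R] {N : ℕ} (hN : N ≠ 0) (w : Rˣ) :
    ∃ Y : R⟦X⟧, th N 0 (-w) = PowerSeries.C (1 - (w : R)) * Y ∧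
      PowerSeries.constantCoeff Y = 1 ∧
      ∀ (S : Type) [CommRing S] (ψ : R →+* S), ψ w = 1 →
        PowerSeries.map ψ Y = PowerSeries.expand N hN (cz S Xiz) := by
  have hN1 : 1 ≤ N := Nat.pos_of_ne_zero hN
  refine ⟨PowerSeries.mk fun e => ∑ l ∈ Finset.range (e + 1), if N * (l * (l + 1)) = 2 * e then
    (-1) ^ l * ((w⁻¹ : Rˣ) : R) ^ l * ∑ i ∈ Finset.range (2 * l + 1), (w : R) ^ i else 0,
    ?_, ?_, fun S _ ψ hψ => ?_⟩
  · ext e
    have h1 : Finset.Icc (-(e : ℤ) - 1) (e + 1) =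
        insert (-(e : ℤ) - 1) (Finset.Icc (-(e : ℤ)) (e + 1)) := by
      ext m
      simp only [Finset.mem_Icc, Finset.mem_insert]
      omega
    have h2 : ¬ (N : ℤ) * (-(e : ℤ) - 1) * (-(e : ℤ) - 1 - 1) + 2 * (0 : ℕ) * (-(e : ℤ) - 1) =
        2 * e := by
      have h3 : (1 : ℤ) ≤ N := by exact_mod_cast hN1
      have h4 : (0 : ℤ) ≤ e := Int.natCast_nonneg e
      have h5 := mul_le_mul_of_nonneg_right h3 (show (0 : ℤ) ≤ (e + 1) * (e + 2) by positivity)
      push_cast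
      nlinarith [sq_nonneg (e : ℤ)]
    rw [th, PowerSeries.coeff_mk, PowerSeries.coeff_C_mul, PowerSeries.coeff_mk, h1,
      Finset.sum_insert (by simp only [Finset.mem_Icc]; omega), if_neg h2, zero_add, thRep_sum,
      Finset.mul_sum]
    refine Finset.sum_congr rfl fun l _ => ?_
    have c1 : ((N : ℤ) * (l + 1) * (l + 1 - 1) + 2 * (0 : ℕ) * (l + 1) = 2 * e) ↔
        N * (l * (l + 1)) = 2 * e := by
      rw [← Int.natCast_inj]
      push_cast
      constructor <;> intro h <;> linarith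
    have c2 : ((N : ℤ) * (-l) * (-l - 1) + 2 * (0 : ℕ) * (-l) = 2 * e) ↔
        N * (l * (l + 1)) = 2 * e := by
      rw [← Int.natCast_inj]
      push_cast
      constructor <;> intro h <;> linarith
    simp only [c1, c2]
    split_ifs
    · have g := mul_neg_geom_sum (w : R) (2 * l + 1)
      have i : ((w⁻¹ : Rˣ) : R) ^ l * (w : R) ^ l = 1 := by
        rw [← mul_pow, Units.inv_mul, one_pow]
      have e1 : (((-w) ^ ((l : ℤ) + 1) : Rˣ) : R) = (-1) ^ l * -(w : R) ^ (l + 1) := by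
        rw [← Nat.cast_add_one, zpow_natCast, Units.val_pow_eq_pow_val, Units.val_neg, neg_pow]
        ring
      have e2 : (((-w) ^ (-(l : ℤ)) : Rˣ) : R) = (-1) ^ l * ((w⁻¹ : Rˣ) : R) ^ l := by
        rw [zpow_neg, zpow_natCast, ← inv_pow, Units.val_pow_eq_pow_val, inv_neg, Units.val_neg,
          neg_pow]
      rw [e1, e2]
      linear_combination (-(-1) ^ l * ((w⁻¹ : Rˣ) : R) ^ l) * g +
        ((-1) ^ l * (w : R) ^ (l + 1)) * i
    · simp
  · rw [← PowerSeries.coeff_zero_eq_constantCoeff_apply, PowerSeries.coeff_mk]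
    simp
  · have hi : ψ ((w⁻¹ : Rˣ) : R) = 1 := by
      have := congrArg ψ w.inv_mul
      rwa [map_mul, hψ, mul_one, map_one] at this
    ext e
    rw [PowerSeries.coeff_map, PowerSeries.coeff_mk, map_sum]
    by_cases hd : N ∣ e
    · obtain ⟨k, rfl⟩ := hd
      rw [PowerSeries.coeff_expand_mul, cz, PowerSeries.coeff_map, Xiz, PowerSeries.coeff_mk,
        map_sum]
      symm
      refine (Finset.sum_subset (Finset.range_subset_range.2 (Nat.succ_le_succ
        (Nat.le_mul_of_pos_left k hN1))) fun l _ hl => ?_).trans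
        (Finset.sum_congr rfl fun l _ => ?_)
      · rw [Finset.mem_range, not_lt] at hl
        rw [if_neg (by nlinarith), map_zero]
      · have c : N * (l * (l + 1)) = 2 * (N * k) ↔ l * (l + 1) = 2 * k := by
          rw [mul_left_comm 2, Nat.mul_right_inj hN]
        simp only [c]
        split_ifs <;> simp [hψ, hi]
    · rw [PowerSeries.coeff_expand_of_not_dvd _ _ _ hd]
      refine Finset.sum_eq_zero fun l _ => ?_
      rw [if_neg, map_zero]
      intro h
      obtain ⟨k, hk⟩ := Nat.even_mul_succ_self l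
      exact hd ⟨k, by rw [hk] at h; linarith⟩

theorem th_zero (R : Type*) [CommRing R] (N : ℕ) (hN : 0 < N) : th N 0 (-1 : Rˣ) = 0 := by
  obtain ⟨Y, h, -⟩ := th_zero_fac hN.ne' (1 : Rˣ)
  rw [h]
  simp

theorem thRep_exp {N a : ℕ} (haN : a < N) (m : ℤ) :
    ∃ E : ℕ, (N : ℤ) * m * (m - 1) + 2 * a * m = 2 * E ∧ -(E : ℤ) - 1 ≤ m ∧ m ≤ E + 1 := by
  obtain ⟨k, hk⟩ := Int.even_mul_pred_self m
  have h1 : (a : ℤ) + 1 ≤ N := by exact_mod_cast haN
  have h2 : (0 : ℤ) ≤ a := Int.natCast_nonneg a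
  have h3 : -m ≤ N * k + a * m ∧ m - 1 ≤ N * k + a * m := by
    rcases le_or_gt m 0 with h | h
    · have k1 : -m ≤ k := by nlinarith [Int.le_self_sq (-m)]
      have := mul_le_mul h1 k1 (by omega) (by omega)
      constructor <;> nlinarith
    · have k1 : m - 1 ≤ k := by nlinarith [Int.le_self_sq (m - 1)]
      have := mul_le_mul (show 1 ≤ (N : ℤ) by omega) k1 (by omega) (by omega)
      have := mul_nonneg h2 h.le
      constructor <;> linarith
  obtain ⟨E, hE⟩ := Int.eq_ofNat_of_zero_le (show 0 ≤ N * k + a * m by omega)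
  exact ⟨E, by rw [← hE, mul_assoc, hk]; ring, by omega, by omega⟩

theorem rep_th {N a : ℕ} (haN : a < N) (β : ℂ) (u : ℂˣ)
    (hu : (u : ℂ) = Complex.exp (2 * π * Complex.I * β)) :
    Rep N (fun τ => jacobiTheta₂ (((a : ℂ) / N - 1 / 2) * τ + β) τ) (th N a u) := by
  intro τ
  choose E h1 h2 h3 using thRep_exp haN
  have hN : (N : ℂ) ≠ 0 := by exact_mod_cast (by omega : N ≠ 0)
  have ht : ∀ m : ℤ, jacobiTheta₂_term m (((a : ℂ) / N - 1 / 2) * τ + β) τ =
      ((u ^ m : ℂˣ) : ℂ) * Function.Periodic.qParam (N : ℝ) τ ^ E m := by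
    intro m
    have h : (E m : ℂ) = ((N : ℂ) * m * (m - 1) + 2 * a * m) / 2 := by
      have : ((N : ℂ) * m * (m - 1) + 2 * a * m) = 2 * (E m : ℂ) := by exact_mod_cast h1 m
      rw [this]
      ring
    rw [jacobiTheta₂_term, Units.val_zpow_eq_zpow_val, hu, Function.Periodic.qParam,
      ← Complex.exp_int_mul, ← Complex.exp_nat_mul, ← Complex.exp_add, h]
    congr 1
    push_cast
    field_simp
    ring
  have hs := (hasSum_jacobiTheta₂_term (((a : ℂ) / N - 1 / 2) * τ + β) τ.im_pos).tsum_fiberwise E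
  refine (congrArg (HasSum · _) (funext fun e => ?_)).mpr hs
  rw [tsum_subtype (E ⁻¹' {e}) fun m => jacobiTheta₂_term m (((a : ℂ) / N - 1 / 2) * τ + β) τ,
    tsum_eq_sum (s := Finset.Icc (-(e : ℤ) - 1) (e + 1)), th, PowerSeries.coeff_mk, Finset.sum_mul]
  · refine Finset.sum_congr rfl fun m _ => ?_
    rw [h1 m]
    by_cases c : E m = e
    · rw [if_pos (by rw [c]), Set.indicator_of_mem (show m ∈ E ⁻¹' {e} from c), ht, c]
    · rw [if_neg (by omega), Set.indicator_of_notMem (show m ∉ E ⁻¹' {e} from c), zero_mul]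
  · intro m hm
    have c : m ∉ E ⁻¹' {e} := fun c : E m = e => hm (c ▸ Finset.mem_Icc.2 ⟨h2 m, h3 m⟩)
    exact Set.indicator_of_notMem c _

theorem rep_Gz {N : ℕ} [NeZero N] (ζ : ℂˣ) (hζ : (ζ : ℂ) = Complex.exp (2 * π * Complex.I / N))
    (v : ZMod N × ZMod N) : Rep N (Gz N v) (Fz N ζ v) := by
  have hN : 0 < N := Nat.pos_of_ne_zero (NeZero.ne N)
  have hN' : (N : ℂ) ≠ 0 := by exact_mod_cast hN.ne'
  have hu : ((-ζ ^ v.2.val : ℂˣ) : ℂ) =
      Complex.exp (2 * π * Complex.I * ((v.2.val : ℂ) / N - 1 / 2)) := by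
    rw [Units.val_neg, Units.val_pow_eq_pow_val, hζ, ← Complex.exp_nat_mul,
      ← Complex.exp_sub_pi_mul_I]
    congr 1
    ring
  have h := (rep_X_pow N (3 * N * (2 * ((v.1.val : ℕ) : ℤ) - N).natAbs ^ 2)).mul hN
    ((rep_th (ZMod.val_lt v.1) _ _ hu).pow hN (24 * N ^ 2))
  refine (congrArg (Rep N · _) (funext fun τ => ?_)).mpr h
  have k : (((2 * ((v.1.val : ℕ) : ℤ) - N).natAbs : ℕ) : ℂ) ^ 2 = (2 * (v.1.val : ℂ) - N) ^ 2 := by
    have := congrArg (Int.cast : ℤ → ℂ) (Int.natAbs_sq (2 * ((v.1.val : ℕ) : ℤ) - N))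
    simpa only [Int.cast_pow, Int.cast_natCast, Int.cast_sub, Int.cast_mul, Int.cast_ofNat]
      using this
  rw [Gz, tg, mul_pow, Function.Periodic.qParam, ← Complex.exp_nat_mul, ← Complex.exp_nat_mul]
  simp only [Int.cast_natCast]
  congr 2
  rw [Nat.cast_mul _ (_ ^ 2), Nat.cast_mul _ (_ ^ 2), Nat.cast_pow, Nat.cast_pow, k]
  push_cast
  field_simp
  ring

end Pool.Agent.Lib.MP_8f9d9d_nt.H53
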