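import Pool.Agent.Lib.MP_8f9d9d_nt.H53Defs

set_option autoImplicit false

open scoped PowerSeries UpperHalfPlane IntermediateField Real

namespace Pool.Agent.Lib.MP_8f9d9d_nt.H53

theorem theta_aux_exp (x : ℂ) (M : ℕ) (n : ℤ) (h : (M : ℂ) * x = n * (2 * π * Complex.I)) :
    Complex.exp x ^ M = 1 := by
  rw [← Complex.exp_nat_mul, h, Complex.exp_int_mul_two_pi_mul_I]

theorem theta_aux_add_one (z τ : ℂ) : jacobiTheta₂ z (τ + 1) = jacobiTheta₂ (z + 1 / 2) τ := by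
  refine tsum_congr fun n => ?_
  obtain ⟨t, ht⟩ := Int.even_mul_pred_self n
  have ht' : (n : ℂ) * (n - 1) = t + t := by exact_mod_cast ht
  simp only [jacobiTheta₂_term]
  rw [Complex.exp_eq_exp_iff_exists_int]
  exact ⟨t, by linear_combination (π * Complex.I : ℂ) * ht'⟩

theorem theta_aux_b {N : ℕ} [NeZero N] (a b : ℤ) (τ : ℂ) : tg N a (b + N) τ = tg N a b τ := by
  have hN : (N : ℂ) ≠ 0 := Nat.cast_ne_zero.2 (NeZero.ne N)
  unfold tg
  rw [← jacobiTheta₂_add_left (((a : ℂ) / N - 1 / 2) * τ + ((b : ℂ) / N - 1 / 2)) τ]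
  congr 2
  push_cast
  field_simp
  ring

theorem theta_aux_a {N : ℕ} [NeZero N] (a b : ℤ) (τ : ℂ) :
    tg N (a + N) b τ = Complex.exp (-2 * π * Complex.I * ((b : ℂ) / N - 1 / 2)) * tg N a b τ := by
  have hN : (N : ℂ) ≠ 0 := Nat.cast_ne_zero.2 (NeZero.ne N)
  have h1 : ((a + N : ℤ) : ℂ) / N - 1 / 2 = ((a : ℂ) / N - 1 / 2) + 1 := by
    push_cast
    field_simp
    ring
  unfold tg
  rw [h1]
  generalize (a : ℂ) / N - 1 / 2 = α
  generalize (b : ℂ) / N - 1 / 2 = β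
  rw [show (α + 1) * τ + β = (α * τ + β) + τ by ring, jacobiTheta₂_add_left', ← mul_assoc,
    ← mul_assoc, ← Complex.exp_add, ← Complex.exp_add]
  congr 2
  ring

theorem theta_aux_a_pow {N : ℕ} [NeZero N] (a b : ℤ) (τ : ℂ) :
    tg N (a + N) b τ ^ (24 * N ^ 2) = tg N a b τ ^ (24 * N ^ 2) := by
  have hN : (N : ℂ) ≠ 0 := Nat.cast_ne_zero.2 (NeZero.ne N)
  rw [theta_aux_a, mul_pow, theta_aux_exp _ _ (-(12 * N * (2 * b - N))), one_mul]
  push_cast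
  field_simp
  ring

theorem theta_aux_cong {N : ℕ} [NeZero N] {a a' b b' : ℤ} (ha : (a : ZMod N) = a')
    (hb : (b : ZMod N) = b') (τ : ℂ) :
    tg N a b τ ^ (24 * N ^ 2) = tg N a' b' τ ^ (24 * N ^ 2) := by
  obtain ⟨s, hs⟩ := (ZMod.intCast_eq_intCast_iff_dvd_sub a a' N).1 ha
  obtain ⟨t, ht⟩ := (ZMod.intCast_eq_intCast_iff_dvd_sub b b' N).1 hb
  have h1 : Function.Periodic (fun x : ℤ => tg N x b τ ^ (24 * N ^ 2)) (N : ℤ) :=
    fun x => theta_aux_a_pow x b τ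
  have h2 : Function.Periodic (fun x : ℤ => tg N a' x τ) (N : ℤ) := fun x => theta_aux_b a' x τ
  have h3 := h1.int_mul s a
  have h4 := h2.int_mul t b
  simp only [Int.cast_id] at h3 h4
  rw [show a + s * N = a' by linarith] at h3
  rw [show b + t * N = b' by linarith] at h4
  rw [← h3, h4]

theorem theta_aux_T {N : ℕ} [NeZero N] (a b : ℤ) (τ : ℂ) :
    tg N a b (τ + 1) =
      Complex.exp (π * Complex.I * ((a : ℂ) / N - 1 / 2) ^ 2) * tg N a (a + b) τ := by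
  have h1 : ((a + b : ℤ) : ℂ) / N - 1 / 2 =
      ((a : ℂ) / N - 1 / 2) + ((b : ℂ) / N - 1 / 2) + 1 / 2 := by
    push_cast
    ring
  unfold tg
  rw [h1]
  generalize (a : ℂ) / N - 1 / 2 = α
  generalize (b : ℂ) / N - 1 / 2 = β
  rw [theta_aux_add_one, ← mul_assoc, ← Complex.exp_add]
  congr 2 <;> ring

theorem theta_aux_S {N : ℕ} [NeZero N] (a b : ℤ) {τ : ℂ} (hτ : τ ≠ 0) :
    tg N a b (-1 / τ) = (-Complex.I * τ) ^ (1 / 2 : ℂ) *
      Complex.exp (-2 * π * Complex.I * (((a : ℂ) / N - 1 / 2) * ((b : ℂ) / N - 1 / 2))) *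
        tg N b (N - a) τ := by
  have hN : (N : ℂ) ≠ 0 := Nat.cast_ne_zero.2 (NeZero.ne N)
  have h1 : ((N - a : ℤ) : ℂ) / N - 1 / 2 = -((a : ℂ) / N - 1 / 2) := by
    push_cast
    field_simp
    ring
  have h0 : (-Complex.I * τ) ^ (1 / 2 : ℂ) ≠ 0 := by
    rw [Ne, Complex.cpow_eq_zero_iff, not_and_or]
    exact Or.inl (mul_ne_zero (neg_ne_zero.2 Complex.I_ne_zero) hτ)
  unfold tg
  rw [h1]
  generalize (a : ℂ) / N - 1 / 2 = α
  generalize (b : ℂ) / N - 1 / 2 = β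
  rw [jacobiTheta₂_functional_equation (β * τ + -α) τ,
    show (β * τ + -α) / τ = α * (-1 / τ) + β by field_simp; ring]
  have h2 : Complex.exp (π * Complex.I * α ^ 2 * (-1 / τ)) =
      Complex.exp (-2 * π * Complex.I * (α * β)) * Complex.exp (π * Complex.I * β ^ 2 * τ) *
        Complex.exp (-π * Complex.I * (β * τ + -α) ^ 2 / τ) := by
    rw [← Complex.exp_add, ← Complex.exp_add]
    congr 1
    field_simp
    ring
  rw [h2]
  generalize (-Complex.I * τ) ^ (1 / 2 : ℂ) = r at h0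
  field_simp

theorem Gz_T {N : ℕ} [NeZero N] (v : ZMod N × ZMod N) (τ : ℍ) :
    Gz N v (ModularGroup.T • τ) = Gz N (v.1, v.1 + v.2) τ := by
  have hN : (N : ℂ) ≠ 0 := Nat.cast_ne_zero.2 (NeZero.ne N)
  have hc : ((ModularGroup.T • τ : ℍ) : ℂ) = τ + 1 := by
    rw [UpperHalfPlane.modular_T_smul, UpperHalfPlane.coe_vadd, add_comm]
    simp
  unfold Gz
  rw [hc, theta_aux_T, mul_pow,
    theta_aux_exp _ _ (3 * (2 * ((v.1.val : ℕ) : ℤ) - N) ^ 2), one_mul]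
  · exact theta_aux_cong rfl (by simp) _
  · push_cast
    field_simp
    ring

theorem Gz_S {N : ℕ} [NeZero N] (v : ZMod N × ZMod N) (τ : ℍ) :
    Gz N v (ModularGroup.S • τ) = (τ : ℂ) ^ (12 * N ^ 2) * Gz N (v.2, -v.1) τ := by
  have hN : (N : ℂ) ≠ 0 := Nat.cast_ne_zero.2 (NeZero.ne N)
  have hc : ((ModularGroup.S • τ : ℍ) : ℂ) = -1 / τ := by
    rw [UpperHalfPlane.modular_S_smul, UpperHalfPlane.coe_mk, inv_neg, neg_div, one_div]
  have hr : ((-Complex.I * τ) ^ (1 / 2 : ℂ)) ^ (24 * N ^ 2) = (τ : ℂ) ^ (12 * N ^ 2) := by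
    have h2 : ((-Complex.I * τ) ^ (1 / 2 : ℂ)) ^ 2 = -Complex.I * τ := by
      simp
    have h4 : (-Complex.I) ^ 4 = 1 := by
      rw [show (4 : ℕ) = 2 * 2 from rfl, pow_mul, neg_sq, Complex.I_sq]
      norm_num
    rw [show 24 * N ^ 2 = 2 * (12 * N ^ 2) by ring, pow_mul, h2, mul_pow,
      show 12 * N ^ 2 = 4 * (3 * N ^ 2) by ring, pow_mul, h4, one_pow, one_mul]
  unfold Gz
  rw [hc, theta_aux_S _ _ τ.ne_zero, mul_pow, mul_pow, hr,
    theta_aux_exp _ _ (-(6 * (2 * ((v.1.val : ℕ) : ℤ) - N) * (2 * ((v.2.val : ℕ) : ℤ) - N))),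
    mul_one]
  · congr 1
    exact theta_aux_cong rfl (by simp) _
  · push_cast
    field_simp
    ring

end Pool.Agent.Lib.MP_8f9d9d_nt.H53
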