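import Pool.Agent.Lib.MP_8f9d9d_nt.H53Level
import Pool.Agent.Lib.MP_8f9d9d_nt.H53Theta
import Pool.Agent.Lib.MP_8f9d9d_nt.H53ThRep

set_option autoImplicit false

open scoped PowerSeries UpperHalfPlane IntermediateField Real

namespace Pool.Agent.Lib.MP_8f9d9d_nt.H53

/-- The ring of integers generated by a root of unity of order `p ^ n` maps to the prime field. -/
theorem exists_O (p : ℕ) [Fact p.Prime] {n : ℕ} (hn : 0 < n) :
    ∃ (O : Subring ℂ) (ζ : Oˣ) (ψ : O →+* ZMod p),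
      ((ζ : O) : ℂ) = Complex.exp (2 * π * Complex.I / ((p ^ n : ℕ) : ℂ)) ∧ ψ ζ = 1 := by
  have hp : p.Prime := Fact.out
  have hN : p ^ n ≠ 0 := pow_ne_zero _ hp.ne_zero
  set z : ℂ := Complex.exp (2 * π * Complex.I / ((p ^ n : ℕ) : ℂ)) with hz
  have hprim : IsPrimitiveRoot z (p ^ n) := Complex.isPrimitiveRoot_exp _ hN
  have hint : IsIntegral ℤ z := hprim.isIntegral (Nat.pos_of_ne_zero hN)
  have hmin : Polynomial.cyclotomic (p ^ n) ℤ = minpoly ℤ z :=
    Polynomial.cyclotomic_eq_minpoly hprim (Nat.pos_of_ne_zero hN)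
  let S : Subalgebra ℤ ℂ := Algebra.adjoin ℤ {z}
  have hzS : z ∈ S := Algebra.subset_adjoin (Set.mem_singleton z)
  let pb := Algebra.adjoin.powerBasis' hint
  have hgen : pb.gen = ⟨z, hzS⟩ := Algebra.adjoin.powerBasis'_gen hint
  have hmg : minpoly ℤ pb.gen = minpoly ℤ z := by
    rw [hgen]
    exact (minpoly.algebraMap_eq (A := ℤ) (B := S) (B' := ℂ) Subtype.val_injective ⟨z, hzS⟩).symm
  have h1 : Polynomial.aeval (1 : ZMod p) (minpoly ℤ pb.gen) = 0 := by
    obtain ⟨k, rfl⟩ : ∃ k, n = k + 1 := ⟨n - 1, by omega⟩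
    rw [hmg, ← hmin, Polynomial.aeval_def, Polynomial.eval₂_eq_eval_map, Polynomial.map_cyclotomic,
      Polynomial.eval_one_cyclotomic_prime_pow, ZMod.natCast_self]
  let φ : S →ₐ[ℤ] ZMod p := pb.lift 1 h1
  let ι : S.toSubring →+* S := RingHom.codRestrict S.toSubring.subtype S (fun x => x.2)
  let x : S.toSubring := ⟨z, hzS⟩
  have hx : x ^ p ^ n = 1 := Subtype.ext (by
    rw [SubmonoidClass.coe_pow]
    exact hprim.pow_eq_one)
  refine ⟨S.toSubring, Units.ofPowEqOne x (p ^ n) hx hN, φ.toRingHom.comp ι, rfl, ?_⟩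
  have : ι x = pb.gen := by rw [hgen]; rfl
  change φ (ι x) = 1
  rw [this]
  exact pb.lift_gen 1 h1

theorem sym_aux_reindex {α : Type*} [DecidableEq α] (V : Finset α) (e : α → α)
    (he : Function.Injective e) (hV : ∀ v ∈ V, e v ∈ V) (r : ℕ) (g : α → ℂ) :
    ∑ T ∈ Finset.powersetCard r V, ∏ v ∈ T, g (e v) =
      ∑ T ∈ Finset.powersetCard r V, ∏ v ∈ T, g v := by
  have hmap : V.map ⟨e, he⟩ = V := by
    refine Finset.eq_of_subset_of_card_le (fun v hv => ?_) (by rw [Finset.card_map])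
    obtain ⟨w, hw, rfl⟩ := Finset.mem_map.1 hv
    exact hV w hw
  rw [← Finset.esymm_map_val, ← Finset.esymm_map_val]
  conv_rhs => rw [← hmap, Finset.map_val, Multiset.map_map]
  rfl

/-- Elementary symmetric functions of the expansions over a stable index set. -/
theorem sym_level (O : Subring ℂ) {N : ℕ} [NeZero N] (ζ : Oˣ)
    (hζ : ((ζ : O) : ℂ) = Complex.exp (2 * π * Complex.I / N))
    (V : Finset (ZMod N × ZMod N)) (hT : ∀ v ∈ V, (v.1, v.1 + v.2) ∈ V)
    (hS : ∀ v ∈ V, (v.2, -v.1) ∈ V) (r : ℕ) :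
    ∃ c : ℕ → O, ∑ T ∈ Finset.powersetCard r V, ∏ v ∈ T, Fz N ζ v =
      ∑ i ∈ Finset.range (N ^ 2 * r + 1), PowerSeries.C (c i) *
        (PowerSeries.expand N (NeZero.ne N) (cz O E4z) ^ 3) ^ i *
          PowerSeries.expand N (NeZero.ne N) (cz O Dz) ^ (N ^ 2 * r - i) := by
  have hN : 0 < N := Nat.pos_of_ne_zero (NeZero.ne N)
  refine level_one O (NeZero.ne N) (N ^ 2 * r)
    (fun τ => ∑ T ∈ Finset.powersetCard r V, ∏ v ∈ T, Gz N v τ) _ ?_ ?_ ?_
  · rw [map_sum]
    refine rep_sum _ (fun T τ => ∏ v ∈ T, Gz N v τ) _ fun T _ => ?_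
    rw [map_prod]
    refine rep_prod hN _ (fun v τ => Gz N v τ) _ fun v _ => ?_
    rw [map_Fz]
    exact rep_Gz _ hζ v
  · intro τ
    have hinj : Function.Injective fun v : ZMod N × ZMod N => (v.2, -v.1) := by
      intro v w h
      have h1 : v.2 = w.2 := congrArg Prod.fst h
      have h2 : -v.1 = -w.1 := congrArg Prod.snd h
      exact Prod.ext (neg_injective h2) h1
    rw [← sym_aux_reindex V _ hinj hS r (fun v => Gz N v τ), Finset.mul_sum]
    refine Finset.sum_congr rfl fun T hT' => ?_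
    have hc : T.card = r := (Finset.mem_powersetCard.1 hT').2
    simp only [Gz_S]
    rw [Finset.prod_mul_distrib, Finset.prod_const, hc, ← pow_mul, mul_assoc]
  · intro τ
    have hinj : Function.Injective fun v : ZMod N × ZMod N => (v.1, v.1 + v.2) := by
      intro v w h
      have h1 : v.1 = w.1 := (Prod.ext_iff.1 h).1
      have h2 : v.1 + v.2 = w.1 + w.2 := (Prod.ext_iff.1 h).2
      rw [h1] at h2
      exact Prod.ext h1 (add_left_cancel h2)
    rw [← sym_aux_reindex V _ hinj hT r (fun v => Gz N v τ)]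
    simp only [Gz_T]

/-- Over the prime field, `expand` is the Frobenius map. -/
theorem expand_eq_pow (p : ℕ) [Fact p.Prime] (n : ℕ) (h : p ^ n ≠ 0) (F : (ZMod p)⟦X⟧) :
    PowerSeries.expand (p ^ n) h F = F ^ p ^ n := by
  have hp : p.Prime := Fact.out
  have h1 := MvPowerSeries.map_iterateFrobenius_expand p hp.ne_zero (σ := Unit) F n
  have h2 : iterateFrobenius (ZMod p) p n = RingHom.id _ := by
    ext x
    rw [iterateFrobenius_def, ZMod.pow_card_pow, RingHom.id_apply]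
  rw [h2, MvPowerSeries.map_id] at h1
  exact h1

theorem up_inj (p : ℕ) [Fact p.Prime] : Function.Injective (up p) :=
  IsFractionRing.injective (ZMod p)⟦X⟧ (L0 p)

theorem sym_aux_ne (p : ℕ) [Fact p.Prime] {F : (ZMod p)⟦X⟧}
    (h : PowerSeries.constantCoeff F = 1) : up p F ≠ 0 := by
  intro e
  rw [← map_zero (up p)] at e
  rw [up_inj p e, map_zero] at h
  exact zero_ne_one h

theorem xx_ne (p : ℕ) [Fact p.Prime] : xx p ≠ 0 := by
  intro e
  unfold xx at e
  rw [← map_zero (up p)] at e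
  exact PowerSeries.X_ne_zero (up_inj p e)

theorem Dl_ne (p : ℕ) [Fact p.Prime] : Dl p ≠ 0 := by
  obtain ⟨U, hU, hD⟩ := Dz_fac
  unfold Dl
  have h1 : cz (ZMod p) PowerSeries.X = PowerSeries.X := PowerSeries.map_X _
  have h2 : PowerSeries.constantCoeff (cz (ZMod p) U) = 1 := by
    unfold cz
    rw [← PowerSeries.coeff_zero_eq_constantCoeff_apply, PowerSeries.coeff_map,
      PowerSeries.coeff_zero_eq_constantCoeff_apply, hU, map_one]
  rw [hD, map_mul, map_mul, h1]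
  exact mul_ne_zero (xx_ne p) (sym_aux_ne p h2)

theorem Th_ne (p : ℕ) [Fact p.Prime] {N a : ℕ} (ha : 0 < a) (haN : a < N) : Th p N a ≠ 0 :=
  sym_aux_ne p (th_const ha haN _)

/-- The reduction of `Fz` divided by the right power of the discriminant. -/
theorem zv_eq (p : ℕ) [Fact p.Prime] (N : ℕ) [NeZero N] (v : ZMod N × ZMod N) :
    up p (Fz N 1 v) = zv p N v.1.val * Dl p ^ N ^ 3 := by
  have hx := xx_ne p
  have hD := Dl_ne p
  unfold Fz zv sv
  generalize v.1.val = a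
  rw [one_pow, map_mul, map_pow, map_pow]
  change xx p ^ _ * Th p N a ^ _ = _
  have h1 : ((3 * N * (2 * (a : ℤ) - N).natAbs ^ 2 : ℕ) : ℤ) =
      ((12 * a ^ 2 : ℕ) + (3 * (N : ℤ) - 12 * a) * (N : ℕ)) * (N : ℕ) := by
    push_cast
    rw [sq_abs]
    ring
  have h2 : xx p ^ (3 * N * (2 * (a : ℤ) - N).natAbs ^ 2) =
      (xx p ^ (12 * a ^ 2) * (xx p ^ (3 * (N : ℤ) - 12 * a)) ^ N) ^ N := by
    rw [← zpow_natCast, h1, zpow_mul, zpow_add₀ hx, zpow_mul, zpow_natCast, zpow_natCast,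
      zpow_natCast]
  rw [h2]
  generalize xx p ^ (3 * (N : ℤ) - 12 * a) = y
  generalize xx p ^ (12 * a ^ 2) = w
  have h3 : ((Dl p ^ N) ^ N) ^ N = Dl p ^ N ^ 3 := by
    rw [← pow_mul, ← pow_mul]
    congr 1
    ring
  have h4 : ((Th p N a ^ 24) ^ N) ^ N = Th p N a ^ (24 * N ^ 2) := by
    rw [← pow_mul, ← pow_mul]
    congr 1
    ring
  rw [div_pow, mul_div_assoc', div_pow, h3, div_mul_cancel₀ _ (pow_ne_zero _ hD), mul_pow, mul_pow,
    mul_pow, mul_pow, h4, mul_assoc]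

end Pool.Agent.Lib.MP_8f9d9d_nt.H53
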