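import Pool.Agent.Lib.MP_8f9d9d_nt.H56Inj
import Pool.Agent.Lib.MP_1f047c_nt.ThCov

/-! Solutions in a small cell span a space of bounded dimension. -/

namespace Pool.Agent.Lib.MP_8f9d9d_nt.H56

open Finset Submodule Filter Module
open Pool.Agent.Lib.MP_1f047c_nt Th

lemma relA {Θ : Set ℂ} (hw : w ∈ Θ) {l m : ℂ} (h : Con l m) (hm : m ∈ span ℚ (insert l Θ)) :
    Rel 2 Θ l := by
  obtain ⟨u, v, r, r0, h⟩ := h
  obtain ⟨a, ν, hν, rfl⟩ := mem_span_insert.1 hm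
  have k1 : ν + v • w ∈ V Θ :=
    add_mem (span_mono (Set.subset_insert _ _) hν) (smul_mem _ _ (mem_V hw))
  have k2 : ∀ x ∈ V Θ, ∀ y ∈ V Θ, x * y ∈ V Θ ^ 2 := fun x hx y hy => sq (V Θ) ▸ mul_mem_mul hx hy
  have k3 := one_mem_V Θ
  have k4 := mem_V hw
  refine ⟨Polynomial.monomial 2 (a • 1 * 1) + Polynomial.monomial 1 ((ν + v • w + (a * u) • w) * 1) +
    Polynomial.monomial 0 (u • w * (ν + v • w) - r • w * w), fun e => ?_, by compute_degree,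
    fun e => ?_, ?_⟩
  · have e2 := congrArg (Polynomial.coeff · 2) e
    have e1 := congrArg (Polynomial.coeff · 1) e
    have e0 := congrArg (Polynomial.coeff · 0) e
    simp [Polynomial.coeff_monomial] at e0 e1 e2
    simp [e2] at e1
    simp [e1, r0, w_ne] at e0
  · simp only [Polynomial.coeff_add, Polynomial.coeff_monomial]
    refine add_mem (add_mem ?_ ?_) ?_ <;> split_ifs
    exacts [k2 _ (smul_mem _ _ k3) _ k3, zero_mem _, k2 _ (add_mem k1 (smul_mem _ _ k4)) _ k3,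
      zero_mem _, sub_mem (k2 _ (smul_mem _ _ k4) _ k1) (k2 _ (smul_mem _ _ k4) _ k4), zero_mem _]
  · simp only [Polynomial.eval_add, Polynomial.eval_monomial, Rat.smul_def] at h ⊢
    push_cast
    linear_combination h

lemma step {Θ : Finset ℂ} (hw : w ∈ Θ) {C r : ℕ} (hG : Gr (Θ : Set ℂ) C r) {l m : ℂ}
    (h : Con l m) (hl : l ∉ span ℚ (Θ : Set ℂ)) :
    ∃ r', Gr ((insert m (insert l Θ) : Finset ℂ) : Set ℂ) (2 * 3 ^ (r + 1) * C) r' ∧ r' ≤ r + 1 ∧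
      r' + finrank ℚ (span ℚ (Θ : Set ℂ)) <
        r + finrank ℚ (span ℚ ((insert m (insert l Θ) : Finset ℂ) : Set ℂ)) := by
  have h1 := rk_lt hl
  by_cases hm : m ∈ span ℚ ((insert l Θ : Finset ℂ) : Set ℂ)
  · refine ⟨r, fun n => ?_, r.le_succ, ?_⟩
    · have h2 : m ∈ V ((insert l Θ : Finset ℂ) : Set ℂ) := span_mono (Set.subset_insert _ _) hm
      rw [coe_insert, V_insert, sup_eq_right.2 ((span_singleton_le_iff_mem _ _).2 h2), coe_insert]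
      exact (hG.rel (relA hw h (coe_insert l Θ ▸ hm))).mono (by gcongr <;> norm_num) n
    · rw [coe_insert m, span_insert_eq_span hm]
      omega
  · have h2 := rk_lt hm
    refine ⟨r + 1, ?_, le_rfl, by omega⟩
    rw [coe_insert, coe_insert]
    exact (hG.free l).rel (relA (Set.mem_insert_of_mem _ hw) h.symm
      (subset_span (Set.mem_insert_of_mem _ (Set.mem_insert _ _))))

lemma tower (k : ℕ) : ∃ C : ℕ, ∀ (P : Set (ℂ × ℂ)) (Q : Set ℂ) (B : Finset ℂ), w ∈ B →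
    B.card ≤ 3 → (B : Set ℂ) ⊆ Q → (∀ p ∈ P, Con p.1 p.2 ∧ p.1 ∈ Q ∧ p.2 ∈ Q) →
    ∃ Θ : Finset ℂ, Θ.card ≤ 2 * k + 3 ∧
      ((∀ p ∈ P, p.1 ∈ span ℚ (Θ : Set ℂ) ∧ p.2 ∈ span ℚ (Θ : Set ℂ)) ∨ B ⊆ Θ ∧ (Θ : Set ℂ) ⊆ Q ∧
        ∃ r, Gr (Θ : Set ℂ) C r ∧ r ≤ k + 3 ∧ r + k ≤ finrank ℚ (span ℚ (Θ : Set ℂ))) := by
  induction k with
  | zero =>
    refine ⟨1, fun P Q B _ h1 h2 _ => ⟨B, h1, Or.inr ⟨subset_rfl, h2, ?_⟩⟩⟩
    obtain ⟨r, h3, h4, h5⟩ := Gr.many (Θ := (∅ : Finset ℂ)) (by simpa using Gr.empty) B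
    rw [union_empty] at h3 h5
    exact ⟨r, h3, by omega, by omega⟩
  | succ k ih =>
    obtain ⟨C, hC⟩ := ih
    refine ⟨2 * 3 ^ (k + 4) * C, fun P Q B h0 h1 h2 h3 => ?_⟩
    obtain ⟨Θ, h4, h5⟩ := hC P Q B h0 h1 h2 h3
    by_cases h6 : ∀ p ∈ P, p.1 ∈ span ℚ (Θ : Set ℂ) ∧ p.2 ∈ span ℚ (Θ : Set ℂ)
    · exact ⟨Θ, by omega, Or.inl h6⟩
    obtain ⟨h7, h8, r, h9, h10, h11⟩ := h5.resolve_left h6
    obtain ⟨l, m, k1, k2, k3, k4⟩ : ∃ l m, Con l m ∧ l ∈ Q ∧ m ∈ Q ∧ l ∉ span ℚ (Θ : Set ℂ) := by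
      by_contra hc
      push Not at hc
      exact h6 fun p hp => ⟨hc _ _ (h3 p hp).1 (h3 p hp).2.1 (h3 p hp).2.2,
        hc _ _ (h3 p hp).1.symm (h3 p hp).2.2 (h3 p hp).2.1⟩
    obtain ⟨r', k5, k6, k7⟩ := step (h7 h0) h9 k1 k4
    refine ⟨insert m (insert l Θ), ?_, Or.inr ⟨h7.trans ((subset_insert _ _).trans
      (subset_insert _ _)), ?_, r', k5.mono (Nat.mul_le_mul_right _ (Nat.mul_le_mul_left _
        (Nat.pow_le_pow_right (by norm_num) (by omega)))), by omega, by omega⟩⟩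
    · have := card_insert_le m (insert l Θ)
      have := card_insert_le l Θ
      omega
    · rw [coe_insert, coe_insert]
      exact Set.insert_subset k3 (Set.insert_subset k2 h8)

/-- admissible logarithms -/
abbrev Ad (d y : ℕ) : Set ℂ := Adm (fun b => {z : ℂ | ‖z‖ ≤ b}) d (2 * Real.log y)

lemma small (d r C : ℕ) {γ : ℝ} (hγ : 0 < γ) : ∀ᶠ y : ℕ in atTop, ∀ Θ : Set ℂ, Gr Θ C r →
    ∀ z z' : Fin (r + 1) → ℂ, (∀ k, z k - z' k ∈ V Θ) → (∀ k, z k ∈ Ad d y) →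
    (∀ k, z' k ∈ Ad d y) → (∀ k, ‖z k - z' k‖ ≤ (y : ℝ) ^ (-γ)) →
    ¬∀ m : Fin (r + 1) → ℤ, ∑ j, (m j : ℂ) * (z j - z' j) = 0 → m = 0 := by
  obtain ⟨D, hD⟩ : ∃ D : ℕ, d ^ Fintype.card (Fin (r + 1) ⊕ Fin (r + 1)) = D := ⟨_, rfl⟩
  obtain ⟨c, hc⟩ := TI.allN TI.zest (r + 1) ((r + 1) * (C * (r + 1) ^ r)) (γ / (8 * (D + 1)))
    (by positivity)
  have t1 : Tendsto (fun y : ℕ => γ / 2 * Real.log y) atTop atTop :=
    (Real.tendsto_log_atTop.comp tendsto_natCast_atTop_atTop).const_mul_atTop (by positivity)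
  filter_upwards [t1.eventually_ge_atTop (|c| * D), eventually_ge_atTop 1] with y h1 hy Θ hG z z'
    h2 a1 a2 h4 hu
  have hy1 : (1 : ℝ) ≤ y := by exact_mod_cast hy
  obtain ⟨G, hG0, hGd, hG⟩ := hG.relation (fun k => z k - z' k) h2
  obtain ⟨L, _, α, k1, k2⟩ := compositum (Sum.elim (fun k => NormedSpace.exp (z k))
    fun k => NormedSpace.exp (z' k)) (Sum.rec (fun k => (a1 k).1) fun k => (a2 k).1)
  rw [hD] at k1 k2
  refine hc ℂ TA.nice_complex L (algebraMap L ℂ) (fun k => α (Sum.inl k) / α (Sum.inr k))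
    (fun k => z k - z' k) (fun k => ?_) (fun k => ?_) hu
    (MvPolynomial.map (algebraMap ℚ L) G) (fun h => hG0 (MvPolynomial.map_injective _
      (algebraMap ℚ L).injective (h.trans (map_zero _).symm)))
    ((Finset.sup_mono (MvPolynomial.support_map_subset _ _)).trans hGd) ?_
  · rw [fam_complex.diff _ trivial _ trivial, map_div₀]
    exact congrArg₂ _ (k2 (Sum.inl k)).1 (k2 (Sum.inr k)).1
  · refine (h4 k).trans ?_
    have h5 := Real.log_nonneg hy1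
    have h6 := Height.logHeight₁_mul_le (α (Sum.inl k)) (α (Sum.inr k))⁻¹
    rw [Height.logHeight₁_inv, ← div_eq_mul_inv] at h6
    have h7 := mul_le_mul_of_nonneg_left (show Height.logHeight₁ (α (Sum.inl k) / α (Sum.inr k)) ≤
      4 * ((D + 1) * Real.log y) by linarith [(k2 (Sum.inl k)).2, (k2 (Sum.inr k)).2])
      (show 0 ≤ γ / (8 * (D + 1)) by positivity)
    have h8 : γ / (8 * (D + 1)) * (4 * ((D + 1) * Real.log y)) = γ / 2 * Real.log y := by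
      field_simp
      ring
    have h9 : c * finrank ℚ L ≤ |c| * D :=
      mul_le_mul (le_abs_self _) (by exact_mod_cast k1) (by positivity) (abs_nonneg _)
    rw [Real.rpow_def_of_pos (by positivity), Real.exp_le_exp]
    linarith
  · rw [MvPolynomial.eval₂_map,
      Subsingleton.elim ((algebraMap L ℂ).comp (algebraMap ℚ L)) (algebraMap ℚ ℂ)]
    exact hG

theorem cells (d : ℕ) {γ : ℝ} (hγ : 0 < γ) : ∀ᶠ y : ℕ in atTop, ∀ P : Set (ℂ × ℂ),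
    (∀ p ∈ P, Con p.1 p.2 ∧ p.1 ∈ Ad d y ∧ p.2 ∈ Ad d y) →
    (∀ p ∈ P, ∀ p' ∈ P, ‖p.1 - p'.1‖ ≤ (y : ℝ) ^ (-γ) ∧ ‖p.2 - p'.2‖ ≤ (y : ℝ) ^ (-γ)) →
    ∃ Θ : Finset ℂ, Θ.card ≤ 11 ∧
      ∀ p ∈ P, p.1 ∈ span ℚ (Θ : Set ℂ) ∧ p.2 ∈ span ℚ (Θ : Set ℂ) := by
  obtain ⟨C, hC⟩ := tower 4
  filter_upwards [(eventually_all_finset (range 8)).2 fun r _ => small d r C hγ] with y hy P h1 h2
  rcases P.eq_empty_or_nonempty with rfl | ⟨p, hp⟩
  · exact ⟨∅, by simp, by simp⟩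
  obtain ⟨Θ, h3, h4 | ⟨h4, h5, r, h6, h7, h8⟩⟩ := hC P {z | z = w ∨ ∃ z' ∈ ({w, p.1, p.2} : Finset ℂ),
    z ∈ Ad d y ∧ z' ∈ Ad d y ∧ ‖z - z'‖ ≤ (y : ℝ) ^ (-γ)} {w, p.1, p.2} (by simp) card_le_three
    (by
      simp only [coe_insert, coe_singleton, Set.insert_subset_iff, Set.singleton_subset_iff]
      exact ⟨Or.inl rfl, Or.inr ⟨p.1, by simp, (h1 p hp).2.1, (h1 p hp).2.1, (h2 p hp p hp).1⟩,
        Or.inr ⟨p.2, by simp, (h1 p hp).2.2, (h1 p hp).2.2, (h2 p hp p hp).2⟩⟩)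
    fun q hq => ⟨(h1 q hq).1,
      Or.inr ⟨p.1, by simp, (h1 q hq).2.1, (h1 p hp).2.1, (h2 q hq p hp).1⟩,
      Or.inr ⟨p.2, by simp, (h1 q hq).2.2, (h1 p hp).2.2, (h2 q hq p hp).2⟩⟩
  · exact ⟨Θ, h3, h4⟩
  let ι := {u : Θ × Θ // u.1.1 ∈ Ad d y ∧ u.2.1 ∈ Ad d y ∧ ‖u.1.1 - u.2.1‖ ≤ (y : ℝ) ^ (-γ)}
  have : Fintype ι := Fintype.ofFinite ι
  let e : ι → ℂ := fun u => u.1.1.1 - u.1.2.1
  have g4 : span ℚ (Θ : Set ℂ) ≤
      span ℚ (Set.range e) ⊔ span ℚ (({w, p.1, p.2} : Finset ℂ) : Set ℂ) := by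
    refine span_le.2 fun z hz => ?_
    rcases h5 hz with rfl | ⟨z', k1, k2⟩
    · exact mem_sup_right (subset_span (by simp))
    · rw [← sub_add_cancel z z']
      exact add_mem_sup (subset_span ⟨⟨(⟨z, hz⟩, ⟨z', h4 k1⟩), k2⟩, rfl⟩) (subset_span k1)
  have f1 := FiniteDimensional.span_of_finite ℚ (Set.finite_range e)
  have g5 := (finrank_mono g4).trans (finrank_add_le_finrank_add_finrank _ _)
  have g6 := (finrank_span_finset_le_card (R := ℚ) ({w, p.1, p.2} : Finset ℂ)).trans card_le_three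
  rw [Set.finrank] at g6
  obtain ⟨u, hu⟩ := exists_indep e (n := r + 1) (by omega)
  exact absurd hu (hy r (mem_range.2 (by omega)) Θ h6 (fun k => (u k).1.1.1) (fun k => (u k).1.2.1)
    (fun k => sub_mem (mem_V (u k).1.1.2) (mem_V (u k).1.2.2)) (fun k => (u k).2.1)
    (fun k => (u k).2.2.1) fun k => (u k).2.2.2)

end Pool.Agent.Lib.MP_8f9d9d_nt.H56
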