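import Pool.Agent.Lib.MP_8f9d9d_nt.H56Cell
import Pool.Agent.Lib.MP_8f9d9d_nt.H56Span

/-! The count. -/

namespace Pool.Agent.Lib.MP_8f9d9d_nt.H56

open Finset Submodule Filter Module Complex Height
open Pool.Agent.Lib.MP_1f047c_nt Th

theorem count (d : ℕ) {ε : ℝ} (hε : 0 < ε) : ∀ᶠ y : ℕ in atTop, ∀ S : Finset (ℂ × ℂ),
    (∀ p ∈ S, Con p.1 p.2 ∧ (p.1 ∈ Ad d y ∧ log (exp p.1) = p.1) ∧
      p.2 ∈ Ad d y ∧ log (exp p.2) = p.2) → (S.card : ℝ) ≤ (y : ℝ) ^ ε := by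
  classical
  obtain ⟨γ, hγ, hc⟩ := fam_complex.cov d 2 (ε / 4) (by positivity)
  obtain ⟨c, hs⟩ := span_count d 11
  have t1 := tendsto_natCast_atTop_atTop.eventually
    ((isLittleO_log_rpow_atTop (r := ε / 48) (by positivity)).bound (c := 1 / (4 * (c + 1)))
      (by positivity))
  have t2 : Tendsto (fun y : ℕ => (y : ℝ) ^ (ε / 48)) atTop atTop :=
    (tendsto_rpow_atTop (by positivity)).comp tendsto_natCast_atTop_atTop
  filter_upwards [hc, cells d hγ, t1, t2.eventually_ge_atTop (2 * (c + 3)), eventually_ge_atTop 1]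
    with y ⟨β, T, cell, hT, hcT, hcell⟩ h0 h1 h2 hy S hS
  have hy1 : (1 : ℝ) ≤ y := by exact_mod_cast hy
  have hl := Real.log_nonneg hy1
  have e : ∀ (k : ℕ) (δ : ℝ), δ = ε / 48 * k → (y : ℝ) ^ δ = ((y : ℝ) ^ (ε / 48)) ^ k :=
    fun k δ h => by rw [h, Real.rpow_mul_natCast (by positivity)]
  rw [Real.norm_of_nonneg hl, Real.norm_of_nonneg (by positivity)] at h1
  rw [e 12 _ (by push_cast; ring)] at hT
  rw [e 48 _ (by push_cast; ring)]
  generalize (y : ℝ) ^ (ε / 48) = u at h1 h2 hT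
  have c0 : (0 : ℝ) ≤ c := c.cast_nonneg
  have h3 : (c * ⌈2 * Real.log y⌉₊ + 3 : ℝ) ≤ u := by
    rw [one_div_mul_eq_div, le_div_iff₀ (by positivity)] at h1
    nlinarith [mul_le_mul_of_nonneg_left (Nat.ceil_lt_add_one
      (show 0 ≤ 2 * Real.log y by positivity)).le c0]
  have h4 := card_le_mul_card_image_of_maps_to (s := S) (f := fun p => (cell p.1, cell p.2))
    (t := T ×ˢ T) (fun p hp => mem_product.2 ⟨hcT _ (hS p hp).2.1.1, hcT _ (hS p hp).2.2.1⟩)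
    ((c * (c * ⌈2 * Real.log y⌉₊ + 3) ^ 11) ^ 2) fun b _ => by
      generalize hF : S.filter (fun p => (cell p.1, cell p.2) = b) = F
      have k1 : ∀ p ∈ F, p ∈ S ∧ (cell p.1, cell p.2) = b := fun p hp => mem_filter.1 (hF ▸ hp)
      obtain ⟨Θ, k2, k3⟩ := h0 F (fun p hp => ⟨(hS p (k1 p hp).1).1, (hS p (k1 p hp).1).2.1.1,
        (hS p (k1 p hp).1).2.2.1⟩) fun p hp p' hp' =>
          have := Prod.ext_iff.1 ((k1 p hp).2.trans (k1 p' hp').2.symm)
          ⟨hcell _ (hS p (k1 p hp).1).2.1.1 _ (hS p' (k1 p' hp').1).2.1.1 this.1,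
            hcell _ (hS p (k1 p hp).1).2.2.1 _ (hS p' (k1 p' hp').1).2.2.1 this.2⟩
      refine (card_le_card (t := (F.image Prod.fst ∪ F.image Prod.snd) ×ˢ
        (F.image Prod.fst ∪ F.image Prod.snd)) fun p hp => mem_product.2
          ⟨mem_union_left _ (mem_image_of_mem _ hp), mem_union_right _ (mem_image_of_mem _ hp)⟩).trans ?_
      rw [card_product, ← sq]
      refine Nat.pow_le_pow_left (hs _ _ (Nat.le_ceil _) Θ _ k2 fun z hz => ?_) 2
      rw [exp_eq_exp_ℂ]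
      rcases mem_union.1 hz with hz | hz <;> obtain ⟨p, hp, rfl⟩ := mem_image.1 hz
      · exact ⟨(k3 p hp).1, (hS p (k1 p hp).1).2.1.1.1, exp_eq_exp_ℂ ▸ (hS p (k1 p hp).1).2.1.2⟩
      · exact ⟨(k3 p hp).2, (hS p (k1 p hp).1).2.2.1.1, exp_eq_exp_ℂ ▸ (hS p (k1 p hp).1).2.2.2⟩
  rw [card_product] at h4
  calc (S.card : ℝ) ≤ (c * (c * ⌈2 * Real.log y⌉₊ + 3) ^ 11) ^ 2 * (T.card * T.card) := by
        exact_mod_cast h4
    _ ≤ (u * u ^ 11) ^ 2 * (u ^ 12 * u ^ 12) := by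
        have : (c : ℝ) ≤ u := by linarith
        have := c0.trans this
        gcongr
    _ = _ := by ring

lemma log_mem {d y : ℕ} {q : ℂ} (h0 : q ≠ 0) (h : Alg d (Real.log y) q)
    (hy : Real.pi ≤ Real.log y) : log q ∈ Ad d y := by
  refine ⟨by rw [← exp_eq_exp_ℂ, exp_log h0]; exact h.mono le_rfl (by linarith [Real.pi_pos]), ?_⟩
  obtain ⟨K, _, _, φ, α, -, rfl, h⟩ := h
  have h1 := Real.log_le_log (norm_pos_iff.2 h0) (good_complex.liou K φ α)
  have h2 := Real.log_le_log (by simpa using h0) (good_complex.liou K φ α⁻¹)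
  rw [map_inv₀, norm_inv, Real.log_inv, mulHeight₁_inv] at h2
  refine (norm_le_abs_re_add_abs_im _).trans ?_
  rw [log_re, log_im]
  rw [logHeight₁_eq_log_mulHeight₁] at h
  linarith [abs_arg_le_pi (φ α), abs_le.2 (⟨by linarith, h1⟩ : -Real.log (mulHeight₁ α) ≤ _ ∧ _)]

open IntermediateField in
lemma alg_of {d H : ℕ} {q : ℂ} (h : IsAlgebraic ℚ q) (hd : (minpoly ℚ q).natDegree ≤ d)
    (hH : NumberField.absMulHeight₁ q ≤ H) : Alg d (Real.log (H ^ (d + 1) : ℕ)) q := by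
  have h1 := h.isIntegral
  have := adjoin.finiteDimensional h1
  have : NumberField ℚ⟮q⟯ := {}
  rw [NumberField.absMulHeight₁, dif_pos h1, Real.rpow_inv_le_iff_of_pos (by positivity)
    (by positivity) (by exact_mod_cast finrank_pos), Real.rpow_natCast] at hH
  rw [← adjoin.finrank h1] at hd
  refine ⟨ℚ⟮q⟯, _, this, algebraMap _ ℂ, AdjoinSimple.gen ℚ q, hd, rfl,
    Real.log_le_log (by positivity) (hH.trans ?_)⟩
  rcases H.eq_zero_or_pos with rfl | h2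
  · simp [finrank_pos.ne']
  · exact_mod_cast Nat.pow_le_pow_right h2 (hd.trans d.le_succ)

end Pool.Agent.Lib.MP_8f9d9d_nt.H56
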