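import Pool.Agent.Lib.MP_4a1067_nt.AmSurj

/-! A modular relation gives a conic between logarithms. -/

namespace Pool.Agent.Lib.MP_8f9d9d_nt.H56

open UpperHalfPlane hiding I
open ModularForm Complex
open Pool.Agent.Lib.MP_4a1067_nt.Am

lemma scale {a b a' b' D D' : ℂ} (hD : D ≠ 0) (hD' : D' ≠ 0) (h1 : D = (a ^ 3 - b ^ 2) / 1728)
    (h2 : D' = (a' ^ 3 - b' ^ 2) / 1728) (h : a ^ 3 / D = a' ^ 3 / D') :
    ∃ c : ℂ, c ≠ 0 ∧ a' = c ^ 4 * a ∧ b' = c ^ 6 * b := by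
  obtain ⟨c, hc⟩ := IsAlgClosed.exists_pow_nat_eq (D' / D) (n := 12) (by norm_num)
  have c0 : c ≠ 0 := fun e => div_ne_zero hD' hD (by rw [← hc, e]; norm_num)
  rw [eq_div_iff hD] at hc
  rw [div_eq_div_iff hD hD'] at h
  have h3 : a' ^ 3 = (c ^ 4 * a) ^ 3 :=
    mul_right_cancel₀ hD (by linear_combination -h - a ^ 3 * hc)
  have h4 : b' ^ 2 = (c ^ 6 * b) ^ 2 := by
    linear_combination h3 + 1728 * h2 + 1728 * hc - 1728 * c ^ 12 * h1
  obtain ⟨ω, h5, h6⟩ : ∃ ω : ℂ, ω ^ 3 = 1 ∧ a' = ω * (c ^ 4 * a) := by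
    by_cases e : c ^ 4 * a = 0
    · rw [e] at h3 ⊢
      exact ⟨1, one_pow _, by simpa using h3⟩
    · exact ⟨a' / (c ^ 4 * a), by rw [div_pow, h3, div_self (pow_ne_zero _ e)],
        (div_mul_cancel₀ _ e).symm⟩
  have ω0 : ω ≠ 0 := fun e => by simp [e] at h5
  rcases sq_eq_sq_iff_eq_or_eq_neg.1 h4 with h7 | h7
  · exact ⟨c * ω, mul_ne_zero c0 ω0, by linear_combination h6 - ω * c ^ 4 * a * h5,
      by linear_combination h7 - (ω ^ 3 + 1) * c ^ 6 * b * h5⟩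
  · refine ⟨c * ω * I, mul_ne_zero (mul_ne_zero c0 ω0) I_ne_zero, ?_, ?_⟩
    · rw [mul_pow, I_pow_four]
      linear_combination h6 - ω * c ^ 4 * a * h5
    · rw [mul_pow, show I ^ 6 = -1 by rw [show 6 = 4 + 2 from rfl, pow_add, I_pow_four, I_sq, one_mul]]
      linear_combination h7 + (ω ^ 3 + 1) * c ^ 6 * b * h5

/-- points with the same modular invariant are equivalent -/
theorem j_inj {τ τ' : ℍ} (h : E₄ τ ^ 3 / discriminant τ = E₄ τ' ^ 3 / discriminant τ') :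
    ∃ a b c d : ℤ, a * d - b * c ≠ 0 ∧ (τ' : ℂ) * (c * τ + d) = a * τ + b := by
  obtain ⟨c, c0, h4, h6⟩ := scale (discriminant_ne_zero τ) (discriminant_ne_zero τ')
    (discriminant_eq_E₄_cube_sub_E₆_sq τ) (discriminant_eq_E₄_cube_sub_E₆_sq τ') h
  obtain ⟨L, hL⟩ := exists_scl (amsurjL τ) c0
  have e : L.lattice = (amsurjL τ').lattice := lattice_eq_of_g
    (by
      rw [PeriodPair.g₂, PeriodPair.g₂, amscale_G hL c0, amsurj_G (by norm_num),
        amsurj_G (by norm_num)]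
      linear_combination (-120 * riemannZeta (4 : ℕ)) * h4)
    (by
      rw [PeriodPair.g₃, PeriodPair.g₃, amscale_G hL c0, amsurj_G (by norm_num),
        amsurj_G (by norm_num)]
      linear_combination (-280 * riemannZeta (6 : ℕ)) * h6)
  obtain ⟨a, b, h1⟩ := PeriodPair.mem_lattice.1 ((hL _).1 (e ▸ (amsurjL τ').ω₁_mem_lattice))
  obtain ⟨a', b', h2⟩ := PeriodPair.mem_lattice.1 ((hL _).1 (e ▸ (amsurjL τ').ω₂_mem_lattice))
  change (a : ℂ) * τ + b * 1 = c * τ' at h1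
  change (a' : ℂ) * τ + b' * 1 = c * 1 at h2
  refine ⟨a, b, a', b', fun h0 => c0 ?_, by linear_combination τ' * h2 - h1⟩
  have h3 : (a : ℂ) * b' - b * a' = 0 := by exact_mod_cast h0
  have k : ∀ m n : ℤ, (m : ℂ) * τ' = n → m = 0 := fun m n hm => by
    have := congrArg Complex.im hm
    simp only [mul_im, intCast_re, intCast_im, zero_mul, add_zero, coe_im, mul_eq_zero,
      Int.cast_eq_zero] at this
    exact this.resolve_right τ'.im_ne_zero
  have k1 := k b' b (mul_left_cancel₀ c0 (by linear_combination b * h2 - b' * h1 + τ * h3))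
  have k2 := k a' a (mul_left_cancel₀ c0 (by linear_combination a * h2 - a' * h1 - h3))
  rw [k1, k2] at h2
  simpa using h2.symm

/-- the period -/
noncomputable def w : ℂ := 2 * Real.pi * I

lemma w_ne : w ≠ 0 := two_pi_I_ne_zero

lemma exp_w : exp w = 1 := exp_two_pi_mul_I

/-- the conic -/
def Con (l m : ℂ) : Prop := ∃ u v r : ℚ, r ≠ 0 ∧ (l + u * w) * (m + v * w) = r * w ^ 2

lemma Con.symm {l m : ℂ} (h : Con l m) : Con m l := by
  obtain ⟨u, v, r, h1, h2⟩ := h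
  exact ⟨v, u, r, h1, by rw [mul_comm, h2]⟩

lemma im_pos {l : ℂ} (h : ‖exp l‖ < 1) : 0 < (l / w).im := by
  rw [norm_exp, Real.exp_lt_one_iff] at h
  have : l / w = -(l * I) / ((2 * Real.pi : ℝ) : ℂ) := by
    rw [div_eq_div_iff w_ne (by exact_mod_cast Real.two_pi_pos.ne'), w]
    push_cast
    linear_combination (2 * Real.pi * l) * I_sq
  rw [this, div_ofReal_im]
  exact div_pos (by simpa using h) Real.two_pi_pos

/-- a zero of a modular polynomial -/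
theorem con_of (j J : ℂ → ℂ) (hj : ∀ τ : ℍ, j τ = E₄ τ ^ 3 / discriminant τ)
    (hJ : ∀ τ : ℂ, 0 < τ.im → J (exp (2 * Real.pi * I * τ)) = j τ) {s : ℕ}
    {Φ : MvPolynomial (Fin 2) ℤ}
    (hΦ : ∀ τ : ℂ, 0 < τ.im → ∀ x : ℂ, MvPolynomial.aeval ![x, j τ] Φ =
      ∏ c ∈ s.divisorsAntidiagonal,
        ∏ b ∈ (Finset.range c.2).filter (fun b => Nat.gcd (Nat.gcd c.1 b) c.2 = 1),
          (x - j ((c.1 * τ + b) / c.2)))
    {l m : ℂ} (hl : ‖exp l‖ < 1) (hm : ‖exp m‖ < 1)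
    (h : MvPolynomial.aeval ![J (exp l), J (exp m)] Φ = 0) :
    Con l m ∨ ∃ a b : ℤ, (a ≠ 0 ∨ b ≠ 0) ∧ exp l ^ a * exp m ^ b = 1 := by
  obtain ⟨τ, rfl⟩ : ∃ τ, l = w * τ := ⟨l / w, (mul_div_cancel₀ _ w_ne).symm⟩
  obtain ⟨σ, rfl⟩ : ∃ σ, m = w * σ := ⟨m / w, (mul_div_cancel₀ _ w_ne).symm⟩
  have h1 := im_pos hl
  have h2 := im_pos hm
  rw [mul_div_cancel_left₀ _ w_ne] at h1 h2
  rw [show J (exp (w * τ)) = j τ from hJ τ h1, show J (exp (w * σ)) = j σ from hJ σ h2,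
    hΦ σ h2] at h
  obtain ⟨⟨a, d⟩, had, h⟩ := Finset.prod_eq_zero_iff.1 h
  obtain ⟨b, -, h⟩ := Finset.prod_eq_zero_iff.1 h
  obtain ⟨e1, e2⟩ := Nat.mem_divisorsAntidiagonal.1 had
  have a0 : a ≠ 0 := left_ne_zero_of_mul (e1.trans_ne e2)
  have d0 : d ≠ 0 := right_ne_zero_of_mul (e1.trans_ne e2)
  have d1 : (d : ℂ) ≠ 0 := by exact_mod_cast d0
  have h3 : 0 < ((a * σ + b) / d : ℂ).im := by
    rw [div_natCast_im]
    refine div_pos ?_ (by exact_mod_cast Nat.pos_of_ne_zero d0)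
    simpa using mul_pos (by exact_mod_cast Nat.pos_of_ne_zero a0 : (0 : ℝ) < a) h2
  obtain ⟨a', b', c', d', k1, k2⟩ := j_inj (τ := ⟨_, h3⟩) (τ' := ⟨τ, h1⟩)
    ((hj ⟨_, h3⟩).symm.trans ((sub_eq_zero.1 h).symm.trans (hj ⟨τ, h1⟩)))
  change τ * (c' * ((a * σ + b) / d) + d') = a' * ((a * σ + b) / d) + b' at k2
  field_simp at k2
  by_cases c0 : c' = 0
  · refine Or.inr ⟨d' * d, -(a' * a), Or.inl (mul_ne_zero (fun e => k1 (by simp [e, c0]))
      (by exact_mod_cast d0)), ?_⟩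
    rw [← exp_int_mul, ← exp_int_mul, ← exp_add]
    refine exp_eq_one_iff.2 ⟨a' * b + b' * d, ?_⟩
    rw [c0] at k2
    change _ = _ * w
    push_cast at k2 ⊢
    linear_combination w * k2
  · have c1 : (c' : ℂ) ≠ 0 := by exact_mod_cast c0
    have a1 : (a : ℂ) ≠ 0 := by exact_mod_cast a0
    refine Or.inl ⟨-a' / c', (c' * b + d' * d) / (c' * a), -((a' * d' - b' * c') * d) / (c' ^ 2 * a),
      ?_, ?_⟩
    · have k3 : ((a' : ℚ) * d' - b' * c') ≠ 0 := by exact_mod_cast k1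
      exact div_ne_zero (neg_ne_zero.2 (mul_ne_zero k3 (by exact_mod_cast d0)))
        (by exact_mod_cast mul_ne_zero (pow_ne_zero 2 c0) (by exact_mod_cast a0))
    · push_cast
      field_simp
      linear_combination w ^ 2 * c' * k2

end Pool.Agent.Lib.MP_8f9d9d_nt.H56
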