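import Pool.Agent.Lib.MP_8f9d9d_nt.H53CaseD

set_option autoImplicit false

open scoped IntermediateField Polynomial

namespace Pool.Agent.Lib.MP_8f9d9d_nt.H74

open Pool.Agent.Lib.MP_8f9d9d_nt.H53

variable {p : ℕ} [Fact p.Prime] {k K : Type*} [Field k] [IsAlgClosed k] [Field K] [Algebra k K]
  [CharP K p]

/-- The field of the `p`-th powers of the elements of a field. -/
theorem exists_pw (E : IntermediateField k K) :
    ∃ M : IntermediateField k K, ∀ x, x ∈ M ↔ ∃ w ∈ E, w ^ p = x := by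
  refine ⟨(E.toSubfield.map (frobenius K p)).toIntermediateField fun c => ?_, fun x => Iff.rfl⟩
  obtain ⟨d, rfl⟩ := IsAlgClosed.exists_pow_nat_eq c (Fact.out : p.Prime).pos
  exact ⟨algebraMap k K d, E.algebraMap_mem d, by rw [frobenius_def, map_pow]⟩

theorem one_comp {j : K} (hj : ∀ w : K, w ^ p ≠ j) (n : ℕ) (b : ℕ → K)
    (h : (1 : K) = ∑ c ∈ Finset.range (p ^ n), j ^ c * b c ^ p ^ n) (c : ℕ) (hc : c < p ^ n) :
    b c = if c = 0 then 1 else 0 := by
  have hN : 0 < p ^ n := by omega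
  refine indep hj n b (fun c => if c = 0 then 1 else 0) ?_ c hc
  rw [← h, Finset.sum_eq_single 0]
  · simp
  · intro c _ hc
    rw [if_neg hc, zero_pow hN.ne', mul_zero]
  · exact fun h => absurd (Finset.mem_range.2 hN) h

theorem zero_comp {j : K} (hj : ∀ w : K, w ^ p ≠ j) (n : ℕ) (b : ℕ → K)
    (h : ∑ c ∈ Finset.range (p ^ n), j ^ c * b c ^ p ^ n = 0) (c : ℕ) (hc : c < p ^ n) :
    b c = 0 := by
  have hN : 0 < p ^ n := by omega
  refine indep hj n b (fun _ => 0) ?_ c hc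
  rw [h]
  exact (Finset.sum_eq_zero fun c _ => by rw [zero_pow hN.ne', mul_zero]).symm

omit [IsAlgClosed k] in
/-- An inseparable element has smaller degree over the next field. -/
theorem drop {E E' : IntermediateField k K} {j x : K} (hj : ∀ w : K, w ^ p ≠ j)
    (hE : ∀ a ∈ E, ∃ b : ℕ → K, (∀ c, b c ∈ E') ∧
      a = ∑ c ∈ Finset.range (p ^ 1), j ^ c * b c ^ p ^ 1)
    (hx : IsAlgebraic E x) (hs : ¬IsSeparable E x) :
    IsAlgebraic E' x ∧ (minpoly E' x).natDegree < (minpoly E x).natDegree := by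
  have hp : p.Prime := Fact.out
  have : CharP E p := (Algebra.charP_iff E K p).2 inferInstance
  have hi := hx.isIntegral
  have hd : Polynomial.derivative (minpoly E x) = 0 := by
    by_contra h
    exact hs ((Polynomial.separable_iff_derivative_ne_zero (minpoly.irreducible hi)).2 h)
  obtain ⟨g, hg⟩ : ∃ g, Polynomial.expand E p g = minpoly E x :=
    ⟨_, Polynomial.expand_contract p hd hp.ne_zero⟩
  have hm : g.Monic := (Polynomial.monic_expand_iff hp.pos).1 (hg ▸ minpoly.monic hi)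
  have hdeg : (minpoly E x).natDegree = g.natDegree * p := by rw [← hg, Polynomial.natDegree_expand]
  have hpos := minpoly.natDegree_pos hi
  choose b hb1 hb2 using fun i => hE (g.coeff i : K) (g.coeff i).2
  have h0 : ∑ i ∈ Finset.range (g.natDegree + 1), (g.coeff i : K) * (x ^ i) ^ p ^ 1 = 0 := by
    have := minpoly.aeval E x
    rw [← hg, Polynomial.expand_aeval, Polynomial.aeval_eq_sum_range] at this
    rw [← this]
    refine Finset.sum_congr rfl fun i _ => ?_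
    rw [pow_one, ← pow_mul, ← pow_mul, mul_comm i p]
    rfl
  have h1 : ∑ i ∈ Finset.range (g.natDegree + 1), b i 0 * x ^ i = 0 := by
    refine zero_comp hj 1 (fun c => ∑ i ∈ Finset.range (g.natDegree + 1), b i c * x ^ i) ?_ 0
      (pow_pos hp.pos 1)
    rw [← h0]
    simp only [sum_pow_char_pow, Finset.mul_sum]
    rw [Finset.sum_comm]
    refine Finset.sum_congr rfl fun i _ => ?_
    rw [hb2 i, Finset.sum_mul]
    exact Finset.sum_congr rfl fun c _ => by rw [mul_pow, mul_assoc]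
  have h2 : b g.natDegree 0 = 1 := by
    have := one_comp hj 1 (b g.natDegree) (by
      rw [← hb2, hm.coeff_natDegree]; rfl) 0 (pow_pos hp.pos 1)
    simpa using this
  let f : E'[X] := ∑ i ∈ Finset.range (g.natDegree + 1),
    Polynomial.monomial i (⟨b i 0, hb1 i 0⟩ : E')
  have f1 : f.coeff g.natDegree = 1 := by
    simp only [f, Polynomial.finsetSum_coeff, Polynomial.coeff_monomial, Finset.sum_ite_eq',
      Finset.mem_range, Nat.lt_succ_self, if_true]
    exact Subtype.ext h2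
  have f0 : f ≠ 0 := fun h => by simp [h] at f1
  have f2 : Polynomial.aeval x f = 0 := by
    rw [← h1]
    simp only [f, map_sum, Polynomial.aeval_monomial]
    rfl
  have f3 : f.natDegree ≤ g.natDegree :=
    Polynomial.natDegree_sum_le_of_forall_le _ _ fun i hi =>
      (Polynomial.natDegree_monomial_le _).trans (Nat.lt_succ_iff.1 (Finset.mem_range.1 hi))
  refine ⟨⟨f, f0, f2⟩, ?_⟩
  have f4 := Polynomial.natDegree_le_natDegree (minpoly.degree_le_of_ne_zero E' x f0 f2)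
  have := hp.two_le
  have f5 : 0 < g.natDegree := Nat.pos_of_mul_pos_right (hdeg ▸ hpos)
  nlinarith

omit [IsAlgClosed k] [CharP K p] in
theorem ratio {q j : K} (hq : q ≠ 0) {r : ℕ → K} (hr : ∀ n, r n ≠ 0)
    (ha : ∀ n, IsAlgebraic k⟮j⟯ (q * r n ^ p ^ n)) (m n : ℕ) :
    ∃ c : K, IsAlgebraic k⟮j⟯ c ∧ r m = c * r (m + n) ^ p ^ n := by
  refine ⟨r m / r (m + n) ^ p ^ n, ?_, (div_mul_cancel₀ _ (pow_ne_zero _ (hr _))).symm⟩
  refine IsAlgebraic.of_pow (pow_pos (Fact.out : p.Prime).pos m) ?_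
  have e : (r m / r (m + n) ^ p ^ n) ^ p ^ m =
      q * r m ^ p ^ m * (q * r (m + n) ^ p ^ (m + n))⁻¹ := by
    rw [div_pow, ← pow_mul, ← pow_add, add_comm n m]
    have := pow_ne_zero (p ^ (m + n)) (hr (m + n))
    field_simp
  rw [e]
  exact (ha m).mul (ha _).inv

/-- Separability high in the tower. -/
theorem sep_high {q j : K} (h : Pt p k q j) {A : IntermediateField k K}
    (hA : ∀ x, x ∈ A ↔ IsAlgebraic k⟮j⟯ x) {r : ℕ → K} (hr : ∀ n, r n ≠ 0)
    (ha : ∀ n, IsAlgebraic k⟮j⟯ (q * r n ^ p ^ n)) {x : K} (d : ℕ) :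
    ∀ m, IsAlgebraic (A ⊔ k⟮r m⟯ : IntermediateField k K) x →
      (minpoly (A ⊔ k⟮r m⟯ : IntermediateField k K) x).natDegree ≤ d →
      ∃ m', IsSeparable (A ⊔ k⟮r m'⟯ : IntermediateField k K) x := by
  induction d using Nat.strong_induction_on with
  | _ d ih =>
  intro m hx hd
  by_cases hs : IsSeparable (A ⊔ k⟮r m⟯ : IntermediateField k K) x
  · exact ⟨m, hs⟩
  obtain ⟨M, hM⟩ := exists_pw (p := p) (A ⊔ k⟮r (m + 1)⟯)
  have hjA : j ∈ A := (hA _).2 (alg_of_mem (IntermediateField.mem_adjoin_simple_self k j))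
  have h1 : A ≤ M ⊔ k⟮j⟯ := fun y hy =>
    sep_mem le_sup_right (sep1 h.nj ((hA y).1 hy)) 1 ((le_sup_left : M ≤ _)
      ((hM _).2 ⟨y, (le_sup_left : A ≤ _) hy, (by rw [pow_one])⟩))
  have h2 : A ⊔ k⟮r m⟯ ≤ M ⊔ k⟮j⟯ := by
    refine sup_le h1 (IntermediateField.adjoin_simple_le_iff.2 ?_)
    obtain ⟨c, hc, e⟩ := ratio (caseV_aux_ne h.nq) hr ha m 1
    rw [e]
    exact mul_mem (h1 ((hA c).2 hc)) ((le_sup_left : M ≤ _) ((hM _).2 ⟨_,
      (le_sup_right : k⟮r (m + 1)⟯ ≤ _) (IntermediateField.mem_adjoin_simple_self k _),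
      (by rw [pow_one])⟩))
  obtain ⟨h3, h4⟩ := drop (E' := A ⊔ k⟮r (m + 1)⟯) h.nj (fun a ha => by
    obtain ⟨μ, m1, m2⟩ := span_pow M (pow_pos (Fact.out : p.Prime).pos 1)
      ((hM _).2 ⟨j, (le_sup_left : A ≤ _) hjA, (by rw [pow_one])⟩) (h2 ha)
    choose b b1 b2 using fun c => (hM _).1 (m1 c)
    exact ⟨b, b1, by simpa only [pow_one, b2] using m2⟩) hx hs
  exact ih _ (h4.trans_le hd) (m + 1) h3 le_rfl

omit [IsAlgClosed k] in
theorem sep_mono {E M : IntermediateField k K} (hEM : E ≤ M) {x : K} (hx : IsSeparable E x) :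
    IsSeparable M x := by
  let := (IntermediateField.inclusion hEM).toAlgebra
  have : IsScalarTower E M K := IsScalarTower.of_algebraMap_eq fun _ => rfl
  exact IsSeparable.tower_top M hx

/-- Two values independent over `k`. -/
theorem case_ind {q1 j1 q2 j2 : K} (h1 : Pt p k q1 j1) (h2 : Pt p k q2 j2)
    (hi : Transcendental k⟮j2⟯ j1) (a1 : IsAlgebraic (k⟮j2⟯ ⊔ k⟮q2⟯ : IntermediateField k K) q1)
    (a2 : IsAlgebraic (k⟮j2⟯ ⊔ k⟮q2⟯ : IntermediateField k K) j1) : False := by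
  classical
  have hp : p.Prime := Fact.out
  obtain ⟨A, hA⟩ := exists_cl k⟮j2⟯
  choose r hr ha using h2.f1
  have hq2 := caseV_aux_ne h2.nq
  have hjA : k⟮j2⟯ ≤ A := fun y hy => (hA y).2 (alg_of_mem hy)
  have hj2 : j2 ∈ A := hjA (IntermediateField.mem_adjoin_simple_self k j2)
  have mono : ∀ m n, A ⊔ k⟮r m⟯ ≤ A ⊔ k⟮r (m + n)⟯ := fun m n => by
    refine sup_le le_sup_left (IntermediateField.adjoin_simple_le_iff.2 ?_)
    obtain ⟨c, hc, e⟩ := ratio hq2 hr ha m n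
    rw [e]
    exact mul_mem ((le_sup_left : A ≤ _) ((hA c).2 hc)) (pow_mem
      ((le_sup_right : k⟮r (m + n)⟯ ≤ _) (IntermediateField.mem_adjoin_simple_self k _)) _)
  have base : k⟮j2⟯ ⊔ k⟮q2⟯ ≤ A ⊔ k⟮r 0⟯ := by
    refine sup_le (hjA.trans le_sup_left) (IntermediateField.adjoin_simple_le_iff.2 ?_)
    have e : q2 = q2 * r 0 ^ p ^ 0 * (r 0)⁻¹ := by
      rw [pow_zero, pow_one, mul_inv_cancel_right₀ (hr 0)]
    rw [e]
    exact mul_mem ((le_sup_left : A ≤ _) ((hA _).2 (ha 0))) (inv_mem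
      ((le_sup_right : k⟮r 0⟯ ≤ _) (IntermediateField.mem_adjoin_simple_self k _)))
  obtain ⟨m1, s1⟩ := sep_high h2 hA hr ha _ 0 (alg_mono base a1) le_rfl
  obtain ⟨m2, s2⟩ := sep_high h2 hA hr ha _ 0 (alg_mono base a2) le_rfl
  replace s1 := sep_mono (mono m1 m2) s1
  replace s2 := sep_mono (mono m2 m1) s2
  rw [add_comm m2 m1] at s2
  generalize m1 + m2 = m at s1 s2
  have hiA : Transcendental A j1 := fun h => hi (alg_trans (fun y hy => (hA y).1 hy) h)
  have hs : IsAlgebraic (A ⊔ k⟮j1⟯ : IntermediateField k K) (r m) :=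
    exchange A hiA s2.isIntegral.isAlgebraic
  have hq1 : IsAlgebraic (A ⊔ k⟮j1⟯ : IntermediateField k K) q1 := by
    obtain ⟨B, hB⟩ := exists_cl (A ⊔ k⟮j1⟯ : IntermediateField k K)
    refine alg_trans (M := A ⊔ k⟮r m⟯) (fun y hy => (hB y).1 ?_) s1.isIntegral.isAlgebraic
    refine (sup_le (fun z hz => (hB z).2 (alg_of_mem ((le_sup_left : A ≤ _) hz)))
      (IntermediateField.adjoin_simple_le_iff.2 ((hB _).2 hs)) : A ⊔ k⟮r m⟯ ≤ B) hy
  obtain ⟨D, hD⟩ := deg_sup (A ⊔ k⟮j1⟯) {r m, q1} (by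
    intro s hs'
    simp only [Finset.mem_insert, Finset.mem_singleton] at hs'
    rcases hs' with rfl | rfl
    exacts [hs, hq1])
  replace hD := hD _ le_rfl
  obtain ⟨n, hn⟩ := h1.unb D
  obtain ⟨F, hF⟩ := exists_Fr (p := p) (k := k) (K := K) n
  obtain ⟨g, hg, hg0⟩ := h1.dec n
  set L := (A ⊔ k⟮j1⟯) ⊔ IntermediateField.adjoin k (({r m, q1} : Finset K) : Set K) with hL
  have hAL : A ≤ L := le_sup_left.trans le_sup_left
  have hrL : r m ∈ L := (le_sup_right : _ ≤ L) (IntermediateField.subset_adjoin k _ (by simp))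
  have hqL : q1 ∈ L := (le_sup_right : _ ≤ L) (IntermediateField.subset_adjoin k _ (by simp))
  have hjL : j1 ∈ L := (le_sup_left : _ ≤ L)
    ((le_sup_right : k⟮j1⟯ ≤ _) (IntermediateField.mem_adjoin_simple_self k j1))
  have b1 : A ≤ (L ⊓ F) ⊔ k⟮j2⟯ := fun y hy =>
    caseV_aux_mem n hF le_sup_right (hAL hy) (sep1 h2.nj ((hA y).1 hy))
  have b2 : r m ∈ (L ⊓ F) ⊔ k⟮j2⟯ := by
    obtain ⟨c, hc, e⟩ := ratio hq2 hr ha m n
    have c0 : c ≠ 0 := fun h => hr m (by rw [e, h, zero_mul])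
    have e' : r (m + n) ^ p ^ n = c⁻¹ * r m := by rw [e, inv_mul_cancel_left₀ c0]
    rw [e]
    refine mul_mem (b1 ((hA c).2 hc)) ((le_sup_left : L ⊓ F ≤ _) ⟨?_, (hF _).2 ⟨_, rfl⟩⟩)
    rw [e']
    exact mul_mem (inv_mem (hAL ((hA c).2 hc))) hrL
  have b3 : A ⊔ k⟮r m⟯ ≤ (L ⊓ F) ⊔ k⟮j2⟯ := sup_le b1 (IntermediateField.adjoin_simple_le_iff.2 b2)
  have hle : L ≤ (L ⊓ F) ⊔ k⟮j2⟯ := by
    refine sup_le (sup_le b1 (IntermediateField.adjoin_simple_le_iff.2
      (caseV_aux_mem n hF b3 hjL s2))) ?_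
    rw [IntermediateField.adjoin_le_iff]
    intro s hs'
    simp only [Finset.coe_insert, Finset.coe_singleton, Set.mem_insert_iff,
      Set.mem_singleton_iff] at hs'
    rcases hs' with rfl | rfl
    · exact b2
    · exact caseV_aux_mem n hF b3 hqL s1
  have hN : 0 < p ^ n := pow_pos hp.pos n
  have hgL := comp_mem n F L hF (hAL hj2) hle hqL h1.nq g (hg ▸ hjL) (p ^ n - 1) (by omega)
  have hq0 := caseV_aux_ne h1.nq
  have hx : q1 * (q1 * g (p ^ n - 1))⁻¹ ^ p ^ n ∈ L := by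
    rw [caseV_aux_inv hq0]
    exact inv_mem (mul_mem (pow_mem hqL _) hgL)
  have hy : IsAlgebraic k⟮j1⟯ (q1 * (q1 * g (p ^ n - 1))⁻¹ ^ p ^ n) := by
    rw [caseV_aux_inv hq0]
    exact (h1.comp_alg n g hg _ (by omega)).inv
  exact absurd (hn _ (inv_ne_zero (mul_ne_zero hq0 hg0)) hy)
    (not_lt.2 ((deg_descent A hiA hy).trans (hD _ hx).2))

end Pool.Agent.Lib.MP_8f9d9d_nt.H74
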