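import Pool.Agent.Lib.MP_8f9d9d_nt.H74As1

set_option autoImplicit false

open scoped IntermediateField Polynomial

namespace Pool.Agent.Lib.MP_8f9d9d_nt.H74

open Pool.Agent.Lib.MP_8f9d9d_nt.H53

variable {p : ℕ} [Fact p.Prime] {k K : Type*} [Field k] [IsAlgClosed k] [Field K] [Algebra k K]
  [CharP K p]

/-- A shortest relation has all its ratios in every field of powers. -/
theorem short_rel {ι : Type} {j : K} (hj : ∀ w : K, w ^ p ≠ j) {A : IntermediateField k K}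
    (hA : ∀ x, x ∈ A ↔ IsAlgebraic k⟮j⟯ x) {μ : ι → K} (h0 : ∀ i, μ i ≠ 0)
    (hμ : ∀ i n, ∃ u ∈ A, ∃ y : K, μ i = u * y ^ p ^ n) (N : ℕ) :
    ∀ (S : Finset ι) (c : ι → K), S.card ≤ N → (∀ i, c i ∈ A) → ∑ i ∈ S, c i * μ i = 0 →
      (∃ i ∈ S, c i ≠ 0) → ∃ i i', i ≠ i' ∧ ∃ γ ∈ A, γ ≠ 0 ∧
        ∀ n, ∃ w : K, γ * μ i / μ i' = w ^ p ^ n := by
  classical
  have hjA : j ∈ A := (hA _).2 (alg_of_mem (IntermediateField.mem_adjoin_simple_self k j))
  induction N with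
  | zero =>
    rintro S c hS - - ⟨i, hi, -⟩
    have := Finset.card_pos.2 ⟨i, hi⟩
    omega
  | succ N ih =>
  rintro S c hS hc hs ⟨i0, hi0, hc0⟩
  have hcard : (S.erase i0).card ≤ N := by rw [Finset.card_erase_of_mem hi0]; omega
  obtain ⟨i1, hi1, hc1⟩ : ∃ i ∈ S.erase i0, c i ≠ 0 := by
    by_contra h
    push Not at h
    rw [← Finset.add_sum_erase S _ hi0,
      Finset.sum_eq_zero fun i hi => by rw [h i hi, zero_mul], add_zero] at hs
    exact mul_ne_zero hc0 (h0 i0) hs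
  by_cases H : ∀ n, ∃ w : K, c i1 / c i0 * μ i1 / μ i0 = w ^ p ^ n
  · exact ⟨i1, i0, (Finset.mem_erase.1 hi1).1, _, div_mem (hc i1) (hc i0), div_ne_zero hc1 hc0, H⟩
  push Not at H
  obtain ⟨n, hn⟩ := H
  have hN : 0 < p ^ n := pow_pos (Fact.out : p.Prime).pos n
  choose u hu y hy using fun i => hμ i n
  have u0 : ∀ i, u i ≠ 0 := fun i h => h0 i (by rw [hy i, h, zero_mul])
  have y0 : ∀ i, y i ≠ 0 := fun i h => h0 i (by rw [hy i, h, zero_pow hN.ne', mul_zero])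
  have hm : ∀ i, c i * u i / (c i0 * u i0) ∈ A := fun i =>
    div_mem (mul_mem (hc i) (hu i)) (mul_mem (hc i0) (hu i0))
  choose b hb1 hb2 using fun i => caseD_dec (p := p) n A hj hjA (hm i) ((hA _).1 (hm i))
  have h1 : ∀ e, e < p ^ n → ∑ i ∈ S, b i e * y i = 0 := by
    refine zero_comp hj n (fun e => ∑ i ∈ S, b i e * y i) ?_
    have : ∑ i ∈ S, c i * u i / (c i0 * u i0) * y i ^ p ^ n = 0 := by
      rw [← zero_div (c i0 * u i0), ← hs, Finset.sum_div]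
      exact Finset.sum_congr rfl fun i _ => by rw [hy i]; ring
    rw [← this]
    simp only [sum_pow_char_pow, Finset.mul_sum]
    rw [Finset.sum_comm]
    refine Finset.sum_congr rfl fun i _ => ?_
    rw [hb2 i, Finset.sum_mul]
    exact Finset.sum_congr rfl fun e _ => by rw [mul_pow, mul_assoc]
  obtain ⟨e, he, e0, hb⟩ : ∃ e, e < p ^ n ∧ e ≠ 0 ∧ b i1 e ≠ 0 := by
    by_contra h
    push Not at h
    refine hn (b i1 0 * y i1 / y i0) ?_
    have h2 := hb2 i1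
    rw [Finset.sum_eq_single 0 (fun e he e0 => by
      rw [h e (Finset.mem_range.1 he) e0, zero_pow hN.ne', mul_zero])
      (fun h => absurd (Finset.mem_range.2 hN) h), pow_zero, one_mul] at h2
    rw [div_pow, mul_pow, ← h2, hy i1, hy i0]
    have := u0 i0
    have := pow_ne_zero (p ^ n) (y0 i0)
    field_simp
  have h2 : b i0 e = 0 := by
    have := one_comp hj n (b i0) (by
      rw [← hb2 i0, div_self (mul_ne_zero hc0 (u0 i0))]) e he
    rwa [if_neg e0] at this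
  refine ih (S.erase i0) (fun i => b i e ^ p ^ n / u i) hcard
    (fun i => div_mem (hb1 i e) (hu i)) ?_ ⟨i1, hi1, div_ne_zero (pow_ne_zero _ hb) (u0 i1)⟩
  have h3 := h1 e he
  rw [← Finset.add_sum_erase S _ hi0, h2, zero_mul, zero_add] at h3
  have h4 := congrArg (fun z => z ^ p ^ n) h3
  simp only [sum_pow_char_pow, zero_pow hN.ne'] at h4
  rw [← h4]
  refine Finset.sum_congr rfl fun i _ => ?_
  rw [hy i, mul_pow, ← mul_assoc, div_mul_cancel₀ _ (u0 i)]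

/-- A relation over the algebraic closure of `k(j)` can be taken binomial. -/
theorem binom {q1 j1 q2 j2 : K} (h1 : Pt p k q1 j1) (h2 : Pt p k q2 j2)
    (hd : IsAlgebraic k⟮j1⟯ j2) (ha : IsAlgebraic (k⟮j1⟯ ⊔ k⟮q1⟯ : IntermediateField k K) q2) :
    ∃ (α β : ℤ) (c : K), (α ≠ 0 ∨ β ≠ 0) ∧ c ≠ 0 ∧ IsAlgebraic k⟮j1⟯ c ∧
      ∀ n, ∃ w : K, c * q1 ^ α * q2 ^ β = w ^ p ^ n := by
  classical
  obtain ⟨A, hA⟩ := exists_cl k⟮j1⟯
  have n1 := caseV_aux_ne h1.nq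
  have n2 := caseV_aux_ne h2.nq
  have hdep : ¬AlgebraicIndependent A ![q1, q2] := fun H => by
    have h3 := H.transcendental_adjoin (i := 1) (s := {1}ᶜ) (by simp)
    refine h3 (IntermediateField.isAlgebraic_adjoin_iff.1 ?_)
    have hle : k⟮j1⟯ ⊔ k⟮q1⟯ ≤
        (IntermediateField.adjoin A (![q1, q2] '' {1}ᶜ)).restrictScalars k := by
      refine sup_le (fun y hy => ?_) (IntermediateField.adjoin_simple_le_iff.2 ?_)
      · exact (IntermediateField.adjoin A _).algebraMap_mem ⟨y, (hA y).2 (alg_of_mem hy)⟩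
      · exact IntermediateField.subset_adjoin A _ ⟨0, by simp, rfl⟩
    exact alg_mono hle ha
  rw [algebraicIndependent_iff] at hdep
  push Not at hdep
  obtain ⟨P, hP, P0⟩ := hdep
  rw [MvPolynomial.aeval_def, MvPolynomial.eval₂_eq'] at hP
  obtain ⟨σ0, hσ0⟩ := MvPolynomial.support_nonempty.2 P0
  obtain ⟨σ, σ', hne, γ, hγ, γ0, H⟩ := short_rel (ι := Fin 2 →₀ ℕ) h1.nj hA
    (μ := fun σ => q1 ^ σ 0 * q2 ^ σ 1)
    (fun σ => mul_ne_zero (pow_ne_zero _ n1) (pow_ne_zero _ n2))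
    (fun σ n => by
      obtain ⟨r, hr, a1⟩ := h1.f1 n
      obtain ⟨s, hs, a2⟩ := h2.f1 n
      refine ⟨(q1 * r ^ p ^ n) ^ σ 0 * (q2 * s ^ p ^ n) ^ σ 1,
        mul_mem (pow_mem ((hA _).2 a1) _) (pow_mem ((hA _).2 (caseD_step hd a2)) _),
        (r ^ σ 0 * s ^ σ 1)⁻¹, ?_⟩
      rw [inv_pow, mul_pow (r ^ σ 0), ← pow_mul, ← pow_mul, mul_comm (σ 0), mul_comm (σ 1),
        pow_mul, pow_mul, mul_pow, mul_pow]
      have := pow_ne_zero (p ^ n) hr
      have := pow_ne_zero (p ^ n) hs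
      field_simp)
    _ P.support (fun σ => ((P.coeff σ : A) : K)) le_rfl (fun σ => (P.coeff σ).2)
    (by simpa [Fin.prod_univ_two] using hP)
    ⟨σ0, hσ0, fun h => MvPolynomial.mem_support_iff.1 hσ0 (Subtype.ext h)⟩
  refine ⟨(σ 0 : ℤ) - σ' 0, (σ 1 : ℤ) - σ' 1, γ, ?_, γ0, (hA γ).1 hγ, fun n => ?_⟩
  · by_contra h
    push Not at h
    refine hne (Finsupp.ext fun i => ?_)
    fin_cases i
    · show σ 0 = σ' 0
      omega
    · show σ 1 = σ' 1
      omega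
  · obtain ⟨w, hw⟩ := H n
    refine ⟨w, ?_⟩
    rw [← hw, zpow_sub₀ n1, zpow_sub₀ n2]
    simp only [zpow_natCast]
    field_simp

end Pool.Agent.Lib.MP_8f9d9d_nt.H74
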