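import Pool.Agent.Lib.MP_8f9d9d_nt.H74As2

set_option autoImplicit false

open scoped IntermediateField Polynomial

namespace Pool.Agent.Lib.MP_8f9d9d_nt.H74

open Pool.Agent.Lib.MP_8f9d9d_nt.H53

/-- The conjugates of the units attached to a point. -/
def Cj (p : ℕ) (k : Type*) {K : Type*} [Field k] [Field K] [Algebra k K] (q j : K) : Prop :=
  ∀ n : ℕ, 0 < n → ∃ s : ℕ → K, s 1 ≠ 0 ∧ ∀ i, (∏ a ∈ Finset.range (p ^ n),
    (Polynomial.X - Polynomial.C ((q ^ (12 * a ^ 2) * s a ^ p ^ n) ^ p ^ n)) ^ p ^ n).coeff i ∈ k⟮j⟯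

theorem int_red {p : ℤ} (hp : Prime p) {B : ℤ} {e : ℕ} (hB : ¬p ^ (e + 1) ∣ B) (n : ℕ) :
    ∃ (e' : ℕ) (B' u m : ℤ), e' ≤ e ∧ B = p ^ e' * B' ∧ u * B' = 1 + p ^ n * m := by
  have h0 : B ≠ 0 := by
    rintro rfl
    exact hB (dvd_zero _)
  obtain ⟨e', B', h1, h2⟩ := WfDvdMonoid.max_power_factor h0 hp.irreducible
  obtain ⟨x, y, hxy⟩ := ((Prime.coprime_iff_not_dvd hp).2 h1).pow_left (m := n)
  refine ⟨e', B', y, -x, ?_, h2, by linear_combination hxy⟩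
  by_contra h
  exact hB (h2 ▸ (pow_dvd_pow p (by omega)).trans (dvd_mul_right _ _))

theorem dvd_two {p : ℤ} (hp : Prime p) (n : ℕ) {c b : ℤ} (h : p ^ n ∣ c * ((b - 1) * (b + 1))) :
    p ^ n ∣ 2 * c * (b + -1) ∨ p ^ n ∣ 2 * c * (b + 1) := by
  obtain ⟨x, rfl | rfl⟩ := Int.even_or_odd' b
  · by_cases h1 : p ∣ 2 * x + 1
    · have h2 : ¬p ∣ 2 * x - 1 := fun h2 => hp.not_dvd_one
        ((dvd_sub h1 ((dvd_sub h1 h2).mul_left x)).trans (dvd_of_eq (by ring)))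
      exact .inr ((hp.pow_dvd_of_dvd_mul_left n h2
        (h.trans (dvd_of_eq (b := (2 * x - 1) * (c * (2 * x + 1))) (by ring)))).trans
        ⟨2, by ring⟩)
    · exact .inl ((hp.pow_dvd_of_dvd_mul_left n h1
        (h.trans (dvd_of_eq (b := (2 * x + 1) * (c * (2 * x - 1))) (by ring)))).trans
        ⟨2, by ring⟩)
  · by_cases h1 : p ∣ x + 1
    · have h2 : ¬p ∣ x := fun h2 => hp.not_dvd_one ((dvd_sub h1 h2).trans (dvd_of_eq (by ring)))
      exact .inr (hp.pow_dvd_of_dvd_mul_left n h2 (h.trans (dvd_of_eq (by ring))))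
    · exact .inl (hp.pow_dvd_of_dvd_mul_left n h1 (h.trans (dvd_of_eq (by ring))))

theorem card_le (N M : ℕ) (hM : 0 < M) (c : ℤ) :
    ((Finset.range N).filter fun a : ℕ => (N : ℤ) ∣ M * (a + c)).card ≤ M := by
  refine (Finset.card_le_card_of_injOn (t := Finset.range M) (fun a => M * a / N)
    (fun a ha => ?_) fun a ha b hb e => ?_).trans (by simp)
  · have h := Finset.mem_range.1 (Finset.mem_filter.1 ha).1
    exact Finset.mem_range.2 (Nat.div_lt_of_lt_mul (by nlinarith))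
  · have h : M * a ≡ M * b [MOD N] := by
      refine Nat.modEq_iff_dvd.2 ((dvd_sub (Finset.mem_filter.1 hb).2
        (Finset.mem_filter.1 ha).2).trans (dvd_of_eq ?_))
      push_cast
      ring
    have h1 := Nat.div_add_mod (M * a) N
    have h2 := Nat.div_add_mod (M * b) N
    have e' : M * a / N = M * b / N := e
    rw [e', h] at h1
    exact Nat.eq_of_mul_eq_mul_left hM (h1.symm.trans h2)

theorem count_le {p : ℕ} (hp : p.Prime) (e n : ℕ) {β : ℤ} (hβ : β ≠ 0) :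
    ((Finset.range (p ^ (e + n))).filter fun b : ℕ =>
      (p : ℤ) ^ (e + 1) ∣ 12 * β * ((b : ℤ) ^ 2 - 1)).card ≤ 2 * (24 * β.natAbs * p ^ n) := by
  have hM : 0 < 24 * β.natAbs * p ^ n :=
    Nat.mul_pos (Nat.mul_pos (by norm_num) (Int.natAbs_pos.2 hβ)) (pow_pos hp.pos n)
  rw [two_mul]
  refine (Finset.card_le_card (t := _ ∪ _) fun a ha => ?_).trans
    ((Finset.card_union_le _ _).trans (add_le_add (card_le (p ^ (e + n)) _ hM (-1))
      (card_le (p ^ (e + n)) _ hM 1)))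
  obtain ⟨ha, hd⟩ := Finset.mem_filter.1 ha
  have key : ∀ z : ℤ, (p : ℤ) ^ (e + 1) ∣ 2 * (12 * β) * z →
      ((p ^ (e + n) : ℕ) : ℤ) ∣ ((24 * β.natAbs * p ^ n : ℕ) : ℤ) * z := fun z hz => by
    have h1 : (p : ℤ) ^ e ∣ 24 * (β.natAbs : ℤ) * z := by
      have h2 := (pow_dvd_pow (p : ℤ) (Nat.le_succ e)).trans hz
      rcases Int.natAbs_eq β with h | h
      · rw [← h]
        exact h2.trans (dvd_of_eq (by ring))
      · rw [h] at h2
        exact h2.neg_right.trans (dvd_of_eq (by ring))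
    have h3 := mul_dvd_mul_right h1 ((p : ℤ) ^ n)
    rw [← pow_add] at h3
    rw [Nat.cast_pow, Nat.cast_mul, Nat.cast_mul, Nat.cast_pow]
    exact h3.trans (dvd_of_eq (by push_cast; ring))
  have h := dvd_two (Nat.prime_iff_prime_int.1 hp) (e + 1) (c := 12 * β) (b := a)
    (hd.trans (dvd_of_eq (by ring)))
  simp only [Finset.mem_union, Finset.mem_filter, ha, true_and]
  exact h.imp (key _) (key _)

variable {p : ℕ} [Fact p.Prime] {k K : Type*} [Field k] [IsAlgClosed k] [Field K] [Algebra k K]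
  [CharP K p]

/-- The conjugates are known. -/
theorem split_roots {F : Type*} [Field F] [Algebra F K] (n : ℕ) (y : ℕ → K)
    (h : ∀ i, (∏ a ∈ Finset.range (p ^ n),
      (Polynomial.X - Polynomial.C (y a ^ p ^ n)) ^ p ^ n).coeff i ∈ Set.range (algebraMap F K))
    {a0 : ℕ} (h0 : a0 < p ^ n) :
    IsIntegral F (y a0) ∧ ((minpoly F (y a0)).map (algebraMap F K)).Splits ∧
      ∀ ρ : K, Polynomial.aeval ρ (minpoly F (y a0)) = 0 → ∃ a < p ^ n, ρ = y a := by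
  have hN : p ^ n ≠ 0 := by omega
  obtain ⟨G, hG⟩ := (Polynomial.mem_lifts _).1 ((Polynomial.lifts_iff_coeff_lifts _).2 h)
  have : CharP K[X] p := Polynomial.instCharP p
  have e : (G.comp (Polynomial.X ^ p ^ n)).map (algebraMap F K) = ∏ a ∈ Finset.range (p ^ n),
      ((Polynomial.X - Polynomial.C (y a)) ^ p ^ n) ^ p ^ n := by
    rw [Polynomial.map_comp, hG, Polynomial.prod_comp]
    refine Finset.prod_congr rfl fun a _ => ?_
    rw [sub_pow_char_pow Polynomial.X (Polynomial.C (y a))]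
    simp
  have ev : ∀ ρ : K, Polynomial.aeval ρ (G.comp (Polynomial.X ^ p ^ n)) = 0 ↔
      ∃ a < p ^ n, ρ = y a := fun ρ => by
    rw [← Polynomial.eval_map_algebraMap, e, Polynomial.eval_prod, Finset.prod_eq_zero_iff]
    simp [(Fact.out : p.Prime).ne_zero, sub_eq_zero]
  have m : (∏ a ∈ Finset.range (p ^ n),
      ((Polynomial.X - Polynomial.C (y a)) ^ p ^ n) ^ p ^ n : K[X]) ≠ 0 :=
    (Polynomial.monic_prod_of_monic _ _ fun a _ =>
      ((Polynomial.monic_X_sub_C _).pow _).pow _).ne_zero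
  have g0 : G.comp (Polynomial.X ^ p ^ n) ≠ 0 := fun h0 => m (by rw [← e, h0, Polynomial.map_zero])
  have h1 := (ev _).2 ⟨a0, h0, rfl⟩
  have hd := minpoly.dvd F (y a0) h1
  refine ⟨IsAlgebraic.isIntegral ⟨_, g0, h1⟩, ?_, fun ρ hρ =>
    (ev ρ).1 (Polynomial.aeval_eq_zero_of_dvd_aeval_eq_zero hd hρ)⟩
  exact Polynomial.Splits.of_dvd (Polynomial.Splits.prod fun a _ =>
    ((Polynomial.Splits.X_sub_C _).pow _).pow _) m (e ▸ Polynomial.map_dvd _ hd)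

/-- Conjugating a relation. -/
theorem gal {F : Type*} [Field F] [Algebra F K] {y1 y2 v ρ : K} (c : F) (α β : ℤ) (n : ℕ)
    (i1 : IsIntegral F y1) (s1 : ((minpoly F y1).map (algebraMap F K)).Splits)
    (i2 : IsIntegral F y2) (s2 : ((minpoly F y2).map (algebraMap F K)).Splits)
    (hv : IsSeparable F v) (h : v ^ p ^ n = y1 ^ α * y2 ^ β * algebraMap F K c)
    (hρ : Polynomial.aeval ρ (minpoly F y2) = 0) :
    ∃ ρ1 w : K, Polynomial.aeval ρ1 (minpoly F y1) = 0 ∧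
      w ^ p ^ n = ρ1 ^ α * ρ ^ β * algebraMap F K c := by
  have m1 : y1 ∈ F⟮y1, y2⟯ := IntermediateField.subset_adjoin F _ (by simp)
  have m2 : y2 ∈ F⟮y1, y2⟯ := IntermediateField.subset_adjoin F _ (by simp)
  obtain ⟨σ, hσ⟩ := IntermediateField.exists_algHom_adjoin_of_splits_of_aeval (S := {y1, y2})
    (K := K) (by
      rintro s (rfl | rfl)
      exacts [⟨i1, s1⟩, ⟨i2, s2⟩]) m2 hρ
  have mv : v ∈ F⟮y1, y2⟯ := sep_mem (p := p) bot_le (by
    let := (IntermediateField.inclusion (bot_le : (⊥ : IntermediateField F K) ≤ ⊥)).toAlgebra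
    exact IsSeparable.tower_top _ hv) n (by
    rw [h]
    exact mul_mem (mul_mem (zpow_mem m1 _) (zpow_mem m2 _)) (IntermediateField.algebraMap_mem _ c))
  have e : (⟨v, mv⟩ : F⟮y1, y2⟯) ^ p ^ n =
      (⟨y1, m1⟩ : F⟮y1, y2⟯) ^ α * (⟨y2, m2⟩ : F⟮y1, y2⟯) ^ β * algebraMap F _ c := by
    refine (algebraMap F⟮y1, y2⟯ K).injective ?_
    rw [map_pow, map_mul, map_mul, map_zpow₀, map_zpow₀]
    exact h
  refine ⟨σ ⟨y1, m1⟩, σ ⟨v, mv⟩, ?_, ?_⟩
  · rw [Polynomial.aeval_algHom_apply, map_eq_zero]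
    refine (algebraMap F⟮y1, y2⟯ K).injective ?_
    rw [← Polynomial.aeval_algebraMap_apply, map_zero]
    exact minpoly.aeval F y1
  · rw [← map_pow, e, map_mul, map_mul, map_zpow₀, map_zpow₀, hσ, σ.commutes]

theorem frob_inj (n : ℕ) {x y : K} (h : x ^ p ^ n = y ^ p ^ n) : x = y :=
  iterateFrobenius_inj K p n h

/-- Solving a relation whose second exponent has small valuation. -/
theorem solve {q1 q2 w : K} (h1 : ∀ w : K, w ^ p ≠ q1) (h2 : q2 ≠ 0) {A B : ℤ} {e n : ℕ}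
    (hB : ¬(p : ℤ) ^ (e + 1) ∣ B) (h : q1 ^ A * q2 ^ B = w ^ p ^ (e + n)) :
    ∃ (c : ℕ) (a : K), q2 = a ^ p ^ n * q1 ^ c := by
  have hp : p.Prime := Fact.out
  have n1 := caseV_aux_ne h1
  obtain ⟨e', B', u, m, he, rfl, hu⟩ := int_red (Nat.prime_iff_prime_int.1 hp) hB n
  obtain ⟨d, rfl⟩ := Nat.exists_eq_add_of_le he
  have zp : ∀ (x : K) (i : ℕ) (z : ℤ), x ^ ((p : ℤ) ^ i * z) = (x ^ z) ^ p ^ i := fun x i z => by
    rw [mul_comm, zpow_mul, ← Nat.cast_pow, zpow_natCast]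
  have hw : w ^ p ^ (e' + d + n) = ((w ^ p ^ d) ^ p ^ n) ^ p ^ e' := by
    rw [← pow_mul, ← pow_mul, ← pow_add, ← pow_add]
    congr 2
    ring
  rw [zp, hw] at h
  generalize w ^ p ^ d = v at h
  obtain ⟨A', rfl⟩ := pow_dvd h1 e' A (v ^ p ^ n / q2 ^ B') (by
    rw [div_pow, ← h, mul_div_cancel_right₀ _ (pow_ne_zero _ (zpow_ne_zero _ h2))])
  rw [Nat.cast_pow, zp, ← mul_pow] at h
  replace h := congrArg (fun z => z ^ u) (frob_inj _ h)
  have hN : (0 : ℤ) < (p : ℤ) ^ n := pow_pos (Int.natCast_pos.2 hp.pos) n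
  obtain ⟨c, hc⟩ := Int.eq_ofNat_of_zero_le (Int.emod_nonneg (-(A' * u)) hN.ne')
  have hc' := Int.mul_ediv_add_emod (-(A' * u)) ((p : ℤ) ^ n)
  rw [hc] at hc'
  generalize -(A' * u) / (p : ℤ) ^ n = f at hc'
  refine ⟨c, v ^ u * q1 ^ f / q2 ^ m, ?_⟩
  simp only [mul_zpow, ← zpow_mul] at h
  rw [mul_comm B', hu, zpow_add₀ h2, zpow_one, zp] at h
  have e1 : (v ^ u) ^ p ^ n = (v ^ p ^ n) ^ u := by
    rw [← zpow_natCast, ← zpow_natCast, ← zpow_mul, ← zpow_mul, mul_comm]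
  have e2 : (q1 ^ f) ^ p ^ n * q1 ^ c * q1 ^ (A' * u) = 1 := by
    rw [← zp, ← zpow_natCast, ← zpow_add₀ n1, ← zpow_add₀ n1, hc', neg_add_cancel, zpow_zero]
  rw [div_pow, mul_pow, e1, ← h, div_mul_eq_mul_div,
    eq_div_iff (pow_ne_zero _ (zpow_ne_zero _ h2))]
  linear_combination (-(q2 * (q2 ^ m) ^ p ^ n)) * e2

/-- Removing the exponent twelve. -/
theorem lower {E S : Type*} [Field E] [Field S] [Algebra E S] [Algebra E K] [Algebra S K]
    [IsScalarTower E S K] (hsep : ∀ x : K, IsAlgebraic E x → IsSeparable E x) {q s : K}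
    (hq : q ≠ 0) (hs : s ≠ 0) {n m : ℕ} (hn : 3 + n ≤ m) (ha : IsAlgebraic E (q ^ 12 * s ^ p ^ m))
    (h : q ^ 12 * s ^ p ^ m ∈ (algebraMap S K).range) :
    ∃ y : K, y ≠ 0 ∧ q * y ^ p ^ n ∈ (algebraMap S K).range := by
  have hp : p.Prime := Fact.out
  have h12 : ¬(p : ℤ) ^ (3 + 1) ∣ 12 := fun h => by
    have h1 := Int.le_of_dvd (by norm_num) h
    have h2 : (2 : ℤ) ^ (3 + 1) ≤ (p : ℤ) ^ (3 + 1) :=
      pow_le_pow_left₀ (by norm_num) (by exact_mod_cast hp.two_le) _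
    omega
  obtain ⟨e, B, u, m', he, hB, hu⟩ := int_red (Nat.prime_iff_prime_int.1 hp) h12 n
  obtain ⟨d, rfl⟩ : ∃ d, m = d + n + e := ⟨m - n - e, by omega⟩
  have zp : ∀ (x : K) (i : ℕ) (z : ℤ), x ^ ((p : ℤ) ^ i * z) = (x ^ z) ^ p ^ i := fun x i z => by
    rw [mul_comm, zpow_mul, ← Nat.cast_pow, zpow_natCast]
  have e1 : q ^ 12 * s ^ p ^ (d + n + e) = (q ^ B * (s ^ p ^ d) ^ p ^ n) ^ p ^ e := by
    rw [mul_pow, ← zp, ← hB, ← pow_mul, ← pow_mul, ← pow_add, ← pow_add, ← add_assoc,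
      zpow_ofNat]
  rw [e1] at ha h
  have t0 : s ^ p ^ d ≠ 0 := pow_ne_zero _ hs
  generalize s ^ p ^ d = t at ha h t0
  obtain ⟨z, hz⟩ := sep_range (p := p)
    (IsSeparable.tower_top S (hsep _ (ha.of_pow (pow_pos hp.pos e)))) e h
  refine ⟨q ^ m' * t ^ u, mul_ne_zero (zpow_ne_zero _ hq) (zpow_ne_zero _ t0), z ^ u, ?_⟩
  have e2 : (t ^ u) ^ p ^ n = (t ^ p ^ n) ^ u := by
    rw [← zpow_natCast, ← zpow_natCast, ← zpow_mul, ← zpow_mul, mul_comm]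
  rw [map_zpow₀, hz, mul_zpow, ← zpow_mul, mul_comm B, hu, zpow_add₀ hq, zpow_one, zp, mul_pow, e2,
    mul_assoc]

/-- From the binomial relation to congruences between the two points. -/
theorem gal_main {q1 j1 q2 j2 c : K} (h1 : Pt p k q1 j1) (h2 : Pt p k q2 j2) (c1 : Cj p k q1 j1)
    (c2 : Cj p k q2 j2) (hd : IsAlgebraic k⟮j2⟯ j1) (hc : IsAlgebraic k⟮j2⟯ c) (c0 : c ≠ 0)
    {α β : ℤ} (hβ : β ≠ 0) (H : ∀ n, ∃ w : K, c * q1 ^ α * q2 ^ β = w ^ p ^ n) (n : ℕ) :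
    ∃ (c : ℕ) (a : K), q2 = a ^ p ^ n * q1 ^ c := by
  classical
  have hp : p.Prime := Fact.out
  have n1 := caseV_aux_ne h1.nq
  have n2 := caseV_aux_ne h2.nq
  have hsep : ∀ x : K, IsAlgebraic k⟮j2⟯ x → IsSeparable k⟮j2⟯ x := fun x hx => sep1 h2.nj hx
  let L : IntermediateField k⟮j2⟯ K := IntermediateField.adjoin k⟮j2⟯ {j1, c}
  have : FiniteDimensional k⟮j2⟯ L := IntermediateField.finiteDimensional_adjoin (by
    rintro s (rfl | rfl)
    exacts [hd.isIntegral, hc.isIntegral])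
  have l1 : k⟮j1⟯ ≤ L.restrictScalars k := IntermediateField.adjoin_simple_le_iff.2
    (IntermediateField.subset_adjoin k⟮j2⟯ {j1, c} (by simp))
  have lc : c ∈ L := IntermediateField.subset_adjoin k⟮j2⟯ {j1, c} (by simp)
  obtain ⟨m, hm⟩ := h2.unb (Module.finrank k⟮j2⟯ L * (2 * (24 * β.natAbs * p ^ n)))
  obtain ⟨e, he⟩ : ∃ e, e = m + 3 := ⟨_, rfl⟩
  have hN : 1 < p ^ (e + n) := Nat.one_lt_pow (by omega) hp.one_lt
  obtain ⟨s, s0, hs⟩ := c1 (e + n) (by omega)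
  obtain ⟨t, t0, ht⟩ := c2 (e + n) (by omega)
  obtain ⟨w, hw⟩ := H (e + n)
  obtain ⟨i1, s1, r1⟩ := split_roots (F := L) (e + n)
    (fun a => q1 ^ (12 * a ^ 2) * s a ^ p ^ (e + n)) (fun i => ⟨⟨_, l1 (hs i)⟩, rfl⟩) hN
  obtain ⟨i2, s2, r2⟩ := split_roots (F := L) (e + n)
    (fun a => q2 ^ (12 * a ^ 2) * t a ^ p ^ (e + n))
    (fun i => ⟨algebraMap k⟮j2⟯ L ⟨_, ht i⟩, rfl⟩) hN
  simp only [one_pow, mul_one] at i1 s1 r1 i2 s2 r2
  have y1 : q1 ^ 12 * s 1 ^ p ^ (e + n) ≠ 0 := mul_ne_zero (pow_ne_zero _ n1) (pow_ne_zero _ s0)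
  have y2 : q2 ^ 12 * t 1 ^ p ^ (e + n) ≠ 0 := mul_ne_zero (pow_ne_zero _ n2) (pow_ne_zero _ t0)
  have up : ∀ x : K, IsAlgebraic L x → IsAlgebraic k⟮j2⟯ x := fun x hx =>
    (isIntegral_trans (R := k⟮j2⟯) x hx.isIntegral).isAlgebraic
  have w0 : w ≠ 0 := by
    rintro rfl
    rw [zero_pow (by omega)] at hw
    exact mul_ne_zero (mul_ne_zero c0 (zpow_ne_zero _ n1)) (zpow_ne_zero _ n2) hw
  have zp : ∀ (x : K) (i : ℕ) (z : ℤ), (x ^ z) ^ i = (x ^ i) ^ z := fun x i z => by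
    rw [← zpow_natCast, ← zpow_natCast, ← zpow_mul, ← zpow_mul, mul_comm]
  have hw12 : (w ^ 12) ^ p ^ (e + n) = c ^ 12 * (q1 ^ 12) ^ α * (q2 ^ 12) ^ β := by
    rw [← pow_mul, mul_comm 12, pow_mul, ← hw, mul_pow, mul_pow, zp, zp]
  have hv : (w ^ 12 * s 1 ^ α * t 1 ^ β) ^ p ^ (e + n) = (q1 ^ 12 * s 1 ^ p ^ (e + n)) ^ α *
      (q2 ^ 12 * t 1 ^ p ^ (e + n)) ^ β * algebraMap L K (⟨c, lc⟩ ^ 12) := by
    rw [mul_pow, mul_pow, hw12, zp, zp, mul_zpow, mul_zpow, map_pow]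
    change _ = _ * c ^ 12
    ring
  have za : ∀ (x : K) (z : ℤ), IsAlgebraic L x → IsAlgebraic L (x ^ z) := fun x z hx => by
    obtain ⟨A, hA⟩ : ∃ A : IntermediateField L K, ∀ x, x ∈ A ↔ IsAlgebraic L x :=
      ⟨algebraicClosure L K, fun _ => mem_algebraicClosure_iff⟩
    exact (hA _).1 (zpow_mem ((hA _).2 hx) z)
  have va : IsSeparable L (w ^ 12 * s 1 ^ α * t 1 ^ β) := by
    refine IsSeparable.tower_top L (hsep _ (up _ (IsAlgebraic.of_pow (n := p ^ (e + n))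
      (by omega) ?_)))
    rw [hv]
    exact ((za _ _ i1.isAlgebraic).mul (za _ _ i2.isAlgebraic)).mul (isAlgebraic_algebraMap _)
  by_contra hcon
  have key : ∀ ρ : K, Polynomial.aeval ρ (minpoly L (q2 ^ 12 * t 1 ^ p ^ (e + n))) = 0 →
      ∃ b ∈ (Finset.range (p ^ (e + n))).filter fun b : ℕ =>
        (p : ℤ) ^ (e + 1) ∣ 12 * β * ((b : ℤ) ^ 2 - 1),
        q2 ^ (12 * b ^ 2) * t b ^ p ^ (e + n) = ρ := fun ρ hρ => by
    obtain ⟨ρ1, v, h3, h4⟩ := gal (p := p) _ α β (e + n) i1 s1 i2 s2 va hv hρ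
    have nz : ∀ {y ρ : K}, IsIntegral L y → y ≠ 0 → Polynomial.aeval ρ (minpoly L y) = 0 →
        ρ ≠ 0 := fun {y ρ} hi hy h0 h5 => by
      rw [h5, ← Polynomial.coeff_zero_eq_aeval_zero', map_eq_zero] at h0
      exact minpoly.coeff_zero_ne_zero hi hy h0
    have z1 := nz i1 y1 h3
    have z2 := nz i2 y2 hρ
    obtain ⟨a, -, rfl⟩ := r1 _ h3
    obtain ⟨b, hb, rfl⟩ := r2 _ hρ
    refine ⟨b, Finset.mem_filter.2 ⟨Finset.mem_range.2 hb, ?_⟩, rfl⟩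
    by_contra hB
    have sa : s a ^ p ^ (e + n) ≠ 0 := right_ne_zero_of_mul z1
    have tb : t b ^ p ^ (e + n) ≠ 0 := right_ne_zero_of_mul z2
    refine hcon (solve (A := 12 * α * ((a : ℤ) ^ 2 - 1)) (w := v / (w ^ 12 * s a ^ α * t b ^ β))
      h1.nq n2 hB ?_)
    have ex : ∀ (q : K) (a : ℕ) (α : ℤ), q ≠ 0 →
        q ^ (12 * α * ((a : ℤ) ^ 2 - 1)) = (q ^ (12 * a ^ 2)) ^ α / (q ^ 12) ^ α := by
      intro q a α hq
      rw [← zpow_natCast q, ← zpow_natCast q, ← zpow_mul, ← zpow_mul, ← zpow_sub₀ hq]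
      congr 1
      push_cast
      ring
    rw [div_pow, h4, mul_pow, mul_pow, hw12, zp, zp, mul_zpow, mul_zpow, map_pow, ex _ _ _ n1,
      ex _ _ _ n2]
    change _ = _ * c ^ 12 / _
    have := zpow_ne_zero α sa
    have := zpow_ne_zero β tb
    have := zpow_ne_zero α (pow_ne_zero 12 n1)
    have := zpow_ne_zero β (pow_ne_zero 12 n2)
    field_simp
  have a2 := up _ i2.isAlgebraic
  have hf : (minpoly L (q2 ^ 12 * t 1 ^ p ^ (e + n))).natDegree ≤ 2 * (24 * β.natAbs * p ^ n) := by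
    rw [← Polynomial.card_rootSet_eq_natDegree (K := K) (IsSeparable.tower_top L (hsep _ a2)) s2,
      ← Set.toFinset_card]
    refine (Finset.card_le_card (fun ρ hρ => Finset.mem_image.2 (key ρ
      (Polynomial.aeval_eq_zero_of_mem_rootSet (Set.mem_toFinset.1 hρ))))).trans
      (Finset.card_image_le.trans (count_le hp e n hβ))
  generalize hY : q2 ^ 12 * t 1 ^ p ^ (e + n) = Y at i2 hf
  have : IsScalarTower k⟮j2⟯ L⟮Y⟯ K := IsScalarTower.of_algebraMap_eq fun _ => rfl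
  obtain ⟨y, y0, z, hz⟩ := lower (p := p) (S := L⟮Y⟯) hsep n2 t0 (n := m) (by omega) a2
    ⟨IntermediateField.AdjoinSimple.gen L Y, hY.symm⟩
  have := IntermediateField.adjoin.finiteDimensional i2
  have := Module.Finite.trans (R := k⟮j2⟯) L L⟮Y⟯
  have h6 := minpoly.natDegree_le (A := k⟮j2⟯) z
  rw [← minpoly.algebraMap_eq (algebraMap L⟮Y⟯ K).injective, hz,
    ← Module.finrank_mul_finrank k⟮j2⟯ L L⟮Y⟯, IntermediateField.adjoin.finrank i2] at h6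
  have h7 : IsAlgebraic k⟮j2⟯ (q2 * y ^ p ^ m) :=
    hz ▸ (Algebra.IsAlgebraic.isAlgebraic (R := k⟮j2⟯) z).algebraMap
  exact absurd (hm y y0 h7) (not_lt.2 (h6.trans (Nat.mul_le_mul_left _ hf)))

end Pool.Agent.Lib.MP_8f9d9d_nt.H74
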