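import Pool.Agent.Lib.MP_8f9d9d_nt.H74As3

set_option autoImplicit false

open scoped IntermediateField Polynomial

namespace Pool.Agent.Lib.MP_8f9d9d_nt.H74

open Pool.Agent.Lib.MP_8f9d9d_nt.H53

variable {p : ℕ} [Fact p.Prime] {k K : Type*} [Field k] [Field K] [Algebra k K] [CharP K p]

/-- The field of the `p^n`-th roots of the elements of a field. -/
theorem exists_rt (n : ℕ) (M : IntermediateField k K) :
    ∃ R : IntermediateField k K, ∀ x, x ∈ R ↔ x ^ p ^ n ∈ M :=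
  ⟨(M.toSubfield.comap (iterateFrobenius K p n)).toIntermediateField fun c =>
    pow_mem (M.algebraMap_mem c) (p ^ n), fun _ => Iff.rfl⟩

theorem indepR (E : IntermediateField k K) {θ : K} (n : ℕ) (hθ : θ ^ p ^ n ∈ E)
    (h : ∀ w ∈ E, w ^ p ≠ θ ^ p ^ n) (a b : ℕ → K) (ha : ∀ c, a c ∈ E) (hb : ∀ c, b c ∈ E)
    (e : ∑ c ∈ Finset.range (p ^ n), θ ^ c * a c = ∑ c ∈ Finset.range (p ^ n), θ ^ c * b c) :
    ∀ c < p ^ n, a c = b c := by
  have : CharP E p := (Algebra.charP_iff E K p).2 inferInstance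
  intro c hc
  have e' := congrArg (fun z => z ^ p ^ n) e
  simp only [sum_pow_char_pow, mul_pow, pow_right_comm θ _ (p ^ n)] at e'
  have := indep (K := E) (y := ⟨_, hθ⟩) (fun w hw => h w w.2 (congrArg Subtype.val hw)) n
    (fun c => ⟨a c, ha c⟩) (fun c => ⟨b c, hb c⟩) (Subtype.ext (by simpa using e')) c hc
  exact congrArg Subtype.val this

theorem single_sum {θ x : K} {N c : ℕ} (hc : c < N) :
    ∑ i ∈ Finset.range N, θ ^ i * (if i = c then x else 0) = θ ^ c * x := by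
  rw [Finset.sum_eq_single c (fun i _ hi => by rw [if_neg hi, mul_zero])
    (fun h => absurd (Finset.mem_range.2 hc) h), if_pos rfl]

theorem prime_deg (E : IntermediateField k K) {s ζ : K} (hs : s ^ p ∈ E) (h1 : ζ ∈ E ⊔ k⟮s⟯)
    (h2 : ζ ∉ E) : s ∈ E ⊔ k⟮ζ⟯ := by
  by_contra h3
  have hN : 0 < p ^ 1 := pow_pos (Fact.out : p.Prime).pos 1
  have hs' : s ^ p ^ 1 ∈ E := by rwa [pow_one]
  obtain ⟨m, m1, m2⟩ := span_pow E hN hs' h1
  have hζ : ζ ∈ E ⊔ k⟮ζ⟯ :=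
    (le_sup_right : k⟮ζ⟯ ≤ _) (IntermediateField.mem_adjoin_simple_self k ζ)
  have := indepR (E ⊔ k⟮ζ⟯) 1 ((le_sup_left : E ≤ _) hs') (fun w hw e => h3 (by
    rwa [← frob_inj (p := p) 1 (x := w) (y := s) (by rw [← e, pow_one])])) m
    (fun i => if i = 0 then ζ else 0) (fun c => (le_sup_left : E ≤ _) (m1 c))
    (fun c => by split_ifs; exacts [hζ, zero_mem _])
    (by rw [← m2, single_sum hN, pow_zero, one_mul]) 0 hN
  rw [if_pos rfl] at this
  exact h2 (this ▸ m1 0)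

/-- Exchange of generators. -/
theorem exch (N : IntermediateField k K) {ζ : K} (hζ : ζ ∉ N) (S : Finset K) :
    (∀ s ∈ S, s ^ p ∈ N) → ζ ∈ N ⊔ IntermediateField.adjoin k (S : Set K) →
      ∃ S' ⊆ S, S'.card + 1 ≤ S.card ∧ N ⊔ IntermediateField.adjoin k (S : Set K) ≤
        (N ⊔ k⟮ζ⟯) ⊔ IntermediateField.adjoin k (S' : Set K) := by
  classical
  have ins : ∀ (s : K) (T : Finset K), IntermediateField.adjoin k ((insert s T : Finset K) : Set K) =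
      k⟮s⟯ ⊔ IntermediateField.adjoin k (T : Set K) := fun s T => by
    rw [Finset.coe_insert, Set.insert_eq, IntermediateField.adjoin_union]
  induction S using Finset.induction_on with
  | empty =>
    intro _ h
    rw [Finset.coe_empty, IntermediateField.adjoin_empty, sup_bot_eq] at h
    exact absurd h hζ
  | insert s T hs ih =>
    intro h1 h2
    rw [Finset.card_insert_of_notMem hs]
    by_cases h3 : ζ ∈ N ⊔ IntermediateField.adjoin k (T : Set K)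
    · obtain ⟨S', i1, i2, i3⟩ := ih (fun t ht => h1 t (Finset.mem_insert_of_mem ht)) h3
      refine ⟨insert s S', Finset.insert_subset_insert _ i1,
        Nat.succ_le_succ ((Finset.card_insert_le _ _).trans i2), ?_⟩
      rw [ins, ins, sup_left_comm, sup_left_comm (N ⊔ k⟮ζ⟯)]
      exact sup_le_sup_left i3 _
    · refine ⟨T, Finset.subset_insert _ _, le_rfl, ?_⟩
      rw [ins, sup_comm k⟮s⟯, ← sup_assoc] at h2 ⊢
      have h4 := prime_deg _ ((le_sup_left : N ≤ _) (h1 s (Finset.mem_insert_self _ _))) h2 h3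
      rw [sup_right_comm N k⟮ζ⟯]
      exact sup_le le_sup_left (IntermediateField.adjoin_simple_le_iff.2 h4)

/-- A compatible system of elements of `M` that become high powers in `K`. -/
def Sys (p : ℕ) {k K : Type*} [Field k] [Field K] [Algebra k K] (M : IntermediateField k K)
    (z : ℕ → K) : Prop :=
  ∀ l, z l ∈ M ∧ z l ≠ 0 ∧ (∃ w : K, w ^ p ^ l = z l) ∧ ∃ a ∈ M, z (l + 1) = z l * a ^ p ^ l

omit [CharP K p] in
theorem Sys.step {M : IntermediateField k K} {z : ℕ → K} (h : Sys p M z) (l d : ℕ) :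
    ∃ a ∈ M, a ≠ 0 ∧ z (l + d) = z l * a ^ p ^ l := by
  suffices H : ∃ a ∈ M, z (l + d) = z l * a ^ p ^ l by
    obtain ⟨a, ha, e⟩ := H
    refine ⟨a, ha, fun h0 => (h (l + d)).2.1 ?_, e⟩
    rw [e, h0, zero_pow (pow_ne_zero _ (Fact.out : p.Prime).ne_zero), mul_zero]
  induction d with
  | zero => exact ⟨1, one_mem _, by simp⟩
  | succ d ih =>
    obtain ⟨a, ha, e⟩ := ih
    obtain ⟨b, hb, e'⟩ := (h (l + d)).2.2.2
    refine ⟨a * b ^ p ^ d, mul_mem ha (pow_mem hb _), ?_⟩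
    rw [← add_assoc, e', e, mul_pow, ← pow_mul, ← pow_add, add_comm d l, mul_assoc]

omit [Fact p.Prime] [CharP K p] in
theorem Sys.mono {M M' : IntermediateField k K} (hM : M ≤ M') {z : ℕ → K} (h : Sys p M z) :
    Sys p M' z := fun l =>
  ⟨hM (h l).1, (h l).2.1, (h l).2.2.1, (h l).2.2.2.imp fun _ ha => ⟨hM ha.1, ha.2⟩⟩

section tower

variable {M : IntermediateField k K} {ζ θ : ℕ → K}

omit [CharP K p] in
theorem Sys.np (h : Sys p M ζ) (h1 : ∀ w ∈ M, w ^ p ≠ ζ 1) (l : ℕ) :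
    ∀ w ∈ M, w ^ p ≠ ζ (l + 1) := fun w hw e => by
  obtain ⟨a, ha, a0, e'⟩ := h.step 1 l
  rw [add_comm, ← e, pow_one] at e'
  exact h1 (w / a) (div_mem hw ha) (by
    rw [div_pow, e', mul_div_cancel_right₀ _ (pow_ne_zero _ a0)])

theorem Sys.root (h : Sys p M ζ) (hθ : ∀ l, θ l ^ p ^ l = ζ l) (l d : ℕ) :
    ∃ b ∈ M, b ≠ 0 ∧ θ (l + d) ^ p ^ d = θ l * b := by
  obtain ⟨a, ha, a0, e⟩ := h.step l d
  refine ⟨a, ha, a0, frob_inj (p := p) l ?_⟩
  rw [← pow_mul, ← pow_add, add_comm d l, hθ, e, mul_pow, hθ]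

theorem Sys.le (h : Sys p M ζ) (hθ : ∀ l, θ l ^ p ^ l = ζ l) (l d : ℕ) :
    M ⊔ k⟮θ l⟯ ≤ M ⊔ k⟮θ (l + d)⟯ := by
  obtain ⟨b, hb, b0, e⟩ := h.root hθ l d
  refine sup_le le_sup_left (IntermediateField.adjoin_simple_le_iff.2 ?_)
  rw [← mul_div_cancel_right₀ (θ l) b0, ← e]
  exact div_mem (pow_mem ((le_sup_right : k⟮θ (l + d)⟯ ≤ _)
    (IntermediateField.mem_adjoin_simple_self k _)) _) ((le_sup_left : M ≤ _) hb)

/-- An element of the tower with a small exponent lies low in the tower. -/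
theorem Sys.low (h : Sys p M ζ) (h1 : ∀ w ∈ M, w ^ p ≠ ζ 1) (hθ : ∀ l, θ l ^ p ^ l = ζ l) {y : K}
    (l : ℕ) (hy : y ^ p ^ l ∈ M) (d : ℕ) : y ∈ M ⊔ k⟮θ (l + d)⟯ → y ∈ M ⊔ k⟮θ l⟯ := by
  induction d with
  | zero => exact id
  | succ d ih =>
    intro h2
    refine ih ?_
    by_contra h3
    obtain ⟨b, hb, b0, e⟩ := h.root hθ (l + d) 1
    have m0 : θ (l + d) ∈ M ⊔ k⟮θ (l + d)⟯ :=
      (le_sup_right : k⟮θ (l + d)⟯ ≤ _) (IntermediateField.mem_adjoin_simple_self k _)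
    have h4 := prime_deg (p := p) (M ⊔ k⟮θ (l + d)⟯) (s := θ (l + d + 1)) (ζ := y) (by
      rw [pow_one] at e
      rw [e]
      exact mul_mem m0 ((le_sup_left : M ≤ _) hb))
      ((sup_le_sup_right le_sup_left _ : M ⊔ k⟮θ (l + d + 1)⟯ ≤ _) h2) h3
    obtain ⟨R, hR⟩ := exists_rt (p := p) (l + d) M
    have h5 : M ⊔ k⟮θ (l + d)⟯ ⊔ k⟮y⟯ ≤ R := by
      refine sup_le (sup_le (fun x hx => (hR x).2 (pow_mem hx _))
        (IntermediateField.adjoin_simple_le_iff.2 ((hR _).2 ?_)))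
        (IntermediateField.adjoin_simple_le_iff.2 ((hR _).2 ?_))
      · rw [hθ]
        exact (h _).1
      · rw [pow_add, pow_mul]
        exact pow_mem hy _
    exact h.np h1 (l + d) _ ((hR _).1 (h5 h4)) (by rw [← pow_mul, ← pow_succ, hθ])

/-- An element that is a power of every order in the tower is a monomial. -/
theorem Sys.mono_term [IsAlgClosed k]
    (hK : ∀ x : K, (∀ n, ∃ w : K, w ^ p ^ n = x) → ∃ c : k, algebraMap k K c = x)
    (h : Sys p M ζ) (h1 : ∀ w ∈ M, w ^ p ≠ ζ 1) (hθ : ∀ l, θ l ^ p ^ l = ζ l) {u : K} (hu : u ∈ M)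
    (u0 : u ≠ 0) (l : ℕ) (H : ∀ d0, ∃ d, d0 ≤ d ∧ ∃ e ∈ M, e ≠ 0 ∧ ∃ y L, y ∈ M ⊔ k⟮θ L⟯ ∧
      u * e ^ p ^ (l + 1) = y ^ p ^ (l + 1 + d)) :
    ∃ c : ℕ, ∃ a ∈ M, u = ζ (l + 1) ^ c * a ^ p ^ (l + 1) := by
  have hp : p.Prime := Fact.out
  have np := h.np h1 l
  generalize l + 1 = l at H np ⊢
  have hN : 0 < p ^ l := pow_pos hp.pos l
  have low : ∀ (y : K) (n L : ℕ), y ^ p ^ n ∈ M → y ∈ M ⊔ k⟮θ L⟯ → y ∈ M ⊔ k⟮θ n⟯ :=
    fun y n L hy h2 => h.low h1 hθ n hy L (add_comm L n ▸ h.le hθ L n h2)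
  obtain ⟨x, hx, xm⟩ : ∃ x : K, x ^ p ^ l = u ∧ x ∈ M ⊔ k⟮θ l⟯ := by
    obtain ⟨d, -, e, he, e0, y, L, hy, E⟩ := H 0
    have h2 : (y ^ p ^ d / e) ^ p ^ l = u := by
      rw [div_pow, ← pow_mul, ← pow_add, add_comm d l, ← E,
        mul_div_cancel_right₀ _ (pow_ne_zero _ e0)]
    exact ⟨_, h2, low _ l L (h2 ▸ hu) (div_mem (pow_mem hy _) ((le_sup_left : M ≤ _) he))⟩
  have tm : θ l ^ p ^ l ∈ M := hθ l ▸ (h l).1
  have tn : ∀ w ∈ M, w ^ p ≠ θ l ^ p ^ l := hθ l ▸ np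
  have t0 : θ l ≠ 0 := fun h0 => (h l).2.1 (by rw [← hθ, h0, zero_pow hN.ne'])
  obtain ⟨α, α1, α2⟩ := span_pow M hN tm xm
  have key : ∀ c < p ^ l, ∀ c' < p ^ l, α c ≠ 0 → α c' ≠ 0 → c = c' := by
    intro c hc c' hc' a0 a0'
    obtain ⟨η, hη⟩ := hK (θ l ^ c * α c / (θ l ^ c' * α c')) fun d0 => by
      obtain ⟨d, hd, e, he, e0, y, L, hy, E⟩ := H d0
      obtain ⟨d1, rfl⟩ := Nat.exists_eq_add_of_le' hd
      generalize hd : d1 + d0 = d at E
      obtain ⟨F, hF⟩ := exists_Fr (p := p) (k := k) (K := K) d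
      obtain ⟨b, hb, b0, eb⟩ := h.root hθ l d
      obtain ⟨R, hR⟩ := exists_rt (p := p) d ((M ⊓ F) ⊔ k⟮θ (l + d) ^ p ^ d⟯)
      have h2 : M ⊔ k⟮θ (l + d)⟯ ≤ R := sup_le
        (fun z hz => (hR z).2 ((le_sup_left : M ⊓ F ≤ _) ⟨pow_mem hz _, (hF _).2 ⟨z, rfl⟩⟩))
        (IntermediateField.adjoin_simple_le_iff.2 ((hR _).2 ((le_sup_right : k⟮_⟯ ≤ _)
          (IntermediateField.mem_adjoin_simple_self k _))))
      have h3 : (θ (l + d) ^ p ^ d) ^ p ^ l ∈ M ⊓ F := by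
        rw [← pow_mul, ← pow_add, add_comm d l]
        exact ⟨hθ (l + d) ▸ (h _).1, (hF _).2 ⟨θ (l + d) ^ p ^ l, by
          rw [← pow_mul, ← pow_add]⟩⟩
      obtain ⟨m, m1, m2⟩ := span_pow (M ⊓ F) hN h3 ((hR y).1 (h2 (low y (l + d) L
        (E ▸ mul_mem hu (pow_mem he _)) hy)))
      have h4 : x * e = y ^ p ^ d := frob_inj (p := p) l (by
        rw [mul_pow, hx, E, ← pow_mul, ← pow_add, add_comm d l])
      have h5 := indepR M l tm tn (fun c => α c * e) (fun c => b ^ c * m c)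
        (fun c => mul_mem (α1 c) he) (fun c => mul_mem (pow_mem hb _) (m1 c).1) (by
          simp only [← mul_assoc, ← mul_pow, ← eb]
          rw [← m2, ← h4, ← Finset.sum_mul, ← α2])
      have h6 : ∀ c < p ^ l, θ l ^ c * α c * e ∈ F := fun c hc => by
        have h7 : α c * e = b ^ c * m c := h5 c hc
        rw [mul_assoc, h7, ← mul_assoc, ← mul_pow, ← eb]
        exact mul_mem (pow_mem ((hF _).2 ⟨_, rfl⟩) _) (m1 c).2
      obtain ⟨w, hw⟩ := (hF _).1 (div_mem (h6 c hc) (h6 c' hc'))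
      rw [mul_div_mul_right _ _ e0] at hw
      exact ⟨w ^ p ^ d1, by rw [← pow_mul, ← pow_add, hd, hw]⟩
    by_contra hne
    have h8 := indepR M l tm tn (fun i => if i = c then α c else 0)
      (fun i => if i = c' then algebraMap k K η * α c' else 0)
      (fun i => by split_ifs; exacts [α1 c, zero_mem _])
      (fun i => by split_ifs; exacts [mul_mem (M.algebraMap_mem η) (α1 c'), zero_mem _])
      (by rw [single_sum hc, single_sum hc', hη, mul_left_comm,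
        div_mul_cancel₀ _ (mul_ne_zero (pow_ne_zero _ t0) a0')]) c hc
    rw [if_pos rfl, if_neg hne] at h8
    exact a0 h8
  have x0 : x ≠ 0 := fun h0 => u0 (by rw [← hx, h0, zero_pow hN.ne'])
  obtain ⟨c, hc, h0⟩ := Finset.exists_ne_zero_of_sum_ne_zero (α2 ▸ x0 :
    ∑ c ∈ Finset.range (p ^ l), θ l ^ c * α c ≠ 0)
  refine ⟨c, α c, α1 c, ?_⟩
  rw [← hx, α2, Finset.sum_eq_single_of_mem c hc fun c' hc' hne => by
    by_contra h3
    exact hne (key c' (Finset.mem_range.1 hc') c (Finset.mem_range.1 hc)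
      (right_ne_zero_of_mul h3) (right_ne_zero_of_mul h0)), mul_pow, pow_right_comm, hθ]

end tower

end Pool.Agent.Lib.MP_8f9d9d_nt.H74
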