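import Pool.Agent.Lib.MP_8f9d9d_nt.H74Rk1

set_option autoImplicit false

open scoped IntermediateField Polynomial

namespace Pool.Agent.Lib.MP_8f9d9d_nt.H74

open Pool.Agent.Lib.MP_8f9d9d_nt.H53

variable {p : ℕ} [Fact p.Prime] {k K : Type*} [Field k] [IsAlgClosed k] [Field K] [Algebra k K]
  [CharP K p]

theorem zp1 (x : K) (i : ℕ) (z : ℤ) : (x ^ z) ^ i = (x ^ i) ^ z := by
  rw [← zpow_natCast, ← zpow_natCast, ← zpow_mul, ← zpow_mul, mul_comm]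

omit [IsAlgClosed k] in
/-- A nontrivial system is a power of a primitive one. -/
theorem Sys.prim {M : IntermediateField k K} {z : ℕ → K} (h : Sys p M z)
    (hn : ¬∀ l, ∃ a ∈ M, a ^ p ^ l = z l) :
    ∃ (f : ℕ) (ζ : ℕ → K), Sys p M ζ ∧ (∀ w ∈ M, w ^ p ≠ ζ 1) ∧ ∀ l, ζ l ^ p ^ f = z (f + l) := by
  obtain ⟨f, ⟨a, ha, e⟩, hf⟩ : ∃ f, (∃ a ∈ M, a ^ p ^ f = z f) ∧
      ¬∃ a ∈ M, a ^ p ^ (f + 1) = z (f + 1) := by
    by_contra H
    refine hn fun l => ?_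
    induction l with
    | zero => exact ⟨z 0, (h 0).1, by simp⟩
    | succ l ih => exact not_not.1 fun h1 => H ⟨l, ih, h1⟩
  choose b hb b0 eb using h.step f
  have hζ : ∀ l, (a * b l) ^ p ^ f = z (f + l) := fun l => by rw [mul_pow, e, eb]
  refine ⟨f, fun l => a * b l, fun l => ⟨mul_mem ha (hb l), fun h0 => (h (f + l)).2.1 ?_, ?_, ?_⟩,
    fun w hw e => hf ⟨w, hw, by
      rw [← hζ, ← show w ^ p = a * b 1 from e, ← pow_mul, ← pow_succ']⟩, hζ⟩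
  · rw [← hζ, show a * b l = 0 from h0, zero_pow (pow_ne_zero _ (Fact.out : p.Prime).ne_zero)]
  · obtain ⟨w, hw⟩ := (h (f + l)).2.2.1
    exact ⟨w, frob_inj (p := p) f (by rw [hζ, ← hw, ← pow_mul, ← pow_add, add_comm])⟩
  · obtain ⟨w, hw, e'⟩ := (h (f + l)).2.2.2
    refine ⟨w, hw, frob_inj (p := p) f ?_⟩
    rw [hζ, mul_pow _ (w ^ p ^ l), hζ, ← add_assoc, e', ← pow_mul, ← pow_add, add_comm l f]

/-- As many systems as generators over the field of `p`-th powers are dependent. -/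
theorem rank_le (hK : ∀ x : K, (∀ n, ∃ w : K, w ^ p ^ n = x) → ∃ c : k, algebraMap k K c = x)
    {t : K} (ht : ∀ w : K, w ^ p ≠ t) (n : ℕ) :
    ∀ (M N : IntermediateField k K) (S : Finset K) (z : Fin n → ℕ → K),
      (∀ x, x ∈ N ↔ ∃ w ∈ M, w ^ p = x) → t ∈ M → (∀ s ∈ S, s ∈ M) → S.card ≤ n →
      M ≤ N ⊔ IntermediateField.adjoin k (S : Set K) → (∀ i, Sys p M (z i)) →
      ∃ f : ℕ, ∀ l, ∃ c : Fin n → ℤ, (∃ i, ¬(p : ℤ) ^ (f + 1) ∣ c i) ∧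
        ∃ a ∈ M, ∏ i, z i l ^ c i = a ^ p ^ l := by
  have hp : p.Prime := Fact.out
  induction n with
  | zero =>
    intro M N S z hN tM _ hS hM _
    rw [Finset.card_eq_zero.1 (Nat.le_zero.1 hS), Finset.coe_empty,
      IntermediateField.adjoin_empty, sup_bot_eq] at hM
    obtain ⟨w, -, hw⟩ := (hN t).1 (hM tM)
    exact absurd hw (ht w)
  | succ n ih =>
  intro M N S z hN tM SM hS hM hz
  by_cases triv : ∀ l, ∃ a ∈ M, a ^ p ^ l = z 0 l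
  · refine ⟨0, fun l => ⟨Fin.cons 1 0, ⟨0, fun h => ?_⟩, ?_⟩⟩
    · rw [zero_add, pow_one, Fin.cons_zero] at h
      exact (Nat.prime_iff_prime_int.1 hp).not_dvd_one h
    · obtain ⟨a, ha, e⟩ := triv l
      exact ⟨a, ha, by simp [Fin.prod_univ_succ, e]⟩
  obtain ⟨f, ζ, hζ, h1, ef⟩ := (hz 0).prim triv
  choose θ hθ using fun l => (hζ l).2.2.1
  obtain ⟨S', s1, s2, s3⟩ := exch (p := p) N (ζ := ζ 1) (fun h => by
    obtain ⟨w, hw, e⟩ := (hN _).1 h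
    exact h1 w hw e) S (fun s hs => (hN _).2 ⟨s, SM s hs, rfl⟩) (hM (hζ 1).1)
  obtain ⟨M1, hM1⟩ : ∃ M1 : IntermediateField k K, ∀ y, y ∈ M1 ↔ ∃ L, y ∈ M ⊔ k⟮θ L⟯ := by
    refine ⟨⨆ L, M ⊔ k⟮θ L⟯, fun y => ?_⟩
    rw [← SetLike.mem_coe, IntermediateField.coe_iSup_of_directed
      (fun i j => ⟨i + j, hζ.le hθ i j, add_comm i j ▸ hζ.le hθ j i⟩), Set.mem_iUnion]
    rfl
  have le1 : M ≤ M1 := fun y hy => (hM1 y).2 ⟨0, (le_sup_left : M ≤ _) hy⟩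
  have θ1 : ∀ L, θ L ∈ M1 := fun L => (hM1 _).2 ⟨L,
    (le_sup_right : k⟮θ L⟯ ≤ _) (IntermediateField.mem_adjoin_simple_self k _)⟩
  obtain ⟨N1, hN1⟩ := exists_pw (p := p) M1
  have le2 : M ≤ N1 ⊔ IntermediateField.adjoin k (S' : Set K) := by
    refine hM.trans (s3.trans (sup_le_sup_right (sup_le (fun x hx => ?_)
      (IntermediateField.adjoin_simple_le_iff.2 ((hN1 _).2 ⟨θ 1, θ1 1, ?_⟩))) _))
    · obtain ⟨w, hw, e⟩ := (hN x).1 hx
      exact (hN1 x).2 ⟨w, le1 hw, e⟩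
    · rw [← hθ, pow_one]
  obtain ⟨f1, H⟩ := ih M1 N1 S' (fun i => z i.succ) hN1 (le1 tM) (fun s hs => le1 (SM s (s1 hs)))
    (by omega) (fun y hy => by
      obtain ⟨L, hL⟩ := (hM1 y).1 hy
      obtain ⟨b, hb, b0, e⟩ := hζ.root hθ L 1
      refine (sup_le le2 (IntermediateField.adjoin_simple_le_iff.2 ?_) : M ⊔ k⟮θ L⟯ ≤ _) hL
      rw [← mul_div_cancel_right₀ (θ L) b0, ← e, pow_one]
      exact div_mem ((le_sup_left : N1 ≤ _) ((hN1 _).2 ⟨_, θ1 _, rfl⟩)) (le2 hb))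
    (fun i => (hz i.succ).mono le1)
  choose c hc y hy ey using H
  refine ⟨f + f1, fun l => ?_⟩
  have : NeZero (p ^ (l + 1)) := ⟨pow_ne_zero _ hp.ne_zero⟩
  obtain ⟨r, hr⟩ := Finite.exists_infinite_fiber
    fun d : ℕ => fun i : Fin n => ((c (l + 1 + d) i : ℤ) : ZMod (p ^ (l + 1)))
  replace hr := Set.infinite_coe_iff.1 hr
  obtain ⟨d1, hd1⟩ := hr.nonempty
  generalize hc1 : c (l + 1 + d1) = c1 at hd1
  have z0 : ∀ i l, z i l ≠ 0 := fun i l => (hz i l).2.1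
  obtain ⟨e, a, ha, E⟩ := hζ.mono_term hK h1 hθ (u := ∏ i : Fin n, z i.succ (l + 1) ^ c1 i)
    (prod_mem fun i _ => zpow_mem (hz _ _).1 _)
    (Finset.prod_ne_zero_iff.2 fun i _ => zpow_ne_zero _ (z0 _ _)) l fun d0 => by
      obtain ⟨d, hd, hd0⟩ := hr.exists_gt d0
      have hg : ∀ i, ∃ g : ℤ, c (l + 1 + d) i = c1 i + g * ((p ^ (l + 1) : ℕ) : ℤ) := fun i => by
        obtain ⟨g, hg⟩ := (ZMod.intCast_eq_intCast_iff_dvd_sub _ _ _).1
          ((congrFun (hc1 ▸ hd1 : (fun i : Fin n => ((c1 i : ℤ) : ZMod (p ^ (l + 1)))) = r) i).trans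
            (congrFun hd i).symm)
        exact ⟨g, by linear_combination hg⟩
      choose g hg using hg
      choose b hb b0 eb using fun i : Fin n => (hz i.succ).step (l + 1) d
      obtain ⟨L, hL⟩ := (hM1 _).1 (hy (l + 1 + d))
      refine ⟨d, hd0.le, ∏ i : Fin n, z i.succ (l + 1) ^ g i * b i ^ c (l + 1 + d) i,
        prod_mem fun i _ => mul_mem (zpow_mem (hz _ _).1 _) (zpow_mem (hb i) _),
        Finset.prod_ne_zero_iff.2 fun i _ =>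
          mul_ne_zero (zpow_ne_zero _ (z0 _ _)) (zpow_ne_zero _ (b0 i)), _, L, hL, ?_⟩
      rw [← ey, ← Finset.prod_pow, ← Finset.prod_mul_distrib]
      refine Finset.prod_congr rfl fun i _ => ?_
      rw [eb, mul_zpow, mul_pow, zp1 (b i), ← mul_assoc, ← zpow_natCast (z _ _ ^ g i), ← zpow_mul,
        ← zpow_add₀ (z0 _ _), ← hg]
  obtain ⟨b, hb, b0, eb⟩ := (hz 0).step l (f + 1)
  choose b' hb' b0' eb' using fun i : Fin n => (hz i.succ).step l 1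
  refine ⟨Fin.cons (-(e : ℤ)) fun i => (p : ℤ) ^ f * c1 i, ?_,
    b ^ e * a ^ p ^ (f + 1) / ∏ i, b' i ^ ((p : ℤ) ^ f * c1 i),
    div_mem (mul_mem (pow_mem hb _) (pow_mem ha _)) (prod_mem fun i _ => zpow_mem (hb' i) _), ?_⟩
  · obtain ⟨i, hi⟩ := hc (l + 1 + d1)
    refine ⟨i.succ, fun h => hi ?_⟩
    rw [Fin.cons_succ, add_assoc, pow_add] at h
    exact hc1 ▸ (mul_dvd_mul_iff_left (pow_ne_zero _ (Int.natCast_ne_zero.2 hp.ne_zero))).1 h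
  · have E' := congrArg (fun x => x ^ p ^ f) E
    have e1 : (∏ i : Fin n, z i.succ (l + 1) ^ c1 i) ^ p ^ f =
        (∏ i : Fin n, z i.succ l ^ ((p : ℤ) ^ f * c1 i)) *
          (∏ i, b' i ^ ((p : ℤ) ^ f * c1 i)) ^ p ^ l := by
      rw [← Finset.prod_pow, ← Finset.prod_pow, ← Finset.prod_mul_distrib]
      refine Finset.prod_congr rfl fun i _ => ?_
      rw [zp1 (b' i), ← mul_zpow, ← eb', zp1, ← Nat.cast_pow, zpow_mul, zpow_natCast]
    have e2 : (ζ (l + 1) ^ e * a ^ p ^ (l + 1)) ^ p ^ f =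
        z 0 l ^ e * (b ^ e * a ^ p ^ (f + 1)) ^ p ^ l := by
      rw [mul_pow, pow_right_comm, ef, show f + (l + 1) = l + (f + 1) by ring, eb, mul_pow, mul_pow,
        pow_right_comm b, mul_assoc, ← pow_mul a, ← pow_mul a, ← pow_add, ← pow_add]
      congr 4
      ring
    simp only [e1, e2] at E'
    have n0 : (∏ i, b' i ^ ((p : ℤ) ^ f * c1 i)) ^ p ^ l ≠ 0 :=
      pow_ne_zero _ (Finset.prod_ne_zero_iff.2 fun i _ => zpow_ne_zero _ (b0' i))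
    simp only [Fin.prod_univ_succ, Fin.cons_zero, Fin.cons_succ]
    rw [div_pow, eq_div_iff n0, mul_assoc, E', zpow_neg, zpow_natCast,
      inv_mul_cancel_left₀ (pow_ne_zero _ (z0 0 l))]

end Pool.Agent.Lib.MP_8f9d9d_nt.H74
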