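import Pool.Agent.Lib.MP_8f9d9d_nt.H74Rk2

set_option autoImplicit false

open scoped IntermediateField Polynomial

namespace Pool.Agent.Lib.MP_8f9d9d_nt.H74

open Pool.Agent.Lib.MP_8f9d9d_nt.H53

section
variable {k K : Type*} [Field k] [Field K] [Algebra k K]

theorem tower_deg (E : IntermediateField k K) (S : Finset K) (hS : ∀ s ∈ S, IsAlgebraic E s) :
    ∃ D : ℕ, ∀ Y : K,
      IsIntegral (E ⊔ IntermediateField.adjoin k (S : Set K) : IntermediateField k K) Y →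
      ∀ x ∈ (E ⊔ IntermediateField.adjoin k (S : Set K)) ⊔ k⟮Y⟯, (minpoly E x).natDegree ≤
        D * (minpoly (E ⊔ IntermediateField.adjoin k (S : Set K) :
          IntermediateField k K) Y).natDegree := by
  rw [← IntermediateField.restrictScalars_adjoin_eq_sup]
  have : FiniteDimensional E (IntermediateField.adjoin E (S : Set K)) :=
    IntermediateField.finiteDimensional_adjoin fun s hs => (hS s hs).isIntegral
  generalize IntermediateField.adjoin E (S : Set K) = L at this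
  refine ⟨Module.finrank E L, fun Y hY x hx => ?_⟩
  rw [← IntermediateField.restrictScalars_adjoin_eq_sup] at hx
  have i2 : IsIntegral L Y := hY
  have hx' : x ∈ L⟮Y⟯ := hx
  have : IsScalarTower E L⟮Y⟯ K := IsScalarTower.of_algebraMap_eq fun _ => rfl
  have := IntermediateField.adjoin.finiteDimensional i2
  have := Module.Finite.trans (R := E) L L⟮Y⟯
  have h6 := minpoly.natDegree_le (A := E) (⟨x, hx'⟩ : L⟮Y⟯)
  rw [← minpoly.algebraMap_eq (algebraMap L⟮Y⟯ K).injective,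
    ← Module.finrank_mul_finrank E L L⟮Y⟯, IntermediateField.adjoin.finrank i2] at h6
  exact h6

theorem exists_base (A : IntermediateField k K) {j : K} (hj : Transcendental A j) (S : Finset K) :
    ∃ B : IntermediateField k K, A ≤ B ∧ Transcendental B j ∧
      ∀ s ∈ S, IsAlgebraic (B ⊔ k⟮j⟯ : IntermediateField k K) s := by
  classical
  induction S using Finset.induction_on with
  | empty => exact ⟨A, le_rfl, hj, by simp⟩
  | insert s T hs ih =>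
    obtain ⟨B, h1, h2, h3⟩ := ih
    by_cases h : IsAlgebraic (B ⊔ k⟮j⟯ : IntermediateField k K) s
    · exact ⟨B, h1, h2, Finset.forall_mem_insert .. |>.2 ⟨h, h3⟩⟩
    · refine ⟨B ⊔ k⟮s⟯, h1.trans le_sup_left, fun h4 => h (exchange B h2 h4),
        Finset.forall_mem_insert .. |>.2 ⟨alg_of_mem ?_, fun t ht =>
          alg_mono (sup_le_sup_right le_sup_left _) (h3 t ht)⟩⟩
      exact (le_sup_right.trans le_sup_left : k⟮s⟯ ≤ _)
        (IntermediateField.mem_adjoin_simple_self k s)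

theorem root_ne {L : Type*} [Field L] [Algebra L K] {y ρ : K} (hi : IsIntegral L y) (hy : y ≠ 0)
    (h0 : Polynomial.aeval ρ (minpoly L y) = 0) : ρ ≠ 0 := fun h5 => by
  rw [h5, ← Polynomial.coeff_zero_eq_aeval_zero', map_eq_zero] at h0
  exact minpoly.coeff_zero_ne_zero hi hy h0

end

/-- The units attached to a point, with their conjugates. -/
structure Un (p : ℕ) (k : Type*) {K : Type*} [Field k] [Field K] [Algebra k K] (q j : K)
    (Y : ℕ → K) : Prop where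
  eq : ∀ l, ∃ w : K, w ≠ 0 ∧ Y l = q ^ 12 * w ^ p ^ l
  alg : ∀ l, IsAlgebraic k⟮j⟯ (Y l)
  succ : ∀ l, ∃ a : K, IsAlgebraic k⟮j⟯ a ∧ Y (l + 1) = Y l * a ^ p ^ l
  spl : ∀ l (L : IntermediateField k K), k⟮j⟯ ≤ L →
    ((minpoly L (Y l)).map (algebraMap L K)).Splits ∧
      ∀ ρ : K, Polynomial.aeval ρ (minpoly L (Y l)) = 0 →
        ∃ (m : ℤ) (w : K), w ≠ 0 ∧ IsAlgebraic k⟮j⟯ w ∧ ρ = Y l ^ m * w ^ p ^ l
  mov : ∀ A : IntermediateField k K, Transcendental A j → ∀ S : Finset K,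
    ∃ L : IntermediateField k K, A ≤ L ∧ k⟮j⟯ ≤ L ∧ IntermediateField.adjoin k (S : Set K) ≤ L ∧
      ∃ g : ℕ, ∀ l, g ≤ l → ∃ (m : ℤ) (w : K), w ≠ 0 ∧ IsAlgebraic k⟮j⟯ w ∧
        Polynomial.aeval (Y l ^ m * w ^ p ^ l) (minpoly L (Y l)) = 0 ∧ ¬(p : ℤ) ^ (g + 1) ∣ m - 1

variable {p : ℕ} [Fact p.Prime] {k K : Type*} [Field k] [IsAlgClosed k] [Field K] [Algebra k K]
  [CharP K p]

theorem exists_un {q j : K} (h : Pt p k q j) (c : Cj p k q j) : ∃ Y : ℕ → K, Un p k q j Y := by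
  classical
  have hp : p.Prime := Fact.out
  have q0 := caseV_aux_ne h.nq
  choose s s0 hs using fun l : ℕ => c (l + 1) l.succ_pos
  have hN : ∀ l, 1 < p ^ (l + 1) := fun l => Nat.one_lt_pow l.succ_ne_zero hp.one_lt
  have sp := fun l (L : IntermediateField k K) (hL : k⟮j⟯ ≤ L) a0 (h0 : a0 < p ^ (l + 1)) =>
    split_roots (F := L) (l + 1) (fun a => q ^ (12 * a ^ 2) * s l a ^ p ^ (l + 1))
      (fun i => ⟨⟨_, hL (hs l i)⟩, rfl⟩) h0
  have sp1 := fun l L hL => sp l L hL 1 (hN l)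
  simp only [one_pow, mul_one] at sp1
  obtain ⟨Y, hY⟩ : ∃ Y : ℕ → K, ∀ l, Y l = q ^ 12 * s l 1 ^ p ^ (l + 1) := ⟨_, fun _ => rfl⟩
  simp only [← hY] at sp1
  have Y0 : ∀ l, Y l ≠ 0 := fun l =>
    hY l ▸ mul_ne_zero (pow_ne_zero _ q0) (pow_ne_zero _ (s0 l))
  have alg : ∀ l, IsAlgebraic k⟮j⟯ (Y l) := fun l => (sp1 l _ le_rfl).1.isAlgebraic
  obtain ⟨A0, hA0⟩ := exists_cl k⟮j⟯
  have conj : ∀ l, ∀ a < p ^ (l + 1), q ^ (12 * a ^ 2) * s l a ^ p ^ (l + 1) ≠ 0 →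
      ∃ w : K, w ≠ 0 ∧ IsAlgebraic k⟮j⟯ w ∧ q ^ (12 * a ^ 2) * s l a ^ p ^ (l + 1) =
        Y l ^ ((a : ℤ) ^ 2) * w ^ p ^ l := fun l a ha h0 => by
    have e : q ^ (12 * a ^ 2) * s l a ^ p ^ (l + 1) =
        Y l ^ ((a : ℤ) ^ 2) * ((s l a / s l 1 ^ a ^ 2) ^ p) ^ p ^ l := by
      rw [← pow_mul (s l a / _), ← pow_succ', ← Nat.cast_pow, zpow_natCast, hY, mul_pow, div_pow,
        ← pow_mul q, pow_right_comm (s l 1), mul_assoc,
        mul_div_cancel₀ _ (pow_ne_zero _ (pow_ne_zero _ (s0 l)))]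
    refine ⟨_, fun h1 => h0 (by rw [e, h1, zero_pow (pow_ne_zero _ hp.ne_zero), mul_zero]),
      IsAlgebraic.of_pow (pow_pos hp.pos l) ((hA0 _).1 ?_), e⟩
    rw [← mul_div_cancel_left₀ (_ ^ p ^ l) (zpow_ne_zero ((a : ℤ) ^ 2) (Y0 l)), ← e]
    exact div_mem ((hA0 _).2 (sp l _ le_rfl a ha).1.isAlgebraic) (zpow_mem ((hA0 _).2 (alg l)) _)
  have rat : ∀ l d, ∃ a : K, IsAlgebraic k⟮j⟯ a ∧ a ^ p ^ (l + 1) = Y (l + d) * (Y l)⁻¹ :=
    fun l d => by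
      have e : (s (l + d) 1 ^ p ^ d / s l 1) ^ p ^ (l + 1) = Y (l + d) * (Y l)⁻¹ := by
        rw [hY, hY, div_pow, ← pow_mul, ← pow_add, show d + (l + 1) = l + d + 1 by ring,
          ← div_eq_mul_inv, mul_div_mul_left _ _ (pow_ne_zero _ q0)]
      exact ⟨_, IsAlgebraic.of_pow (pow_pos hp.pos (l + 1)) (e ▸ (alg _).mul (alg _).inv), e⟩
  refine ⟨Y, fun l => ⟨s l 1 ^ p, pow_ne_zero _ (s0 l), by rw [hY, ← pow_mul, ← pow_succ']⟩, alg,
    fun l => ?_, fun l L hL => ⟨(sp1 l L hL).2.1, fun ρ hρ => ?_⟩, fun A hA S => ?_⟩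
  · obtain ⟨a, ha, e⟩ := rat l 1
    refine ⟨a ^ p, ha.pow _, ?_⟩
    rw [← pow_mul, ← pow_succ', e, mul_left_comm, mul_inv_cancel₀ (Y0 l), mul_one]
  · have h0 := root_ne (sp1 l L hL).1 (Y0 l) hρ
    obtain ⟨a, ha, rfl⟩ := (sp1 l L hL).2.2 ρ hρ
    exact ⟨_, conj l a ha h0⟩
  obtain ⟨B, b1, b2, b3⟩ := exists_base A hA S
  obtain ⟨D, hD⟩ := tower_deg (B ⊔ k⟮j⟯) S b3
  generalize hL : (B ⊔ k⟮j⟯) ⊔ IntermediateField.adjoin k (S : Set K) = L at hD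
  have jL : k⟮j⟯ ≤ L := hL ▸ le_sup_right.trans le_sup_left
  refine ⟨L, hL ▸ b1.trans (le_sup_left.trans le_sup_left), jL, hL ▸ le_sup_right, ?_⟩
  obtain ⟨m, hm⟩ := h.unb (D * (2 * (24 * (1 : ℤ).natAbs * p ^ 1)))
  have hsep : ∀ x : K, IsAlgebraic k⟮j⟯ x → IsSeparable k⟮j⟯ x := fun x hx => sep1 h.nj hx
  obtain ⟨g, hg⟩ : ∃ g, g = m + 2 := ⟨_, rfl⟩
  obtain ⟨a0, r0, ha0⟩ : ∃ a0 : ℕ, Polynomial.aeval (q ^ (12 * a0 ^ 2) * s g a0 ^ p ^ (g + 1))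
      (minpoly L (Y g)) = 0 ∧ ¬(p : ℤ) ^ (g + 1) ∣ 12 * 1 * ((a0 : ℤ) ^ 2 - 1) := by
    by_contra H
    have hf : (minpoly L (Y g)).natDegree ≤ 2 * (24 * (1 : ℤ).natAbs * p ^ 1) := by
      rw [← Polynomial.card_rootSet_eq_natDegree (K := K) (sep_mono jL (hsep _ (alg g)))
        (sp1 g L jL).2.1, ← Set.toFinset_card]
      refine (Finset.card_le_card (fun ρ hρ => Finset.mem_image.2 ?_)).trans
        ((Finset.card_image_le (f := fun a => q ^ (12 * a ^ 2) * s g a ^ p ^ (g + 1))).trans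
          (count_le hp g 1 one_ne_zero))
      have h1 := Polynomial.aeval_eq_zero_of_mem_rootSet (Set.mem_toFinset.1 hρ)
      obtain ⟨a, ha, rfl⟩ := (sp1 g L jL).2.2 ρ h1
      exact ⟨a, Finset.mem_filter.2 ⟨Finset.mem_range.2 ha, not_not.1 fun h2 => H ⟨a, h1, h2⟩⟩, rfl⟩
    have hle : k⟮j⟯ ≤ (L ⊔ k⟮Y g⟯) ⊓ A0 :=
      le_inf (jL.trans le_sup_left) fun y hy => (hA0 y).2 (alg_of_mem hy)
    let := (IntermediateField.inclusion hle).toAlgebra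
    have : IsScalarTower k⟮j⟯ ((L ⊔ k⟮Y g⟯) ⊓ A0 : IntermediateField k K) K :=
      IsScalarTower.of_algebraMap_eq fun _ => rfl
    obtain ⟨y, y0, z, hz⟩ := lower (p := p) (S := ((L ⊔ k⟮Y g⟯) ⊓ A0 : IntermediateField k K)) hsep
      q0 (s0 g) (n := m) (m := g + 1) (by omega) (hY g ▸ alg g)
      ⟨⟨Y g, (le_sup_right : k⟮Y g⟯ ≤ _) (IntermediateField.mem_adjoin_simple_self k _),
        (hA0 _).2 (alg g)⟩, hY g⟩
    have h7 : IsAlgebraic k⟮j⟯ (q * y ^ p ^ m) := (hA0 _).1 (hz ▸ z.2.2)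
    exact absurd (hm y y0 h7) (not_lt.2 ((deg_descent B b2 h7).trans
      ((hD _ (sp1 g L jL).1 _ (hz ▸ z.2.1)).trans (Nat.mul_le_mul_left _ hf))))
  refine ⟨g, fun l hl => ?_⟩
  obtain ⟨d, rfl⟩ := Nat.exists_eq_add_of_le hl
  obtain ⟨v, hv, ev⟩ := rat g d
  obtain ⟨ρ, w, h3, h4⟩ := gal (p := p) (1 : L) 1 (-1) (g + 1) (sp1 (g + d) L jL).1
    (sp1 (g + d) L jL).2.1 (sp1 g L jL).1 (sp1 g L jL).2.1 (sep_mono jL (hsep _ hv))
    (by rw [ev, zpow_one, zpow_neg_one, map_one, mul_one]) r0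
  have z1 := root_ne (sp1 _ L jL).1 (Y0 _) h3
  have z2 := root_ne (sp1 _ L jL).1 (Y0 _) r0
  obtain ⟨a, ha, rfl⟩ := (sp1 _ L jL).2.2 ρ h3
  obtain ⟨w', w0, wa, e⟩ := conj _ a ha z1
  refine ⟨_, w', w0, wa, e ▸ h3, fun hd => ha0 ?_⟩
  have h5 := pow_dvd h.nq (g + 1) ((12 * a ^ 2 : ℕ) - (12 * a0 ^ 2 : ℕ))
    (w * s g a0 / s (g + d) a ^ p ^ d) (by
      have := right_ne_zero_of_mul z1
      have := right_ne_zero_of_mul z2
      rw [div_pow, mul_pow, h4, ← pow_mul, ← pow_add, show d + (g + 1) = g + d + 1 by ring,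
        zpow_sub₀ q0, zpow_natCast, zpow_natCast, zpow_one, zpow_neg_one, map_one, mul_one]
      field_simp)
  rw [Nat.cast_pow] at h5
  exact (dvd_sub (hd.mul_left 12) h5).trans (dvd_of_eq (by push_cast; ring))

end Pool.Agent.Lib.MP_8f9d9d_nt.H74
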