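import Pool.Agent.Lib.MP_8f9d9d_nt.H74Rk3

set_option autoImplicit false

open scoped IntermediateField Polynomial

namespace Pool.Agent.Lib.MP_8f9d9d_nt.H74

open Pool.Agent.Lib.MP_8f9d9d_nt.H53

theorem nd_mul {p : ℤ} (hp : Prime p) {a b : ℕ} {u v : ℤ} (hu : ¬p ^ (a + 1) ∣ u)
    (hv : ¬p ^ (b + 1) ∣ v) : ¬p ^ (a + b + 1) ∣ u * v := fun h => by
  obtain ⟨i, u', x, y, hi, rfl, e1⟩ := int_red hp hu 1
  obtain ⟨j, v', z, w, hj, rfl, e2⟩ := int_red hp hv 1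
  have h1 : p ^ (i + j) * p ∣ p ^ (i + j) * (u' * v') := by
    rw [← pow_succ]
    exact ((pow_dvd_pow p (by omega)).trans h).trans (dvd_of_eq (by ring))
  rcases hp.dvd_or_dvd ((mul_dvd_mul_iff_left (pow_ne_zero _ hp.ne_zero)).1 h1) with h2 | h2
  · exact hp.not_dvd_one ((dvd_sub (h2.mul_left x) (dvd_mul_right p y)).trans
      (dvd_of_eq (by linear_combination e1)))
  · exact hp.not_dvd_one ((dvd_sub (h2.mul_left z) (dvd_mul_right p w)).trans
      (dvd_of_eq (by linear_combination e2)))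

variable {p : ℕ} [Fact p.Prime] {k K : Type*} [Field k] [IsAlgClosed k] [Field K] [Algebra k K]
  [CharP K p] {ι : Type} [Fintype ι]

/-- Conjugating a relation between several elements. -/
theorem galN {L : Type*} [Field L] [Algebra L K] (y : ι → K) (c : ι → ℤ) {x : L} (n : ℕ) {v ρ : K}
    (hi : ∀ i, IsIntegral L (y i) ∧ ((minpoly L (y i)).map (algebraMap L K)).Splits)
    (hv : IsSeparable L v) (x0 : x ≠ 0) (h : ∏ i, y i ^ c i = algebraMap L K x * v ^ p ^ n) (i0 : ι)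
    (hρ : Polynomial.aeval ρ (minpoly L (y i0)) = 0) :
    ∃ (r : ι → K) (w : K), r i0 = ρ ∧ (∀ i, Polynomial.aeval (r i) (minpoly L (y i)) = 0) ∧
      Polynomial.aeval w (minpoly L v) = 0 ∧ ∏ i, r i ^ c i = algebraMap L K x * w ^ p ^ n := by
  have m : ∀ i, y i ∈ IntermediateField.adjoin L (Set.range y) := fun i =>
    IntermediateField.subset_adjoin L _ ⟨i, rfl⟩
  obtain ⟨σ, hσ⟩ := IntermediateField.exists_algHom_adjoin_of_splits_of_aeval (S := Set.range y)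
    (K := K) (by
      rintro s ⟨i, rfl⟩
      exact hi i) (m i0) hρ
  have mv : v ∈ IntermediateField.adjoin L (Set.range y) := sep_mem (p := p) bot_le
    (IsSeparable.tower_top _ hv) n (by
      rw [← mul_div_cancel_left₀ (v ^ p ^ n) ((map_ne_zero (algebraMap L K)).2 x0), ← h]
      exact div_mem (prod_mem fun i _ => zpow_mem (m i) _) (IntermediateField.algebraMap_mem _ x))
  have e : ∏ i, (⟨y i, m i⟩ : IntermediateField.adjoin L (Set.range y)) ^ c i =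
      algebraMap L _ x * (⟨v, mv⟩ : IntermediateField.adjoin L (Set.range y)) ^ p ^ n := by
    refine (algebraMap (IntermediateField.adjoin L (Set.range y)) K).injective ?_
    simp only [map_prod, map_mul, map_pow, map_zpow₀]
    exact h
  have rt : ∀ z : IntermediateField.adjoin L (Set.range y),
      Polynomial.aeval (σ z) (minpoly L (z : K)) = 0 := fun z => by
    rw [Polynomial.aeval_algHom_apply, map_eq_zero]
    refine (algebraMap (IntermediateField.adjoin L (Set.range y)) K).injective ?_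
    rw [← Polynomial.aeval_algebraMap_apply, map_zero]
    exact minpoly.aeval L (z : K)
  refine ⟨fun i => σ ⟨y i, m i⟩, σ ⟨v, mv⟩, hσ, fun i => rt _, rt _, ?_⟩
  have := congrArg σ e
  simpa only [map_prod, map_mul, map_pow, map_zpow₀, AlgHom.commutes] using this

variable {q j : ι → K} {Y : ι → ℕ → K} {F Ms : IntermediateField k K}

theorem step (hP : ∀ i, Pt p k (q i) (j i)) (hU : ∀ i, Un p k (q i) (j i) (Y i))
    (hF : ∀ i, k⟮j i⟯ ≤ F) (hM : ∀ x, x ∈ Ms ↔ IsSeparable F x) (l : ℕ)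
    {L : IntermediateField k K} (hL : F ≤ L) (i0 : ι) {m0 : ℤ} {w0 : K} (h0 : w0 ≠ 0)
    (h1 : IsAlgebraic k⟮j i0⟯ w0)
    (h2 : Polynomial.aeval (Y i0 l ^ m0 * w0 ^ p ^ l) (minpoly L (Y i0 l)) = 0) {c : ι → ℤ}
    {x a : K} (hx : x ∈ F) (x0 : x ≠ 0) (ha : a ∈ Ms) (a0 : a ≠ 0)
    (h : ∏ i, Y i l ^ c i = x * a ^ p ^ l) :
    ∃ m : ι → ℤ, m i0 = m0 ∧ (∀ i, i ≠ i0 → Y i l ∈ L → m i = 1) ∧ ∀ t : ℤ, ∃ b ∈ Ms, b ≠ 0 ∧
      ∏ i, Y i l ^ (c i * (m i - t)) = x ^ (1 - t) * b ^ p ^ l := by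
  have Y0 : ∀ i, Y i l ≠ 0 := fun i => by
    obtain ⟨w, w0, e⟩ := (hU i).eq l
    exact e ▸ mul_ne_zero (pow_ne_zero _ (caseV_aux_ne (hP i).nq)) (pow_ne_zero _ w0)
  have sa := (hM a).1 ha
  obtain ⟨r, w, r0, r1, r2, r3⟩ := galN (p := p) (L := L) (fun i => Y i l) c (x := ⟨x, hL hx⟩) l
    (fun i => ⟨(alg_mono ((hF i).trans hL) ((hU i).alg l)).isIntegral,
      ((hU i).spl l L ((hF i).trans hL)).1⟩) (sep_mono hL sa)
    (fun e => x0 (congrArg Subtype.val e)) h i0 h2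
  have w0' := root_ne (sep_mono hL sa).isIntegral a0 r2
  have wM : w ∈ Ms := by
    let := (IntermediateField.inclusion hL).toAlgebra
    have : IsScalarTower F L K := IsScalarTower.of_algebraMap_eq fun _ => rfl
    have h3 := Polynomial.aeval_eq_zero_of_dvd_aeval_eq_zero
      (minpoly.dvd_map_of_isScalarTower F L a) r2
    rw [Polynomial.aeval_map_algebraMap] at h3
    exact (hM w).2 (Polynomial.Separable.of_dvd sa (minpoly.dvd _ _ h3))
  have : ∀ i, ∃ (m : ℤ) (u : K), u ≠ 0 ∧ IsAlgebraic k⟮j i⟯ u ∧ r i = Y i l ^ m * u ^ p ^ l ∧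
      (i = i0 → m = m0) ∧ (i ≠ i0 → Y i l ∈ L → m = 1) := fun i => by
    by_cases e : i = i0
    · subst e
      exact ⟨m0, w0, h0, h1, r0, fun _ => rfl, fun h => absurd rfl h⟩
    by_cases e' : Y i l ∈ L
    · refine ⟨1, 1, one_ne_zero, isAlgebraic_one, ?_, fun h => absurd h e, fun _ _ => rfl⟩
      have h3 := r1 i
      rw [show Y i l = algebraMap L K ⟨_, e'⟩ from rfl, minpoly.eq_X_sub_C, map_sub,
        Polynomial.aeval_X, Polynomial.aeval_C, sub_eq_zero] at h3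
      rw [zpow_one, one_pow, mul_one]
      exact h3
    · obtain ⟨m, u, u0, u1, u2⟩ := ((hU i).spl l L ((hF i).trans hL)).2 _ (r1 i)
      exact ⟨m, u, u0, u1, u2, fun h => absurd h e, fun _ h => absurd h e'⟩
  choose m u u0 u1 u2 u3 u4 using this
  have uM : ∀ i, u i ∈ Ms := fun i => (hM _).2 (sep_mono (hF i) (sep1 (hP i).nj (u1 i)))
  have W0 : ∏ i, u i ^ c i ≠ 0 := Finset.prod_ne_zero_iff.2 fun i _ => zpow_ne_zero _ (u0 i)
  refine ⟨m, u3 i0 rfl, u4, fun t => ⟨w / (a ^ t * ∏ i, u i ^ c i),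
    div_mem wM (mul_mem (zpow_mem ha _) (prod_mem fun i _ => zpow_mem (uM i) _)),
    div_ne_zero w0' (mul_ne_zero (zpow_ne_zero _ a0) W0), ?_⟩⟩
  have e1 : (∏ i, Y i l ^ (c i * (m i - t))) * (∏ i, Y i l ^ c i) ^ t *
      (∏ i, u i ^ c i) ^ p ^ l = ∏ i, r i ^ c i := by
    rw [← Finset.prod_zpow, ← Finset.prod_pow, ← Finset.prod_mul_distrib,
      ← Finset.prod_mul_distrib]
    refine Finset.prod_congr rfl fun i _ => ?_
    rw [u2, mul_zpow, zp1, ← zpow_mul, ← zpow_mul, ← zpow_add₀ (Y0 i)]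
    congr 2
    ring
  rw [r3, h, mul_zpow] at e1
  change _ = x * _ at e1
  rw [div_pow, mul_pow, zp1, zpow_sub₀ x0, zpow_one]
  have := zpow_ne_zero t x0
  have := zpow_ne_zero t (pow_ne_zero (p ^ l) a0)
  have := pow_ne_zero (p ^ l) W0
  field_simp
  linear_combination e1

/-- Eliminating all the units. -/
theorem elimA (hP : ∀ i, Pt p k (q i) (j i)) (hU : ∀ i, Un p k (q i) (j i) (Y i))
    (hF : ∀ i, k⟮j i⟯ ≤ F) (hM : ∀ x, x ∈ Ms ↔ IsSeparable F x) (l g : ℕ)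
    (hm : ∀ i, ∃ L : IntermediateField k K, F ≤ L ∧ ∃ (m : ℤ) (w : K), w ≠ 0 ∧
      IsAlgebraic k⟮j i⟯ w ∧ Polynomial.aeval (Y i l ^ m * w ^ p ^ l) (minpoly L (Y i l)) = 0 ∧
      ¬(p : ℤ) ^ (g + 1) ∣ m - 1) (T : Finset ι) :
    ∀ (c : ι → ℤ) (x a : K), (∀ i, i ∉ T → c i = 0) → x ∈ F → x ≠ 0 → a ∈ Ms → a ≠ 0 →
      ∏ i, Y i l ^ c i = x * a ^ p ^ l →
      ∃ e : ℤ, ¬(p : ℤ) ^ (g * T.card + 1) ∣ e ∧ ∃ b ∈ Ms, x ^ e = b ^ p ^ l := by
  classical
  have hp := Nat.prime_iff_prime_int.1 (Fact.out : p.Prime)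
  induction T using Finset.induction_on with
  | empty =>
    intro c x a hc hx x0 ha a0 h
    refine ⟨1, by simpa using hp.not_dvd_one, a⁻¹, inv_mem ha, ?_⟩
    rw [Finset.prod_eq_one fun i _ => by rw [hc i (by simp), zpow_zero]] at h
    rw [zpow_one, inv_pow]
    exact eq_inv_of_mul_eq_one_left h.symm
  | insert i T hi ih =>
    intro c x a hc hx x0 ha a0 h
    obtain ⟨L, hL, m0, w, w0, w1, w2, w3⟩ := hm i
    obtain ⟨m, m1, -, H⟩ := step hP hU hF hM l hL i w0 w1 w2 hx x0 ha a0 h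
    obtain ⟨b, hb, b0, E⟩ := H m0
    obtain ⟨e, he, b', hb', E'⟩ := ih _ _ _ (fun i' hi' => by
      by_cases e : i' = i
      · rw [e, m1, sub_self, mul_zero]
      · rw [hc i' (by simp [e, hi']), zero_mul]) (zpow_mem hx _) (zpow_ne_zero _ x0) hb b0 E
    refine ⟨(1 - m0) * e, ?_, b', hb', by rw [zpow_mul, E']⟩
    rw [Finset.card_insert_of_notMem hi, mul_add, mul_one, add_comm (g * _)]
    exact nd_mul hp (fun h => w3 (by simpa using h.neg_right)) he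

/-- Isolating one unit. -/
theorem elimB (hP : ∀ i, Pt p k (q i) (j i)) (hU : ∀ i, Un p k (q i) (j i) (Y i))
    (hF : ∀ i, k⟮j i⟯ ≤ F) (hM : ∀ x, x ∈ Ms ↔ IsSeparable F x) (l g : ℕ) (i0 : ι)
    (hm : ∀ i, ∃ L : IntermediateField k K, F ≤ L ∧ (i ≠ i0 → Y i l ∈ L) ∧
      ∃ (m : ℤ) (w : K), w ≠ 0 ∧ IsAlgebraic k⟮j i0⟯ w ∧
      Polynomial.aeval (Y i0 l ^ m * w ^ p ^ l) (minpoly L (Y i0 l)) = 0 ∧
      ¬(p : ℤ) ^ (g + 1) ∣ m - 1) (T : Finset ι) :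
    ∀ (c : ι → ℤ) (x a : K) (f : ℕ), (∀ i, i ≠ i0 → i ∉ T → c i = 0) →
      ¬(p : ℤ) ^ (f + 1) ∣ c i0 → x ∈ F → x ≠ 0 → a ∈ Ms → a ≠ 0 →
      ∏ i, Y i l ^ c i = x * a ^ p ^ l →
      ∃ e : ℤ, ¬(p : ℤ) ^ (f + g * (T.card + 1) + 1) ∣ e ∧ ∃ b : K, Y i0 l ^ e = b ^ p ^ l := by
  classical
  have hp := Nat.prime_iff_prime_int.1 (Fact.out : p.Prime)
  induction T using Finset.induction_on with
  | empty =>
    intro c x a f hc hf hx x0 ha a0 h
    obtain ⟨L, hL, -, m0, w, w0, w1, w2, w3⟩ := hm i0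
    obtain ⟨m, m1, -, H⟩ := step hP hU hF hM l hL i0 w0 w1 w2 hx x0 ha a0 h
    obtain ⟨b, -, -, E⟩ := H 1
    rw [Finset.prod_eq_single i0 (fun i _ hi => by rw [hc i hi (by simp), zero_mul, zpow_zero])
      (by simp), sub_self, zpow_zero, one_mul, m1] at E
    exact ⟨_, by simpa using nd_mul hp hf w3, b, E⟩
  | insert i T hi ih =>
    intro c x a f hc hf hx x0 ha a0 h
    obtain ⟨L, hL, hY, m0, w, w0, w1, w2, w3⟩ := hm i
    obtain ⟨m, m1, m2, H⟩ := step hP hU hF hM l hL i0 w0 w1 w2 hx x0 ha a0 h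
    obtain ⟨b, hb, b0, E⟩ := H 1
    obtain ⟨e, he, E'⟩ := ih _ _ _ (f + g) (fun i' h1 hi' => by
      by_cases e : i' = i
      · rw [m2 i' h1 (e ▸ hY (e ▸ h1)), sub_self, mul_zero]
      · rw [hc i' h1 (by simp [e, hi']), zero_mul]) (by rw [m1]; exact nd_mul hp hf w3)
      (zpow_mem hx _) (zpow_ne_zero _ x0) hb b0 E
    refine ⟨e, ?_, E'⟩
    rwa [Finset.card_insert_of_notMem hi, show f + g * (T.card + 1 + 1) =
      f + g + g * (T.card + 1) by ring]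

end Pool.Agent.Lib.MP_8f9d9d_nt.H74
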