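import Pool.Agent.Lib.MP_8f9d9d_nt.H74Rk3

set_option autoImplicit false

open scoped IntermediateField Polynomial

namespace Pool.Agent.Lib.MP_8f9d9d_nt.H74

open Pool.Agent.Lib.MP_8f9d9d_nt.H53

/-- A transcendental element of a finitely generated field is seen by an integral character. -/
theorem exists_hom {k K : Type*} [Field k] [Field K] [Algebra k K] (S : Finset K)
    (x : (IntermediateField.adjoin k (S : Set K))ˣ) (hx : Transcendental k (x.1 : K)) :
    ∃ φ : (IntermediateField.adjoin k (S : Set K))ˣ →* Multiplicative ℤ, φ x ≠ 1 := by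
  obtain ⟨B, -, b2, b3⟩ := exists_base (⊥ : IntermediateField k K) (j := (x.1 : K))
    (fun h => hx (isIntegral_trans (R := k) _ h.isIntegral).isAlgebraic) S
  rw [← IntermediateField.restrictScalars_adjoin_eq_sup] at b3
  let L := IntermediateField.adjoin B⟮(x.1 : K)⟯ (S : Set K)
  have : FiniteDimensional B⟮(x.1 : K)⟯ L :=
    IntermediateField.finiteDimensional_adjoin fun s hs => (b3 s hs).isIntegral
  have : IsScalarTower k B⟮(x.1 : K)⟯ K := IsScalarTower.of_algebraMap_eq fun _ => rfl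
  have hle : IntermediateField.adjoin k (S : Set K) ≤ L.restrictScalars k :=
    IntermediateField.adjoin_le_iff.2 (IntermediateField.subset_adjoin B⟮(x.1 : K)⟯ _)
  let ι : IntermediateField.adjoin k (S : Set K) →+* L :=
    (algebraMap _ K).codRestrict L fun y => hle y.2
  let e := (RatFunc.algEquivOfTranscendental (x.1 : K) b2).symm
  let d : (RatFunc B)ˣ →* Multiplicative ℤ := MonoidHom.mk'
    (fun u => Multiplicative.ofAdd (RatFunc.intDegree u.1)) fun u v => by
      rw [Units.val_mul, RatFunc.intDegree_mul u.ne_zero v.ne_zero, ofAdd_add]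
  refine ⟨d.comp (Units.map (e.toRingEquiv.toMonoidHom.comp
    ((Algebra.norm B⟮(x.1 : K)⟯).comp ι.toMonoidHom))), fun h => ?_⟩
  have h1 : RatFunc.intDegree (e (Algebra.norm B⟮(x.1 : K)⟯ (ι x.1))) = 0 := h
  have h2 : ι x.1 = algebraMap B⟮(x.1 : K)⟯ L (IntermediateField.AdjoinSimple.gen B (x.1 : K)) := rfl
  rw [h2, Algebra.norm_algebraMap, map_pow, RatFunc.algEquivOfTranscendental_symm_gen,
    ← RatFunc.algebraMap_X, ← map_pow, RatFunc.intDegree_polynomial, Polynomial.natDegree_X_pow,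
    Nat.cast_eq_zero] at h1
  exact Module.finrank_pos.ne' h1

/-- Independent elements separated by integral characters have bounded divisibility. -/
theorem bounded_div {G ι : Type*} [CommGroup G] [Fintype ι] (Q : ι → G)
    (h : ∀ m : ι → ℤ, m ≠ 0 → ∃ φ : G →* Multiplicative ℤ, φ (∏ i, Q i ^ m i) ≠ 1) :
    ∃ N : ℤ, N ≠ 0 ∧ ∀ (c : ι → ℤ) (a : G) (n : ℕ), ∏ i, Q i ^ c i = a ^ n →
      ∀ i, (n : ℤ) ∣ N * c i := by
  classical
  have ev : ∀ (φ : G →* Multiplicative ℤ) (m : ι → ℤ),
      (φ (∏ i, Q i ^ m i)).toAdd = ∑ i, m i * (φ (Q i)).toAdd := fun φ m => by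
    simp [map_prod, toAdd_prod]
  let v : (G →* Multiplicative ℤ) → ι → ℚ := fun φ i => ((φ (Q i)).toAdd : ℤ)
  have top : Submodule.span ℚ (Set.range v) = ⊤ := by
    by_contra H
    obtain ⟨f, f0, hf⟩ := Submodule.exists_le_ker_of_lt_top _ (lt_top_iff_ne_top.2 H)
    obtain ⟨b, hb⟩ := IsLocalization.exist_integer_multiples_of_finite (nonZeroDivisors ℤ)
      fun i : ι => f fun j => if i = j then 1 else 0
    choose m hm using hb
    have b0 : ((b : ℤ) : ℚ) ≠ 0 := Int.cast_ne_zero.2 (nonZeroDivisors.coe_ne_zero b)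
    have hm' : ∀ i, (m i : ℚ) = (b : ℤ) * f fun j => if i = j then 1 else 0 := fun i => by
      simpa using hm i
    obtain ⟨φ, hφ⟩ := h m fun h0 => f0 (LinearMap.ext fun x => by
      rw [LinearMap.pi_apply_eq_sum_univ]
      refine Finset.sum_eq_zero fun i _ => ?_
      have := hm' i
      rw [h0, Pi.zero_apply, Int.cast_zero, eq_comm, mul_eq_zero] at this
      rw [this.resolve_left b0, smul_zero])
    have h1 : f (v φ) = 0 := hf (Submodule.subset_span ⟨φ, rfl⟩)
    rw [LinearMap.pi_apply_eq_sum_univ] at h1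
    refine hφ (Multiplicative.toAdd.injective ?_)
    rw [ev, toAdd_one, ← Int.cast_inj (α := ℚ), Int.cast_zero, ← mul_zero ((b : ℤ) : ℚ), ← h1,
      Finset.mul_sum, Int.cast_sum]
    refine Finset.sum_congr rfl fun i _ => ?_
    rw [Int.cast_mul, hm', smul_eq_mul]
    ring
  have key : ∀ w ∈ Submodule.span ℚ (Set.range v), ∃ N : ℤ, N ≠ 0 ∧ ∃ φ, ∀ i,
      N * w i = v φ i := by
    intro w hw
    induction hw using Submodule.span_induction with
    | mem x hx =>
      obtain ⟨φ, rfl⟩ := hx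
      exact ⟨1, one_ne_zero, φ, by simp⟩
    | zero => exact ⟨1, one_ne_zero, 1, by simp [v]⟩
    | add x y _ _ hx hy =>
      obtain ⟨N, N0, φ, e⟩ := hx
      obtain ⟨M, M0, ψ, e'⟩ := hy
      refine ⟨N * M, mul_ne_zero N0 M0, φ ^ M * ψ ^ N, fun i => ?_⟩
      have : v (φ ^ M * ψ ^ N) i = M * v φ i + N * v ψ i := by simp [v]
      rw [this, ← e, ← e', Pi.add_apply]
      push_cast
      ring
    | smul r x _ hx =>
      obtain ⟨N, N0, φ, e⟩ := hx
      refine ⟨N * r.den, mul_ne_zero N0 (Int.natCast_ne_zero.2 r.den_nz), φ ^ r.num, fun i => ?_⟩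
      have : v (φ ^ r.num) i = r.num * v φ i := by simp [v]
      rw [this, ← e, ← Rat.mul_den_eq_num, Pi.smul_apply, smul_eq_mul]
      push_cast
      ring
  choose N N0 φ hφ using fun i : ι => key (fun j => if j = i then 1 else 0) (top ▸ trivial)
  refine ⟨∏ i, N i, Finset.prod_ne_zero_iff.2 fun i _ => N0 i, fun c a n e i => ?_⟩
  refine Dvd.dvd.trans ?_ (mul_dvd_mul_right (Finset.dvd_prod_of_mem N (Finset.mem_univ i)) _)
  have h1 := ev (φ i) c
  have h2 : ∀ j, (φ i (Q j)).toAdd = if j = i then N i else 0 := fun j => by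
    have := hφ i j
    rw [← Int.cast_inj (α := ℚ)]
    split_ifs at this ⊢ <;> simpa [v] using this.symm
  simp only [h2, mul_ite, mul_zero, Finset.sum_ite_eq', Finset.mem_univ, if_true] at h1
  rw [e, map_pow, toAdd_pow, nsmul_eq_mul] at h1
  exact ⟨_, by rw [mul_comm, ← h1]⟩

end Pool.Agent.Lib.MP_8f9d9d_nt.H74
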