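import Pool.Agent.Lib.MP_8f9d9d_nt.H74Rk4
import Pool.Agent.Lib.MP_8f9d9d_nt.H74Rk5

set_option autoImplicit false

open scoped IntermediateField Polynomial

namespace Pool.Agent.Lib.MP_8f9d9d_nt.H74

open Pool.Agent.Lib.MP_8f9d9d_nt.H53

theorem nd12 {p : ℕ} (hp : p.Prime) : ¬(p : ℤ) ^ (3 + 1) ∣ 12 := fun h => by
  have h1 := Int.le_of_dvd (by norm_num) h
  have h2 : (2 : ℤ) ^ (3 + 1) ≤ (p : ℤ) ^ (3 + 1) :=
    pow_le_pow_left₀ (by norm_num) (by exact_mod_cast hp.two_le) _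
  omega

variable {p : ℕ} [Fact p.Prime] {k K : Type*} [Field k] [IsAlgClosed k] [Field K] [Algebra k K]
  [CharP K p]

/-- Generators over the field of `p`-th powers, as many as the transcendence degree. -/
theorem exists_gen (S0 : Finset K) {Ms N : IntermediateField k K}
    (hMs : ∀ x, x ∈ Ms ↔ IsSeparable (IntermediateField.adjoin k (S0 : Set K)) x)
    (hN : ∀ x, x ∈ N ↔ ∃ w ∈ Ms, w ^ p = x) (M : IntermediateField k K) {n : ℕ}
    (hM : Algebra.trdeg k M ≤ n) (E : ℕ) (hS : ∀ s ∈ S0, s ^ p ^ E ∈ M) :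
    ∃ S : Finset K, (∀ s ∈ S, s ∈ Ms) ∧ S.card ≤ n ∧
      Ms ≤ N ⊔ IntermediateField.adjoin k (S : Set K) := by
  classical
  obtain ⟨R, hR⟩ := exists_rt (p := p) E M
  have FR : IntermediateField.adjoin k (S0 : Set K) ≤ R :=
    IntermediateField.adjoin_le_iff.2 fun s hs => (hR s).2 (hS s hs)
  have : Algebra.EssFiniteType k (IntermediateField.adjoin k (S0 : Set K)) :=
    IntermediateField.essFiniteType_iff.2 ⟨S0, rfl⟩
  generalize IntermediateField.adjoin k (S0 : Set K) = F at hMs FR this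
  have FM : F ≤ Ms := fun x hx => (hMs x).2 (isSeparable_algebraMap (⟨x, hx⟩ : F))
  obtain ⟨s, s1, s2⟩ := exists_isTranscendenceBasis_and_isSeparable_of_perfectField k F
  refine ⟨s.image (↑), fun x hx => ?_, Finset.card_image_le.trans ?_, fun x hx => ?_⟩
  · obtain ⟨y, -, rfl⟩ := Finset.mem_image.1 hx
    exact FM y.2
  · have h3 := (s1.1.map' (f := F.val) Subtype.val_injective).polynomial_aeval_of_transcendental
      (f := fun _ => Polynomial.X ^ p ^ E) fun _ =>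
        (Polynomial.transcendental_X k).pow (pow_pos (Fact.out : p.Prime).pos E)
    have h4 : AlgebraicIndependent k fun y : s => (⟨_, (hR _).1 (FR y.1.2)⟩ : M) := by
      refine AlgebraicIndependent.of_comp M.val ?_
      convert h3 using 1
      funext y
      simp
    have h5 := h4.lift_cardinalMk_le_trdeg.trans (Cardinal.lift_le.2 hM)
    simpa using h5
  · have : CharP F p := (Algebra.charP_iff F K p).2 inferInstance
    have m1 : ∀ z ∈ s, (z : K) ∈
        N ⊔ IntermediateField.adjoin k ((s.image (↑) : Finset K) : Set K) := fun z hz =>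
      (le_sup_right : IntermediateField.adjoin k _ ≤ _) (IntermediateField.subset_adjoin k _
        (Finset.mem_coe.2 (Finset.mem_image_of_mem _ hz)))
    have m2 : N ≤ N ⊔ IntermediateField.adjoin k ((s.image (↑) : Finset K) : Set K) := le_sup_left
    generalize N ⊔ IntermediateField.adjoin k ((s.image (↑) : Finset K) : Set K) = T at m1 m2
    obtain ⟨T', hT⟩ : ∃ T' : IntermediateField k F, ∀ z : F, z ∈ T' ↔ (z : K) ∈ T :=
      ⟨T.comap F.val, fun _ => Iff.rfl⟩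
    have m3 : F ≤ T := fun y hy => (hT ⟨y, hy⟩).1 (sep_mem (p := p)
      (E := IntermediateField.adjoin k (s : Set F))
      (IntermediateField.adjoin_le_iff.2 fun z hz => (hT z).2 (m1 z hz))
      (Algebra.IsSeparable.isSeparable _ (⟨y, hy⟩ : F)) 1
      ((hT _).2 (m2 ((hN _).2 ⟨y, FM hy, by simp⟩))))
    exact sep_mem (p := p) m3 ((hMs x).1 hx) 1 (m2 ((hN _).2 ⟨x, hx, by rw [pow_one]⟩))

/-- Any number of points. -/
theorem abs_n (hK : ∀ x : K, (∀ n, ∃ w : K, w ^ p ^ n = x) → ∃ c : k, algebraMap k K c = x)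
    {n : ℕ} (hn : 0 < n) {q j : Fin n → K} (hP : ∀ i, Pt p k (q i) (j i))
    (hC : ∀ i, Cj p k (q i) (j i)) (M : IntermediateField k K) (hM : Algebra.trdeg k M ≤ n) (E : ℕ)
    (hq : ∀ i, q i ^ p ^ E ∈ M) (hj : ∀ i, j i ^ p ^ E ∈ M) :
    (∃ m : Fin n → ℤ, m ≠ 0 ∧ ∃ η : k, ∏ i, q i ^ m i = algebraMap k K η) ∧
      ∃ i i', i ≠ i' ∧ IsAlgebraic k⟮j i'⟯ (j i) := by
  classical
  have hp : p.Prime := Fact.out
  have hp' := Nat.prime_iff_prime_int.1 hp
  have q0 : ∀ i, q i ≠ 0 := fun i => caseV_aux_ne (hP i).nq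
  choose Y hU using fun i => exists_un (hP i) (hC i)
  obtain ⟨S0, hS0⟩ : ∃ S0 : Finset K, S0 = Finset.univ.image q ∪ Finset.univ.image j := ⟨_, rfl⟩
  obtain ⟨Ms, hMs⟩ : ∃ Ms : IntermediateField k K, ∀ x, x ∈ Ms ↔
      IsSeparable (IntermediateField.adjoin k (S0 : Set K)) x :=
    ⟨(separableClosure (IntermediateField.adjoin k (S0 : Set K)) K).restrictScalars k,
      fun _ => mem_separableClosure_iff⟩
  obtain ⟨N, hN⟩ := exists_pw (p := p) Ms
  obtain ⟨S, s1, s2, s3⟩ := exists_gen S0 hMs hN M hM E (by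
    simp only [hS0, Finset.mem_union, Finset.mem_image]
    rintro s (⟨i, -, rfl⟩ | ⟨i, -, rfl⟩)
    exacts [hq i, hj i])
  have qF : ∀ i, q i ∈ IntermediateField.adjoin k (S0 : Set K) := fun i =>
    IntermediateField.subset_adjoin k _ (by simp [hS0])
  have jF : ∀ i, k⟮j i⟯ ≤ IntermediateField.adjoin k (S0 : Set K) := fun i =>
    IntermediateField.adjoin_simple_le_iff.2 (IntermediateField.subset_adjoin k _ (by simp [hS0]))
  have FM : IntermediateField.adjoin k (S0 : Set K) ≤ Ms := fun x hx =>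
    (hMs x).2 (isSeparable_algebraMap (⟨x, hx⟩ : IntermediateField.adjoin k (S0 : Set K)))
  have aM : ∀ i x, IsAlgebraic k⟮j i⟯ x → x ∈ Ms := fun i x hx =>
    (hMs x).2 (sep_mono (jF i) (sep1 (hP i).nj hx))
  obtain ⟨f, hf⟩ := rank_le hK (hP ⟨0, hn⟩).nq n Ms N S (fun i l => Y i l / q i ^ 12) hN
    (FM (qF _)) s1 s2 s3 fun i l => by
      obtain ⟨w, w0, e⟩ := (hU i).eq l
      obtain ⟨a, ha, e'⟩ := (hU i).succ l
      have e1 : w ^ p ^ l = Y i l / q i ^ 12 := by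
        rw [e, mul_div_cancel_left₀ _ (pow_ne_zero _ (q0 i))]
      exact ⟨div_mem (aM i _ ((hU i).alg l)) (pow_mem (FM (qF i)) _), 
        fun h => pow_ne_zero _ w0 (e1.trans h),
        ⟨w, e1⟩, a, aM i a ha, by simp only [e', mul_div_right_comm]⟩
  have rel : ∀ l, ∃ c : Fin n → ℤ, (∃ i, ¬(p : ℤ) ^ (f + 1) ∣ c i) ∧ ∃ a ∈ Ms, a ≠ 0 ∧
      ∏ i, Y i l ^ c i = (∏ i, q i ^ (12 * c i)) * a ^ p ^ l := fun l => by
    obtain ⟨c, hc, a, ha, e⟩ := hf l
    have Y0 : ∀ i, Y i l ≠ 0 := fun i => by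
      obtain ⟨w, w0, e⟩ := (hU i).eq l
      exact e ▸ mul_ne_zero (pow_ne_zero _ (q0 i)) (pow_ne_zero _ w0)
    refine ⟨c, hc, a, ha, fun h0 => ?_, ?_⟩
    · rw [h0, zero_pow (pow_ne_zero _ hp.ne_zero)] at e
      exact Finset.prod_ne_zero_iff.2 (fun i _ => zpow_ne_zero _
        (div_ne_zero (Y0 i) (pow_ne_zero _ (q0 i)))) e
    · rw [← e, ← Finset.prod_mul_distrib]
      refine Finset.prod_congr rfl fun i _ => ?_
      rw [zpow_mul, zpow_ofNat, ← mul_zpow, mul_div_cancel₀ _ (pow_ne_zero _ (q0 i))]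
  have xF : ∀ c : Fin n → ℤ, ∏ i, q i ^ c i ∈ IntermediateField.adjoin k (S0 : Set K) :=
    fun c => prod_mem fun i _ => zpow_mem (qF i) _
  have x0 : ∀ c : Fin n → ℤ, ∏ i, q i ^ c i ≠ 0 :=
    fun c => Finset.prod_ne_zero_iff.2 fun i _ => zpow_ne_zero _ (q0 i)
  have tr : ∀ i, Transcendental k⟮q i⟯ (j i) := fun i =>
    caseV (hP i).nq (hP i) (alg_of_mem (IntermediateField.mem_adjoin_simple_self k _))
  constructor
  · by_contra H
    let Q : Fin n → (IntermediateField.adjoin k (S0 : Set K))ˣ := fun i =>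
      Units.mk0 ⟨q i, qF i⟩ fun h => q0 i (congrArg Subtype.val h)
    have val : ∀ m : Fin n → ℤ, ((∏ i, Q i ^ m i).1 : K) = ∏ i, q i ^ m i := fun m => by
      change algebraMap _ K (∏ i, Q i ^ m i).1 = _
      rw [Units.coe_prod, map_prod]
      refine Finset.prod_congr rfl fun i _ => ?_
      rw [Units.val_zpow_eq_zpow_val, map_zpow₀]
      rfl
    obtain ⟨D, D0, hD⟩ := bounded_div Q fun m hm => exists_hom S0 _ fun ha => by
      rw [val] at ha
      obtain ⟨c, hc⟩ := minpoly.mem_range_of_degree_eq_one k _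
        (IsAlgClosed.degree_eq_one_of_irreducible k (minpoly.irreducible ha.isIntegral))
      exact H ⟨m, hm, c, hc.symm⟩
    obtain ⟨v, hv⟩ : ∃ v, ¬(p : ℤ) ^ (v + 1) ∣ D := by
      obtain ⟨v, D', h1, h2⟩ := WfDvdMonoid.max_power_factor D0 hp'.irreducible
      exact ⟨v, fun h => h1 ((mul_dvd_mul_iff_left (pow_ne_zero v hp'.ne_zero)).1
        (by rwa [← pow_succ, ← h2]))⟩
    choose L _ _ L3 g hg using fun i => (hU i).mov _ (tr i) S0
    obtain ⟨G, hG⟩ : ∃ G, ∀ i, g i ≤ G :=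
      ⟨Finset.univ.sup g, fun i => Finset.le_sup (Finset.mem_univ i)⟩
    obtain ⟨l, hl⟩ : ∃ l, l = v + (3 + f + G * n) + 1 + G := ⟨_, rfl⟩
    obtain ⟨c, ⟨i, hi⟩, a, ha, a0, e⟩ := rel l
    obtain ⟨e', he', b, hb, eb⟩ := elimA hP hU jF hMs l G (fun i => by
      obtain ⟨m, w, h1, h2, h3, h4⟩ := hg i l (by have := hG i; omega)
      exact ⟨L i, L3 i, m, w, h1, h2, h3, fun h =>
        h4 ((pow_dvd_pow _ (Nat.succ_le_succ (hG i))).trans h)⟩) Finset.univ c _ a (by simp)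
      (xF _) (x0 _) ha a0 e
    have bF : b ∈ IntermediateField.adjoin k (S0 : Set K) :=
      sep_mem (p := p) le_rfl ((hMs b).1 hb) l (eb ▸ zpow_mem (xF _) _)
    have b0 : b ≠ 0 := fun h0 => zpow_ne_zero e' (x0 _)
      (by rw [eb, h0, zero_pow (pow_ne_zero _ hp.ne_zero)])
    have h1 := hD (fun i => 12 * c i * e') (Units.mk0 ⟨b, bF⟩ fun h => b0 (congrArg Subtype.val h))
      (p ^ l) (Units.ext (Subtype.ext (by
        rw [val]
        simp only [zpow_mul _ _ e', Finset.prod_zpow, eb]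
        simp))) i
    rw [Finset.card_univ, Fintype.card_fin] at he'
    rw [Nat.cast_pow] at h1
    exact nd_mul hp' hv (nd_mul hp' (nd_mul hp' (nd12 hp) hi) he')
      ((pow_dvd_pow _ (by omega)).trans h1)
  · by_contra H
    have mv : ∀ i0 i, ∃ L : IntermediateField k K, IntermediateField.adjoin k (S0 : Set K) ≤ L ∧
        (i ≠ i0 → ∀ l, Y i l ∈ L) ∧ ∃ g : ℕ, ∀ l, g ≤ l → ∃ (m : ℤ) (w : K), w ≠ 0 ∧
        IsAlgebraic k⟮j i0⟯ w ∧
        Polynomial.aeval (Y i0 l ^ m * w ^ p ^ l) (minpoly L (Y i0 l)) = 0 ∧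
        ¬(p : ℤ) ^ (g + 1) ∣ m - 1 := fun i0 i => by
      by_cases e : i = i0
      · obtain ⟨L, -, -, h3, h4⟩ := (hU i0).mov _ (tr i0) S0
        exact ⟨L, h3, fun h => absurd e h, h4⟩
      · obtain ⟨A, hA⟩ := exists_cl k⟮j i⟯
        obtain ⟨L, h1, -, h3, h4⟩ := (hU i0).mov A (fun h => H ⟨i0, i, Ne.symm e,
          alg_trans (fun y hy => (hA y).1 hy) h⟩) S0
        exact ⟨L, h3, fun _ l => h1 ((hA _).2 ((hU i).alg l)), h4⟩
    choose L L1 L2 g hg using mv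
    obtain ⟨G, hG⟩ : ∃ G, ∀ i i', g i i' ≤ G :=
      ⟨Finset.univ.sup fun x : Fin n × Fin n => g x.1 x.2, fun i i' =>
        Finset.le_sup (f := fun x : Fin n × Fin n => g x.1 x.2) (Finset.mem_univ (i, i'))⟩
    obtain ⟨l, hl⟩ : ∃ l, l = 3 + (f + G * (n + 1)) + 1 + G := ⟨_, rfl⟩
    obtain ⟨c, ⟨i0, hi⟩, a, ha, a0, e⟩ := rel l
    obtain ⟨e', he', b, eb⟩ := elimB hP hU jF hMs l G i0 (fun i => by
      obtain ⟨m, w, h1, h2, h3, h4⟩ := hg i0 i l (by have := hG i0 i; omega)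
      exact ⟨L i0 i, L1 i0 i, fun h => L2 i0 i h l, m, w, h1, h2, h3, fun h =>
        h4 ((pow_dvd_pow _ (Nat.succ_le_succ (hG i0 i))).trans h)⟩) Finset.univ c _ a f (by simp)
      hi (xF _) (x0 _) ha a0 e
    obtain ⟨w, w0, ew⟩ := (hU i0).eq l
    have h1 := pow_dvd (hP i0).nq l (12 * e') (b / w ^ e') (by
      rw [div_pow, ← eb, ew, mul_zpow, zp1, zpow_mul, zpow_ofNat,
        mul_div_cancel_right₀ _ (zpow_ne_zero _ (pow_ne_zero _ w0))])
    rw [Finset.card_univ, Fintype.card_fin] at he'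
    rw [Nat.cast_pow] at h1
    exact nd_mul hp' (nd12 hp) he' ((pow_dvd_pow _ (by omega)).trans h1)

end Pool.Agent.Lib.MP_8f9d9d_nt.H74
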