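import Pool.Agent.Lib.MP_8f9d9d_nt.H74Rk6
import Pool.Agent.Lib.MP_8f9d9d_nt.H53Main

set_option autoImplicit false

open scoped PowerSeries IntermediateField Polynomial

namespace Pool.Agent.Lib.MP_8f9d9d_nt.H74

open Pool.Agent.Lib.MP_8f9d9d_nt.H53

theorem cj_sig (p : ℕ) [Fact p.Prime] {k K : Type*} [Field k] [Field K] [Algebra k K]
    (σ : L0 p →+* K) : Cj p k (σ (xx p)) (σ (Jb p)) := fun n hn => by
  obtain ⟨G, hG⟩ := ptk_G p (k := k) σ hn
  simp only [ptk_zv] at hG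
  refine ⟨fun a => σ (sv p (p ^ n) a), (map_ne_zero σ).2 (sv_ne p one_pos
    (Nat.one_lt_pow hn.ne' (Fact.out : p.Prime).one_lt)), fun i => ?_⟩
  rw [← hG, Polynomial.coeff_map]
  exact (G.coeff i).2

variable (p : ℕ) [Fact p.Prime] {k : Type*} [Field k] [CharP k p]
  (K : Type*) [Field K] [Algebra k⟦X⟧ K] [IsFractionRing k⟦X⟧ K] [Algebra k K]
  [IsScalarTower k k⟦X⟧ K]

/-- A Laurent series that is a power of every order is constant. -/
theorem const_of_pow (x : K) (h : ∀ n, ∃ w : K, w ^ p ^ n = x) :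
    ∃ c : k, algebraMap k K c = x := by
  have hp : p.Prime := Fact.out
  have key : ∀ u : k⟦X⟧, (∀ n, ∃ w : K, w ^ p ^ n = algebraMap k⟦X⟧ K u) →
      ∃ c : k, algebraMap k K c = algebraMap k⟦X⟧ K u := fun u hu => by
    refine ⟨PowerSeries.constantCoeff u, ?_⟩
    rw [IsScalarTower.algebraMap_apply k k⟦X⟧ K]
    congr 1
    ext i
    rcases Nat.eq_zero_or_pos i with rfl | hi
    · simp
    · obtain ⟨w, hw⟩ := hu i
      obtain ⟨y, -, hy⟩ := val_root K (pow_pos hp.pos i) hw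
      rw [PowerSeries.algebraMap_apply, PowerSeries.coeff_C, if_neg hi.ne', ← hy]
      exact (val_coeff_pow p y i i hi (Nat.lt_pow_self hp.one_lt)).symm
  rcases ValuationRing.isInteger_or_isInteger k⟦X⟧ x with ⟨u, hu⟩ | ⟨u, hu⟩
  · exact hu ▸ key u (hu ▸ h)
  · obtain ⟨c, hc⟩ := key u fun n => by
      obtain ⟨w, hw⟩ := h n
      exact ⟨w⁻¹, by rw [inv_pow, hw, hu]⟩
    exact ⟨c⁻¹, by rw [map_inv₀, hc, hu, inv_inv]⟩

include p in
theorem as_n [IsAlgClosed k] {n : ℕ} (hn : 0 < n) {q : Fin n → k⟦X⟧} (h0 : ∀ i, q i ≠ 0)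
    (hc : ∀ i, PowerSeries.constantCoeff (q i) = 0) (M : IntermediateField k K)
    (hM : Algebra.trdeg k M ≤ n) (hq : ∀ i, algebraMap k⟦X⟧ K (q i) ∈ M)
    (hj : ∀ i, JJ K (q i) ∈ M) :
    (∃ m : Fin n → ℤ, m ≠ 0 ∧ ∃ η : k, ∏ i, algebraMap k⟦X⟧ K (q i) ^ m i = algebraMap k K η) ∧
      ∃ i i', i ≠ i' ∧ ¬AlgebraicIndependent k ![JJ K (q i), JJ K (q i')] := by
  have hp : p.Prime := Fact.out
  let : Algebra (ZMod p) k := ZMod.algebra k p
  have : CharP K p := charP_of_injective_algebraMap (algebraMap k K).injective p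
  choose e r r0 rc hr np using fun i => exists_root p K (h0 i) (hc i)
  choose σ x j l using fun i => exists_sig K p (r0 i) (rc i)
  have P : ∀ i, Pt p k (algebraMap k⟦X⟧ K (r i)) (JJ K (r i)) := fun i => by
    have := pt_of_sig p (k := k) (σ i) (l i) (by rw [x]; exact np i)
    rwa [x, j] at this
  have C : ∀ i, Cj p k (algebraMap k⟦X⟧ K (r i)) (JJ K (r i)) := fun i => by
    have := cj_sig p (k := k) (σ i)
    rwa [x, j] at this
  have J : ∀ i, JJ K (q i) = JJ K (r i) ^ p ^ e i := fun i => by rw [hr, JJ_pow K p (rc i)]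
  obtain ⟨E, hE⟩ : ∃ E, ∀ i, e i ≤ E :=
    ⟨Finset.univ.sup e, fun i => Finset.le_sup (Finset.mem_univ i)⟩
  choose d hd using fun i => Nat.exists_eq_add_of_le (hE i)
  obtain ⟨⟨m, m0, η, hm⟩, i, i', hi, ha⟩ := abs_n (const_of_pow p K) hn P C M hM E
    (fun i => by rw [hd i, pow_add, pow_mul, ← map_pow, ← hr]; exact pow_mem (hq i) _)
    (fun i => by rw [hd i, pow_add, pow_mul, ← J]; exact pow_mem (hj i) _)
  refine ⟨⟨fun i => m i * (p ^ d i : ℕ), fun h => m0 (funext fun i => ?_), η ^ p ^ E, ?_⟩,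
    i, i', hi, fun H => ?_⟩
  · exact (mul_eq_zero.1 (congrFun h i)).resolve_right
      (Int.natCast_ne_zero.2 (pow_ne_zero _ hp.ne_zero))
  · rw [map_pow, ← hm, ← Finset.prod_pow]
    refine Finset.prod_congr rfl fun i _ => ?_
    rw [hr, map_pow, zpow_mul, zpow_natCast, zp1, zp1, ← pow_mul, ← pow_add, ← hd]
  · have t2 : Transcendental k (JJ K (r i')) := transc_of_not_pow (P i').nj
    rw [J, J, indep_pair (t2.pow (pow_pos hp.pos _))] at H
    exact H (caseD_step (IsAlgebraic.of_pow (pow_pos hp.pos _)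
      (alg_of_mem (IntermediateField.mem_adjoin_simple_self k _))) (ha.pow _))

end Pool.Agent.Lib.MP_8f9d9d_nt.H74
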